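import Pool.Agent.X26.AN.Main
import Pool.Agent.Y843.AC.HLC

/-!
# The number of prime factors of `n + b` for the elements `n` of prime constellations
-/

set_option autoImplicit false

namespace Pool.Agent.X26.AN

open Finset Filter
open Pool.Agent.Y843.HS (Pr VV Pr_mem Pr_prime)
open Pool.Agent.Y843.AC.HL (Tup Tp Rough ZT gg gg_pos mem_ZT ZT_ok V_up small_part log_small)

/-- the window `z = 2 ^ 2 ^ J` with `z ≤ Y < z ^ 2` -/
theorem ex_J {J0 : ℕ} {Y : ℝ} (hY : ((2 ^ 2 ^ J0 : ℕ) : ℝ) ≤ Y) : ∃ J : ℕ, J0 ≤ J ∧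
    ((2 ^ 2 ^ J : ℕ) : ℝ) ≤ Y ∧ Y < ((2 ^ 2 ^ J : ℕ) : ℝ) ^ 2 := by
  have hY0 : 0 ≤ Y := (Nat.cast_nonneg _).trans hY
  obtain ⟨m, hm⟩ : ∃ m : ℕ, m = ⌊Y⌋₊ := ⟨_, rfl⟩
  have h1 : 2 ^ 2 ^ J0 ≤ m := by rw [hm]; exact Nat.le_floor hY
  have h2 : m ≠ 0 := by
    have : 0 < 2 ^ 2 ^ J0 := by positivity
    omega
  obtain ⟨a, ha⟩ : ∃ a : ℕ, a = Nat.log 2 m := ⟨_, rfl⟩
  have h3 : 2 ^ J0 ≤ a := by rw [ha]; exact Nat.le_log_of_pow_le (by norm_num) h1
  have h4 : a ≠ 0 := by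
    have : 0 < 2 ^ J0 := by positivity
    omega
  refine ⟨Nat.log 2 a, Nat.le_log_of_pow_le (by norm_num) h3, ?_, ?_⟩
  · have h5 : 2 ^ Nat.log 2 a ≤ a := Nat.pow_log_le_self 2 h4
    have h6 : 2 ^ a ≤ m := by rw [ha]; exact Nat.pow_log_le_self 2 h2
    have h7 : 2 ^ 2 ^ Nat.log 2 a ≤ m := (Nat.pow_le_pow_right (by norm_num) h5).trans h6
    exact (Nat.cast_le.2 h7).trans (by rw [hm]; exact Nat.floor_le hY0)
  · have h5 : a < 2 ^ (Nat.log 2 a + 1) := Nat.lt_pow_succ_log_self (by norm_num) a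
    have h6 : m < 2 ^ (a + 1) := by rw [ha]; exact Nat.lt_pow_succ_log_self (by norm_num) m
    have h7 : 2 ^ (a + 1) ≤ 2 ^ 2 ^ (Nat.log 2 a + 1) := Nat.pow_le_pow_right (by norm_num) h5
    have h8 : (2 ^ 2 ^ Nat.log 2 a) ^ 2 = 2 ^ 2 ^ (Nat.log 2 a + 1) := by
      rw [← pow_mul, pow_succ]
    have h9 : m + 1 ≤ (2 ^ 2 ^ Nat.log 2 a) ^ 2 := by rw [h8]; omega
    have h10 : Y < (m : ℝ) + 1 := by rw [hm]; exact Nat.lt_floor_add_one Y
    refine h10.trans_le ?_
    exact_mod_cast h9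

/-- the product over the primes above `z0` -/
theorem V_mid {Z : ℕ → Finset ℕ} {z0 : ℕ} (hZ : ∀ p : ℕ, p.Prime → (Z p).card < p) {w : ℕ} :
    VV Z z0 w ≤ (z0 : ℝ) ^ z0 * VV Z 0 w := by
  rcases Nat.eq_zero_or_pos z0 with hzz | hz0
  · rw [hzz]
    simp
  have hpos : ∀ p : ℕ, p.Prime → 1 / (p : ℝ) ≤ 1 - ((Z p).card : ℝ) / p ∧ 1 - ((Z p).card : ℝ) / p ≤ 1 := by
    intro p hp
    have h0 : (0 : ℝ) < p := by exact_mod_cast hp.pos
    have h1 : ((Z p).card : ℝ) + 1 ≤ p := by exact_mod_cast hZ p hp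
    refine ⟨?_, ?_⟩
    · rw [le_sub_iff_add_le, ← add_div, div_le_one h0]
      linarith
    · have : (0 : ℝ) ≤ ((Z p).card : ℝ) / p := by positivity
      linarith
  have hp0 : ∀ p : ℕ, p.Prime → 0 < 1 - ((Z p).card : ℝ) / p := by
    intro p hp
    have h0 : (0 : ℝ) < p := by exact_mod_cast hp.pos
    exact lt_of_lt_of_le (by positivity) (hpos p hp).1
  have hVnn : 0 ≤ VV Z z0 w := prod_nonneg fun p hp => (hp0 p (Pr_prime hp)).le
  rcases le_total w z0 with h | h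
  · have h1 : VV Z z0 w = 1 := by
      unfold VV
      apply prod_eq_one
      intro p hp
      have := Pr_mem.1 hp
      omega
    rw [h1]
    have h2 : (1 / (z0 : ℝ)) ^ z0 ≤ VV Z 0 w := by
      unfold VV
      calc (1 / (z0 : ℝ)) ^ z0 ≤ (1 / (z0 : ℝ)) ^ (Pr 0 w).card := by
            apply pow_le_pow_of_le_one (by positivity)
            · rw [div_le_one (by exact_mod_cast hz0)]
              exact_mod_cast hz0
            · refine (card_filter_le _ _).trans ?_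
              rw [Nat.card_Ioc]
              omega
        _ = ∏ p ∈ Pr 0 w, (1 / (z0 : ℝ)) := by rw [prod_const]
        _ ≤ _ := by
            apply Finset.prod_le_prod
            · intro p _
              positivity
            · intro p hp
              have h3 := Pr_mem.1 hp
              refine le_trans ?_ (hpos p h3.2).1
              apply one_div_le_one_div_of_le
              · exact_mod_cast h3.2.pos
              · exact_mod_cast h3.1.2.trans h
    have h3 : (z0 : ℝ) ^ z0 * (1 / (z0 : ℝ)) ^ z0 = 1 := by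
      rw [← mul_pow, mul_one_div, div_self (by
        have : (0 : ℝ) < z0 := by exact_mod_cast hz0
        exact this.ne'), one_pow]
    calc (1 : ℝ) = (z0 : ℝ) ^ z0 * (1 / (z0 : ℝ)) ^ z0 := h3.symm
      _ ≤ _ := mul_le_mul_of_nonneg_left h2 (by positivity)
  · rw [← Pool.Agent.Y843.HS.VV_split Z (Nat.zero_le _) h, ← mul_assoc]
    have h2 : (1 / (z0 : ℝ)) ^ z0 ≤ VV Z 0 z0 := by
      unfold VV
      calc (1 / (z0 : ℝ)) ^ z0 ≤ (1 / (z0 : ℝ)) ^ (Pr 0 z0).card := by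
            apply pow_le_pow_of_le_one (by positivity)
            · rw [div_le_one (by exact_mod_cast hz0)]
              exact_mod_cast hz0
            · refine (card_filter_le _ _).trans ?_
              rw [Nat.card_Ioc]
              omega
        _ = ∏ p ∈ Pr 0 z0, (1 / (z0 : ℝ)) := by rw [prod_const]
        _ ≤ _ := by
            apply Finset.prod_le_prod
            · intro p _
              positivity
            · intro p hp
              have h3 := Pr_mem.1 hp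
              refine le_trans ?_ (hpos p h3.2).1
              apply one_div_le_one_div_of_le
              · exact_mod_cast h3.2.pos
              · exact_mod_cast h3.1.2
    have h3 : (z0 : ℝ) ^ z0 * (1 / (z0 : ℝ)) ^ z0 = 1 := by
      rw [← mul_pow, mul_one_div, div_self (by
        have : (0 : ℝ) < z0 := by exact_mod_cast hz0
        exact this.ne'), one_pow]
    have h4 : 1 ≤ (z0 : ℝ) ^ z0 * VV Z 0 z0 := by
      rw [← h3]
      exact mul_le_mul_of_nonneg_left h2 (by positivity)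
    exact le_mul_of_one_le_left hVnn h4

/-- the sum of the additive function `f` over the prime factors -/
noncomputable def om (f : ℕ → ℝ) (n : ℤ) : ℝ := ∑ q ∈ n.natAbs.primeFactors, f q

/-- the mean value -/
noncomputable def mn (f : ℕ → ℝ) (x : ℕ) : ℝ := ∑ q ∈ Pr 0 x, f q * (1 / (q : ℝ))

theorem large_factors {n : ℤ} (hn : n ≠ 0) {z : ℕ} (hz : 2 ≤ z) {B : ℝ} (hB : Real.log (n.natAbs) ≤ B * Real.log z) :
    (((n.natAbs.primeFactors).filter (fun q => z < q)).card : ℝ) ≤ B := by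
  have hz0 : 0 < Real.log z := Real.log_pos (by exact_mod_cast (show 1 < z by omega))
  have hn0 : n.natAbs ≠ 0 := Int.natAbs_ne_zero.2 hn
  have h1 : ∏ q ∈ (n.natAbs.primeFactors).filter (fun q => z < q), q ≤ n.natAbs := by
    apply Nat.le_of_dvd (Nat.pos_of_ne_zero hn0)
    exact (prod_dvd_prod_of_subset _ _ _ (filter_subset _ _)).trans (Nat.prod_primeFactors_dvd _)
  have h2 : z ^ ((n.natAbs.primeFactors).filter (fun q => z < q)).card ≤
      ∏ q ∈ (n.natAbs.primeFactors).filter (fun q => z < q), q := by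
    rw [← prod_const]
    apply prod_le_prod'
    intro q hq
    exact (mem_filter.1 hq).2.le
  have h3 : ((((n.natAbs.primeFactors).filter (fun q => z < q)).card : ℕ) : ℝ) * Real.log z ≤ Real.log (n.natAbs) := by
    rw [← Real.log_pow]
    apply Real.log_le_log
    · have : (0 : ℝ) < z := by exact_mod_cast (show 0 < z by omega)
      positivity
    · exact_mod_cast h2.trans h1
  exact le_of_mul_le_mul_right (h3.trans hB) hz0

/-- the primes dividing a number: their reciprocals -/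
theorem sum_dvd {E : ℕ} (hE : E ≠ 0) {t : ℝ} (ht : 0 < t) {P : Finset ℕ}
    (hP : ∀ q ∈ P, q.Prime ∧ q ∣ E ∧ t < q) : ∑ q ∈ P, 1 / (q : ℝ) ≤ Real.log E / (Real.log 2 * t) := by
  have hl2 : (0 : ℝ) < Real.log 2 := Real.log_pos (by norm_num)
  have h1 : ∏ q ∈ P, q ≤ E := by
    apply Nat.le_of_dvd (Nat.pos_of_ne_zero hE)
    refine dvd_trans ?_ (Nat.prod_primeFactors_dvd E)
    apply prod_dvd_prod_of_subset
    intro q hq
    exact Nat.mem_primeFactors.2 ⟨(hP q hq).1, (hP q hq).2.1, hE⟩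
  have h2 : 2 ^ P.card ≤ ∏ q ∈ P, q := by
    rw [← prod_const]
    apply prod_le_prod'
    intro q hq
    exact (hP q hq).1.two_le
  have h3 : (P.card : ℝ) * Real.log 2 ≤ Real.log E := by
    rw [← Real.log_pow]
    apply Real.log_le_log (by positivity)
    exact_mod_cast h2.trans h1
  have h4 : ∑ q ∈ P, 1 / (q : ℝ) ≤ ∑ q ∈ P, 1 / t :=
    sum_le_sum fun q hq => one_div_le_one_div_of_le ht (hP q hq).2.2.le
  refine h4.trans ?_
  rw [sum_const, nsmul_eq_mul, mul_one_div, div_le_div_iff₀ ht (by positivity)]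
  nlinarith

open Classical in
/-- **Turán–Kubilius for prime constellations.** -/
theorem tup (r u A : ℕ) (hu : 1 ≤ u) {θ ε : ℝ} (hθ : 0 < θ) (hε : 0 < ε) : ∃ K : ℝ, 0 < K ∧ ∃ x₀ : ℕ,
    ∀ x : ℕ, x₀ ≤ x → ∀ T : Finset ℤ, Tup r x T → ∀ b : ℤ, b ∉ T → |b| ≤ x → ∀ y X : ℕ, (x : ℝ) ^ θ ≤ X →
    y + X ≤ x ^ A → ∀ f : ℕ → ℝ, (∀ q, |f q| ≤ 1) → ∀ S : Finset ℕ, S ⊆ Ioc y (y + X) → (∀ n ∈ S, Tp u x T n) →
    ((S.filter (fun n : ℕ => (n : ℤ) + b ≠ 0 ∧
      K * √(Real.log (Real.log x)) < |om f ((n : ℤ) + b) - mn f x|)).card : ℝ) ≤ ε * (X * gg T x) := by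
  obtain ⟨u', hu', hsp⟩ := small_part r 1 u hu hθ
  obtain ⟨z0, N, hN, hmain⟩ := main r
  obtain ⟨CM, hCM⟩ := Pool.Agent.Helper256.KM.mertens_inv
  have hCM0 : 0 ≤ CM := (abs_nonneg _).trans (hCM 3 le_rfl)
  -- the number `v`
  obtain ⟨v, hv⟩ : ∃ v : ℕ, v = max u' ⌈(N : ℝ) / θ⌉₊ + 1 := ⟨_, rfl⟩
  have hv1 : 1 ≤ v := by omega
  have hvu : u' ≤ v := by
    have := le_max_left u' ⌈(N : ℝ) / θ⌉₊
    omega
  have hvN : (N : ℝ) / θ ≤ v := by
    refine (Nat.le_ceil _).trans ?_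
    have := le_max_right u' ⌈(N : ℝ) / θ⌉₊
    exact_mod_cast (by omega : ⌈(N : ℝ) / θ⌉₊ ≤ v)
  have hv0 : (0 : ℝ) < v := by exact_mod_cast hv1
  obtain ⟨CV, hCV, x₁, hVup⟩ := V_up r (2 * v) (by omega)
  obtain ⟨δ, hδ⟩ : ∃ δ : ℝ, δ = ε / (2 * ((z0 + 1 : ℕ) : ℝ) ^ (z0 + 1) * CV) := ⟨_, rfl⟩
  have hδ0 : 0 < δ := by rw [hδ]; positivity
  obtain ⟨K, hK, J0, hJ0⟩ := hmain δ hδ0
  obtain ⟨x₂, hx₂⟩ := hsp (ε / 2) (by positivity)
  -- the eventual conditions
  obtain ⟨W, hW⟩ : ∃ W : ℝ, W = (z0 : ℝ) + 4 * v * (A + 2) + (z0 + (Real.log (2 * v) + 2 * CM) + (2 * CM + 4 * r)) :=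
    ⟨_, rfl⟩
  have hev : ∀ᶠ x : ℕ in atTop, ((2 ^ 2 ^ J0 : ℕ) : ℝ) ≤ (x : ℝ) ^ (1 / (v : ℝ)) ∧
      16 ≤ Real.log x ∧ W + Real.log (Real.log (Real.log x)) ≤ 1 * √(Real.log (Real.log x)) ∧
      1 ≤ Real.log (Real.log x) ∧ 4 ≤ (x : ℝ) ^ (1 / (v : ℝ)) := by
    have t1 : Tendsto (fun x : ℕ => (x : ℝ) ^ (1 / (v : ℝ))) atTop atTop :=
      (tendsto_rpow_atTop (show (0 : ℝ) < 1 / v by positivity)).comp tendsto_natCast_atTop_atTop
    have t2 : Tendsto (fun x : ℕ => Real.log x) atTop atTop :=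
      Real.tendsto_log_atTop.comp tendsto_natCast_atTop_atTop
    have t3 : Tendsto (fun x : ℕ => Real.log (Real.log x)) atTop atTop := Real.tendsto_log_atTop.comp t2
    filter_upwards [t1.eventually_ge_atTop ((2 ^ 2 ^ J0 : ℕ) : ℝ), t2.eventually_ge_atTop (16 : ℝ),
      t3.eventually (ev_log W one_pos), t3.eventually_ge_atTop (1 : ℝ), t1.eventually_ge_atTop (4 : ℝ)]
      with x h1 h2 h3 h4 h5
    exact ⟨h1, h2, h3, h4, h5⟩
  obtain ⟨x₃, hx₃⟩ := eventually_atTop.1 hev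
  refine ⟨K + 1, by positivity, max x₁ (max x₂ (max x₃ 3)), ?_⟩
  intro x hx T hT b hbT hbx y X hX hyX f hf S hS hSp
  have hx1 : x₁ ≤ x := (le_max_left _ _).trans hx
  have hx2 : x₂ ≤ x := (le_max_left _ _).trans ((le_max_right _ _).trans hx)
  have hx3 : x₃ ≤ x := (le_max_left _ _).trans ((le_max_right _ _).trans ((le_max_right _ _).trans hx))
  have hx4 : 3 ≤ x := (le_max_right _ _).trans ((le_max_right _ _).trans ((le_max_right _ _).trans hx))
  obtain ⟨e1, e2, e3, e4, e5⟩ := hx₃ x hx3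
  obtain ⟨J, hJJ, hzY, hYz⟩ := ex_J e1
  obtain ⟨z, hz⟩ : ∃ z : ℕ, z = 2 ^ 2 ^ J := ⟨_, rfl⟩
  rw [← hz] at hzY hYz
  have hxr : (1 : ℝ) ≤ x := by exact_mod_cast (show 1 ≤ x by omega)
  have hx0 : (0 : ℝ) < x := by linarith
  have hlx : 0 < Real.log x := by linarith
  have hz3 : 3 ≤ z := by
    by_contra hcon
    have h1 : (z : ℝ) ≤ 2 := by exact_mod_cast (by omega : z ≤ 2)
    have h2 : (0 : ℝ) ≤ z := Nat.cast_nonneg _
    nlinarith
  have hz0' : (0 : ℝ) < z := by exact_mod_cast (show 0 < z by omega)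
  have hlz : 0 < Real.log z := Real.log_pos (by exact_mod_cast (show 1 < z by omega))
  have hzx : (z : ℝ) ≤ x := by
    refine hzY.trans ?_
    calc (x : ℝ) ^ (1 / (v : ℝ)) ≤ (x : ℝ) ^ (1 : ℝ) := by
          apply Real.rpow_le_rpow_of_exponent_le hxr
          rw [div_le_one hv0]
          exact_mod_cast hv1
      _ = x := Real.rpow_one _
  have hzx' : z ≤ x := by exact_mod_cast hzx
  -- `log x ≤ 2 v log z`
  have hlxz : Real.log x ≤ 2 * v * Real.log z := by
    have h1 := Real.log_le_log (Real.rpow_pos_of_pos hx0 _) hYz.le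
    rw [Real.log_rpow hx0, Real.log_pow] at h1
    push_cast at h1
    have h2 : Real.log x = v * (1 / v * Real.log x) := by field_simp
    rw [h2]
    calc (v : ℝ) * (1 / v * Real.log x) ≤ v * (2 * Real.log z) := mul_le_mul_of_nonneg_left h1 hv0.le
      _ = 2 * v * Real.log z := by ring
  have hXN : (2 ^ 2 ^ J) ^ N ≤ X := by
    rw [← hz]
    have h1 : ((z : ℝ)) ^ N ≤ X := by
      refine le_trans ?_ hX
      calc (z : ℝ) ^ N ≤ ((x : ℝ) ^ (1 / (v : ℝ))) ^ N := pow_le_pow_left₀ hz0'.le hzY N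
        _ = (x : ℝ) ^ (1 / (v : ℝ) * N) := by rw [← Real.rpow_mul_natCast hx0.le]
        _ ≤ (x : ℝ) ^ θ := by
            apply Real.rpow_le_rpow_of_exponent_le hxr
            rw [div_le_iff₀ hθ] at hvN
            rw [one_div, inv_mul_le_iff₀ hv0]
            exact hvN
    exact_mod_cast h1
  -- the rough part
  obtain ⟨S₁, S₂, hS1, hS12, hS1r, hS2, -⟩ := hx₂ x hx2 T hT y X hX S hS hSp
  have hrough : ∀ n ∈ S₁, ∀ q : ℕ, q.Prime → q ≤ z → ∀ t ∈ T, ¬ (q : ℤ) ∣ n + t := by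
    intro n hn q hq hqz t ht
    apply hS1r n hn q hq _ t ht
    have h1 : (q : ℝ) ≤ z := by exact_mod_cast hqz
    refine h1.trans (hzY.trans ?_)
    apply Real.rpow_le_rpow_of_exponent_le hxr
    apply one_div_le_one_div_of_le (by exact_mod_cast hu')
    exact_mod_cast hvu
  -- the classes
  obtain ⟨ro, hro⟩ : ∃ ro : ℕ → ℕ, ro = fun q : ℕ => ((-b) % (q : ℤ)).toNat := ⟨_, rfl⟩
  obtain ⟨Q, hQ⟩ : ∃ Q : Finset ℕ, Q = (Pr z0 z).filter (fun q : ℕ => ∀ t ∈ T, ¬ (q : ℤ) ∣ b - t) := ⟨_, rfl⟩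
  have hroq : ∀ q : ℕ, q.Prime → (ro q < q ∧ ∀ n : ℕ, n % q = ro q ↔ (q : ℤ) ∣ n + b) := by
    intro q hq
    have hq0 : (0 : ℤ) < q := by exact_mod_cast hq.pos
    have h1 := Int.emod_nonneg (-b) hq0.ne'
    have h2 := Int.emod_lt_of_pos (-b) hq0
    have h3 : ((ro q : ℕ) : ℤ) = (-b) % q := by rw [hro]; exact Int.toNat_of_nonneg h1
    refine ⟨by omega, fun n => ?_⟩
    constructor
    · intro h
      have h4 : ((n % q : ℕ) : ℤ) = (-b) % q := by rw [h, h3]
      rw [Int.natCast_mod] at h4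
      have h5 : (n : ℤ) ≡ -b [ZMOD q] := h4
      have h6 := (Int.modEq_iff_dvd.1 h5.symm)
      rwa [sub_neg_eq_add] at h6
    · intro h
      have h5 : (-b) ≡ n [ZMOD q] := by
        rw [Int.modEq_iff_dvd, sub_neg_eq_add]
        exact h
      have h6 : ((n % q : ℕ) : ℤ) = (ro q : ℤ) := by
        rw [h3, Int.natCast_mod]
        exact h5.symm
      exact_mod_cast h6
  have hdat : Dat r z0 (2 ^ 2 ^ J) (ZT T) ro Q := by
    refine ⟨fun p hp => ⟨(ZT_ok hT hp).1, (ZT_ok hT hp).2.2⟩, ?_, ?_⟩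
    · rw [hQ, ← hz]
      exact filter_subset _ _
    · intro q hq
      rw [hQ, mem_filter] at hq
      have hqp := Pr_prime hq.1
      obtain ⟨h1, h2⟩ := hroq q hqp
      refine ⟨h1, fun h => ?_⟩
      have h3 : ro q % q = ro q := Nat.mod_eq_of_lt h1
      have h4 : (q : ℤ) ∣ (ro q : ℕ) + b := (h2 (ro q)).1 h3
      rw [← h3, mem_ZT hqp.pos] at h
      obtain ⟨t, ht, h5⟩ := h
      apply hq.2 t ht
      have h6 := dvd_sub h4 h5
      have e : ((ro q : ℕ) : ℤ) + b - (((ro q : ℕ) : ℤ) + t) = b - t := by ring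
      rwa [e] at h6
  have hm := hJ0 J hJJ X hXN (ZT T) ro Q hdat f hf y
  rw [← hz] at hm
  -- the product
  have hZlt : ∀ p : ℕ, p.Prime → (ZT T p).card < p := fun p hp => (ZT_ok hT hp).2.1
  have hgg : 0 < gg T x := gg_pos hx4 hT
  have hVb : VV (ZT T) z0 z ≤ ((z0 + 1 : ℕ) : ℝ) ^ (z0 + 1) * (CV * gg T x) := by
    have h1 := hVup x hx1 T hT
    obtain ⟨w, hw⟩ : ∃ w : ℕ, w = ⌊(x : ℝ) ^ (1 / ((2 * v : ℕ) : ℝ))⌋₊ := ⟨_, rfl⟩
    rw [← hw] at h1
    have hwz : w ≤ z := by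
      have h2 : (w : ℝ) ≤ (x : ℝ) ^ (1 / ((2 * v : ℕ) : ℝ)) := by
        rw [hw]
        exact Nat.floor_le (by positivity)
      have h3 : ((x : ℝ) ^ (1 / ((2 * v : ℕ) : ℝ))) ^ 2 = (x : ℝ) ^ (1 / (v : ℝ)) := by
        rw [← Real.rpow_mul_natCast hx0.le]
        congr 1
        push_cast
        field_simp
      have h4 : (w : ℝ) ^ 2 < (z : ℝ) ^ 2 :=
        lt_of_le_of_lt ((pow_le_pow_left₀ (Nat.cast_nonneg _) h2 2).trans h3.le) hYz
      have h5 := lt_of_pow_lt_pow_left₀ 2 hz0'.le h4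
      exact_mod_cast h5.le
    have h6 := Pool.Agent.Y843.HG.VV_anti (Z := ZT T) hwz (fun p hp => (ZT_ok hT (Pr_prime hp)).2.2)
    have h7 := V_mid (Z := ZT T) (z0 := z0) hZlt (w := z)
    have h8 : (z0 : ℝ) ^ z0 ≤ ((z0 + 1 : ℕ) : ℝ) ^ (z0 + 1) := by
      calc (z0 : ℝ) ^ z0 ≤ ((z0 + 1 : ℕ) : ℝ) ^ z0 := by
            apply pow_le_pow_left₀ (Nat.cast_nonneg _)
            exact_mod_cast Nat.le_succ _
        _ ≤ _ := by
            apply pow_le_pow_right₀ _ (Nat.le_succ _)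
            exact_mod_cast (by omega : 1 ≤ z0 + 1)
    have h9 : VV (ZT T) 0 z ≤ CV * gg T x := h6.trans h1
    have h10 : 0 ≤ CV * gg T x := by positivity
    calc VV (ZT T) z0 z ≤ (z0 : ℝ) ^ z0 * VV (ZT T) 0 z := h7
      _ ≤ (z0 : ℝ) ^ z0 * (CV * gg T x) := mul_le_mul_of_nonneg_left h9 (by positivity)
      _ ≤ _ := mul_le_mul_of_nonneg_right h8 h10
  -- the deviations
  have hdev : ∀ n ∈ S₁, (n : ℤ) + b ≠ 0 →
      |(om f ((n : ℤ) + b) - mn f x) - (∑ q ∈ hit ro Q n, f q - ∑ q ∈ Q, f q * (1 / (q : ℝ)))| ≤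
        √(Real.log (Real.log x)) := by
    intro n hn hnb
    -- the prime factors
    have hd1 : |om f ((n : ℤ) + b) - ∑ q ∈ hit ro Q n, f q| ≤ z0 + 4 * v * (A + 2) := by
      obtain ⟨F, hF⟩ : ∃ F : Finset ℕ, F = ((n : ℤ) + b).natAbs.primeFactors := ⟨_, rfl⟩
      have hnb0 : ((n : ℤ) + b).natAbs ≠ 0 := Int.natAbs_ne_zero.2 hnb
      have hmF : ∀ q : ℕ, q ∈ F ↔ q.Prime ∧ (q : ℤ) ∣ (n : ℤ) + b := by
        intro q
        rw [hF, Nat.mem_primeFactors, Int.natCast_dvd]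
        tauto
      have h1 : F.filter (fun q => z0 < q ∧ q ≤ z) = hit ro Q n := by
        ext q
        rw [mem_filter, mem_hit, hQ, mem_filter, hmF, Pr_mem]
        constructor
        · rintro ⟨⟨h1, h2⟩, h3, h4⟩
          refine ⟨⟨⟨⟨h3, h4⟩, h1⟩, fun t ht h5 => ?_⟩, ((hroq q h1).2 n).2 h2⟩
          apply hrough n hn q h1 h4 t ht
          have h6 := dvd_sub h2 h5
          have e : (n : ℤ) + b - (b - t) = n + t := by ring
          rwa [e] at h6
        · rintro ⟨⟨⟨⟨h3, h4⟩, h1⟩, _⟩, h6⟩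
          exact ⟨⟨h1, ((hroq q h1).2 n).1 h6⟩, h3, h4⟩
      have h2 : om f ((n : ℤ) + b) - ∑ q ∈ hit ro Q n, f q = ∑ q ∈ F.filter (fun q => ¬ (z0 < q ∧ q ≤ z)), f q := by
        rw [← h1]
        unfold om
        rw [← hF, ← sum_filter_add_sum_filter_not F (fun q => z0 < q ∧ q ≤ z)]
        ring
      rw [h2]
      have h3 : |∑ q ∈ F.filter (fun q => ¬ (z0 < q ∧ q ≤ z)), f q| ≤
          ((F.filter (fun q => ¬ (z0 < q ∧ q ≤ z))).card : ℝ) := by
        refine (abs_sum_le_sum_abs _ _).trans ?_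
        refine (sum_le_sum fun q _ => hf q).trans (le_of_eq ?_)
        rw [sum_const, nsmul_eq_mul, mul_one]
      refine h3.trans ?_
      have h4 : F.filter (fun q => ¬ (z0 < q ∧ q ≤ z)) ⊆ Icc 1 z0 ∪ F.filter (fun q => z < q) := by
        intro q hq
        rw [mem_filter] at hq
        rw [mem_union, mem_Icc, mem_filter]
        have h5 := ((hmF q).1 hq.1).1.one_lt
        by_cases h6 : z0 < q
        · right
          refine ⟨hq.1, ?_⟩
          by_contra h7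
          exact hq.2 ⟨h6, not_lt.1 h7⟩
        · left
          omega
      refine (Nat.cast_le.2 ((card_le_card h4).trans (card_union_le _ _))).trans ?_
      rw [Nat.cast_add, Nat.card_Icc, Nat.add_sub_cancel]
      apply add_le_add le_rfl
      rw [hF]
      apply large_factors hnb (by omega)
      have hnx : ((((n : ℤ) + b).natAbs : ℕ) : ℝ) ≤ (x : ℝ) ^ (A + 2) := by
        have h5 := mem_Ioc.1 (hS (hS1 hn))
        have h6 : ((n : ℤ) + b).natAbs ≤ x ^ A + x := by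
          have h61 : n ≤ x ^ A := by omega
          have h62 := abs_le.1 hbx
          omega
        have h7 : x ^ A + x ≤ x ^ (A + 2) := by
          have h8 : x ^ A * 1 ≤ x ^ A * x := Nat.mul_le_mul_left _ (by omega)
          have h9 : 1 ≤ x ^ A := Nat.one_le_pow _ _ (by omega)
          have h10 : 1 * x ≤ x ^ A * x := Nat.mul_le_mul_right _ h9
          have h11 : x ^ (A + 2) = x ^ A * x * x := by ring
          have h12 : x ^ A * x * 2 ≤ x ^ A * x * x := Nat.mul_le_mul_left _ (by omega)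
          omega
        exact_mod_cast h6.trans h7
      have h8 : (0 : ℝ) < ((((n : ℤ) + b).natAbs : ℕ) : ℝ) := by exact_mod_cast Nat.pos_of_ne_zero hnb0
      have h9 := Real.log_le_log h8 hnx
      rw [Real.log_pow] at h9
      push_cast at h9
      have h10 : ((A : ℝ) + 2) * Real.log x ≤ ((A : ℝ) + 2) * (2 * v * Real.log z) :=
        mul_le_mul_of_nonneg_left hlxz (by positivity)
      have h11 : 0 ≤ (v : ℝ) * (A + 2) * Real.log z := by positivity
      linarith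
    -- the mean value
    have hd2 : |mn f x - ∑ q ∈ Q, f q * (1 / (q : ℝ))| ≤
        z0 + (Real.log (2 * v) + 2 * CM) + (2 * CM + 4 * r) + Real.log (Real.log (Real.log x)) := by
      have hQx : Q ⊆ Pr 0 x := by
        intro q hq
        rw [hQ, mem_filter, Pr_mem] at hq
        rw [Pr_mem]
        exact ⟨⟨hq.1.2.pos, hq.1.1.2.trans hzx'⟩, hq.1.2⟩
      have h1 : mn f x - ∑ q ∈ Q, f q * (1 / (q : ℝ)) = ∑ q ∈ Pr 0 x \ Q, f q * (1 / (q : ℝ)) := by
        unfold mn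
        rw [← sum_sdiff hQx]
        ring
      rw [h1]
      have h2 : |∑ q ∈ Pr 0 x \ Q, f q * (1 / (q : ℝ))| ≤ ∑ q ∈ Pr 0 x \ Q, 1 / (q : ℝ) := by
        refine (abs_sum_le_sum_abs _ _).trans (sum_le_sum fun q _ => ?_)
        rw [abs_mul, abs_of_nonneg (show (0 : ℝ) ≤ 1 / (q : ℝ) by positivity)]
        calc |f q| * (1 / (q : ℝ)) ≤ 1 * (1 / (q : ℝ)) := mul_le_mul_of_nonneg_right (hf q) (by positivity)
          _ = _ := one_mul _
      refine h2.trans ?_
      obtain ⟨E, hE⟩ : ∃ E : ℕ, E = ∏ t ∈ T, (b - t).natAbs := ⟨_, rfl⟩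
      have hE0 : E ≠ 0 := by
        rw [hE]
        apply prod_ne_zero_iff.2
        intro t ht h
        rw [Int.natAbs_eq_zero, sub_eq_zero] at h
        exact hbT (h ▸ ht)
      have hEx : Real.log E ≤ 2 * r * Real.log x := by
        have h3 : E ≤ (x ^ 2) ^ r := by
          rw [hE, ← hT.card, ← prod_const]
          apply prod_le_prod'
          intro t ht
          have h4 := abs_le.1 (hT.size t ht)
          have h41 := abs_le.1 hbx
          have h5 : (b - t).natAbs ≤ 2 * x := by omega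
          refine h5.trans ?_
          rw [pow_two]
          exact Nat.mul_le_mul_right _ (by omega)
        have h4 : (0 : ℝ) < E := by exact_mod_cast Nat.pos_of_ne_zero hE0
        have h5 : (E : ℝ) ≤ (x : ℝ) ^ (2 * r) := by
          rw [pow_mul]
          exact_mod_cast h3
        have h6 := Real.log_le_log h4 h5
        rw [Real.log_pow] at h6
        push_cast at h6
        exact h6
      obtain ⟨m, hm'⟩ : ∃ m : ℕ, m = ⌊Real.log x⌋₊ := ⟨_, rfl⟩
      have hm3 : 3 ≤ m := by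
        rw [hm']
        apply Nat.le_floor
        push_cast
        linarith
      have hmlog : (m : ℝ) ≤ Real.log x := by rw [hm']; exact Nat.floor_le hlx.le
      have hsub : Pr 0 x \ Q ⊆ ((Pr 0 z0 ∪ Pr z x) ∪ Pr 0 m) ∪
          (Pr 0 x).filter (fun q => q ∣ E ∧ Real.log x < q) := by
        intro q hq
        rw [Finset.mem_sdiff] at hq
        have h3 := Pr_mem.1 hq.1
        rw [mem_union, mem_union, mem_union, mem_filter, Pr_mem, Pr_mem, Pr_mem]
        by_cases h4 : q ≤ z0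
        · left; left; left
          exact ⟨⟨h3.1.1, h4⟩, h3.2⟩
        by_cases h5 : z < q
        · left; left; right
          exact ⟨⟨h5, h3.1.2⟩, h3.2⟩
        by_cases h6 : q ≤ m
        · left; right
          exact ⟨⟨h3.1.1, h6⟩, h3.2⟩
        right
        refine ⟨hq.1, ?_, ?_⟩
        · by_contra h7
          apply hq.2
          rw [hQ, mem_filter, Pr_mem]
          refine ⟨⟨⟨not_le.1 h4, not_lt.1 h5⟩, h3.2⟩, fun t ht h8 => h7 ?_⟩
          rw [hE]
          exact (Int.natCast_dvd.1 h8).trans (dvd_prod_of_mem _ ht)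
        · rw [hm'] at h6
          exact (Nat.lt_of_floor_lt (not_le.1 h6))
      have hnn : ∀ s : Finset ℕ, 0 ≤ ∑ q ∈ s, 1 / (q : ℝ) := fun s => sum_nonneg fun q _ => by positivity
      have hun : ∀ s t : Finset ℕ, ∑ q ∈ s ∪ t, 1 / (q : ℝ) ≤ ∑ q ∈ s, 1 / (q : ℝ) + ∑ q ∈ t, 1 / (q : ℝ) := by
        intro s t
        have h3 := sum_union_inter (s₁ := s) (s₂ := t) (f := fun q : ℕ => 1 / (q : ℝ))
        have h4 := hnn (s ∩ t)
        linarith
      have h3 : ∑ q ∈ Pr 0 z0, 1 / (q : ℝ) ≤ z0 := by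
        have h4 : ∑ q ∈ Pr 0 z0, 1 / (q : ℝ) ≤ ∑ q ∈ Pr 0 z0, (1 : ℝ) := by
          apply sum_le_sum
          intro q hq
          have h5 := Pr_mem.1 hq
          rw [div_le_one (by exact_mod_cast h5.1.1)]
          exact_mod_cast h5.1.1
        refine h4.trans ?_
        rw [sum_const, nsmul_eq_mul, mul_one]
        have h5 : (Pr 0 z0).card ≤ z0 := (card_filter_le _ _).trans (by rw [Nat.card_Ioc]; omega)
        exact_mod_cast h5
      have h4 : ∑ q ∈ Pr z x, 1 / (q : ℝ) ≤ Real.log (2 * v) + 2 * CM := by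
        have h5 := Pool.Agent.Y79.HS.sum_pr hCM hz3 hzx'
        have h6 : Real.log (Real.log x) ≤ Real.log (2 * v) + Real.log (Real.log z) := by
          rw [← Real.log_mul (by positivity) hlz.ne']
          exact Real.log_le_log hlx hlxz
        linarith
      have h5 : ∑ q ∈ Pr 0 m, 1 / (q : ℝ) ≤ Real.log (Real.log (Real.log x)) + CM := by
        have h6 := (abs_le.1 (hCM m hm3)).2
        have h7 : ∑ q ∈ Pr 0 m, 1 / (q : ℝ) = ∑ p ∈ (Icc 1 m).filter Nat.Prime, (1 : ℝ) / p := by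
          unfold Pr
          congr 1
        have hm0 : (1 : ℝ) < m := by exact_mod_cast (show 1 < m by omega)
        have h8 : Real.log (Real.log m) ≤ Real.log (Real.log (Real.log x)) := by
          apply Real.log_le_log (Real.log_pos hm0)
          exact Real.log_le_log (by linarith) hmlog
        rw [h7]
        linarith
      have h6 : ∑ q ∈ (Pr 0 x).filter (fun q => q ∣ E ∧ Real.log x < q), 1 / (q : ℝ) ≤ 4 * r := by
        have h7 := sum_dvd hE0 hlx (P := (Pr 0 x).filter (fun q => q ∣ E ∧ Real.log x < q)) (by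
          intro q hq
          rw [mem_filter] at hq
          exact ⟨Pr_prime hq.1, hq.2.1, hq.2.2⟩)
        refine h7.trans ?_
        have hl2 : (1 : ℝ) / 2 ≤ Real.log 2 := by linarith [Real.log_two_gt_d9]
        rw [div_le_iff₀ (by positivity)]
        have h8 : (0 : ℝ) ≤ r := Nat.cast_nonneg _
        have h9 : 2 * (r : ℝ) * Real.log x ≤ 4 * r * (Real.log 2 * Real.log x) := by
          have h10 : (r : ℝ) * Real.log x * (1 / 2) ≤ r * Real.log x * Real.log 2 :=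
            mul_le_mul_of_nonneg_left hl2 (by positivity)
          linarith
        linarith
      have h7 := sum_le_sum_of_subset_of_nonneg (f := fun q : ℕ => 1 / (q : ℝ)) hsub fun q _ _ => by positivity
      have h8 := hun ((Pr 0 z0 ∪ Pr z x) ∪ Pr 0 m) ((Pr 0 x).filter (fun q => q ∣ E ∧ Real.log x < q))
      have h9 := hun (Pr 0 z0 ∪ Pr z x) (Pr 0 m)
      have h10 := hun (Pr 0 z0) (Pr z x)
      linarith
    have e : (om f ((n : ℤ) + b) - mn f x) - (∑ q ∈ hit ro Q n, f q - ∑ q ∈ Q, f q * (1 / (q : ℝ))) =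
        (om f ((n : ℤ) + b) - ∑ q ∈ hit ro Q n, f q) - (mn f x - ∑ q ∈ Q, f q * (1 / (q : ℝ))) := by ring
    rw [e]
    have h1 := abs_sub (om f ((n : ℤ) + b) - ∑ q ∈ hit ro Q n, f q) (mn f x - ∑ q ∈ Q, f q * (1 / (q : ℝ)))
    rw [hW] at e3
    linarith
  have hsub : S.filter (fun n : ℕ => (n : ℤ) + b ≠ 0 ∧
      (K + 1) * √(Real.log (Real.log x)) < |om f ((n : ℤ) + b) - mn f x|) ⊆
      (Ioc y (y + X)).filter (fun n => Av (ZT T) z0 z n ∧ K * √(Real.log (Real.log z)) <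
        |∑ q ∈ hit ro Q n, f q - ∑ q ∈ Q, f q * (1 / (q : ℝ))|) ∪ S₂ := by
    intro n hn
    rw [mem_filter] at hn
    obtain ⟨h1, h2, h3⟩ := hn
    rw [mem_union]
    rcases mem_union.1 (hS12 h1) with h4 | h4
    · left
      rw [mem_filter]
      refine ⟨hS h1, ?_, ?_⟩
      · intro p hp hcon
        have hpp := Pr_mem.1 hp
        rw [mem_ZT hpp.2.pos] at hcon
        obtain ⟨t, ht, h5⟩ := hcon
        exact hrough n h4 p hpp.2 hpp.1.2 t ht h5
      · have h5 := hdev n h4 h2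
        have h6 : √(Real.log (Real.log z)) ≤ √(Real.log (Real.log x)) := by
          apply Real.sqrt_le_sqrt
          apply Real.log_le_log hlz
          exact Real.log_le_log hz0' hzx
        have h7 := mul_le_mul_of_nonneg_left h6 hK.le
        have h8 := abs_sub_abs_le_abs_sub (om f ((n : ℤ) + b) - mn f x)
          (∑ q ∈ hit ro Q n, f q - ∑ q ∈ Q, f q * (1 / (q : ℝ)))
        linarith
    · exact Or.inr h4
  refine (Nat.cast_le.2 ((card_le_card hsub).trans (card_union_le _ _))).trans ?_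
  rw [Nat.cast_add]
  have hX0 : (0 : ℝ) ≤ X := Nat.cast_nonneg _
  have h9 : δ * (X * VV (ZT T) z0 z) ≤ ε / 2 * (X * gg T x) := by
    calc δ * (X * VV (ZT T) z0 z) ≤ δ * (X * (((z0 + 1 : ℕ) : ℝ) ^ (z0 + 1) * (CV * gg T x))) := by
          apply mul_le_mul_of_nonneg_left _ hδ0.le
          exact mul_le_mul_of_nonneg_left hVb hX0
      _ = ε / 2 * (X * gg T x) := by
          rw [hδ]
          field_simp
  linarith

/-- the mean value for `f = 1` -/
theorem mn_one : ∃ C : ℝ, 0 ≤ C ∧ ∀ x : ℕ, 3 ≤ x → |mn (fun _ => 1) x - Real.log (Real.log x)| ≤ C := by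
  obtain ⟨C, hC⟩ := Pool.Agent.Helper256.KM.mertens_inv
  refine ⟨C, (abs_nonneg _).trans (hC 3 le_rfl), fun x hx => ?_⟩
  have h := hC x hx
  have e : mn (fun _ => 1) x = ∑ p ∈ (Icc 1 x).filter Nat.Prime, (1 : ℝ) / p := by
    unfold mn Pr
    have h1 : Icc 1 x = Ioc 0 x := by
      ext m
      simp only [mem_Icc, mem_Ioc]
      omega
    rw [h1]
    apply sum_congr rfl
    intro q _
    rw [one_mul]
  rw [e]
  exact h

end Pool.Agent.X26.AN
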