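import Pool.Agent.X26.AN.LdL

/-!
# Large deviations of the number of prime factors of `n + b` for the elements `n` of prime constellations
-/

set_option autoImplicit false

namespace Pool.Agent.X26.AN

open Finset Filter
open Pool.Agent.Y843.HS (Pr VV Pr_mem Pr_prime)
open Pool.Agent.Y843.AC.HL (Tup Tp Rough ZT gg gg_pos gg_ge mem_ZT ZT_ok V_up log_small log_one)

/-- the conditions on `l = log log z` -/
theorem ev_ld {η γ k ε W lv D z0 : ℝ} (hη : 0 < η) (hk : 0 < k) (hε : 0 < ε) (hlv : 0 ≤ lv) :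
    ∀ᶠ l : ℝ in atTop, (1 ≤ l ∧ 4 * k ≤ l) ∧ 1 ≤ k * l ∧ W + 2 * Real.log (l + lv) ≤ η / 4 * l ∧
      z0 + γ * lv ≤ η / 4 * l ∧ D ≤ Real.exp (ε / 4 * l) := by
  have h1 := ev_log (W / 2) (show (0 : ℝ) < η / 16 by positivity)
  have h2 : Tendsto (fun l : ℝ => l + lv) atTop atTop := tendsto_atTop_add_const_right _ _ tendsto_id
  have h4 : Tendsto (fun l : ℝ => Real.exp (ε / 4 * l)) atTop atTop :=
    Real.tendsto_exp_atTop.comp (tendsto_id.const_mul_atTop (by positivity))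
  filter_upwards [eventually_ge_atTop (1 : ℝ), eventually_ge_atTop (1 / k), h2.eventually h1,
    eventually_ge_atTop (4 * (z0 + γ * lv) / η), eventually_ge_atTop lv,
    h4.eventually_ge_atTop D, eventually_ge_atTop (4 * k)] with l g1 g2 g3 g4 g5 g6 g7
  rw [div_le_iff₀ hk] at g2
  rw [div_le_iff₀ hη] at g4
  refine ⟨⟨g1, g7⟩, by linarith, ?_, by linarith, g6⟩
  have g8 : √(l + lv) ≤ l + lv := by
    rw [Real.sqrt_le_left (by linarith)]
    nlinarith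
  have g9 := mul_le_mul_of_nonneg_left (g8.trans (show l + lv ≤ 2 * l by linarith))
    (show (0 : ℝ) ≤ η / 16 by positivity)
  linarith

/-- the inequality `2 ≤ a'` -/
theorem a_ld {k l L a : ℝ} (hl : 1 ≤ l) (h4 : 4 * k ≤ l) (hkl : 1 ≤ k * l) (hL : L = Real.exp l)
    (ha : a = L / (k * l)) : 2 ≤ a ∧ a ≤ L := by
  have hkl0 : 0 < k * l := by linarith
  have hL0 : 0 < L := by rw [hL]; exact Real.exp_pos _
  constructor
  · rw [ha, le_div_iff₀ hkl0, hL]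
    have h1 := Real.quadratic_le_exp_of_nonneg (show 0 ≤ l by linarith)
    have h2 : 4 * k * l ≤ l * l := mul_le_mul_of_nonneg_right h4 (by linarith)
    nlinarith
  · rw [ha]
    exact div_le_self hL0.le hkl

open Classical in
/-- **Large deviations for prime constellations**: the number of prime factors of `n + b`. -/
theorem tupLD (r u A : ℕ) (hu : 1 ≤ u) {θ γ ε : ℝ} (hθ : 0 < θ) (hγ : 0 < γ) (hε : 0 < ε) : ∃ x₀ : ℕ,
    ∀ x : ℕ, x₀ ≤ x → ∀ T : Finset ℤ, Tup r x T → ∀ b : ℤ, b ∉ T → |b| ≤ x → ∀ y X : ℕ, (x : ℝ) ^ θ ≤ X →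
    y + X ≤ x ^ A → ∀ S : Finset ℕ, S ⊆ Ioc y (y + X) → (∀ n ∈ S, Tp u x T n) →
    ((S.filter (fun n : ℕ => (n : ℤ) + b ≠ 0 ∧
      0 ≤ (γ - 1) * ((((n : ℤ) + b).natAbs.primeFactors.card : ℝ) - γ * Real.log (Real.log x)))).card : ℝ) ≤
      X * gg T x * Real.log x ^ (-(QQ γ - ε)) := by
  obtain ⟨u', hu', hsp⟩ := small_ld r u hu hθ
  obtain ⟨z0, N, hN, hmain⟩ := mainLD r
  obtain ⟨CM, hCM⟩ := Pool.Agent.Helper256.KM.mertens_inv
  have hCM0 : 0 ≤ CM := (abs_nonneg _).trans (hCM 3 le_rfl)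
  -- the number `v`
  obtain ⟨v, hv⟩ : ∃ v : ℕ, v = max u' ⌈(N : ℝ) / θ⌉₊ + 1 := ⟨_, rfl⟩
  have hv1 : 1 ≤ v := by omega
  have hvu : u' ≤ v := by
    have := le_max_left u' ⌈(N : ℝ) / θ⌉₊
    omega
  have hvN : (N : ℝ) / θ ≤ v := by
    refine (Nat.le_ceil _).trans ?_
    have := le_max_right u' ⌈(N : ℝ) / θ⌉₊
    exact_mod_cast (by omega : ⌈(N : ℝ) / θ⌉₊ ≤ v)
  have hv0 : (0 : ℝ) < v := by exact_mod_cast hv1
  have hv1r : (1 : ℝ) ≤ v := by exact_mod_cast hv1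
  obtain ⟨CV, hCV, x₁, hVup⟩ := V_up r (2 * v) (by omega)
  obtain ⟨C3, hC3⟩ : ∃ C3 : ℝ, C3 = ((z0 + 1 : ℕ) : ℝ) ^ (z0 + 1) * CV := ⟨_, rfl⟩
  have hC30 : 0 < C3 := by rw [hC3]; positivity
  -- the small parameters
  obtain ⟨η, hη⟩ : ∃ η : ℝ, η = ε / (4 * (|γ - 1| + |Real.log γ| + 1)) := ⟨_, rfl⟩
  have hη0 : 0 < η := by rw [hη]; positivity
  have hηe : η * (|γ - 1| + |Real.log γ|) ≤ ε / 4 := by
    have h1 : η * (|γ - 1| + |Real.log γ| + 1) = ε / 4 := by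
      rw [hη]
      field_simp
    linarith
  obtain ⟨k, hk⟩ : ∃ k : ℝ, k = η / (16 * v * (A + 2)) := ⟨_, rfl⟩
  have hk0 : 0 < k := by rw [hk]; positivity
  have hkA : 4 * v * (A + 2) * k = η / 4 := by
    rw [hk]
    field_simp
    norm_num
  have hkη : k ≤ η / 4 := by
    rw [← hkA]
    have h1 : (1 : ℝ) ≤ 4 * v * (A + 2) := by
      have h2 : (0 : ℝ) ≤ A := Nat.cast_nonneg _
      nlinarith
    exact le_mul_of_one_le_left hk0.le h1
  obtain ⟨H, hH⟩ : ∃ H : ℕ, H = ⌈|QQ γ| + 1⌉₊ := ⟨_, rfl⟩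
  have hHQ : |QQ γ| + 1 ≤ H := by rw [hH]; exact Nat.le_ceil _
  obtain ⟨C, hC, J0, hJ0⟩ := hmain H γ k (Nat.cast_nonneg _) hγ hk0
  obtain ⟨x₂, hx₂⟩ := hsp (H + 1)
  obtain ⟨ρ, hρ⟩ : ∃ ρ : ℝ, ρ = QQ γ - ε := ⟨_, rfl⟩
  obtain ⟨lv, hlvd⟩ : ∃ lv : ℝ, lv = Real.log (2 * v) := ⟨_, rfl⟩
  have hlv : 0 ≤ lv := by rw [hlvd]; exact Real.log_nonneg (by linarith)
  obtain ⟨W, hW⟩ : ∃ W : ℝ, W = |Real.log (2 * k)| + (z0 + 2 * CM + 4 * r) := ⟨_, rfl⟩
  have hev : ∀ᶠ x : ℕ in atTop, ((2 ^ 2 ^ J0 : ℕ) : ℝ) ≤ (x : ℝ) ^ (1 / (v : ℝ)) ∧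
      16 ≤ Real.log x ∧ 4 ≤ (x : ℝ) ^ (1 / (v : ℝ)) := by
    have t1 : Tendsto (fun x : ℕ => (x : ℝ) ^ (1 / (v : ℝ))) atTop atTop :=
      (tendsto_rpow_atTop (show (0 : ℝ) < 1 / v by positivity)).comp tendsto_natCast_atTop_atTop
    have t2 : Tendsto (fun x : ℕ => Real.log x) atTop atTop :=
      Real.tendsto_log_atTop.comp tendsto_natCast_atTop_atTop
    filter_upwards [t1.eventually_ge_atTop ((2 ^ 2 ^ J0 : ℕ) : ℝ), t2.eventually_ge_atTop (16 : ℝ),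
      t1.eventually_ge_atTop (4 : ℝ)] with x h1 h2 h3
    exact ⟨h1, h2, h3⟩
  have hevl := ev_ld (η := η) (γ := γ) (k := k) (ε := ε) (W := W) (lv := lv)
    (D := 2 * (C3 * (C + 1)) * Real.exp (|ρ| * lv)) (z0 := z0) hη0 hk0 hε hlv
  have t4 : Tendsto (fun x : ℕ => Real.log (Real.log x) + -lv) atTop atTop := by
    apply tendsto_atTop_add_const_right
    exact Real.tendsto_log_atTop.comp (Real.tendsto_log_atTop.comp tendsto_natCast_atTop_atTop)
  obtain ⟨x₃, hx₃⟩ := eventually_atTop.1 (hev.and (t4.eventually (eventually_forall_ge_atTop.2 hevl)))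
  refine ⟨max x₁ (max x₂ (max x₃ 3)), ?_⟩
  intro x hx T hT b hbT hbx y X hX hyX S hS hSp
  have hx1 : x₁ ≤ x := (le_max_left _ _).trans hx
  have hx2 : x₂ ≤ x := (le_max_left _ _).trans ((le_max_right _ _).trans hx)
  have hx3 : x₃ ≤ x := (le_max_left _ _).trans ((le_max_right _ _).trans ((le_max_right _ _).trans hx))
  have hx4 : 3 ≤ x := (le_max_right _ _).trans ((le_max_right _ _).trans ((le_max_right _ _).trans hx))
  obtain ⟨⟨e1, e2, e5⟩, hlf⟩ := hx₃ x hx3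
  obtain ⟨J, hJJ, hzY, hYz⟩ := ex_J e1
  obtain ⟨z, hz⟩ : ∃ z : ℕ, z = 2 ^ 2 ^ J := ⟨_, rfl⟩
  rw [← hz] at hzY hYz
  have hxr : (1 : ℝ) ≤ x := by exact_mod_cast (show 1 ≤ x by omega)
  have hx0 : (0 : ℝ) < x := by linarith
  have hlx : 0 < Real.log x := by linarith
  have hz3 : 3 ≤ z := by
    by_contra hcon
    have h1 : (z : ℝ) ≤ 2 := by exact_mod_cast (by omega : z ≤ 2)
    have h2 : (0 : ℝ) ≤ z := Nat.cast_nonneg _
    have h3 : (z : ℝ) ^ 2 ≤ 2 ^ 2 := pow_le_pow_left₀ h2 h1 2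
    linarith
  have hz0' : (0 : ℝ) < z := by exact_mod_cast (show 0 < z by omega)
  have hlz : 0 < Real.log z := Real.log_pos (by exact_mod_cast (show 1 < z by omega))
  have hzx : (z : ℝ) ≤ x := by
    refine hzY.trans ?_
    calc (x : ℝ) ^ (1 / (v : ℝ)) ≤ (x : ℝ) ^ (1 : ℝ) := by
          apply Real.rpow_le_rpow_of_exponent_le hxr
          rw [div_le_one hv0]
          exact_mod_cast hv1
      _ = x := Real.rpow_one _
  -- `log x ≤ 2 v log z`
  have hlxz : Real.log x ≤ 2 * v * Real.log z := by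
    have h1 := Real.log_le_log (Real.rpow_pos_of_pos hx0 _) hYz.le
    rw [Real.log_rpow hx0, Real.log_pow] at h1
    push_cast at h1
    have h2 : Real.log x = v * (1 / v * Real.log x) := by field_simp
    rw [h2]
    calc (v : ℝ) * (1 / v * Real.log x) ≤ v * (2 * Real.log z) := mul_le_mul_of_nonneg_left h1 hv0.le
      _ = 2 * v * Real.log z := by ring
  have hXN : (2 ^ 2 ^ J) ^ N ≤ X := by
    rw [← hz]
    have h1 : ((z : ℝ)) ^ N ≤ X := by
      refine le_trans ?_ hX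
      calc (z : ℝ) ^ N ≤ ((x : ℝ) ^ (1 / (v : ℝ))) ^ N := pow_le_pow_left₀ hz0'.le hzY N
        _ = (x : ℝ) ^ (1 / (v : ℝ) * N) := by rw [← Real.rpow_mul_natCast hx0.le]
        _ ≤ (x : ℝ) ^ θ := by
            apply Real.rpow_le_rpow_of_exponent_le hxr
            rw [div_le_iff₀ hθ] at hvN
            rw [one_div, inv_mul_le_iff₀ hv0]
            exact hvN
    exact_mod_cast h1
  -- `l = log log z`
  obtain ⟨L, hLz⟩ : ∃ L : ℝ, L = Real.log z := ⟨_, rfl⟩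
  obtain ⟨l, hlL⟩ : ∃ l : ℝ, l = Real.log L := ⟨_, rfl⟩
  obtain ⟨lx, hlxd⟩ : ∃ lx : ℝ, lx = Real.log (Real.log x) := ⟨_, rfl⟩
  have hlxL : Real.log z ≤ Real.log x := Real.log_le_log hz0' hzx
  rw [← hLz] at hlxz hlz hlxL
  have hllx : l ≤ lx := by
    rw [hlL, hlxd]
    exact Real.log_le_log hlz hlxL
  have hlxl : lx ≤ l + lv := by
    rw [hlL, hlxd, hlvd, add_comm, ← Real.log_mul (by positivity) hlz.ne']
    exact Real.log_le_log hlx hlxz
  obtain ⟨⟨f1, f1'⟩, f2, f3, f4, f5⟩ := hlf l (by rw [← hlxd]; linarith)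
  -- the number `w'`
  obtain ⟨a', ha'⟩ : ∃ a' : ℝ, a' = L / (k * l) := ⟨_, rfl⟩
  have hkl : 0 < k * l := by linarith
  obtain ⟨w', hw'⟩ : ∃ w' : ℕ, w' = ⌊Real.exp a'⌋₊ := ⟨_, rfl⟩
  have hL0 : L = Real.exp l := by rw [hlL, Real.exp_log hlz]
  obtain ⟨ha2, haL⟩ := a_ld f1 f1' f2 hL0 ha'
  obtain ⟨hw3, hwhi, hlwa, hlwb⟩ := fl_exp ha2 hw'
  have hexpL : Real.exp L = z := by rw [hLz]; exact Real.exp_log hz0'
  have hwz : w' ≤ z := by
    have h1 : (w' : ℝ) ≤ z := by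
      rw [← hexpL]
      exact hwhi.trans (Real.exp_le_exp.2 haL)
    exact_mod_cast h1
  -- the rough part
  obtain ⟨S₁, S₂, hS1, hS12, hS1r, hS2⟩ := hx₂ x hx2 T hT y X hX S hS hSp
  have hrough : ∀ n ∈ S₁, ∀ q : ℕ, q.Prime → q ≤ z → ∀ t ∈ T, ¬ (q : ℤ) ∣ n + t := by
    intro n hn q hq hqz t ht
    apply hS1r n hn q hq _ t ht
    have h1 : (q : ℝ) ≤ z := by exact_mod_cast hqz
    refine h1.trans (hzY.trans ?_)
    apply Real.rpow_le_rpow_of_exponent_le hxr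
    apply one_div_le_one_div_of_le (by exact_mod_cast hu')
    exact_mod_cast hvu
  -- the classes
  obtain ⟨ro, hroq⟩ := ro_ok b
  obtain ⟨Q, hQ⟩ : ∃ Q : Finset ℕ, Q = (Pr z0 w').filter (fun q : ℕ => ∀ t ∈ T, ¬ (q : ℤ) ∣ b - t) := ⟨_, rfl⟩
  have hdat : Dat r z0 z (ZT T) ro Q := dat_ld hT hwz hQ hroq
  have hQw : ∀ q ∈ Q, (q : ℝ) ≤ Real.exp (L / (k * l)) := by
    intro q hq
    rw [hQ, mem_filter, Pr_mem] at hq
    rw [← ha']
    exact le_trans (by exact_mod_cast hq.1.1.2) hwhi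
  -- the product
  have hgg : 0 < gg T x := gg_pos hx4 hT
  have hVb : VV (ZT T) z0 z ≤ C3 * gg T x := by
    rw [hC3]
    exact V_ld hT hv1 hx1 hx4 hCV hVup (by omega) hYz
  -- the number of prime factors
  obtain ⟨D, hD⟩ : ∃ D : ℝ, D = z0 + η / 4 * l := ⟨_, rfl⟩
  have hdev : ∀ n ∈ S₁, (n : ℤ) + b ≠ 0 →
      (hit ro Q n).card ≤ ((n : ℤ) + b).natAbs.primeFactors.card ∧
      (((n : ℤ) + b).natAbs.primeFactors.card : ℝ) ≤ (hit ro Q n).card + D := by
    intro n hn hnb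
    rw [hD]
    apply dev_ld hQ (fun q hq => (hroq q hq).2 n) (fun q hq hqw => hrough n hn q hq (hqw.trans hwz)) hnb
      (by omega)
    have h5 := mem_Ioc.1 (hS (hS1 hn))
    refine (size_ld hx4 (h5.2.trans hyX) hbx hnb).trans ?_
    have h10 : ((A : ℝ) + 2) * Real.log x ≤ ((A : ℝ) + 2) * (2 * v * L) :=
      mul_le_mul_of_nonneg_left hlxz (by positivity)
    have h11 : η / 4 * l * (a' / 2) = ((A : ℝ) + 2) * (2 * v * L) := by
      rw [← hkA, ha']
      field_simp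
      norm_num
    have h12 : η / 4 * l * (a' / 2) ≤ η / 4 * l * Real.log w' :=
      mul_le_mul_of_nonneg_left hlwb (by positivity)
    linarith
  -- the mean value
  have hmean : |∑ q ∈ Q, 1 / (q : ℝ) - l| ≤ η / 4 * l := by
    obtain ⟨m1, m2⟩ := mean_ld hT.card hT.size hbT hbx hCM (z0 := z0) (by omega) hw3 e2 hQ
    rw [← hlxd] at m2
    have hlw0 : 0 < Real.log w' := by linarith
    have n1 : Real.log lx ≤ Real.log (l + lv) := Real.log_le_log (by linarith) hlxl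
    have n2 : Real.log l ≤ Real.log (l + lv) := Real.log_le_log (by linarith) (by linarith)
    have n3 : 0 ≤ Real.log (l + lv) := Real.log_nonneg (by linarith)
    have n4 : Real.log (Real.log w') ≤ l := by
      rw [hlL]
      exact Real.log_le_log hlw0 (hlwa.trans haL)
    have n5 : l - (Real.log (2 * k) + Real.log l) ≤ Real.log (Real.log w') := by
      have h6 : Real.log (a' / 2) ≤ Real.log (Real.log w') := Real.log_le_log (by linarith) hlwb
      have h7 : Real.log (a' / 2) = l - (Real.log (2 * k) + Real.log l) := by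
        rw [ha', div_div, Real.log_div hlz.ne' (by positivity), ← hlL,
          show k * l * 2 = (2 * k) * l by ring, Real.log_mul (by positivity) (by linarith)]
      linarith
    have n6 := le_abs_self (Real.log (2 * k))
    have n7 : (0 : ℝ) ≤ z0 := Nat.cast_nonneg _
    have n8 : (0 : ℝ) ≤ r := Nat.cast_nonneg _
    have n9 := abs_nonneg (Real.log (2 * k))
    rw [hW] at f3
    rw [abs_le]
    constructor <;> linarith
  -- the threshold
  obtain ⟨lam, hlam⟩ : ∃ lam : ℝ, lam = γ * lx - if 1 ≤ γ then D + k * l else 0 := ⟨_, rfl⟩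
  have hm := hJ0 J hJJ X hXN (ZT T) ro Q (by rw [← hz]; exact hdat) (by
    rw [← hz, ← hLz, ← hlL]
    exact hQw) (fun m => ∃ w : ℕ, m ≤ w ∧ (w : ℝ) ≤ (m : ℝ) + D ∧ 0 ≤ (γ - 1) * ((w : ℝ) - γ * lx)) lam (by
    intro a b hb h
    rw [← hz, ← hLz, ← hlL] at hb
    exact ld_thr hγ hlam hb h) y
  rw [← hz, ← hLz, ← hlL] at hm
  have hsub : S.filter (fun n : ℕ => (n : ℤ) + b ≠ 0 ∧
      0 ≤ (γ - 1) * ((((n : ℤ) + b).natAbs.primeFactors.card : ℝ) - γ * Real.log (Real.log x))) ⊆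
      (Ioc y (y + X)).filter (fun n => Av (ZT T) z0 z n ∧ ∃ w : ℕ, (hit ro Q n).card ≤ w ∧
        (w : ℝ) ≤ ((hit ro Q n).card : ℝ) + D ∧ 0 ≤ (γ - 1) * ((w : ℝ) - γ * lx)) ∪ S₂ := by
    intro n hn
    rw [mem_filter] at hn
    obtain ⟨h1, h2, h3⟩ := hn
    rw [mem_union]
    rcases mem_union.1 (hS12 h1) with h4 | h4
    · left
      rw [mem_filter]
      refine ⟨hS h1, ?_, ?_⟩
      · intro p hp hcon
        have hpp := Pr_mem.1 hp
        rw [mem_ZT hpp.2.pos] at hcon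
        obtain ⟨t, ht, h5⟩ := hcon
        exact hrough n h4 p hpp.2 hpp.1.2 t ht h5
      · obtain ⟨h5, h6⟩ := hdev n h4 h2
        rw [← hlxd] at h3
        exact ⟨_, h5, h6, h3⟩
    · exact Or.inr h4
  refine (Nat.cast_le.2 ((card_le_card hsub).trans (card_union_le _ _))).trans ?_
  rw [Nat.cast_add]
  have hX0 : (0 : ℝ) ≤ X := Nat.cast_nonneg _
  have hXg : 0 ≤ X * gg T x := mul_nonneg hX0 hgg.le
  -- the exponents
  have hexp := ld_exp (lam := lam) (by linarith) hη0.le hγ hllx hlxl (Nat.cast_nonneg z0) hlv f4 hkη hmean hηe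
    (by rw [← hD]; exact hlam)
  have hnum := ld_num (by linarith) hε hC.le hC30.le hllx hlxl hρ hHQ f5
  have hpow : Real.log x ^ (-(QQ γ - ε)) = Real.exp (lx * -ρ) := by
    rw [Real.rpow_def_of_pos hlx, ← hlxd, ← hρ]
  rw [hpow]
  have hB0 : 0 ≤ C * Real.exp ((γ - 1) * ∑ q ∈ Q, 1 / (q : ℝ) - lam * Real.log γ) + Real.exp (-(H * l)) := by
    positivity
  have g1 : X * VV (ZT T) z0 z * (C * Real.exp ((γ - 1) * ∑ q ∈ Q, 1 / (q : ℝ) - lam * Real.log γ) +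
      Real.exp (-(H * l))) ≤ X * gg T x * (1 / 2 * Real.exp (lx * -ρ)) := by
    have i1 : C * Real.exp ((γ - 1) * ∑ q ∈ Q, 1 / (q : ℝ) - lam * Real.log γ) + Real.exp (-(H * l)) ≤
        C * Real.exp (-(QQ γ * l) + ε / 4 * l) + Real.exp (-(H * l)) := by
      apply add_le_add _ le_rfl
      exact mul_le_mul_of_nonneg_left (Real.exp_le_exp.2 hexp) hC.le
    calc X * VV (ZT T) z0 z * (C * Real.exp ((γ - 1) * ∑ q ∈ Q, 1 / (q : ℝ) - lam * Real.log γ) +
          Real.exp (-(H * l)))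
        ≤ X * (C3 * gg T x) * (C * Real.exp ((γ - 1) * ∑ q ∈ Q, 1 / (q : ℝ) - lam * Real.log γ) +
          Real.exp (-(H * l))) := by
          apply mul_le_mul_of_nonneg_right _ hB0
          exact mul_le_mul_of_nonneg_left hVb hX0
      _ ≤ X * (C3 * gg T x) * (C * Real.exp (-(QQ γ * l) + ε / 4 * l) + Real.exp (-(H * l))) :=
          mul_le_mul_of_nonneg_left i1 (by positivity)
      _ = X * gg T x * (C3 * (C * Real.exp (-(QQ γ * l) + ε / 4 * l) + Real.exp (-(H * l)))) := by ring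
      _ ≤ _ := by
          apply mul_le_mul_of_nonneg_left _ hXg
          linarith
  have g2 : (S₂.card : ℝ) ≤ X * gg T x * (1 / 2 * Real.exp (lx * -ρ)) := by
    refine hS2.trans ?_
    have i1 : Real.log x ^ (H + 1) = Real.exp (lx * (H + 1)) := by
      have j1 : Real.log x = Real.exp lx := by rw [hlxd, Real.exp_log hlx]
      rw [j1, ← Real.exp_nat_mul]
      congr 1
      push_cast
      ring
    rw [i1, div_eq_mul_inv, ← Real.exp_neg]
    apply mul_le_mul_of_nonneg_left _ hXg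
    have i2 : Real.exp (-(lx * (H + 1))) ≤ Real.exp (-lx) * Real.exp (lx * -ρ) := by
      rw [← Real.exp_add]
      apply Real.exp_le_exp.2
      have j1 : ρ ≤ H := by
        have := le_abs_self (QQ γ)
        rw [hρ]
        linarith
      have j2 := mul_le_mul_of_nonneg_left j1 (show 0 ≤ lx by linarith)
      linarith
    have i3 : Real.exp (-lx) ≤ 1 / 2 := by
      rw [Real.exp_neg, hlxd, Real.exp_log hlx]
      rw [inv_eq_one_div]
      apply one_div_le_one_div_of_le (by norm_num)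
      linarith
    refine i2.trans ?_
    exact mul_le_mul_of_nonneg_right i3 (Real.exp_pos _).le
  linarith

end Pool.Agent.X26.AN
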