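import Pool.Agent.X26.AN.BvM
import Pool.Agent.X26.AN.Tup
import Pool.Agent.Y816.PS.E

/-!
# The number of prime factors of `n + a` for palindromes `n`
-/

set_option autoImplicit false

namespace Pool.Agent.X26.AN

open Finset Filter
open Pool.Agent.Y843.HS (Pr VV Pr_mem Pr_prime)
open Pool.Agent.Y816.PS (VE VE_eq VE_surj aff_dvd cnth cnth_bound er er_nonneg er_final n0 sg)
open Pool.Agent.W89.PW (pv fr)
open Pool.Agent.H623R3.PBT8 (coprime_pos)

/-- the residue classes of `VE` -/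
theorem VE_mod {b N L x e q : ℕ} (hb : 2 ≤ b) (h : L + 1 ≤ N) (hq : q.Coprime (2 * b)) (r : ℕ) :
    |(((univ : Finset (Fin L → Fin b × Fin 1)).filter (fun m => VE b N L x e m ≡ r [MOD q])).card : ℝ) -
      (b : ℝ) ^ L / q| ≤ er b L q := by
  have hq0 : 0 < q := coprime_pos hq
  obtain ⟨r', hr'⟩ := aff_dvd (N := N) (L := L) (n0 b N L x - b ^ N + e * b ^ N + (q - r % q)) hq hq0
  have h1 := cnth_bound (s := b) (t := 1) (by omega) one_pos b L q r' hq
  have h2 : ((b : ℝ) * (1 : ℕ)) ^ L = (b : ℝ) ^ L := by simp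
  rw [h2] at h1
  have h3 : ((univ : Finset (Fin L → Fin b × Fin 1)).filter (fun m => VE b N L x e m ≡ r [MOD q])) =
      univ.filter (fun m => pv b b 1 L m ≡ r' [MOD q]) := by
    apply filter_congr
    intro m _
    rw [← hr' m, VE_eq x e h]
    have hrq : r % q < q := Nat.mod_lt _ hq0
    have e1 : n0 b N L x - b ^ N + e * b ^ N + (q - r % q) + b ^ (N - L - 1) * sg b L m =
        (n0 b N L x - b ^ N + e * b ^ N + b ^ (N - L - 1) * sg b L m) + (q - r % q) := by ring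
    rw [e1]
    generalize n0 b N L x - b ^ N + e * b ^ N + b ^ (N - L - 1) * sg b L m = w
    constructor
    · intro h4
      have h5 : w % q = r % q := h4
      have h6 : w + (q - r % q) = q * (w / q + 1) := by
        have := Nat.div_add_mod w q
        rw [mul_add, mul_one]
        omega
      rw [h6]
      exact dvd_mul_right _ _
    · intro h4
      have h5 : (w + (q - r % q)) % q = 0 := Nat.mod_eq_zero_of_dvd h4
      have h6 : (w % q + (q - r % q) % q) % q = 0 := by rw [← Nat.add_mod]; exact h5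
      show w % q = r % q
      have h7 : w % q < q := Nat.mod_lt _ hq0
      rcases Nat.eq_zero_or_pos (r % q) with h8 | h8
      · rw [h8, Nat.sub_zero, Nat.mod_self, add_zero, Nat.mod_mod] at h6
        rw [h6, h8]
      · rw [Nat.mod_eq_of_lt (show q - r % q < q by omega)] at h6
        have h9 := Nat.dvd_of_mod_eq_zero h6
        obtain ⟨k, hk⟩ := h9
        have h10 : k = 1 := by
          have h11 : q * k < q * 2 := by omega
          have h12 : k < 2 := Nat.lt_of_mul_lt_mul_left h11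
          have h13 : 0 < k := by
            rcases Nat.eq_zero_or_pos k with h | h
            · rw [h, mul_zero] at hk
              omega
            · exact h
          omega
        rw [h10, mul_one] at hk
        omega
  rw [h3]
  exact h1

theorem prod_coprime {z0 z : ℕ} {m : ℕ} (hm : m ≤ z0) (hm0 : 0 < m) {W : Finset ℕ} (hW : W ⊆ Pr z0 z) :
    (∏ p ∈ W, p).Coprime m := by
  apply Nat.Coprime.prod_left
  intro p hp
  have h1 := Pr_mem.1 (hW hp)
  rw [Nat.Prime.coprime_iff_not_dvd h1.2]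
  intro h
  have := Nat.le_of_dvd hm0 h
  omega

/-- the sum of the errors over the squarefree numbers -/
theorem TE_le {z0 z Y D m : ℕ} {E : ℕ → ℝ} (hE : ∀ m, 0 ≤ E m) (hYD : Y ≤ D) (hm : m ≤ z0) (hm0 : 0 < m) :
    TE 1 E z0 z Y ≤ ∑ q ∈ (Icc 1 D).filter (fun q => q.Coprime m), (q.divisors.card : ℝ) ^ 2 * E q := by
  classical
  unfold TE
  have hinj : Set.InjOn (fun W : Finset ℕ => ∏ p ∈ W, p)
      (((Pr z0 z).powerset.filter (fun W : Finset ℕ => ∏ p ∈ W, p ≤ Y) : Finset (Finset ℕ)) : Set (Finset ℕ)) := by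
    intro W hW W' hW' h
    rw [mem_coe, mem_filter, mem_powerset] at hW hW'
    have h1 : (∏ p ∈ W, p).primeFactors = W := Nat.primeFactors_prod fun p hp => Pr_prime (hW.1 hp)
    have h2 : (∏ p ∈ W', p).primeFactors = W' := Nat.primeFactors_prod fun p hp => Pr_prime (hW'.1 hp)
    have h3 : ∏ p ∈ W, p = ∏ p ∈ W', p := h
    rw [← h1, ← h2, h3]
  have h1 : ∀ W ∈ (Pr z0 z).powerset.filter (fun W : Finset ℕ => ∏ p ∈ W, p ≤ Y),
      ((1 + 2 : ℕ) : ℝ) ^ W.card * E (∏ p ∈ W, p) ≤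
        (fun q : ℕ => (q.divisors.card : ℝ) ^ 2 * E q) (∏ p ∈ W, p) := by
    intro W hW
    rw [mem_filter, mem_powerset] at hW
    show _ ≤ (((∏ p ∈ W, p).divisors.card : ℕ) : ℝ) ^ 2 * E (∏ p ∈ W, p)
    apply mul_le_mul_of_nonneg_right _ (hE _)
    have h2 : 2 ^ W.card ≤ (∏ p ∈ W, p).divisors.card := by
      rw [← card_powerset]
      apply card_le_card_of_injOn (fun T : Finset ℕ => ∏ p ∈ T, p)
      · intro T hT
        rw [mem_coe, mem_powerset] at hT
        rw [mem_coe, Nat.mem_divisors]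
        refine ⟨prod_dvd_prod_of_subset _ _ _ hT, ?_⟩
        exact prod_ne_zero_iff.2 fun p hp => (Pr_prime (hW.1 hp)).ne_zero
      · intro T hT T' hT' h
        rw [mem_coe, mem_powerset] at hT hT'
        have h1 : (∏ p ∈ T, p).primeFactors = T := Nat.primeFactors_prod fun p hp => Pr_prime (hW.1 (hT hp))
        have h2 : (∏ p ∈ T', p).primeFactors = T' := Nat.primeFactors_prod fun p hp => Pr_prime (hW.1 (hT' hp))
        have h3 : ∏ p ∈ T, p = ∏ p ∈ T', p := h
        rw [← h1, ← h2, h3]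
    have h3 : ((2 ^ W.card : ℕ) : ℝ) ≤ (((∏ p ∈ W, p).divisors.card : ℕ) : ℝ) := Nat.cast_le.2 h2
    calc ((1 + 2 : ℕ) : ℝ) ^ W.card ≤ (4 : ℝ) ^ W.card := by
          apply pow_le_pow_left₀ (by positivity)
          norm_num
      _ = (((2 ^ W.card : ℕ) : ℝ)) ^ 2 := by
          push_cast
          rw [← pow_mul, mul_comm, pow_mul]
          norm_num
      _ ≤ _ := pow_le_pow_left₀ (by positivity) h3 2
  refine (sum_le_sum h1).trans ?_
  rw [← sum_image (f := fun q : ℕ => (q.divisors.card : ℝ) ^ 2 * E q) hinj]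
  apply sum_le_sum_of_subset_of_nonneg
  · intro q hq
    rw [mem_image] at hq
    obtain ⟨W, hW, rfl⟩ := hq
    rw [mem_filter, mem_powerset] at hW
    rw [mem_filter, mem_Icc]
    refine ⟨⟨?_, hW.2.trans hYD⟩, prod_coprime hm hm0 hW.1⟩
    exact prod_pos fun p hp => (Pr_prime (hW.1 hp)).pos
  · intro q _ _
    exact mul_nonneg (by positivity) (hE q)

open Classical in
/-- **the number of prime factors near palindromes** -/
theorem palTK {b : ℕ} (hb : 2 ≤ b) (u A : ℕ) (hu : 1 ≤ u) {θ ε : ℝ} (hθ : 0 < θ) (hε : 0 < ε) :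
    ∃ K : ℝ, 0 < K ∧ ∃ L₀ : ℕ, ∀ L N x : ℕ, L₀ ≤ L → L < N → θ * N ≤ L → b ^ (2 * N) ≤ x → x < b ^ (2 * N + 1) →
    ∀ a : ℤ, a ≠ 0 → |a| ≤ (b : ℤ) ^ (A * N) → ∀ f : ℕ → ℝ, (∀ q, |f q| ≤ 1) →
    (((range (b ^ (2 * N + 1))).filter (fun n : ℕ => (Nat.digits b n).reverse = Nat.digits b n ∧
      n / b ^ (N + L + 1) = x / b ^ (N + L + 1) ∧
      (n.Prime ∨ ∀ q : ℕ, q.Prime → q ∣ n → (b : ℝ) ^ ((N : ℝ) / u) < q) ∧ (n : ℤ) + a ≠ 0 ∧
      K * √(Real.log N) < |om f ((n : ℤ) + a) - mn f (b ^ N)|)).card : ℝ) ≤ ε * ((b : ℝ) ^ L / L) := by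
  obtain ⟨Z0, M, hM, hmain⟩ := mainI 1
  obtain ⟨CM, hCM⟩ := Pool.Agent.Helper256.KM.mertens_inv
  have hCM0 : 0 ≤ CM := (abs_nonneg _).trans (hCM 3 le_rfl)
  have hbR : (2 : ℝ) ≤ b := by exact_mod_cast hb
  have hb0 : (0 : ℝ) < b := by linarith
  have hb1 : (1 : ℝ) ≤ b := by linarith
  have hlb : 0 < Real.log b := Real.log_pos (by linarith)
  obtain ⟨z0, hz0⟩ : ∃ z0 : ℕ, z0 = max Z0 (2 * b + 4) := ⟨_, rfl⟩
  have hz0b : 2 * b + 4 ≤ z0 := by omega
  obtain ⟨v, hv⟩ : ∃ v : ℕ, v = 3 * M + u := ⟨_, rfl⟩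
  have hv1 : 1 ≤ v := by omega
  have hv0 : (0 : ℝ) < v := by exact_mod_cast hv1
  obtain ⟨Cst, hCst⟩ : ∃ Cst : ℝ, Cst = Real.exp (CM + z0) * (2 * v / Real.log b) := ⟨_, rfl⟩
  have hCst0 : 0 < Cst := by rw [hCst]; positivity
  obtain ⟨δ, hδ⟩ : ∃ δ : ℝ, δ = ε / (b * Cst) := ⟨_, rfl⟩
  have hδ0 : 0 < δ := by rw [hδ]; positivity
  obtain ⟨K, hK, J0, hJ0⟩ := hmain z0 (by omega) δ hδ0
  obtain ⟨vv, hvv⟩ : ∃ vv : ℝ, vv = 2 * v / θ := ⟨_, rfl⟩
  have hvv0 : 0 < vv := by rw [hvv]; positivity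
  obtain ⟨W, hW⟩ : ∃ W : ℝ, W = (z0 + (A + 4) * vv) + (z0 + (Real.log vv + 2 * CM) + CM + 2 * A) := ⟨_, rfl⟩
  -- the eventual conditions in `L`
  have hevL : ∀ᶠ L : ℕ in atTop, ((2 ^ 2 ^ J0 : ℕ) : ℝ) ≤ (b : ℝ) ^ ((L : ℝ) / v) ∧
      (((z0 + 3) ^ 2 : ℕ) : ℝ) ≤ (b : ℝ) ^ ((L : ℝ) / v) ∧ (Real.log b) ^ 3 ≤ L ∧ 1 ≤ L ∧
      ∑ q ∈ (Icc 1 ⌊(b : ℝ) ^ ((49 / 100 : ℝ) * L)⌋₊).filter (fun q => q.Coprime (2 * b)),
        (q.divisors.card : ℝ) ^ 2 * er b L q ≤ (b : ℝ) ^ L / (L : ℝ) ^ 4 := by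
    have t1 : Tendsto (fun L : ℕ => (b : ℝ) ^ ((L : ℝ) / v)) atTop atTop := by
      have t2 : Tendsto (fun L : ℕ => Real.exp (Real.log b * ((L : ℝ) / v))) atTop atTop := by
        apply Real.tendsto_exp_atTop.comp
        apply Tendsto.const_mul_atTop hlb
        exact tendsto_natCast_atTop_atTop.atTop_div_const hv0
      refine t2.congr fun L => ?_
      rw [Real.rpow_def_of_pos hb0]
    filter_upwards [t1.eventually_ge_atTop ((2 ^ 2 ^ J0 : ℕ) : ℝ), t1.eventually_ge_atTop (((z0 + 3) ^ 2 : ℕ) : ℝ),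
      tendsto_natCast_atTop_atTop.eventually_ge_atTop ((Real.log b) ^ 3), eventually_ge_atTop 1, er_final hb 4]
      with L h1 h2 h3 h4 h5
    exact ⟨h1, h2, h3, h4, h5⟩
  obtain ⟨L1, hL1⟩ := eventually_atTop.1 hevL
  have hevN : ∀ᶠ N : ℕ in atTop, 16 ≤ Real.log ((b : ℝ) ^ N) ∧
      W + Real.log (Real.log (Real.log ((b : ℝ) ^ N))) ≤ 1 * √(Real.log (Real.log ((b : ℝ) ^ N))) ∧
      Real.log (Real.log ((b : ℝ) ^ N)) ≤ 4 * Real.log N := by
    have t0 : Tendsto (fun N : ℕ => Real.log ((b : ℝ) ^ N)) atTop atTop := by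
      have e : (fun N : ℕ => Real.log ((b : ℝ) ^ N)) = fun N : ℕ => (N : ℝ) * Real.log b := by
        funext N
        rw [Real.log_pow]
      rw [e]
      exact tendsto_natCast_atTop_atTop.atTop_mul_const hlb
    have t3 := Real.tendsto_log_atTop.comp t0
    filter_upwards [t0.eventually_ge_atTop (16 : ℝ), t3.eventually (ev_log W one_pos), eventually_ge_atTop 2,
      tendsto_natCast_atTop_atTop.eventually_ge_atTop (Real.log b)] with N h1 h2 h3 h4
    refine ⟨h1, h2, ?_⟩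
    have hN0 : (0 : ℝ) < N := by exact_mod_cast (show 0 < N by omega)
    have h5 : Real.log ((b : ℝ) ^ N) ≤ (N : ℝ) ^ 2 := by
      rw [Real.log_pow, pow_two]
      exact mul_le_mul_of_nonneg_left h4 hN0.le
    have h6 : Real.log (Real.log ((b : ℝ) ^ N)) ≤ Real.log ((N : ℝ) ^ 2) := Real.log_le_log (by linarith) h5
    rw [Real.log_pow (N : ℝ) 2] at h6
    push_cast at h6
    have h7 : 0 ≤ Real.log N := Real.log_natCast_nonneg N
    linarith
  obtain ⟨N1, hN1⟩ := eventually_atTop.1 hevN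
  refine ⟨2 * (K + 1), by positivity, max L1 N1, ?_⟩
  intro L N x hL hLN hθL hx1 hx2 a ha haA f hf
  obtain ⟨e1, e2, e3, e4, e5⟩ := hL1 L ((le_max_left _ _).trans hL)
  obtain ⟨n1, n2, n3⟩ := hN1 N (by
    have := le_max_right L1 N1
    omega)
  obtain ⟨J, hJJ, hzY, hYz⟩ := ex_J e1
  obtain ⟨z, hz⟩ : ∃ z : ℕ, z = 2 ^ 2 ^ J := ⟨_, rfl⟩
  rw [← hz] at hzY hYz
  have hL0 : (0 : ℝ) < L := by exact_mod_cast e4
  have hN0 : (0 : ℝ) < N := by exact_mod_cast (show 0 < N by omega)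
  have hLNr : (L : ℝ) ≤ N := by exact_mod_cast hLN.le
  have hzz1 : z0 + 3 ≤ z := by
    have h1 : (((z0 + 3 : ℕ) : ℝ)) ^ 2 < (z : ℝ) ^ 2 := by
      refine lt_of_le_of_lt ?_ hYz
      exact_mod_cast e2
    have h2 := lt_of_pow_lt_pow_left₀ 2 (Nat.cast_nonneg z) h1
    exact_mod_cast h2.le
  have hz3 : 3 ≤ z := by omega
  have hz0' : (0 : ℝ) < z := by exact_mod_cast (show 0 < z by omega)
  have hlz : 0 < Real.log z := Real.log_pos (by exact_mod_cast (show 1 < z by omega))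
  -- `log z` and `L`
  have hlzlo : (L : ℝ) * Real.log b ≤ 2 * v * Real.log z := by
    have h1 := Real.log_le_log (Real.rpow_pos_of_pos hb0 _) hYz.le
    rw [Real.log_rpow hb0, Real.log_pow] at h1
    push_cast at h1
    have h2 : (L : ℝ) * Real.log b = v * (L / v * Real.log b) := by field_simp
    rw [h2]
    calc (v : ℝ) * (L / v * Real.log b) ≤ v * (2 * Real.log z) := mul_le_mul_of_nonneg_left h1 hv0.le
      _ = 2 * v * Real.log z := by ring
  have hlzhi : Real.log z ≤ L * Real.log b := by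
    have h1 := Real.log_le_log hz0' hzY
    rw [Real.log_rpow hb0] at h1
    refine h1.trans (mul_le_mul_of_nonneg_right ?_ hlb.le)
    apply div_le_self hL0.le
    exact_mod_cast hv1
  obtain ⟨y, hy⟩ : ∃ y : ℕ, y = b ^ N := ⟨_, rfl⟩
  have hyr : (y : ℝ) = (b : ℝ) ^ N := by rw [hy]; push_cast; rfl
  rw [← hyr] at n1 n2 n3
  rw [← hy]
  have hy1 : 0 < Real.log y := by linarith
  have hlyN : Real.log y = N * Real.log b := by rw [hyr, Real.log_pow]
  have hly : Real.log y ≤ vv * Real.log z := by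
    have h1 : θ * (N * Real.log b) ≤ 2 * v * Real.log z := by
      refine le_trans ?_ hlzlo
      rw [← mul_assoc]
      exact mul_le_mul_of_nonneg_right hθL hlb.le
    rw [hlyN, hvv, div_mul_eq_mul_div, le_div_iff₀ hθ]
    linarith
  have hzpow : ∀ k : ℕ, (z : ℝ) ^ k ≤ (b : ℝ) ^ ((L : ℝ) / v * k) := by
    intro k
    rw [Real.rpow_mul_natCast hb0.le]
    exact pow_le_pow_left₀ hz0'.le hzY k
  have hzx : z ≤ y := by
    have h1 : (z : ℝ) ≤ y := by
      rw [hyr, ← Real.rpow_natCast]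
      refine hzY.trans (Real.rpow_le_rpow_of_exponent_le hb1 ?_)
      refine le_trans ?_ hLNr
      apply div_le_self hL0.le
      exact_mod_cast hv1
    exact_mod_cast h1
  have hzu : (z : ℝ) ≤ (b : ℝ) ^ ((N : ℝ) / u) := by
    refine hzY.trans (Real.rpow_le_rpow_of_exponent_le hb1 ?_)
    apply div_le_div₀ hN0.le hLNr (by exact_mod_cast hu)
    exact_mod_cast (by omega : u ≤ v)
  have hzM : z ^ M ≤ ⌊(b : ℝ) ^ ((49 / 100 : ℝ) * L)⌋₊ := by
    apply Nat.le_floor
    push_cast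
    refine (hzpow M).trans (Real.rpow_le_rpow_of_exponent_le hb1 ?_)
    have h1 : (L : ℝ) / v * M ≤ L / 3 := by
      rw [div_mul_eq_mul_div, div_le_div_iff₀ hv0 (by norm_num)]
      have h2 : (3 * M : ℝ) ≤ v := by exact_mod_cast (by omega : 3 * M ≤ v)
      have := mul_le_mul_of_nonneg_left h2 hL0.le
      linarith
    linarith
  have hb2z : 2 * b ≤ z0 := by omega
  -- the distribution
  have hlev : ∀ e : ℕ, Lev (univ : Finset (Fin L → Fin b × Fin 1)) (VE b N L x e) ((b : ℝ) ^ L) (er b L) z0 z (z ^ M) := by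
    intro e W' hW' hWY r
    have h1 := VE_mod (N := N) (x := x) (e := e) hb (by omega : L + 1 ≤ N) (prod_coprime hb2z (by omega) hW') r
    have h3 : ((∏ p ∈ W', p : ℕ) : ℝ) = ∏ p ∈ W', (p : ℝ) := by push_cast; rfl
    rw [h3] at h1
    convert h1 using 4
  have hTE : TE 1 (er b L) z0 z (z ^ M) ≤ (b : ℝ) ^ L / Real.log z ^ (2 * 1 + 1) := by
    refine (TE_le (er_nonneg b L) hzM hb2z (by omega)).trans (e5.trans ?_)
    apply div_le_div_of_nonneg_left (by positivity) (by positivity)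
    calc Real.log z ^ (2 * 1 + 1) ≤ (L * Real.log b) ^ 3 := pow_le_pow_left₀ hlz.le hlzhi 3
      _ = (L : ℝ) ^ 3 * Real.log b ^ 3 := by ring
      _ ≤ (L : ℝ) ^ 3 * L := mul_le_mul_of_nonneg_left e3 (by positivity)
      _ = (L : ℝ) ^ 4 := by ring
  -- the classes
  obtain ⟨Om, hOm⟩ : ∃ Om : ℕ → Finset ℕ, Om = fun _ => {0} := ⟨_, rfl⟩
  obtain ⟨ro, hro⟩ : ∃ ro : ℕ → ℕ, ro = fun q : ℕ => ((-a) % (q : ℤ)).toNat := ⟨_, rfl⟩
  obtain ⟨Q, hQ⟩ : ∃ Q : Finset ℕ, Q = (Pr z0 z).filter (fun q : ℕ => ¬ (q : ℤ) ∣ a) := ⟨_, rfl⟩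
  have hroq : ∀ q : ℕ, q.Prime → (ro q < q ∧ ∀ n : ℕ, n % q = ro q ↔ (q : ℤ) ∣ n + a) := by
    intro q hq
    have hq0 : (0 : ℤ) < q := by exact_mod_cast hq.pos
    have h1 := Int.emod_nonneg (-a) hq0.ne'
    have h2 := Int.emod_lt_of_pos (-a) hq0
    have h3 : ((ro q : ℕ) : ℤ) = (-a) % q := by rw [hro]; exact Int.toNat_of_nonneg h1
    refine ⟨by omega, fun n => ?_⟩
    constructor
    · intro h
      have h4 : ((n % q : ℕ) : ℤ) = (-a) % q := by rw [h, h3]
      rw [Int.natCast_mod] at h4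
      have h5 : (n : ℤ) ≡ -a [ZMOD q] := h4
      have h6 := (Int.modEq_iff_dvd.1 h5.symm)
      rwa [sub_neg_eq_add] at h6
    · intro h
      have h5 : (-a) ≡ n [ZMOD q] := by
        rw [Int.modEq_iff_dvd, sub_neg_eq_add]
        exact h
      have h6 : ((n % q : ℕ) : ℤ) = (ro q : ℤ) := by
        rw [h3, Int.natCast_mod]
        exact h5.symm
      exact_mod_cast h6
  have hdat : Dat 1 z0 (2 ^ 2 ^ J) Om ro Q := by
    refine ⟨fun p hp => ?_, ?_, ?_⟩
    · rw [hOm]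
      refine ⟨by simp, fun c hc => ?_⟩
      rw [mem_singleton] at hc
      rw [hc]
      exact hp.pos
    · rw [hQ, ← hz]
      exact filter_subset _ _
    · intro q hq
      rw [hQ, mem_filter] at hq
      have hqp := Pr_prime hq.1
      obtain ⟨h1, h2⟩ := hroq q hqp
      refine ⟨h1, fun h => ?_⟩
      rw [hOm, mem_singleton] at h
      apply hq.2
      have h3 : (0 : ℕ) % q = ro q := by rw [h, Nat.zero_mod]
      have h4 := (h2 0).1 h3
      simpa using h4
  -- the product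
  have hVb : VV Om z0 z ≤ Cst / L := by
    have h1 : VV Om z0 z ≤ Real.exp (-(∑ p ∈ Pr z0 z, 1 / (p : ℝ))) := by
      unfold VV
      rw [← sum_neg_distrib, Real.exp_sum]
      apply Finset.prod_le_prod
      · intro p hp
        rw [hOm, card_singleton, sub_nonneg, Nat.cast_one, div_le_one (by exact_mod_cast (Pr_prime hp).pos)]
        exact_mod_cast (Pr_prime hp).one_lt.le
      · intro p _
        rw [hOm, card_singleton, Nat.cast_one]
        have := Real.add_one_le_exp (-(1 / (p : ℝ)))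
        linarith
    have h2 : Real.log (Real.log z) - CM - z0 ≤ ∑ p ∈ Pr z0 z, 1 / (p : ℝ) := by
      have h3 := (abs_le.1 (hCM z hz3)).1
      have h4 : ∑ p ∈ (Icc 1 z).filter Nat.Prime, (1 : ℝ) / p ≤ ∑ p ∈ Pr 0 z0, 1 / (p : ℝ) + ∑ p ∈ Pr z0 z, 1 / (p : ℝ) := by
        have h5 : (Icc 1 z).filter Nat.Prime ⊆ Pr 0 z0 ∪ Pr z0 z := by
          intro p hp
          rw [mem_filter, mem_Icc] at hp
          rw [mem_union, Pr_mem, Pr_mem]
          by_cases h6 : p ≤ z0
          · exact Or.inl ⟨⟨hp.2.pos, h6⟩, hp.2⟩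
          · exact Or.inr ⟨⟨not_le.1 h6, hp.1.2⟩, hp.2⟩
        refine (sum_le_sum_of_subset_of_nonneg h5 fun p _ _ => by positivity).trans ?_
        have h6 := sum_union_inter (s₁ := Pr 0 z0) (s₂ := Pr z0 z) (f := fun q : ℕ => 1 / (q : ℝ))
        have h7 : 0 ≤ ∑ q ∈ Pr 0 z0 ∩ Pr z0 z, 1 / (q : ℝ) := sum_nonneg fun q _ => by positivity
        linarith
      have h5 : ∑ q ∈ Pr 0 z0, 1 / (q : ℝ) ≤ z0 := by
        have h4 : ∑ q ∈ Pr 0 z0, 1 / (q : ℝ) ≤ ∑ q ∈ Pr 0 z0, (1 : ℝ) := by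
          apply sum_le_sum
          intro q hq
          have h5 := Pr_mem.1 hq
          rw [div_le_one (by exact_mod_cast h5.1.1)]
          exact_mod_cast h5.1.1
        refine h4.trans ?_
        rw [sum_const, nsmul_eq_mul, mul_one]
        have h5 : (Pr 0 z0).card ≤ z0 := (card_filter_le _ _).trans (by rw [Nat.card_Ioc]; omega)
        exact_mod_cast h5
      linarith
    have h3 : Real.exp (-(∑ p ∈ Pr z0 z, 1 / (p : ℝ))) ≤ Real.exp (CM + z0) / Real.log z := by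
      have h4 : Real.exp (CM + z0) / Real.log z = Real.exp ((CM + z0) - Real.log (Real.log z)) := by
        rw [Real.exp_sub, Real.exp_log hlz]
      rw [h4]
      apply Real.exp_le_exp.2
      linarith
    refine h1.trans (h3.trans ?_)
    rw [hCst, div_le_div_iff₀ hlz hL0]
    have h4 : (L : ℝ) ≤ 2 * v / Real.log b * Real.log z := by
      rw [div_mul_eq_mul_div, le_div_iff₀ hlb]
      exact hlzlo
    calc Real.exp (CM + z0) * L ≤ Real.exp (CM + z0) * (2 * v / Real.log b * Real.log z) :=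
          mul_le_mul_of_nonneg_left h4 (Real.exp_pos _).le
      _ = _ := by ring
  -- the deviations
  have hdev : ∀ n : ℕ, (∀ q : ℕ, q.Prime → q ≤ z → ¬ q ∣ n) → n < b ^ (2 * N + 1) → (n : ℤ) + a ≠ 0 →
      |(om f ((n : ℤ) + a) - mn f y) - (∑ q ∈ hit ro Q n, f q - ∑ q ∈ Q, f q * (1 / (q : ℝ)))| ≤
        √(Real.log (Real.log y)) := by
    intro n hrough hnb hna
    have hd1 : |om f ((n : ℤ) + a) - ∑ q ∈ hit ro Q n, f q| ≤ z0 + (A + 4) * vv := by
      obtain ⟨F, hF⟩ : ∃ F : Finset ℕ, F = ((n : ℤ) + a).natAbs.primeFactors := ⟨_, rfl⟩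
      have hnb0 : ((n : ℤ) + a).natAbs ≠ 0 := Int.natAbs_ne_zero.2 hna
      have hmF : ∀ q : ℕ, q ∈ F ↔ q.Prime ∧ (q : ℤ) ∣ (n : ℤ) + a := by
        intro q
        rw [hF, Nat.mem_primeFactors, Int.natCast_dvd]
        tauto
      have h1 : F.filter (fun q => z0 < q ∧ q ≤ z) = hit ro Q n := by
        ext q
        rw [mem_filter, mem_hit, hQ, mem_filter, hmF, Pr_mem]
        constructor
        · rintro ⟨⟨h1, h2⟩, h3, h4⟩
          refine ⟨⟨⟨⟨h3, h4⟩, h1⟩, fun h5 => ?_⟩, ((hroq q h1).2 n).2 h2⟩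
          apply hrough q h1 h4
          have h6 := dvd_sub h2 h5
          rw [add_sub_cancel_right] at h6
          exact Int.natCast_dvd_natCast.1 h6
        · rintro ⟨⟨⟨⟨h3, h4⟩, h1⟩, _⟩, h6⟩
          exact ⟨⟨h1, ((hroq q h1).2 n).1 h6⟩, h3, h4⟩
      have h2 : om f ((n : ℤ) + a) - ∑ q ∈ hit ro Q n, f q = ∑ q ∈ F.filter (fun q => ¬ (z0 < q ∧ q ≤ z)), f q := by
        rw [← h1]
        unfold om
        rw [← hF, ← sum_filter_add_sum_filter_not F (fun q => z0 < q ∧ q ≤ z)]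
        ring
      rw [h2]
      have h3 : |∑ q ∈ F.filter (fun q => ¬ (z0 < q ∧ q ≤ z)), f q| ≤
          ((F.filter (fun q => ¬ (z0 < q ∧ q ≤ z))).card : ℝ) := by
        refine (abs_sum_le_sum_abs _ _).trans ?_
        refine (sum_le_sum fun q _ => hf q).trans (le_of_eq ?_)
        rw [sum_const, nsmul_eq_mul, mul_one]
      refine h3.trans ?_
      have h4 : F.filter (fun q => ¬ (z0 < q ∧ q ≤ z)) ⊆ Icc 1 z0 ∪ F.filter (fun q => z < q) := by
        intro q hq
        rw [mem_filter] at hq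
        rw [mem_union, mem_Icc, mem_filter]
        have h5 := ((hmF q).1 hq.1).1.one_lt
        by_cases h6 : z0 < q
        · right
          refine ⟨hq.1, ?_⟩
          by_contra h7
          exact hq.2 ⟨h6, not_lt.1 h7⟩
        · left
          omega
      refine (Nat.cast_le.2 ((card_le_card h4).trans (card_union_le _ _))).trans ?_
      rw [Nat.cast_add, Nat.card_Icc, Nat.add_sub_cancel]
      apply add_le_add le_rfl
      rw [hF]
      apply large_factors hna (by omega)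
      have hnx : ((((n : ℤ) + a).natAbs : ℕ) : ℝ) ≤ (y : ℝ) ^ (A + 4) := by
        have h6 : ((n : ℤ) + a).natAbs ≤ b ^ (2 * N + 1) + b ^ (A * N) := by
          have h62 := abs_le.1 haA
          have h63 : ((b ^ (A * N) : ℕ) : ℤ) = (b : ℤ) ^ (A * N) := by push_cast; rfl
          rw [← h63] at h62
          omega
        have h7 : b ^ (2 * N + 1) + b ^ (A * N) ≤ y ^ (A + 4) := by
          have hyb : b ≤ y := by rw [hy]; exact Nat.le_self_pow (by omega) b
          have h8 : b ^ (2 * N + 1) ≤ y ^ (A + 3) := by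
            calc b ^ (2 * N + 1) = y ^ 2 * b := by rw [hy, ← pow_mul, pow_succ, mul_comm N 2]
              _ ≤ y ^ 2 * y := Nat.mul_le_mul_left _ hyb
              _ = y ^ 3 := by ring
              _ ≤ y ^ (A + 3) := Nat.pow_le_pow_right (by omega) (by omega)
          have h9 : b ^ (A * N) ≤ y ^ (A + 3) := by
            calc b ^ (A * N) = y ^ A := by rw [hy, ← pow_mul, mul_comm]
              _ ≤ _ := Nat.pow_le_pow_right (by omega) (by omega)
          have h10 : y ^ (A + 3) * 2 ≤ y ^ (A + 3) * y := Nat.mul_le_mul_left _ (by omega)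
          have h11 : y ^ (A + 4) = y ^ (A + 3) * y := pow_succ y (A + 3)
          omega
        exact_mod_cast h6.trans h7
      have h8 : (0 : ℝ) < ((((n : ℤ) + a).natAbs : ℕ) : ℝ) := by exact_mod_cast Nat.pos_of_ne_zero hnb0
      have h9 := Real.log_le_log h8 hnx
      rw [Real.log_pow] at h9
      push_cast at h9
      have h10 : ((A : ℝ) + 4) * Real.log y ≤ ((A : ℝ) + 4) * (vv * Real.log z) :=
        mul_le_mul_of_nonneg_left hly (by positivity)
      linarith
    -- the mean value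
    have hd2 : |mn f y - ∑ q ∈ Q, f q * (1 / (q : ℝ))| ≤
        (z0 + (Real.log vv + 2 * CM) + CM + 2 * A) + Real.log (Real.log (Real.log y)) := by
      have hQx : Q ⊆ Pr 0 y := by
        intro q hq
        rw [hQ, mem_filter, Pr_mem] at hq
        rw [Pr_mem]
        exact ⟨⟨hq.1.2.pos, hq.1.1.2.trans hzx⟩, hq.1.2⟩
      have h1 : mn f y - ∑ q ∈ Q, f q * (1 / (q : ℝ)) = ∑ q ∈ Pr 0 y \ Q, f q * (1 / (q : ℝ)) := by
        unfold mn
        rw [← sum_sdiff hQx]
        ring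
      rw [h1]
      have h2 : |∑ q ∈ Pr 0 y \ Q, f q * (1 / (q : ℝ))| ≤ ∑ q ∈ Pr 0 y \ Q, 1 / (q : ℝ) := by
        refine (abs_sum_le_sum_abs _ _).trans (sum_le_sum fun q _ => ?_)
        rw [abs_mul, abs_of_nonneg (show (0 : ℝ) ≤ 1 / (q : ℝ) by positivity)]
        calc |f q| * (1 / (q : ℝ)) ≤ 1 * (1 / (q : ℝ)) := mul_le_mul_of_nonneg_right (hf q) (by positivity)
          _ = _ := one_mul _
      refine h2.trans ?_
      obtain ⟨E, hE⟩ : ∃ E : ℕ, E = a.natAbs := ⟨_, rfl⟩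
      have hE0 : E ≠ 0 := by rw [hE]; exact Int.natAbs_ne_zero.2 ha
      have hEx : Real.log E ≤ A * Real.log y := by
        have h3 : E ≤ y ^ A := by
          have h63 : ((b ^ (A * N) : ℕ) : ℤ) = (b : ℤ) ^ (A * N) := by push_cast; rfl
          rw [← h63, Int.abs_eq_natAbs] at haA
          have h4 : a.natAbs ≤ b ^ (A * N) := by exact_mod_cast haA
          rw [hE, hy, ← pow_mul, mul_comm N A]
          exact h4
        have h4 : (0 : ℝ) < E := by exact_mod_cast Nat.pos_of_ne_zero hE0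
        have h5 : (E : ℝ) ≤ (y : ℝ) ^ A := by exact_mod_cast h3
        have h6 := Real.log_le_log h4 h5
        rwa [Real.log_pow] at h6
      obtain ⟨m, hm'⟩ : ∃ m : ℕ, m = ⌊Real.log y⌋₊ := ⟨_, rfl⟩
      have hm3 : 3 ≤ m := by
        rw [hm']
        apply Nat.le_floor
        push_cast
        linarith
      have hmlog : (m : ℝ) ≤ Real.log y := by rw [hm']; exact Nat.floor_le hy1.le
      have hsub : Pr 0 y \ Q ⊆ ((Pr 0 z0 ∪ Pr z y) ∪ Pr 0 m) ∪
          (Pr 0 y).filter (fun q => q ∣ E ∧ Real.log y < q) := by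
        intro q hq
        rw [Finset.mem_sdiff] at hq
        have h3 := Pr_mem.1 hq.1
        rw [mem_union, mem_union, mem_union, mem_filter, Pr_mem, Pr_mem, Pr_mem]
        by_cases h4 : q ≤ z0
        · left; left; left
          exact ⟨⟨h3.1.1, h4⟩, h3.2⟩
        by_cases h5 : z < q
        · left; left; right
          exact ⟨⟨h5, h3.1.2⟩, h3.2⟩
        by_cases h6 : q ≤ m
        · left; right
          exact ⟨⟨h3.1.1, h6⟩, h3.2⟩
        right
        refine ⟨hq.1, ?_, ?_⟩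
        · by_contra h7
          apply hq.2
          rw [hQ, mem_filter, Pr_mem]
          refine ⟨⟨⟨not_le.1 h4, not_lt.1 h5⟩, h3.2⟩, fun h8 => h7 ?_⟩
          rw [hE]
          exact Int.natCast_dvd.1 h8
        · rw [hm'] at h6
          exact (Nat.lt_of_floor_lt (not_le.1 h6))
      have hnn : ∀ s : Finset ℕ, 0 ≤ ∑ q ∈ s, 1 / (q : ℝ) := fun s => sum_nonneg fun q _ => by positivity
      have hun : ∀ s t : Finset ℕ, ∑ q ∈ s ∪ t, 1 / (q : ℝ) ≤ ∑ q ∈ s, 1 / (q : ℝ) + ∑ q ∈ t, 1 / (q : ℝ) := by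
        intro s t
        have h3 := sum_union_inter (s₁ := s) (s₂ := t) (f := fun q : ℕ => 1 / (q : ℝ))
        have h4 := hnn (s ∩ t)
        linarith
      have h3 : ∑ q ∈ Pr 0 z0, 1 / (q : ℝ) ≤ z0 := by
        have h4 : ∑ q ∈ Pr 0 z0, 1 / (q : ℝ) ≤ ∑ q ∈ Pr 0 z0, (1 : ℝ) := by
          apply sum_le_sum
          intro q hq
          have h5 := Pr_mem.1 hq
          rw [div_le_one (by exact_mod_cast h5.1.1)]
          exact_mod_cast h5.1.1
        refine h4.trans ?_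
        rw [sum_const, nsmul_eq_mul, mul_one]
        have h5 : (Pr 0 z0).card ≤ z0 := (card_filter_le _ _).trans (by rw [Nat.card_Ioc]; omega)
        exact_mod_cast h5
      have h4 : ∑ q ∈ Pr z y, 1 / (q : ℝ) ≤ Real.log vv + 2 * CM := by
        have h5 := Pool.Agent.Y79.HS.sum_pr hCM hz3 hzx
        have h6 : Real.log (Real.log y) ≤ Real.log vv + Real.log (Real.log z) := by
          rw [← Real.log_mul hvv0.ne' hlz.ne']
          exact Real.log_le_log hy1 hly
        linarith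
      have h5 : ∑ q ∈ Pr 0 m, 1 / (q : ℝ) ≤ Real.log (Real.log (Real.log y)) + CM := by
        have h6 := (abs_le.1 (hCM m hm3)).2
        have h7 : ∑ q ∈ Pr 0 m, 1 / (q : ℝ) = ∑ p ∈ (Icc 1 m).filter Nat.Prime, (1 : ℝ) / p := by
          unfold Pr
          congr 1
        have hm0 : (1 : ℝ) < m := by exact_mod_cast (show 1 < m by omega)
        have h8 : Real.log (Real.log m) ≤ Real.log (Real.log (Real.log y)) := by
          apply Real.log_le_log (Real.log_pos hm0)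
          exact Real.log_le_log (by linarith) hmlog
        rw [h7]
        linarith
      have h6 : ∑ q ∈ (Pr 0 y).filter (fun q => q ∣ E ∧ Real.log y < q), 1 / (q : ℝ) ≤ 2 * A := by
        have h7 := sum_dvd hE0 hy1 (P := (Pr 0 y).filter (fun q => q ∣ E ∧ Real.log y < q)) (by
          intro q hq
          rw [mem_filter] at hq
          exact ⟨Pr_prime hq.1, hq.2.1, hq.2.2⟩)
        refine h7.trans ?_
        have hl2 : (1 : ℝ) / 2 ≤ Real.log 2 := by linarith [Real.log_two_gt_d9]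
        rw [div_le_iff₀ (by positivity)]
        have h10 : (A : ℝ) * Real.log y * (1 / 2) ≤ A * Real.log y * Real.log 2 :=
          mul_le_mul_of_nonneg_left hl2 (by positivity)
        linarith
      have h7 := sum_le_sum_of_subset_of_nonneg (f := fun q : ℕ => 1 / (q : ℝ)) hsub fun q _ _ => by positivity
      have h8 := hun ((Pr 0 z0 ∪ Pr z y) ∪ Pr 0 m) ((Pr 0 y).filter (fun q => q ∣ E ∧ Real.log y < q))
      have h9 := hun (Pr 0 z0 ∪ Pr z y) (Pr 0 m)
      have h10 := hun (Pr 0 z0) (Pr z y)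
      linarith
    have e : (om f ((n : ℤ) + a) - mn f y) - (∑ q ∈ hit ro Q n, f q - ∑ q ∈ Q, f q * (1 / (q : ℝ))) =
        (om f ((n : ℤ) + a) - ∑ q ∈ hit ro Q n, f q) - (mn f y - ∑ q ∈ Q, f q * (1 / (q : ℝ))) := by ring
    rw [e]
    have h1 := abs_sub (om f ((n : ℤ) + a) - ∑ q ∈ hit ro Q n, f q) (mn f y - ∑ q ∈ Q, f q * (1 / (q : ℝ)))
    rw [hW] at n2
    linarith
  -- the exceptional palindromes
  obtain ⟨T, hT⟩ : ∃ T : ℕ → Finset (Fin L → Fin b × Fin 1), T = fun e => univ.filter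
      (fun m => Av Om z0 z (VE b N L x e m) ∧ K * √(Real.log (Real.log z)) <
        |∑ q ∈ hit ro Q (VE b N L x e m), f q - ∑ q ∈ Q, f q * (1 / (q : ℝ))|) := ⟨_, rfl⟩
  have hTb : ∀ e : ℕ, ((T e).card : ℝ) ≤ δ * ((b : ℝ) ^ L * VV Om z0 z) := by
    intro e
    have h1 := hlev e
    rw [hz] at h1 hTE
    have h2 := hJ0 J hJJ _ univ (VE b N L x e) ((b : ℝ) ^ L) (er b L) (by positivity) (er_nonneg b L) h1 hTE
      Om ro Q hdat f hf
    rw [hT, hz]
    exact h2
  obtain ⟨S, hS⟩ : ∃ S : Finset ℕ, S = (range (b ^ (2 * N + 1))).filter (fun n : ℕ => (Nat.digits b n).reverse = Nat.digits b n ∧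
      n / b ^ (N + L + 1) = x / b ^ (N + L + 1) ∧
      (n.Prime ∨ ∀ q : ℕ, q.Prime → q ∣ n → (b : ℝ) ^ ((N : ℝ) / u) < q) ∧ (n : ℤ) + a ≠ 0 ∧
      2 * (K + 1) * √(Real.log N) < |om f ((n : ℤ) + a) - mn f y|) := ⟨_, rfl⟩
  rw [← hS]
  have hsub : S ⊆ (range b).biUnion (fun e => (T e).image (VE b N L x e)) := by
    intro n hn
    rw [hS, mem_filter, mem_range] at hn
    obtain ⟨g1, g2, g3, g4, g40, g41⟩ := hn
    have g5 : b ^ (2 * N) ≤ n := by
      have e1 : b ^ (N - L - 1) ≤ x / b ^ (N + L + 1) := by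
        rw [Nat.le_div_iff_mul_le (by positivity), ← pow_add]
        rwa [show N - L - 1 + (N + L + 1) = 2 * N by omega]
      rw [← g3, Nat.le_div_iff_mul_le (by positivity), ← pow_add,
        show N - L - 1 + (N + L + 1) = 2 * N by omega] at e1
      exact e1
    have hyn : y < n := by
      refine lt_of_lt_of_le ?_ g5
      rw [hy]
      exact Nat.pow_lt_pow_right (by omega) (by omega)
    have hrough : ∀ q : ℕ, q.Prime → q ≤ z → ¬ q ∣ n := by
      intro q hq hqz hd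
      rcases g4 with h | h
      · have h1 := (Nat.prime_dvd_prime_iff_eq hq h).1 hd
        omega
      · have h1 := h q hq hd
        have h2 : (q : ℝ) ≤ z := by exact_mod_cast hqz
        linarith
    have g6 := VE_surj hb g5 g1 g2 g3
    rw [mem_biUnion]
    refine ⟨n / b ^ N % b, mem_range.2 (Nat.mod_lt _ (by omega)), ?_⟩
    rw [mem_image]
    refine ⟨_, ?_, g6.symm⟩
    rw [hT]
    simp only [mem_filter, mem_univ, true_and]
    rw [← g6]
    refine ⟨?_, ?_⟩
    · intro p hp hcon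
      have hpp := Pr_mem.1 hp
      rw [hOm, mem_singleton] at hcon
      exact hrough p hpp.2 hpp.1.2 (Nat.dvd_of_mod_eq_zero hcon)
    · have h5 := hdev n hrough g1 g40
      have h6 : √(Real.log (Real.log z)) ≤ √(Real.log (Real.log y)) := by
        apply Real.sqrt_le_sqrt
        apply Real.log_le_log hlz
        exact Real.log_le_log hz0' (by exact_mod_cast hzx)
      have h7 := mul_le_mul_of_nonneg_left h6 hK.le
      have h8 := abs_sub_abs_le_abs_sub (om f ((n : ℤ) + a) - mn f y)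
        (∑ q ∈ hit ro Q n, f q - ∑ q ∈ Q, f q * (1 / (q : ℝ)))
      have h9 : √(Real.log (Real.log y)) ≤ 2 * √(Real.log N) := by
        have h10 : √(4 * Real.log N) = 2 * √(Real.log N) := by
          rw [Real.sqrt_mul (by norm_num), show (4 : ℝ) = 2 ^ 2 by norm_num, Real.sqrt_sq (by norm_num)]
        rw [← h10]
        exact Real.sqrt_le_sqrt n3
      have h10 := mul_le_mul_of_nonneg_left h9 (show (0 : ℝ) ≤ K + 1 by linarith)
      linarith
  have h3 : (S.card : ℝ) ≤ ∑ e ∈ range b, ((T e).card : ℝ) := by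
    have h4 : S.card ≤ ∑ e ∈ range b, (T e).card :=
      (card_le_card hsub).trans (card_biUnion_le.trans (sum_le_sum fun e _ => card_image_le))
    exact_mod_cast h4
  refine h3.trans ((sum_le_sum fun e _ => hTb e).trans ?_)
  rw [sum_const, card_range, nsmul_eq_mul]
  calc (b : ℝ) * (δ * ((b : ℝ) ^ L * VV Om z0 z)) ≤ b * (δ * ((b : ℝ) ^ L * (Cst / L))) := by
        apply mul_le_mul_of_nonneg_left _ hb0.le
        apply mul_le_mul_of_nonneg_left _ hδ0.le
        exact mul_le_mul_of_nonneg_left hVb (by positivity)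
    _ = ε * ((b : ℝ) ^ L / L) := by
        rw [hδ]
        field_simp

end Pool.Agent.X26.AN
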