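import Pool.Agent.X26.AN.LdJ
import Pool.Agent.X26.AN.LdT
import Pool.Agent.X26.AN.PalTK

/-!
# Large deviations of the number of prime factors of `n + a` for palindromes `n`
-/

set_option autoImplicit false

namespace Pool.Agent.X26.AN

open Finset Filter
open Pool.Agent.Y843.HS (Pr VV Pr_mem Pr_prime)
open Pool.Agent.Y816.PS (VE VE_eq VE_surj aff_dvd cnth cnth_bound er er_nonneg er_final n0 sg)

/-- the product over the primes up to `z` -/
theorem pal_V {b v z0 z L : ℕ} {CM : ℝ}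
    (hCM : ∀ n : ℕ, 3 ≤ n → |∑ p ∈ (Icc 1 n).filter Nat.Prime, (1 : ℝ) / p - Real.log (Real.log n)| ≤ CM)
    (hz3 : 3 ≤ z) (hlz : 0 < Real.log z) (hL0 : (0 : ℝ) < L) (hlb : 0 < Real.log b)
    (hlzlo : (L : ℝ) * Real.log b ≤ 2 * v * Real.log z) :
    VV (fun _ => ({0} : Finset ℕ)) z0 z ≤ Real.exp (CM + z0) * (2 * v / Real.log b) / L := by
  have h1 : VV (fun _ => ({0} : Finset ℕ)) z0 z ≤ Real.exp (-(∑ p ∈ Pr z0 z, 1 / (p : ℝ))) := by
    unfold VV
    rw [← sum_neg_distrib, Real.exp_sum]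
    apply Finset.prod_le_prod
    · intro p hp
      rw [card_singleton, sub_nonneg, Nat.cast_one, div_le_one (by exact_mod_cast (Pr_prime hp).pos)]
      exact_mod_cast (Pr_prime hp).one_lt.le
    · intro p _
      rw [card_singleton, Nat.cast_one]
      have := Real.add_one_le_exp (-(1 / (p : ℝ)))
      linarith
  have h2 : Real.log (Real.log z) - CM - z0 ≤ ∑ p ∈ Pr z0 z, 1 / (p : ℝ) := by
    have h3 := (abs_le.1 (hCM z hz3)).1
    have h4 : ∑ p ∈ (Icc 1 z).filter Nat.Prime, (1 : ℝ) / p ≤ ∑ p ∈ Pr 0 z0, 1 / (p : ℝ) + ∑ p ∈ Pr z0 z, 1 / (p : ℝ) := by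
      have h5 : (Icc 1 z).filter Nat.Prime ⊆ Pr 0 z0 ∪ Pr z0 z := by
        intro p hp
        rw [mem_filter, mem_Icc] at hp
        rw [mem_union, Pr_mem, Pr_mem]
        by_cases h6 : p ≤ z0
        · exact Or.inl ⟨⟨hp.2.pos, h6⟩, hp.2⟩
        · exact Or.inr ⟨⟨not_le.1 h6, hp.1.2⟩, hp.2⟩
      refine (sum_le_sum_of_subset_of_nonneg h5 fun p _ _ => by positivity).trans ?_
      have h6 := sum_union_inter (s₁ := Pr 0 z0) (s₂ := Pr z0 z) (f := fun q : ℕ => 1 / (q : ℝ))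
      have h7 : 0 ≤ ∑ q ∈ Pr 0 z0 ∩ Pr z0 z, 1 / (q : ℝ) := sum_nonneg fun q _ => by positivity
      linarith
    have h5 : ∑ q ∈ Pr 0 z0, 1 / (q : ℝ) ≤ z0 := by
      have h4 : ∑ q ∈ Pr 0 z0, 1 / (q : ℝ) ≤ ∑ q ∈ Pr 0 z0, (1 : ℝ) := by
        apply sum_le_sum
        intro q hq
        have h5 := Pr_mem.1 hq
        rw [div_le_one (by exact_mod_cast h5.1.1)]
        exact_mod_cast h5.1.1
      refine h4.trans ?_
      rw [sum_const, nsmul_eq_mul, mul_one]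
      have h5 : (Pr 0 z0).card ≤ z0 := (card_filter_le _ _).trans (by rw [Nat.card_Ioc]; omega)
      exact_mod_cast h5
    linarith
  have h3 : Real.exp (-(∑ p ∈ Pr z0 z, 1 / (p : ℝ))) ≤ Real.exp (CM + z0) / Real.log z := by
    have h4 : Real.exp (CM + z0) / Real.log z = Real.exp ((CM + z0) - Real.log (Real.log z)) := by
      rw [Real.exp_sub, Real.exp_log hlz]
    rw [h4]
    apply Real.exp_le_exp.2
    linarith
  refine h1.trans (h3.trans ?_)
  rw [div_le_div_iff₀ hlz hL0]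
  have h4 : (L : ℝ) ≤ 2 * v / Real.log b * Real.log z := by
    rw [div_mul_eq_mul_div, le_div_iff₀ hlb]
    exact hlzlo
  calc Real.exp (CM + z0) * L ≤ Real.exp (CM + z0) * (2 * v / Real.log b * Real.log z) :=
        mul_le_mul_of_nonneg_left h4 (Real.exp_pos _).le
    _ = _ := by ring

/-- the size of `n + a` -/
theorem pal_size {b N A n y : ℕ} (hb : 2 ≤ b) (hN : 1 ≤ N) (hy : y = b ^ N) (hn : n < b ^ (2 * N + 1)) {a : ℤ}
    (ha : |a| ≤ (b : ℤ) ^ (A * N)) (hna : (n : ℤ) + a ≠ 0) :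
    Real.log (((n : ℤ) + a).natAbs) ≤ ((A : ℝ) + 4) * Real.log y := by
  have hnb0 : ((n : ℤ) + a).natAbs ≠ 0 := Int.natAbs_ne_zero.2 hna
  have hyb : b ≤ y := by rw [hy]; exact Nat.le_self_pow (by omega) b
  have hnx : ((((n : ℤ) + a).natAbs : ℕ) : ℝ) ≤ (y : ℝ) ^ (A + 4) := by
    have h6 : ((n : ℤ) + a).natAbs ≤ b ^ (2 * N + 1) + b ^ (A * N) := by
      have h62 := abs_le.1 ha
      have h63 : ((b ^ (A * N) : ℕ) : ℤ) = (b : ℤ) ^ (A * N) := by push_cast; rfl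
      rw [← h63] at h62
      omega
    have h7 : b ^ (2 * N + 1) + b ^ (A * N) ≤ y ^ (A + 4) := by
      have h8 : b ^ (2 * N + 1) ≤ y ^ (A + 3) := by
        calc b ^ (2 * N + 1) = y ^ 2 * b := by rw [hy, ← pow_mul, pow_succ, mul_comm N 2]
          _ ≤ y ^ 2 * y := Nat.mul_le_mul_left _ hyb
          _ = y ^ 3 := by ring
          _ ≤ y ^ (A + 3) := Nat.pow_le_pow_right (by omega) (by omega)
      have h9 : b ^ (A * N) ≤ y ^ (A + 3) := by
        calc b ^ (A * N) = y ^ A := by rw [hy, ← pow_mul, mul_comm]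
          _ ≤ _ := Nat.pow_le_pow_right (by omega) (by omega)
      have h10 : y ^ (A + 3) * 2 ≤ y ^ (A + 3) * y := Nat.mul_le_mul_left _ (by omega)
      have h11 : y ^ (A + 4) = y ^ (A + 3) * y := pow_succ y (A + 3)
      omega
    exact_mod_cast h6.trans h7
  have h8 : (0 : ℝ) < ((((n : ℤ) + a).natAbs : ℕ) : ℝ) := by exact_mod_cast Nat.pos_of_ne_zero hnb0
  have h9 := Real.log_le_log h8 hnx
  rw [Real.log_pow] at h9
  push_cast at h9
  exact h9

/-- the data for palindromes -/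
theorem pal_dat {z0 w' z : ℕ} {a : ℤ} {Q : Finset ℕ} {ro : ℕ → ℕ} (hwz : w' ≤ z)
    (hQ : Q = (Pr z0 w').filter (fun q : ℕ => ∀ t ∈ ({0} : Finset ℤ), ¬ (q : ℤ) ∣ a - t))
    (hroq : ∀ q : ℕ, q.Prime → (ro q < q ∧ ∀ n : ℕ, n % q = ro q ↔ (q : ℤ) ∣ n + a)) :
    Dat 1 z0 z (fun _ => ({0} : Finset ℕ)) ro Q := by
  refine ⟨fun p hp => ?_, ?_, ?_⟩
  · refine ⟨by simp, fun c hc => ?_⟩
    rw [mem_singleton] at hc
    rw [hc]
    exact hp.pos
  · intro q hq
    rw [hQ, mem_filter, Pr_mem] at hq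
    rw [Pr_mem]
    exact ⟨⟨hq.1.1.1, hq.1.1.2.trans hwz⟩, hq.1.2⟩
  · intro q hq
    rw [hQ, mem_filter] at hq
    have hqp := Pr_prime hq.1
    obtain ⟨h1, h2⟩ := hroq q hqp
    refine ⟨h1, fun h => ?_⟩
    rw [mem_singleton] at h
    apply hq.2 0 (mem_singleton_self _)
    have h3 : (0 : ℕ) % q = ro q := by rw [h, Nat.zero_mod]
    have h4 := (h2 0).1 h3
    simpa using h4

open Classical in
/-- **large deviations of the number of prime factors near palindromes** -/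
theorem palLD {b : ℕ} (hb : 2 ≤ b) (u A : ℕ) (hu : 1 ≤ u) {θ γ ε : ℝ} (hθ : 0 < θ) (hγ : 0 < γ) (hε : 0 < ε) :
    ∃ L₀ : ℕ, ∀ L N x : ℕ, L₀ ≤ L → L < N → θ * N ≤ L → b ^ (2 * N) ≤ x → x < b ^ (2 * N + 1) →
    ∀ a : ℤ, a ≠ 0 → |a| ≤ (b : ℤ) ^ (A * N) →
    (((range (b ^ (2 * N + 1))).filter (fun n : ℕ => (Nat.digits b n).reverse = Nat.digits b n ∧
      n / b ^ (N + L + 1) = x / b ^ (N + L + 1) ∧
      (n.Prime ∨ ∀ q : ℕ, q.Prime → q ∣ n → (b : ℝ) ^ ((N : ℝ) / u) < q) ∧ (n : ℤ) + a ≠ 0 ∧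
      0 ≤ (γ - 1) * ((((n : ℤ) + a).natAbs.primeFactors.card : ℝ) - γ * Real.log N))).card : ℝ) ≤
      (b : ℝ) ^ L / L * (N : ℝ) ^ (-(QQ γ - ε)) := by
  obtain ⟨Z0, M, hM, hmain⟩ := mainI_ld 1
  obtain ⟨CM, hCM⟩ := Pool.Agent.Helper256.KM.mertens_inv
  have hCM0 : 0 ≤ CM := (abs_nonneg _).trans (hCM 3 le_rfl)
  have hbR : (2 : ℝ) ≤ b := by exact_mod_cast hb
  have hb0 : (0 : ℝ) < b := by linarith
  have hb1 : (1 : ℝ) ≤ b := by linarith
  have hlb : 0 < Real.log b := Real.log_pos (by linarith)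
  obtain ⟨z0, hz0⟩ : ∃ z0 : ℕ, z0 = max Z0 (2 * b + 4) := ⟨_, rfl⟩
  have hz0b : 2 * b + 4 ≤ z0 := by omega
  obtain ⟨v, hv⟩ : ∃ v : ℕ, v = 3 * M + u + ⌈Real.log b⌉₊ := ⟨_, rfl⟩
  have hv1 : 1 ≤ v := by omega
  have hv0 : (0 : ℝ) < v := by exact_mod_cast hv1
  have hvb : Real.log b ≤ v := (Nat.le_ceil _).trans (by exact_mod_cast (by omega : ⌈Real.log b⌉₊ ≤ v))
  obtain ⟨Cst, hCst⟩ : ∃ Cst : ℝ, Cst = Real.exp (CM + z0) * (2 * v / Real.log b) := ⟨_, rfl⟩
  have hCst0 : 0 < Cst := by rw [hCst]; positivity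
  obtain ⟨vv, hvv⟩ : ∃ vv : ℝ, vv = 2 * v / θ := ⟨_, rfl⟩
  have hvv0 : 0 < vv := by rw [hvv]; positivity
  -- the small parameters
  obtain ⟨η, hη⟩ : ∃ η : ℝ, η = ε / (4 * (|γ - 1| + |Real.log γ| + 1)) := ⟨_, rfl⟩
  have hη0 : 0 < η := by rw [hη]; positivity
  have hηe : η * (|γ - 1| + |Real.log γ|) ≤ ε / 4 := by
    have h1 : η * (|γ - 1| + |Real.log γ| + 1) = ε / 4 := by
      rw [hη]
      field_simp
    linarith
  obtain ⟨k, hk⟩ : ∃ k : ℝ, k = η / (8 * (vv + 1) * (A + 4)) := ⟨_, rfl⟩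
  have hk0 : 0 < k := by rw [hk]; positivity
  have hkA : 2 * (vv + 1) * (A + 4) * k = η / 4 := by
    rw [hk]
    field_simp
    norm_num
  have hkη : k ≤ η / 4 := by
    rw [← hkA]
    have h1 : (1 : ℝ) ≤ 2 * (vv + 1) * (A + 4) := by
      have h2 : (0 : ℝ) ≤ A := Nat.cast_nonneg _
      have h3 : 0 ≤ vv * A := by positivity
      nlinarith
    exact le_mul_of_one_le_left hk0.le h1
  obtain ⟨H, hH⟩ : ∃ H : ℕ, H = ⌈|QQ γ| + 1⌉₊ := ⟨_, rfl⟩
  have hHQ : |QQ γ| + 1 ≤ H := by rw [hH]; exact Nat.le_ceil _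
  obtain ⟨C, hC, J0, hJ0⟩ := hmain z0 (by omega) H γ k hγ hk0
  obtain ⟨ρ, hρ⟩ : ∃ ρ : ℝ, ρ = QQ γ - ε := ⟨_, rfl⟩
  obtain ⟨lv, hlvd⟩ : ∃ lv : ℝ, lv = |Real.log (vv / Real.log b)| + |Real.log ((A + 1) * vv)| := ⟨_, rfl⟩
  have hlv : 0 ≤ lv := by rw [hlvd]; positivity
  obtain ⟨W, hW⟩ : ∃ W : ℝ, W = |Real.log (2 * k)| + (z0 + 2 * CM + 4 * (1 : ℕ)) := ⟨_, rfl⟩
  obtain ⟨C3, hC3⟩ : ∃ C3 : ℝ, C3 = b * Cst := ⟨_, rfl⟩
  have hC30 : 0 < C3 := by rw [hC3]; positivity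
  -- the eventual conditions in `L`
  have hevL : ∀ᶠ L : ℕ in atTop, ((2 ^ 2 ^ J0 : ℕ) : ℝ) ≤ (b : ℝ) ^ ((L : ℝ) / v) ∧
      (((z0 + 3) ^ 2 : ℕ) : ℝ) ≤ (b : ℝ) ^ ((L : ℝ) / v) ∧ 16 ≤ L * Real.log b ∧ 1 ≤ L ∧
      ∑ q ∈ (Icc 1 ⌊(b : ℝ) ^ ((49 / 100 : ℝ) * L)⌋₊).filter (fun q => q.Coprime (2 * b)),
        (q.divisors.card : ℝ) ^ 2 * er b L q ≤ (b : ℝ) ^ L / (L : ℝ) ^ (H + 4) := by
    have t1 : Tendsto (fun L : ℕ => (b : ℝ) ^ ((L : ℝ) / v)) atTop atTop := by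
      have t2 : Tendsto (fun L : ℕ => Real.exp (Real.log b * ((L : ℝ) / v))) atTop atTop := by
        apply Real.tendsto_exp_atTop.comp
        apply Tendsto.const_mul_atTop hlb
        exact tendsto_natCast_atTop_atTop.atTop_div_const hv0
      refine t2.congr fun L => ?_
      rw [Real.rpow_def_of_pos hb0]
    filter_upwards [t1.eventually_ge_atTop ((2 ^ 2 ^ J0 : ℕ) : ℝ), t1.eventually_ge_atTop (((z0 + 3) ^ 2 : ℕ) : ℝ),
      (tendsto_natCast_atTop_atTop.atTop_mul_const hlb).eventually_ge_atTop 16, eventually_ge_atTop 1,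
      er_final hb (H + 4)] with L h1 h2 h3 h4 h5
    exact ⟨h1, h2, h3, h4, h5⟩
  have hevl := ev_ld (η := η) (γ := γ) (k := k) (ε := ε) (W := W) (lv := lv)
    (D := 2 * (C3 * (C + 1)) * Real.exp (|ρ| * lv)) (z0 := z0) hη0 hk0 hε hlv
  have t4 : Tendsto (fun L : ℕ => Real.log ((L : ℝ) * (Real.log b / (2 * v)))) atTop atTop := by
    apply Real.tendsto_log_atTop.comp
    exact tendsto_natCast_atTop_atTop.atTop_mul_const (by positivity)
  obtain ⟨L1, hL1⟩ := eventually_atTop.1 (hevL.and (t4.eventually (eventually_forall_ge_atTop.2 hevl)))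
  refine ⟨L1, ?_⟩
  intro L N x hL hLN hθL hx1 hx2 a ha haA
  obtain ⟨⟨e1, e2, e3, e4, e5⟩, hlf⟩ := hL1 L hL
  obtain ⟨J, hJJ, hzY, hYz⟩ := ex_J e1
  obtain ⟨z, hz⟩ : ∃ z : ℕ, z = 2 ^ 2 ^ J := ⟨_, rfl⟩
  rw [← hz] at hzY hYz
  have hL0 : (0 : ℝ) < L := by exact_mod_cast e4
  have hN0 : (0 : ℝ) < N := by exact_mod_cast (show 0 < N by omega)
  have hLNr : (L : ℝ) ≤ N := by exact_mod_cast hLN.le
  have hzz1 : z0 + 3 ≤ z := by
    have h1 : (((z0 + 3 : ℕ) : ℝ)) ^ 2 < (z : ℝ) ^ 2 := by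
      refine lt_of_le_of_lt ?_ hYz
      exact_mod_cast e2
    have h2 := lt_of_pow_lt_pow_left₀ 2 (Nat.cast_nonneg z) h1
    exact_mod_cast h2.le
  have hz3 : 3 ≤ z := by omega
  have hz0' : (0 : ℝ) < z := by exact_mod_cast (show 0 < z by omega)
  have hlz : 0 < Real.log z := Real.log_pos (by exact_mod_cast (show 1 < z by omega))
  -- `log z` and `L`
  have hlzlo : (L : ℝ) * Real.log b ≤ 2 * v * Real.log z := by
    have h1 := Real.log_le_log (Real.rpow_pos_of_pos hb0 _) hYz.le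
    rw [Real.log_rpow hb0, Real.log_pow] at h1
    push_cast at h1
    have h2 : (L : ℝ) * Real.log b = v * (L / v * Real.log b) := by field_simp
    rw [h2]
    calc (v : ℝ) * (L / v * Real.log b) ≤ v * (2 * Real.log z) := mul_le_mul_of_nonneg_left h1 hv0.le
      _ = 2 * v * Real.log z := by ring
  have hlzhi : Real.log z ≤ L := by
    have h1 := Real.log_le_log hz0' hzY
    rw [Real.log_rpow hb0] at h1
    refine h1.trans ?_
    rw [div_mul_eq_mul_div, div_le_iff₀ hv0]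
    exact mul_le_mul_of_nonneg_left hvb hL0.le
  obtain ⟨y, hy⟩ : ∃ y : ℕ, y = b ^ N := ⟨_, rfl⟩
  have hyr : (y : ℝ) = (b : ℝ) ^ N := by rw [hy]; push_cast; rfl
  have hlyN : Real.log y = N * Real.log b := by rw [hyr, Real.log_pow]
  have hly16 : 16 ≤ Real.log y := by
    rw [hlyN]
    exact e3.trans (mul_le_mul_of_nonneg_right hLNr hlb.le)
  have hy1 : 0 < Real.log y := by linarith
  have hly : Real.log y ≤ vv * Real.log z := by
    have h1 : θ * (N * Real.log b) ≤ 2 * v * Real.log z := by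
      refine le_trans ?_ hlzlo
      rw [← mul_assoc]
      exact mul_le_mul_of_nonneg_right hθL hlb.le
    rw [hlyN, hvv, div_mul_eq_mul_div, le_div_iff₀ hθ]
    linarith
  have hzpow : ∀ k : ℕ, (z : ℝ) ^ k ≤ (b : ℝ) ^ ((L : ℝ) / v * k) := by
    intro k
    rw [Real.rpow_mul_natCast hb0.le]
    exact pow_le_pow_left₀ hz0'.le hzY k
  have hzx : z ≤ y := by
    have h1 : (z : ℝ) ≤ y := by
      rw [hyr, ← Real.rpow_natCast]
      refine hzY.trans (Real.rpow_le_rpow_of_exponent_le hb1 ?_)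
      refine le_trans ?_ hLNr
      apply div_le_self hL0.le
      exact_mod_cast hv1
    exact_mod_cast h1
  have hzu : (z : ℝ) ≤ (b : ℝ) ^ ((N : ℝ) / u) := by
    refine hzY.trans (Real.rpow_le_rpow_of_exponent_le hb1 ?_)
    apply div_le_div₀ hN0.le hLNr (by exact_mod_cast hu)
    exact_mod_cast (by omega : u ≤ v)
  have hzM : z ^ M ≤ ⌊(b : ℝ) ^ ((49 / 100 : ℝ) * L)⌋₊ := by
    apply Nat.le_floor
    push_cast
    refine (hzpow M).trans (Real.rpow_le_rpow_of_exponent_le hb1 ?_)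
    have h1 : (L : ℝ) / v * M ≤ L / 3 := by
      rw [div_mul_eq_mul_div, div_le_div_iff₀ hv0 (by norm_num)]
      have h2 : (3 * M : ℝ) ≤ v := by exact_mod_cast (by omega : 3 * M ≤ v)
      have := mul_le_mul_of_nonneg_left h2 hL0.le
      linarith
    linarith
  have hb2z : 2 * b ≤ z0 := by omega
  -- the distribution
  have hlev : ∀ e : ℕ, Lev (univ : Finset (Fin L → Fin b × Fin 1)) (VE b N L x e) ((b : ℝ) ^ L) (er b L) z0 z (z ^ M) := by
    intro e W' hW' hWY r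
    have h1 := VE_mod (N := N) (x := x) (e := e) hb (by omega : L + 1 ≤ N) (prod_coprime hb2z (by omega) hW') r
    have h3 : ((∏ p ∈ W', p : ℕ) : ℝ) = ∏ p ∈ W', (p : ℝ) := by push_cast; rfl
    rw [h3] at h1
    convert h1 using 4
  have hTE : TE 1 (er b L) z0 z (z ^ M) ≤ (b : ℝ) ^ L / Real.log z ^ (2 * 1 + H + 2) := by
    refine (TE_le (er_nonneg b L) hzM hb2z (by omega)).trans (e5.trans ?_)
    apply div_le_div_of_nonneg_left (by positivity) (by positivity)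
    have e : 2 * 1 + H + 2 = H + 4 := by ring
    rw [e]
    exact pow_le_pow_left₀ hlz.le hlzhi _
  -- `l = log log z`
  obtain ⟨Lz, hLz⟩ : ∃ Lz : ℝ, Lz = Real.log z := ⟨_, rfl⟩
  obtain ⟨l, hlL⟩ : ∃ l : ℝ, l = Real.log Lz := ⟨_, rfl⟩
  obtain ⟨lx, hlxd⟩ : ∃ lx : ℝ, lx = Real.log N := ⟨_, rfl⟩
  have hVb := pal_V (z0 := z0) hCM hz3 hlz hL0 hlb hlzlo
  rw [← hCst] at hVb
  rw [← hLz] at hlzlo hlzhi hly hlz hTE
  have hllx : l ≤ lx := by
    rw [hlL, hlxd]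
    exact Real.log_le_log hlz (hlzhi.trans hLNr)
  have hlxl : lx ≤ l + lv := by
    have h1 : (N : ℝ) ≤ vv / Real.log b * Lz := by
      rw [hlyN] at hly
      rw [div_mul_eq_mul_div, le_div_iff₀ hlb]
      exact hly
    have h2 := Real.log_le_log hN0 h1
    rw [Real.log_mul (by positivity) hlz.ne', ← hlL, ← hlxd] at h2
    have h3 := le_abs_self (Real.log (vv / Real.log b))
    have h4 := abs_nonneg (Real.log ((A + 1) * vv))
    rw [hlvd]
    linarith
  have hll : Real.log ((L : ℝ) * (Real.log b / (2 * v))) ≤ l := by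
    rw [hlL]
    apply Real.log_le_log (by positivity)
    rw [← mul_div_assoc, div_le_iff₀ (by positivity)]
    linarith
  obtain ⟨⟨f1, f1'⟩, f2, f3, f4, f5⟩ := hlf l hll
  -- the number `w'`
  obtain ⟨a', ha'⟩ : ∃ a' : ℝ, a' = Lz / (k * l) := ⟨_, rfl⟩
  have hkl : 0 < k * l := by linarith
  obtain ⟨w', hw'⟩ : ∃ w' : ℕ, w' = ⌊Real.exp a'⌋₊ := ⟨_, rfl⟩
  have hLe : Lz = Real.exp l := by rw [hlL, Real.exp_log hlz]
  obtain ⟨ha2, haL⟩ := a_ld f1 f1' f2 hLe ha'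
  obtain ⟨hw3, hwhi, hlwa, hlwb⟩ := fl_exp ha2 hw'
  have hexpL : Real.exp Lz = z := by rw [hLz]; exact Real.exp_log hz0'
  have hwz : w' ≤ z := by
    have h1 : (w' : ℝ) ≤ z := by
      rw [← hexpL]
      exact hwhi.trans (Real.exp_le_exp.2 haL)
    exact_mod_cast h1
  -- the classes
  obtain ⟨ro, hroq⟩ := ro_ok a
  obtain ⟨Q, hQ⟩ : ∃ Q : Finset ℕ, Q = (Pr z0 w').filter
    (fun q : ℕ => ∀ t ∈ ({0} : Finset ℤ), ¬ (q : ℤ) ∣ a - t) := ⟨_, rfl⟩
  have hdat : Dat 1 z0 z (fun _ => ({0} : Finset ℕ)) ro Q := pal_dat hwz hQ hroq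
  have hQw : ∀ q ∈ Q, (q : ℝ) ≤ Real.exp (Lz / (k * l)) := by
    intro q hq
    rw [hQ, mem_filter, Pr_mem] at hq
    rw [← ha']
    exact le_trans (by exact_mod_cast hq.1.1.2) hwhi
  -- the number of prime factors
  obtain ⟨D, hD⟩ : ∃ D : ℝ, D = z0 + η / 4 * l := ⟨_, rfl⟩
  have hdev : ∀ n : ℕ, (∀ q : ℕ, q.Prime → q ≤ z → ¬ q ∣ n) → n < b ^ (2 * N + 1) → (n : ℤ) + a ≠ 0 →
      (hit ro Q n).card ≤ ((n : ℤ) + a).natAbs.primeFactors.card ∧
      (((n : ℤ) + a).natAbs.primeFactors.card : ℝ) ≤ (hit ro Q n).card + D := by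
    intro n hrough hnb hna
    rw [hD]
    apply dev_ld hQ (fun q hq => (hroq q hq).2 n) (fun q hq hqw t ht => ?_) hna (by omega)
    · refine (pal_size hb (by omega) hy hnb haA hna).trans ?_
      have h10 : ((A : ℝ) + 4) * Real.log y ≤ ((A : ℝ) + 4) * ((vv + 1) * Lz) := by
        apply mul_le_mul_of_nonneg_left _ (by positivity)
        linarith
      have h11 : η / 4 * l * (a' / 2) = ((A : ℝ) + 4) * ((vv + 1) * Lz) := by
        rw [← hkA, ha']
        field_simp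
      have h12 : η / 4 * l * (a' / 2) ≤ η / 4 * l * Real.log w' :=
        mul_le_mul_of_nonneg_left hlwb (by positivity)
      linarith
    · rw [mem_singleton] at ht
      rw [ht, add_zero]
      intro h
      exact hrough q hq (hqw.trans hwz) (Int.natCast_dvd_natCast.1 h)
  -- the mean value
  have hmean : |∑ q ∈ Q, 1 / (q : ℝ) - l| ≤ η / 4 * l := by
    obtain ⟨xx, hxx⟩ : ∃ xx : ℕ, xx = y ^ (A + 1) := ⟨_, rfl⟩
    have hy2 : 2 ≤ y := by
      rw [hy]
      exact hb.trans (Nat.le_self_pow (by omega) b)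
    have hyA : y ^ A ≤ xx := by rw [hxx]; exact Nat.pow_le_pow_right (by omega) (by omega)
    have hyx : y ≤ xx := by rw [hxx]; exact Nat.le_self_pow (by omega) y
    have hlxx : Real.log xx = (A + 1) * Real.log y := by
      rw [hxx]
      push_cast
      rw [Real.log_pow]
      push_cast
      rfl
    have hlxx16 : 16 ≤ Real.log xx := by
      rw [hlxx]
      have : (0 : ℝ) ≤ A := Nat.cast_nonneg _
      nlinarith
    have hax : |a| ≤ xx := by
      refine haA.trans ?_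
      have h63 : ((y ^ A : ℕ) : ℤ) = (b : ℤ) ^ (A * N) := by
        rw [hy, ← pow_mul, mul_comm N A]
        push_cast
        rfl
      rw [← h63]
      exact_mod_cast hyA
    obtain ⟨m1, m2⟩ := mean_ld (r := 1) (T := {0}) (x := xx) (card_singleton _) (by
      intro t ht
      rw [mem_singleton] at ht
      rw [ht, abs_zero]
      exact Int.natCast_nonneg _) (by rwa [mem_singleton]) hax hCM (z0 := z0) (by omega) hw3 hlxx16 hQ
    have hlw0 : 0 < Real.log w' := by linarith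
    have n0' : Real.log (Real.log xx) ≤ l + lv := by
      have h1 : Real.log xx ≤ (A + 1) * vv * Lz := by
        rw [hlxx]
        have h2 := mul_le_mul_of_nonneg_left hly (show (0 : ℝ) ≤ A + 1 by positivity)
        linarith
      have h2 := Real.log_le_log (by linarith) h1
      rw [Real.log_mul (by positivity) hlz.ne', ← hlL] at h2
      have h3 := le_abs_self (Real.log ((A + 1) * vv))
      have h4 := abs_nonneg (Real.log (vv / Real.log b))
      rw [hlvd]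
      linarith
    have n1' : 0 < Real.log (Real.log xx) := Real.log_pos (by linarith)
    have n1 : Real.log (Real.log (Real.log xx)) ≤ Real.log (l + lv) := Real.log_le_log n1' n0'
    have n2 : Real.log l ≤ Real.log (l + lv) := Real.log_le_log (by linarith) (by linarith)
    have n3 : 0 ≤ Real.log (l + lv) := Real.log_nonneg (by linarith)
    have n4 : Real.log (Real.log w') ≤ l := by
      rw [hlL]
      exact Real.log_le_log hlw0 (hlwa.trans haL)
    have n5 : l - (Real.log (2 * k) + Real.log l) ≤ Real.log (Real.log w') := by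
      have h6 : Real.log (a' / 2) ≤ Real.log (Real.log w') := Real.log_le_log (by linarith) hlwb
      have h7 : Real.log (a' / 2) = l - (Real.log (2 * k) + Real.log l) := by
        rw [ha', div_div, Real.log_div hlz.ne' (by positivity), ← hlL,
          show k * l * 2 = (2 * k) * l by ring, Real.log_mul (by positivity) (by linarith)]
      linarith
    have n6 := le_abs_self (Real.log (2 * k))
    have n7 : (0 : ℝ) ≤ z0 := Nat.cast_nonneg _
    have n8 : (0 : ℝ) ≤ ((1 : ℕ) : ℝ) := Nat.cast_nonneg _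
    have n9 := abs_nonneg (Real.log (2 * k))
    rw [hW] at f3
    rw [abs_le]
    constructor <;> linarith
  -- the threshold
  obtain ⟨lam, hlam⟩ : ∃ lam : ℝ, lam = γ * lx - if 1 ≤ γ then D + k * l else 0 := ⟨_, rfl⟩
  obtain ⟨P, hP⟩ : ∃ P : ℕ → Prop, P = fun m => ∃ w : ℕ, m ≤ w ∧ (w : ℝ) ≤ (m : ℝ) + D ∧
    0 ≤ (γ - 1) * ((w : ℝ) - γ * lx) := ⟨_, rfl⟩
  obtain ⟨F, hF⟩ : ∃ F : ℝ, F = C * Real.exp ((γ - 1) * ∑ q ∈ Q, 1 / (q : ℝ) - lam * Real.log γ) +
    Real.exp (-(H * l)) := ⟨_, rfl⟩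
  have hF0 : 0 ≤ F := by rw [hF]; positivity
  obtain ⟨T, hT⟩ : ∃ T : ℕ → Finset (Fin L → Fin b × Fin 1), T = fun e => univ.filter
      (fun m => Av (fun _ => ({0} : Finset ℕ)) z0 z (VE b N L x e m) ∧ P (hit ro Q (VE b N L x e m)).card) := ⟨_, rfl⟩
  have hTb : ∀ e : ℕ, ((T e).card : ℝ) ≤ (b : ℝ) ^ L * VV (fun _ => ({0} : Finset ℕ)) z0 z * F := by
    intro e
    have h1 := hlev e
    have h3 : Dat 1 z0 (2 ^ 2 ^ J) (fun _ => ({0} : Finset ℕ)) ro Q := by rw [← hz]; exact hdat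
    have hTE' := hTE
    rw [hLz] at hTE'
    rw [hz] at h1 hTE'
    have h2 := hJ0 J hJJ _ univ (VE b N L x e) ((b : ℝ) ^ L) (er b L) (by positivity) (er_nonneg b L) h1 hTE'
      (fun _ => ({0} : Finset ℕ)) ro Q h3 (by
        rw [← hz, ← hLz, ← hlL]
        exact hQw) P lam (by
        intro a b hb h
        rw [← hz, ← hLz, ← hlL] at hb
        rw [hP] at h
        exact ld_thr hγ hlam hb h)
    rw [← hz, ← hLz, ← hlL, ← hF] at h2
    rw [hT]
    exact h2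
  obtain ⟨S, hS⟩ : ∃ S : Finset ℕ, S = (range (b ^ (2 * N + 1))).filter (fun n : ℕ => (Nat.digits b n).reverse = Nat.digits b n ∧
      n / b ^ (N + L + 1) = x / b ^ (N + L + 1) ∧
      (n.Prime ∨ ∀ q : ℕ, q.Prime → q ∣ n → (b : ℝ) ^ ((N : ℝ) / u) < q) ∧ (n : ℤ) + a ≠ 0 ∧
      0 ≤ (γ - 1) * ((((n : ℤ) + a).natAbs.primeFactors.card : ℝ) - γ * Real.log N)) := ⟨_, rfl⟩
  rw [← hS]
  have hsub : S ⊆ (range b).biUnion (fun e => (T e).image (VE b N L x e)) := by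
    intro n hn
    rw [hS, mem_filter, mem_range] at hn
    obtain ⟨g1, g2, g3, g4, g40, g41⟩ := hn
    have g5 : b ^ (2 * N) ≤ n := by
      have e1 : b ^ (N - L - 1) ≤ x / b ^ (N + L + 1) := by
        rw [Nat.le_div_iff_mul_le (by positivity), ← pow_add]
        rwa [show N - L - 1 + (N + L + 1) = 2 * N by omega]
      rw [← g3, Nat.le_div_iff_mul_le (by positivity), ← pow_add,
        show N - L - 1 + (N + L + 1) = 2 * N by omega] at e1
      exact e1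
    have hyn : y < n := by
      refine lt_of_lt_of_le ?_ g5
      rw [hy]
      exact Nat.pow_lt_pow_right (by omega) (by omega)
    have hrough : ∀ q : ℕ, q.Prime → q ≤ z → ¬ q ∣ n := by
      intro q hq hqz hd
      rcases g4 with h | h
      · have h1 := (Nat.prime_dvd_prime_iff_eq hq h).1 hd
        omega
      · have h1 := h q hq hd
        have h2 : (q : ℝ) ≤ z := by exact_mod_cast hqz
        linarith
    have g6 := VE_surj hb g5 g1 g2 g3
    rw [mem_biUnion]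
    refine ⟨n / b ^ N % b, mem_range.2 (Nat.mod_lt _ (by omega)), ?_⟩
    rw [mem_image]
    refine ⟨_, ?_, g6.symm⟩
    rw [hT]
    simp only [mem_filter, mem_univ, true_and]
    rw [← g6]
    refine ⟨?_, ?_⟩
    · intro p hp hcon
      have hpp := Pr_mem.1 hp
      rw [mem_singleton] at hcon
      exact hrough p hpp.2 hpp.1.2 (Nat.dvd_of_mod_eq_zero hcon)
    · obtain ⟨h5, h6⟩ := hdev n hrough g1 g40
      rw [← hlxd] at g41
      rw [hP]
      exact ⟨_, h5, h6, g41⟩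
  have h3 : (S.card : ℝ) ≤ ∑ e ∈ range b, ((T e).card : ℝ) := by
    have h4 : S.card ≤ ∑ e ∈ range b, (T e).card :=
      (card_le_card hsub).trans (card_biUnion_le.trans (sum_le_sum fun e _ => card_image_le))
    exact_mod_cast h4
  refine h3.trans ((sum_le_sum fun e _ => hTb e).trans ?_)
  rw [sum_const, card_range, nsmul_eq_mul]
  -- the exponents
  have hexp := ld_exp (lam := lam) (by linarith) hη0.le hγ hllx hlxl (Nat.cast_nonneg z0) hlv f4 hkη hmean hηe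
    (by rw [← hD]; exact hlam)
  have hnum := ld_num (by linarith) hε hC.le hC30.le hllx hlxl hρ hHQ f5
  have hpow : (N : ℝ) ^ (-(QQ γ - ε)) = Real.exp (lx * -ρ) := by
    rw [Real.rpow_def_of_pos hN0, ← hlxd, ← hρ]
  rw [hpow]
  have i1 : F ≤ C * Real.exp (-(QQ γ * l) + ε / 4 * l) + Real.exp (-(H * l)) := by
    rw [hF]
    apply add_le_add _ le_rfl
    exact mul_le_mul_of_nonneg_left (Real.exp_le_exp.2 hexp) hC.le
  have i2 : 0 ≤ C3 * (C * Real.exp (-(QQ γ * l) + ε / 4 * l) + Real.exp (-(H * l))) := by positivity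
  calc (b : ℝ) * ((b : ℝ) ^ L * VV (fun _ => ({0} : Finset ℕ)) z0 z * F)
      ≤ b * ((b : ℝ) ^ L * (Cst / L) * F) := by
        apply mul_le_mul_of_nonneg_left _ hb0.le
        apply mul_le_mul_of_nonneg_right _ hF0
        exact mul_le_mul_of_nonneg_left hVb (by positivity)
    _ ≤ b * ((b : ℝ) ^ L * (Cst / L) * (C * Real.exp (-(QQ γ * l) + ε / 4 * l) + Real.exp (-(H * l)))) := by
        apply mul_le_mul_of_nonneg_left _ hb0.le
        exact mul_le_mul_of_nonneg_left i1 (by positivity)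
    _ = (b : ℝ) ^ L / L * (C3 * (C * Real.exp (-(QQ γ * l) + ε / 4 * l) + Real.exp (-(H * l)))) := by
        rw [hC3]
        ring
    _ ≤ _ := by
        apply mul_le_mul_of_nonneg_left _ (by positivity)
        linarith

end Pool.Agent.X26.AN
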