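import Pool.Agent.X26.AN.SysTK

/-!
# The mean value for `f = 1`
-/

set_option autoImplicit false

namespace Pool.Agent.X26.AN

open Finset Filter Polynomial
open Pool.Agent.Y843.HS (Pr VV Pr_mem Pr_prime VV_split)
open Pool.Agent.X26.GP (Zf NF mem_Zf_mod Zf_lt small_values Zf_card_le)
open Pool.Agent.W123.RU.Poly (Sys ncolR)
open Pool.Agent.H474R2.PG (rho Sg rho_le)

theorem Zf_rho (G : ℤ[X]) (q : ℕ) : (Zf G q).card = rho G q := by
  unfold Zf rho
  congr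

/-- the mean value of the number of the prime factors of `G n` -/
theorem mean_one {k : ℕ} (F : Fin k → ℤ[X]) (hF : Sys F) (G : ℤ[X]) (hG : Irreducible G) (hGd : 0 < G.natDegree)
    (hGl : 0 < G.leadingCoeff) (hGF : ∀ i, F i ≠ G) : ∃ C : ℝ, 0 ≤ C ∧ ∀ x : ℕ, 3 ≤ x →
    |mnP (fun _ => 1) (∏ i, F i) G x - Real.log (Real.log x)| ≤ C := by
  classical
  obtain ⟨C, hC0, hC⟩ := Pool.Agent.H474R2.GE.mertens_rho G hG hGd
  obtain ⟨B, hB⟩ := rho_le G hG.ne_zero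
  choose R hR1 hR2 using fun i => ncolR (F i) G (hF.irr i) hG (hF.deg i) hGd (hF.lead i) hGl
  have hne : ∏ i, F i ≠ 0 := prod_ne_zero_iff.2 fun i _ => (hF.irr i).ne_zero
  have hNF : NF (∏ i, F i) := by
    intro q hq
    obtain ⟨m, hm⟩ := hF.adm q hq
    refine ⟨m, fun h => ?_⟩
    rw [Polynomial.eval_prod, (Nat.prime_iff_prime_int.1 hq).dvd_finsetProd_iff] at h
    obtain ⟨i, _, hi⟩ := h
    exact hm i hi
  obtain ⟨r, hr⟩ : ∃ r : ℕ, r = max (∏ i, F i).natDegree G.natDegree := ⟨_, rfl⟩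
  obtain ⟨q0, hq0⟩ : ∃ q0 : ℕ, q0 = ∑ i, ((R i).eval 0).natAbs + B + (2 * r + 2) := ⟨_, rfl⟩
  refine ⟨q0 + q0 + 2 * (r : ℝ) ^ 2 + C, by positivity, fun x hx => ?_⟩
  have hbig : ∀ q : ℕ, q.Prime → q0 < q → |rh (∏ i, F i) G q - (rho G q : ℝ) / q| ≤ 2 * (r : ℝ) ^ 2 * (1 / (q : ℝ) ^ 2) := by
    intro q hq hqq
    have hdis : Disjoint (Zf G q) (Zf (∏ i, F i) q) := by
      rw [disjoint_left]
      intro c hc1 hc2
      unfold Zf at hc1 hc2
      rw [mem_filter] at hc1 hc2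
      have h1 := hc2.2
      rw [Polynomial.eval_prod, (Nat.prime_iff_prime_int.1 hq).dvd_finsetProd_iff] at h1
      obtain ⟨i, _, hi⟩ := h1
      have h2 := hR2 i 0 c q hi (by rw [add_zero]; exact hc1.2)
      have h3 := hR1 i 0 (by
        intro h
        rw [map_zero, add_zero, comp_X] at h
        exact hGF i h)
      have h4 := Int.natAbs_le_of_dvd_ne_zero h2 h3
      rw [Int.natAbs_natCast] at h4
      have h5 : ((R i).eval 0).natAbs ≤ ∑ i, ((R i).eval 0).natAbs :=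
        Finset.single_le_sum (f := fun i => ((R i).eval 0).natAbs) (fun _ _ => Nat.zero_le _) (mem_univ i)
      omega
    have hRg : Rg (∏ i, F i) G q = Zf G q := by
      unfold Rg
      exact sdiff_eq_self_of_disjoint hdis
    have hd : DatG r q0 q (Zf (∏ i, F i)) (Rg (∏ i, F i) G) {q} := by
      refine ⟨fun p hp => ⟨(Zf_card_le hNF hp).trans (by omega), Zf_lt _ p⟩, ?_, ?_⟩
      · intro p hp
        rw [mem_singleton] at hp
        rw [hp, Pr_mem]
        exact ⟨⟨hqq, le_rfl⟩, hq⟩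
      · intro p hp
        rw [mem_singleton] at hp
        rw [hp, hRg]
        refine ⟨?_, Zf_lt G q, hdis⟩
        rw [Zf_rho]
        exact (hB q hq (by omega)).trans (by omega)
    obtain ⟨_, _, _, h2, h3⟩ := gG_bd hd (by omega) q (mem_singleton_self q)
    have e : rh (∏ i, F i) G q = ((Rg (∏ i, F i) G q).card : ℝ) / ((q : ℝ) - (Zf (∏ i, F i) q).card) := rfl
    rw [e, ← Zf_rho, ← hRg, abs_of_nonneg (sub_nonneg.2 h2)]
    exact h3
  have hsmall : ∀ q : ℕ, q.Prime → |rh (∏ i, F i) G q - (rho G q : ℝ) / q| ≤ 1 := by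
    intro q hq
    have h1 := rh_bd hNF G hq
    have h2 : (0 : ℝ) ≤ (rho G q : ℝ) / q := by positivity
    have h3 : (rho G q : ℝ) / q ≤ 1 := by
      rw [div_le_one (by exact_mod_cast hq.pos)]
      exact_mod_cast Pool.Agent.H474R2.PG.rho_le_self G q
    rw [abs_le]
    constructor <;> linarith
  have hsplit : ∀ g : ℕ → ℝ, ∑ q ∈ Pr 0 x, g q = ∑ q ∈ (Pr 0 x).filter (fun q => q ≤ q0), g q +
      ∑ q ∈ (Pr 0 x).filter (fun q => ¬ q ≤ q0), g q := fun g => (sum_filter_add_sum_filter_not _ _ _).symm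
  have hSg : Sg (rho G) (x : ℝ) = ∑ q ∈ Pr 0 x, (rho G q : ℝ) / q := by
    unfold Sg Pool.Agent.H474R2.PG.PR Pr
    rw [Nat.floor_natCast]
    apply sum_congr _ fun _ _ => rfl
    ext p
    simp only [mem_filter, mem_Icc, mem_Ioc]
    constructor
    · rintro ⟨⟨h1, h2⟩, h3⟩
      exact ⟨⟨by omega, h2⟩, h3⟩
    · rintro ⟨⟨h1, h2⟩, h3⟩
      exact ⟨⟨by omega, h2⟩, h3⟩
  have h1 := hC x (by exact_mod_cast hx)
  rw [hSg] at h1
  have h2 : |mnP (fun _ => 1) (∏ i, F i) G x - ∑ q ∈ Pr 0 x, (rho G q : ℝ) / q| ≤ q0 + 2 * (r : ℝ) ^ 2 := by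
    have e : mnP (fun _ => 1) (∏ i, F i) G x - ∑ q ∈ Pr 0 x, (rho G q : ℝ) / q =
        ∑ q ∈ Pr 0 x, (rh (∏ i, F i) G q - (rho G q : ℝ) / q) := by
      unfold mnP
      rw [← sum_sub_distrib]
      apply sum_congr rfl
      intro q _
      rw [one_mul]
    rw [e]
    refine (abs_sum_le_sum_abs _ _).trans ?_
    rw [hsplit]
    apply add_le_add
    · have h3 : ∑ q ∈ (Pr 0 x).filter (fun q => q ≤ q0), |rh (∏ i, F i) G q - (rho G q : ℝ) / q| ≤
          ∑ q ∈ (Pr 0 x).filter (fun q => q ≤ q0), (1 : ℝ) :=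
        sum_le_sum fun q hq => hsmall q (Pr_prime (mem_filter.1 hq).1)
      refine h3.trans ?_
      rw [sum_const, nsmul_eq_mul, mul_one]
      have h4 : (Pr 0 x).filter (fun q => q ≤ q0) ⊆ Icc 1 q0 := by
        intro q hq
        rw [mem_filter, Pr_mem] at hq
        rw [mem_Icc]
        omega
      have h5 := card_le_card h4
      rw [Nat.card_Icc, Nat.add_sub_cancel] at h5
      exact_mod_cast h5
    · have h3 : ∑ q ∈ (Pr 0 x).filter (fun q => ¬ q ≤ q0), |rh (∏ i, F i) G q - (rho G q : ℝ) / q| ≤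
          ∑ q ∈ (Pr 0 x).filter (fun q => ¬ q ≤ q0), 2 * (r : ℝ) ^ 2 * (1 / (q : ℝ) ^ 2) := by
        apply sum_le_sum
        intro q hq
        rw [mem_filter] at hq
        exact hbig q (Pr_prime hq.1) (not_le.1 hq.2)
      refine h3.trans ?_
      rw [← mul_sum]
      have hsq : ∑ q ∈ (Pr 0 x).filter (fun q => ¬ q ≤ q0), 1 / (q : ℝ) ^ 2 ≤ 1 := by
        have h1 := Pool.Agent.Y79.HS.sum_sq_le (s := q0) (z := x) (by omega)
        have h2 : ∑ q ∈ (Pr 0 x).filter (fun q => ¬ q ≤ q0), 1 / (q : ℝ) ^ 2 ≤ ∑ p ∈ Pr q0 x, 1 / (p : ℝ) ^ 2 := by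
          apply sum_le_sum_of_subset_of_nonneg
          · intro q hq
            rw [mem_filter, Pr_mem] at hq
            rw [Pr_mem]
            exact ⟨⟨not_le.1 hq.2, hq.1.1.2⟩, hq.1.2⟩
          · intro q _ _
            positivity
        have h3 : 1 / (q0 : ℝ) ≤ 1 := by
          have : (1 : ℝ) ≤ q0 := by exact_mod_cast (by omega : 1 ≤ q0)
          rw [div_le_one (by linarith)]
          exact this
        linarith
      calc 2 * (r : ℝ) ^ 2 * ∑ q ∈ (Pr 0 x).filter (fun q => ¬ q ≤ q0), 1 / (q : ℝ) ^ 2 ≤ 2 * (r : ℝ) ^ 2 * 1 :=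
            mul_le_mul_of_nonneg_left hsq (by positivity)
        _ = 2 * (r : ℝ) ^ 2 := mul_one _
  have h3 := abs_add_le (mnP (fun _ => 1) (∏ i, F i) G x - ∑ q ∈ Pr 0 x, (rho G q : ℝ) / q)
    (∑ q ∈ Pr 0 x, (rho G q : ℝ) / q - Real.log (Real.log x))
  have e : mnP (fun _ => 1) (∏ i, F i) G x - ∑ q ∈ Pr 0 x, (rho G q : ℝ) / q +
    (∑ q ∈ Pr 0 x, (rho G q : ℝ) / q - Real.log (Real.log x)) =
    mnP (fun _ => 1) (∏ i, F i) G x - Real.log (Real.log x) := by ring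
  rw [e] at h3
  have h4 : (0 : ℝ) ≤ q0 := Nat.cast_nonneg _
  linarith

end Pool.Agent.X26.AN
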