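import Pool.Agent.X26.AN.ShF

/-!
# Primes in almost all shifts of the palindromes: residue classes and sums of a prime and a palindrome
-/

set_option autoImplicit false

namespace Pool.Agent.X26.AN

open Finset
open Pool.Agent.Y816.PS (VE ae ae_out pal pal_eq top_digit)
open Pool.Agent.X37.PL (PalS PalS_eq)

lemma PalS_form {b L x e n : ℕ} (hb : 2 ≤ b) (h1 : b ^ (2 * (L + 1)) ≤ x) (hx : x < b ^ (2 * (L + 1) + 1)) (he : e < b)
    (hn : n ∈ PalS b (L + 1) L x e) : ∃ a : ℕ → ℕ, a (L + 1) = x / b ^ (2 * (L + 1)) ∧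
      n = e * b ^ (L + 1) + ∑ c ∈ range (L + 1), a (c + 1) * (b ^ (L + 1 + c + 1) + b ^ (L - c)) := by
  rw [PalS_eq hb le_rfl h1 hx he, mem_image] at hn
  obtain ⟨m, -, rfl⟩ := hn
  refine ⟨ae b (L + 1) L x e m, ?_, ?_⟩
  · rw [ae_out m (by omega), top_digit hb hx]
  · have h0 : VE b (L + 1) L x e m = pal b (L + 1) (ae b (L + 1) L x e m) := rfl
    have h2 : ae b (L + 1) L x e m 0 = e := by simp [ae]
    rw [h0, pal_eq, h2, Nat.add_sub_cancel]

lemma PalS_mod {b L x e n : ℕ} (hb : 2 ≤ b) (h1 : b ^ (2 * (L + 1)) ≤ x) (hx : x < b ^ (2 * (L + 1) + 1)) (he : e < b)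
    (hn : n ∈ PalS b (L + 1) L x e) : (b : ℤ) ∣ (n : ℤ) - ((x / b ^ (2 * (L + 1)) : ℕ) : ℤ) := by
  obtain ⟨a, h2, h3⟩ := PalS_form hb h1 hx he hn
  rw [h3, ← h2, sum_range_succ]
  push_cast
  rw [Nat.sub_self, pow_zero]
  have e2 : (b : ℤ) ∣ ∑ c ∈ range L, (a (c + 1) : ℤ) * ((b : ℤ) ^ (L + 1 + c + 1) + (b : ℤ) ^ (L - c)) := by
    apply dvd_sum
    intro c hc
    rw [mem_range] at hc
    apply Dvd.dvd.mul_left
    exact dvd_add (dvd_pow_self _ (by omega)) (dvd_pow_self _ (by omega))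
  have e3 : (b : ℤ) ∣ (b : ℤ) ^ (L + 1) := dvd_pow_self _ (by omega)
  have e4 : (b : ℤ) ∣ (b : ℤ) ^ (L + 1 + L + 1) := dvd_pow_self _ (by omega)
  have e5 := dvd_add (dvd_add (e3.mul_left (e : ℤ)) e2) (e4.mul_left (a (L + 1) : ℤ))
  have e6 : (e : ℤ) * (b : ℤ) ^ (L + 1) + (∑ c ∈ range L, (a (c + 1) : ℤ) * ((b : ℤ) ^ (L + 1 + c + 1) + (b : ℤ) ^ (L - c)) +
      (a (L + 1) : ℤ) * ((b : ℤ) ^ (L + 1 + L + 1) + 1)) - (a (L + 1) : ℤ) =
      (e : ℤ) * (b : ℤ) ^ (L + 1) + ∑ c ∈ range L, (a (c + 1) : ℤ) * ((b : ℤ) ^ (L + 1 + c + 1) + (b : ℤ) ^ (L - c)) +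
      (a (L + 1) : ℤ) * (b : ℤ) ^ (L + 1 + L + 1) := by ring
  rw [e6]
  exact e5

lemma PalS_two {b L x e n : ℕ} (hb : 2 ≤ b) (hodd : Odd b) (h1 : b ^ (2 * (L + 1)) ≤ x) (hx : x < b ^ (2 * (L + 1) + 1)) (he : e < b)
    (hn : n ∈ PalS b (L + 1) L x e) : (2 : ℤ) ∣ (n : ℤ) - (e : ℤ) := by
  obtain ⟨a, h2, h3⟩ := PalS_form hb h1 hx he hn
  have hbz : Odd (b : ℤ) := by exact_mod_cast hodd
  rw [h3]
  push_cast
  have e2 : (2 : ℤ) ∣ ∑ c ∈ range (L + 1), (a (c + 1) : ℤ) * ((b : ℤ) ^ (L + 1 + c + 1) + (b : ℤ) ^ (L - c)) := by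
    apply dvd_sum
    intro c _
    apply Dvd.dvd.mul_left
    exact (hbz.pow.add_odd hbz.pow).two_dvd
  have e3 : (2 : ℤ) ∣ (b : ℤ) ^ (L + 1) - 1 := (hbz.pow.sub_odd odd_one).two_dvd
  have e5 := dvd_add (e3.mul_left (e : ℤ)) e2
  have e6 : (e : ℤ) * (b : ℤ) ^ (L + 1) + ∑ c ∈ range (L + 1), (a (c + 1) : ℤ) * ((b : ℤ) ^ (L + 1 + c + 1) + (b : ℤ) ^ (L - c)) - (e : ℤ) =
      (e : ℤ) * ((b : ℤ) ^ (L + 1) - 1) + ∑ c ∈ range (L + 1), (a (c + 1) : ℤ) * ((b : ℤ) ^ (L + 1 + c + 1) + (b : ℤ) ^ (L - c)) := by ring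
  rw [e6]
  exact e5

lemma PalS_res {b L x e n n' p : ℕ} (hb : 2 ≤ b) (h1 : b ^ (2 * (L + 1)) ≤ x) (hx : x < b ^ (2 * (L + 1) + 1)) (he : e < b)
    (hn : n ∈ PalS b (L + 1) L x e) (hn' : n' ∈ PalS b (L + 1) L x e) (hp : p.Prime) (hpb : p ∣ 2 * b) :
    (p : ℤ) ∣ (n : ℤ) - n' := by
  by_cases hb' : p ∣ b
  · have hbz : (p : ℤ) ∣ (b : ℤ) := by exact_mod_cast hb'
    have h2 := dvd_sub (PalS_mod hb h1 hx he hn) (PalS_mod hb h1 hx he hn')
    refine hbz.trans ?_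
    rw [sub_sub_sub_cancel_right] at h2
    exact h2
  · have hp2 : p = 2 := (Nat.prime_dvd_prime_iff_eq hp Nat.prime_two).1 ((hp.dvd_mul.1 hpb).resolve_right hb')
    have hodd : Odd b := by
      rw [← Nat.not_even_iff_odd, even_iff_two_dvd, ← hp2]
      exact hb'
    have h2 := dvd_sub (PalS_two hb hodd h1 hx he hn) (PalS_two hb hodd h1 hx he hn')
    rw [sub_sub_sub_cancel_right] at h2
    rw [hp2]
    exact h2

/-- the palindromes in base `b` with `2 N + 1` digits, leading digit `d` and middle digit `e` -/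
def PalD (b N d e : ℕ) : Finset ℕ := (range (b ^ (2 * N + 1))).filter (fun n =>
  (Nat.digits b n).reverse = Nat.digits b n ∧ n / b ^ (2 * N) = d ∧ n / b ^ N % b = e)

lemma PalD_eq {b N L d e : ℕ} (hb : 2 ≤ b) (hd : 1 ≤ d) (hN : N = L + 1) : PalD b N d e = PalS b (L + 1) L (d * b ^ (2 * N)) e := by
  have hp : 0 < b ^ (2 * N) := by positivity
  unfold PalD PalS
  rw [← hN, show N + L + 1 = 2 * N by omega, Nat.mul_div_cancel _ hp]
  apply filter_congr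
  intro n _
  constructor
  · rintro ⟨g1, g2, g3⟩
    refine ⟨?_, g1, g2, g3⟩
    rw [← g2] at hd
    exact (Nat.one_le_div_iff hp).1 hd
  · rintro ⟨-, g1, g2, g3⟩
    exact ⟨g1, g2, g3⟩

lemma x_ok {b N d : ℕ} (hb : 2 ≤ b) (hd : 1 ≤ d) (hdb : d < b) : b ^ (2 * N) ≤ d * b ^ (2 * N) ∧ d * b ^ (2 * N) < b ^ (2 * N + 1) := by
  constructor
  · exact Nat.le_mul_of_pos_left _ hd
  · rw [pow_succ, mul_comm]
    exact Nat.mul_lt_mul_of_pos_left hdb (by positivity)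

/-- the final form -/
theorem shift_final {b : ℕ} (hb : 2 ≤ b) (κ : ℤ) (hκ : κ ≠ 0) (A B : ℕ) (ε : ℝ) (hε : 0 < ε) :
    ∃ N0 : ℕ, ∀ N d e : ℕ, N0 ≤ N → 1 ≤ d → d < b → e < b → ∀ S : Finset ℤ,
    S ⊆ Icc (-(B * (b : ℤ) ^ (2 * N + 1))) (B * (b : ℤ) ^ (2 * N + 1)) →
    (∀ h ∈ S, (∀ n ∈ PalD b N d e, 1 ≤ h + κ * n) ∧
      (∀ p : ℕ, p.Prime → ∃ n ∈ PalD b N d e, ¬ (p : ℤ) ∣ h + κ * n) ∧
      ε * (cst b κ * (b : ℝ) ^ (N - 1) / (2 * N * Real.log b)) <
        |(((PalD b N d e).filter (fun n : ℕ => (h + κ * (n : ℤ)).toNat.Prime)).card : ℝ) -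
          cst b κ * (b : ℝ) ^ (N - 1) / (2 * N * Real.log b)|) →
    (S.card : ℝ) ≤ (b : ℝ) ^ (2 * N) / (N : ℝ) ^ A := by
  obtain ⟨N0, h0⟩ := shift_count hb κ hκ A B ε hε
  refine ⟨N0 + 1, ?_⟩
  intro N d e hN hd hdb he S hS hSP
  obtain ⟨L, hL⟩ : ∃ L, N = L + 1 := ⟨N - 1, by omega⟩
  obtain ⟨hx1, hx2⟩ := x_ok (N := N) hb hd hdb
  rw [PalD_eq hb hd hL] at hSP
  have hc : (b : ℝ) ^ (N - 1) = (b : ℝ) ^ L := by rw [hL, Nat.add_sub_cancel]
  rw [hc] at hSP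
  subst hL
  apply h0 L (d * b ^ (2 * (L + 1))) e (by omega) hx1 hx2 he S hS
  intro h hh
  obtain ⟨g1, g2, g3⟩ := hSP h hh
  refine ⟨g1, ?_, ?_⟩
  · intro p hp hpd n hn hdv
    obtain ⟨n', hn', g4⟩ := g2 p hp
    apply g4
    have e1 : h + κ * (n' : ℤ) = (h + κ * (n : ℤ)) - κ * ((n : ℤ) - n') := by ring
    rw [e1]
    apply dvd_sub hdv
    by_cases hpk : p ∣ κ.natAbs
    · exact Dvd.dvd.mul_right (Int.natCast_dvd.2 hpk) _
    · have hpb : p ∣ 2 * b := (hp.dvd_mul.1 hpd).resolve_right hpk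
      exact Dvd.dvd.mul_left (PalS_res hb hx1 hx2 he hn hn' hp hpb) _
  · rw [mul_comm ((b : ℝ) ^ L) (cst b κ)]
    exact g3

/-- the number of the representations of `m` as the sum of a prime and a palindrome with `2 N + 1` digits -/
def reps (b N m : ℕ) : ℕ := ((Ico (b ^ (2 * N)) (b ^ (2 * N + 1))).filter (fun n =>
  (Nat.digits b n).reverse = Nat.digits b n ∧ (m - n).Prime)).card

/-- almost all integers are sums of a prime and a palindrome -/
theorem sums_final {b : ℕ} (hb : 3 ≤ b) (A : ℕ) (ε : ℝ) (hε : 0 < ε) :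
    ∃ N0 : ℕ, ∀ N : ℕ, N0 ≤ N →
    ((((Ico (b ^ (2 * N + 1)) (b ^ (2 * N + 3))).filter (fun m => (reps b N m : ℝ) < (1 - ε) * ((b : ℝ) ^ (N - 1) / (2 * N * Real.log b)))).card : ℝ)) ≤
      (b : ℝ) ^ (2 * N) / (N : ℝ) ^ A := by
  classical
  have hb2 : 2 ≤ b := by omega
  obtain ⟨N0, h0⟩ := shift_count hb2 (-1) (by norm_num) (A + 1) (b ^ 2) (min ε 1) (lt_min hε one_pos)
  refine ⟨N0 + b ^ 2 + 1, ?_⟩
  intro N hN
  obtain ⟨L, hL⟩ : ∃ L, N = L + 1 := ⟨N - 1, by omega⟩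
  subst hL
  rw [Nat.add_sub_cancel]
  obtain ⟨E, hE⟩ : ∃ E : Finset ℕ, E = (Ico (b ^ (2 * (L + 1) + 1)) (b ^ (2 * (L + 1) + 3))).filter
    (fun m => (reps b (L + 1) m : ℝ) < (1 - ε) * ((b : ℝ) ^ L / (2 * ((L + 1 : ℕ) : ℝ) * Real.log b))) := ⟨_, rfl⟩
  rw [← hE]
  -- the pieces
  obtain ⟨G, hG⟩ : ∃ G : ℕ × ℕ → Finset ℕ, G = fun w : ℕ × ℕ => E.filter (fun m : ℕ => 1 ≤ w.1 ∧ (∀ p : ℕ, p.Prime → p ∣ b → ¬ (p : ℤ) ∣ (m : ℤ) - (w.1 : ℤ)) ∧
    (¬ (2 : ℤ) ∣ (m : ℤ) - (w.2 : ℤ))) := ⟨_, rfl⟩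
  have hcov : E ⊆ (range b ×ˢ range b).biUnion G := by
    intro m hm
    have hmE := hm
    rw [mem_biUnion]
    obtain ⟨d, hd1, hdb, hdp⟩ : ∃ d : ℕ, 1 ≤ d ∧ d < b ∧ ((b : ℤ) ∣ (m : ℤ) - d - 1 ∨ (b : ℤ) ∣ (m : ℤ) - d + 1) := by
      have hmb : (b : ℤ) ∣ (m : ℤ) - ((m % b : ℕ) : ℤ) := by
        refine ⟨((m / b : ℕ) : ℤ), ?_⟩
        have : ((m : ℕ) : ℤ) = ((m % b : ℕ) : ℤ) + b * ((m / b : ℕ) : ℤ) := by exact_mod_cast (Nat.mod_add_div m b).symm
        linarith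
      have hlt : m % b < b := Nat.mod_lt _ (by omega)
      by_cases g0 : m % b = 0
      · refine ⟨b - 1, by omega, by omega, Or.inl ?_⟩
        rw [g0] at hmb
        have e1 : (m : ℤ) - ((b - 1 : ℕ) : ℤ) - 1 = ((m : ℤ) - ((0 : ℕ) : ℤ)) - b := by
          rw [Nat.cast_sub (by omega)]; push_cast; ring
        rw [e1]
        exact dvd_sub hmb (dvd_refl _)
      · by_cases g1 : m % b = 1
        · refine ⟨2, by omega, by omega, Or.inr ?_⟩
          rw [g1] at hmb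
          have e1 : (m : ℤ) - ((2 : ℕ) : ℤ) + 1 = ((m : ℤ) - ((1 : ℕ) : ℤ)) := by push_cast; ring
          rw [e1]
          exact hmb
        · refine ⟨m % b - 1, by omega, by omega, Or.inl ?_⟩
          have e1 : (m : ℤ) - ((m % b - 1 : ℕ) : ℤ) - 1 = ((m : ℤ) - ((m % b : ℕ) : ℤ)) := by
            rw [Nat.cast_sub (by omega)]; push_cast; ring
          rw [e1]
          exact hmb
    refine ⟨(d, (m + 1) % 2), ?_, ?_⟩
    · rw [mem_product, mem_range, mem_range]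
      exact ⟨hdb, by have : (m + 1) % 2 < 2 := Nat.mod_lt _ (by norm_num); show (m + 1) % 2 < b; omega⟩
    · rw [hG]
      simp only
      rw [mem_filter]
      refine ⟨hm, hd1, ?_, ?_⟩
      · intro p hp hpb hdv
        have hpbz : (p : ℤ) ∣ (b : ℤ) := by exact_mod_cast hpb
        have hunit : (p : ℤ) ∣ 1 := by
          rcases hdp with g | g
          · have h3 := dvd_sub hdv (hpbz.trans g)
            have h4 : (1 : ℤ) = (m : ℤ) - (d : ℤ) - ((m : ℤ) - d - 1) := by ring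
            rw [h4]
            exact h3
          · have h3 := dvd_sub (hpbz.trans g) hdv
            have h4 : (1 : ℤ) = (m : ℤ) - d + 1 - ((m : ℤ) - (d : ℤ)) := by ring
            rw [h4]
            exact h3
        have h2 := Int.le_of_dvd one_pos hunit
        have := hp.two_le
        omega
      · intro hdv
        push_cast at hdv
        omega
  -- each piece is small
  have hpiece : ∀ w ∈ range b ×ˢ range b, ((G w).card : ℝ) ≤ (b : ℝ) ^ (2 * (L + 1)) / ((L + 1 : ℕ) : ℝ) ^ (A + 1) := by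
    rintro ⟨d, e⟩ hw
    rw [mem_product, mem_range, mem_range] at hw
    obtain ⟨hdb, he⟩ := hw
    simp only at hdb he
    by_cases hd : 1 ≤ d
    swap
    · have : G (d, e) = ∅ := by
        rw [hG]
        simp only
        rw [filter_eq_empty_iff]
        rintro m - ⟨g, -⟩
        exact hd g
      rw [this, card_empty, Nat.cast_zero]
      positivity
    obtain ⟨hx1, hx2⟩ := x_ok (N := L + 1) hb2 hd hdb
    have h1 := h0 L (d * b ^ (2 * (L + 1))) e (by omega) hx1 hx2 he ((G (d, e)).image (fun m : ℕ => (m : ℤ))) (by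
      intro h hh
      rw [mem_image] at hh
      obtain ⟨m, hm, rfl⟩ := hh
      rw [hG] at hm
      simp only at hm
      rw [mem_filter, hE, mem_filter, mem_Ico] at hm
      obtain ⟨⟨⟨-, g1⟩, -⟩, -⟩ := hm
      rw [mem_Icc]
      have g2 : (m : ℤ) < (b : ℤ) ^ (2 * (L + 1) + 3) := by exact_mod_cast g1
      have g3 : (((b ^ 2 : ℕ) : ℤ)) * (b : ℤ) ^ (2 * (L + 1) + 1) = (b : ℤ) ^ (2 * (L + 1) + 3) := by
        push_cast
        rw [← pow_add]
        congr 1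
        ring
      rw [g3]
      have g4 : (0 : ℤ) ≤ (b : ℤ) ^ (2 * (L + 1) + 3) := by positivity
      constructor <;> omega) (by
      intro h hh
      rw [mem_image] at hh
      obtain ⟨m, hm, rfl⟩ := hh
      rw [hG] at hm
      simp only at hm
      rw [mem_filter, hE, mem_filter, mem_Ico] at hm
      obtain ⟨⟨⟨g0, g1⟩, g2⟩, -, g3, g4⟩ := hm
      have hlt : ∀ n ∈ PalS b (L + 1) L (d * b ^ (2 * (L + 1))) e, n < m := fun n hn => lt_of_lt_of_le (mem_PalS_lt hn).2 g0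
      have htn : ∀ n ∈ PalS b (L + 1) L (d * b ^ (2 * (L + 1))) e, ((m : ℤ) + -1 * (n : ℤ)).toNat = m - n := by
        intro n hn
        have := hlt n hn
        omega
      refine ⟨fun n hn => by have := hlt n hn; omega, ?_, ?_⟩
      · intro p hp hpd n hn hdv
        have hpd' : p ∣ 2 * b := by simpa using hpd
        by_cases hpb : p ∣ b
        · apply g3 p hp hpb
          have hbz : (p : ℤ) ∣ (b : ℤ) := by exact_mod_cast hpb
          have h2 := hbz.trans (PalS_mod hb2 hx1 hx2 he hn)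
          rw [Nat.mul_div_cancel _ (by positivity)] at h2
          have h3 := dvd_add hdv h2
          have h4 : (m : ℤ) - (d : ℤ) = (m : ℤ) + -1 * (n : ℤ) + ((n : ℤ) - (d : ℤ)) := by ring
          rw [h4]
          exact h3
        · have hp2 : p = 2 := (Nat.prime_dvd_prime_iff_eq hp Nat.prime_two).1 ((hp.dvd_mul.1 hpd').resolve_right hpb)
          have hodd : Odd b := by
            rw [← Nat.not_even_iff_odd, even_iff_two_dvd, ← hp2]
            exact hpb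
          have h2 := PalS_two hb2 hodd hx1 hx2 he hn
          rw [hp2] at hdv
          push_cast at hdv
          apply g4
          have h3 := dvd_add hdv h2
          have h4 : (m : ℤ) - (e : ℤ) = (m : ℤ) + -1 * (n : ℤ) + ((n : ℤ) - (e : ℤ)) := by ring
          rw [h4]
          exact h3
      · -- few representations
        have hlb : 0 < Real.log b := Real.log_pos (by exact_mod_cast (by omega : 1 < b))
        obtain ⟨Q, hQ⟩ : ∃ Q : ℝ, Q = (b : ℝ) ^ L / (2 * ((L + 1 : ℕ) : ℝ) * Real.log b) := ⟨_, rfl⟩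
        have hQ0 : 0 < Q := by rw [hQ]; positivity
        rw [← hQ] at g2
        have hc1 := one_le_cst b (-1)
        obtain ⟨C, hC⟩ : ∃ C : ℝ, C = (((PalS b (L + 1) L (d * b ^ (2 * (L + 1))) e).filter
          (fun n : ℕ => ((m : ℤ) + -1 * (n : ℤ)).toNat.Prime)).card : ℝ) := ⟨_, rfl⟩
        have hCr : C ≤ reps b (L + 1) m := by
          rw [hC]
          apply Nat.cast_le.2
          unfold reps
          apply card_le_card
          intro n hn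
          rw [mem_filter] at hn
          obtain ⟨hn1, hn2⟩ := hn
          rw [htn n hn1] at hn2
          have hn3 := mem_PalS_lt hn1
          unfold PalS at hn1
          rw [mem_filter] at hn1
          rw [mem_filter, mem_Ico]
          exact ⟨hn3, hn1.2.2.1, hn2⟩
        have hTQ : (b : ℝ) ^ L * cst b (-1) / (2 * ((L + 1 : ℕ) : ℝ) * Real.log b) = cst b (-1) * Q := by rw [hQ]; ring
        rw [← hC, hTQ]
        have hεm : min ε 1 ≤ ε := min_le_left _ _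
        have hεm1 : min ε 1 ≤ 1 := min_le_right _ _
        have k1 : C < (1 - ε) * Q := lt_of_le_of_lt hCr g2
        have k2 : (1 - ε) * Q ≤ (1 - min ε 1) * Q := mul_le_mul_of_nonneg_right (by linarith) hQ0.le
        have k3 : (1 - min ε 1) * Q ≤ (1 - min ε 1) * (cst b (-1) * Q) :=
          mul_le_mul_of_nonneg_left (le_mul_of_one_le_left hQ0.le hc1) (by linarith)
        have k4 : C - cst b (-1) * Q < -(min ε 1 * (cst b (-1) * Q)) := by linarith
        have k5 := neg_abs_le (C - cst b (-1) * Q)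
        linarith)
    rw [card_image_of_injective _ Nat.cast_injective] at h1
    exact h1
  have h2 : (E.card : ℝ) ≤ ∑ w ∈ range b ×ˢ range b, ((G w).card : ℝ) := by
    exact_mod_cast (card_le_card hcov).trans card_biUnion_le
  refine h2.trans ((sum_le_sum hpiece).trans ?_)
  rw [sum_const, card_product, card_range, nsmul_eq_mul]
  have hNr : (0 : ℝ) < ((L + 1 : ℕ) : ℝ) := by exact_mod_cast Nat.succ_pos L
  have h3 : ((b * b : ℕ) : ℝ) ≤ ((L + 1 : ℕ) : ℝ) := by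
    have : b * b ≤ L + 1 := by nlinarith
    exact_mod_cast this
  calc ((b * b : ℕ) : ℝ) * ((b : ℝ) ^ (2 * (L + 1)) / ((L + 1 : ℕ) : ℝ) ^ (A + 1)) ≤
      ((L + 1 : ℕ) : ℝ) * ((b : ℝ) ^ (2 * (L + 1)) / ((L + 1 : ℕ) : ℝ) ^ (A + 1)) := mul_le_mul_of_nonneg_right h3 (by positivity)
    _ = _ := by
      rw [mul_div_assoc', div_eq_div_iff (by positivity) (by positivity)]
      ring

end Pool.Agent.X26.AN
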