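import Pool.Agent.X26.AN.Lem
import Pool.Agent.TH423.SH.FLIP

/-!
# Sifted sequences with a level of distribution: counting with prescribed prime factors
-/

set_option autoImplicit false

namespace Pool.Agent.X26.AN

open Finset
open Pool.Agent.Y843.HS (Pr VV Pr_mem Pr_prime)

theorem sum_fiber {ι : Type} (𝒜 : Finset ι) (v : ι → ℕ) (p : ℕ → Prop) [DecidablePred p] :
    ∑ n ∈ (𝒜.image v).filter p, ((𝒜.filter (fun i => v i = n)).card : ℝ) = ((𝒜.filter (fun i => p (v i))).card : ℝ) := by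
  rw [← Nat.cast_sum]
  congr 1
  have h1 : ∀ i ∈ 𝒜.filter (fun i => p (v i)), v i ∈ (𝒜.image v).filter p := by
    intro i hi
    rw [mem_filter] at hi ⊢
    exact ⟨mem_image_of_mem v hi.1, hi.2⟩
  rw [card_eq_sum_card_fiberwise h1]
  apply sum_congr rfl
  intro n hn
  rw [mem_filter] at hn
  rw [filter_filter]
  congr 1
  ext i
  rw [mem_filter, mem_filter]
  constructor
  · rintro ⟨h2, h3⟩
    exact ⟨h2, by rw [h3]; exact hn.2, h3⟩
  · rintro ⟨h2, _, h3⟩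
    exact ⟨h2, h3⟩

open Classical in
/-- the fundamental lemma for sequences -/
theorem flI (κ : ℕ) : ∃ C0 : ℕ, 1 ≤ C0 ∧ ∀ (b J z0 : ℕ) (P : Finset ℕ) (Om : ℕ → Finset ℕ),
    C0 ≤ b → C0 ≤ z0 → (∀ p ∈ P, p.Prime ∧ z0 < p ∧ p ≤ 2 ^ 2 ^ J) →
    (∀ p ∈ P, (Om p).card ≤ κ) → ∀ (ι : Type) (𝒜 : Finset ι) (v : ι → ℕ) (A : ℝ) (err : ℕ → ℝ), 0 ≤ A →
    (∀ m, 0 ≤ err m) →
    (∀ T ⊆ P, ∏ p ∈ T, p ≤ (2 ^ 2 ^ J) ^ (C0 * b) → ∀ c : ℕ → ℕ, (∀ p ∈ T, c p ∈ Om p) →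
      |((𝒜.filter (fun i => ∀ p ∈ T, v i % p = c p)).card : ℝ) - A / ∏ p ∈ T, (p : ℝ)| ≤ err (∏ p ∈ T, p)) →
    |((𝒜.filter (fun i => ∀ p ∈ P, v i % p ∉ Om p)).card : ℝ) -
        A * ∏ p ∈ P, (1 - ((Om p).card : ℝ) / p)| ≤
      (1 / 2 : ℝ) ^ b * (A * ∏ p ∈ P, (1 - ((Om p).card : ℝ) / p)) +
        ((J : ℝ) + 2) * ∑ T ∈ P.powerset.filter (fun T : Finset ℕ => ∏ p ∈ T, p ≤ (2 ^ 2 ^ J) ^ (C0 * b)),
            (κ : ℝ) ^ T.card * err (∏ p ∈ T, p) := by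
  obtain ⟨C0, hC0, h⟩ := Pool.Agent.TH882.FL.fla κ
  refine ⟨C0, hC0, ?_⟩
  intro b J z0 P Om hb hz hP hOm ι 𝒜 v A err hA herr hS
  have hpp : ∀ p ∈ P, p.Prime := fun p hp => (hP p hp).1
  have h1 := h b J z0 P (fun p => 1 / (p : ℝ)) Om hb hz hP hOm (by
      intro p hp
      have hp2 : (2 : ℝ) ≤ p := by exact_mod_cast (hpp p hp).two_le
      refine ⟨by positivity, ?_⟩
      apply one_div_le_one_div_of_le (by linarith)
      linarith) (𝒜.image v) (fun n => ((𝒜.filter (fun i => v i = n)).card : ℝ)) A err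
    (fun _ _ => Nat.cast_nonneg _) hA herr
    (by
      intro T hT hTY c hc
      have := hS T hT hTY c hc
      have e := sum_fiber 𝒜 v (fun n => ∀ p ∈ T, n % p = c p)
      rw [← e] at this
      convert this using 3
      rw [div_eq_mul_inv, ← prod_inv_distrib]
      simp only [one_div])
  have e1 : ∏ p ∈ P, (1 - ((Om p).card : ℝ) * (1 / (p : ℝ))) = ∏ p ∈ P, (1 - ((Om p).card : ℝ) / p) := by
    apply prod_congr rfl
    intro p _
    rw [mul_one_div]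
  rw [e1] at h1
  have e := sum_fiber 𝒜 v (fun n => ∀ p ∈ P, n % p ∉ Om p)
  rw [← e]
  convert h1 using 3

open Classical in
/-- the level of distribution: hypothesis -/
def Lev {ι : Type} (𝒜 : Finset ι) (v : ι → ℕ) (X : ℝ) (E : ℕ → ℝ) (z0 z Y : ℕ) : Prop :=
  ∀ W ⊆ Pr z0 z, ∏ p ∈ W, p ≤ Y → ∀ r : ℕ,
    |((𝒜.filter (fun i => v i ≡ r [MOD ∏ p ∈ W, p])).card : ℝ) - X / ∏ p ∈ W, (p : ℝ)| ≤ E (∏ p ∈ W, p)

open Classical in
theorem Lev.cls {ι : Type} {𝒜 : Finset ι} {v : ι → ℕ} {X : ℝ} {E : ℕ → ℝ} {z0 z Y : ℕ} (h : Lev 𝒜 v X E z0 z Y)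
    {W : Finset ℕ} (hW : W ⊆ Pr z0 z) (hY : ∏ p ∈ W, p ≤ Y) {c : ℕ → ℕ} (hc : ∀ p ∈ W, c p < p) :
    |((𝒜.filter (fun i => ∀ p ∈ W, v i % p = c p)).card : ℝ) - X / ∏ p ∈ W, (p : ℝ)| ≤ E (∏ p ∈ W, p) := by
  obtain ⟨r, hr⟩ := Pool.Agent.TH423.SH.FLIP.crt_set 1 0 c W (fun p hp => ⟨Pr_prime (hW hp), fun h =>
    (Pr_prime (hW hp)).one_lt.ne' (Nat.dvd_one.1 h)⟩) hc
  have h1 := h W hW hY r
  have e : 𝒜.filter (fun i => v i ≡ r [MOD ∏ p ∈ W, p]) = 𝒜.filter (fun i => ∀ p ∈ W, v i % p = c p) := by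
    apply filter_congr
    intro i _
    have := hr (v i)
    rw [one_mul] at this
    rw [← this]
    simp only [Nat.mod_one, true_and]
  rw [e] at h1
  exact h1

/-- the error term -/
noncomputable def EI (κ : ℕ) (E : ℕ → ℝ) (z0 z Y d : ℕ) (U : Finset ℕ) : ℝ :=
  ∑ T ∈ ((Pr z0 z) \ U).powerset.filter (fun T : Finset ℕ => ∏ p ∈ T, p ≤ Y),
    ((κ + 1 : ℕ) : ℝ) ^ T.card * E (d * ∏ p ∈ T, p)

open Classical in
theorem NU_I (κ : ℕ) : ∃ C0 : ℕ, κ < C0 ∧ ∀ (J z0 : ℕ), C0 ≤ z0 → ∀ (ι : Type) (𝒜 : Finset ι) (v : ι → ℕ) (X : ℝ)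
    (E : ℕ → ℝ), 0 ≤ X → (∀ m, 0 ≤ E m) → Lev 𝒜 v X E z0 (2 ^ 2 ^ J) ((2 ^ 2 ^ J) ^ (C0 * C0 + 2)) →
    ∀ (Om : ℕ → Finset ℕ) (ro : ℕ → ℕ)
    (Q : Finset ℕ), (∀ p : ℕ, p.Prime → (Om p).card ≤ κ ∧ ∀ c ∈ Om p, c < p) → Q ⊆ Pr z0 (2 ^ 2 ^ J) →
    (∀ q ∈ Q, ro q < q ∧ ro q ∉ Om q) → ∀ U ⊆ Q, ∏ q ∈ U, q ≤ 2 ^ 2 ^ J →
    ((𝒜.filter (fun i => Av Om z0 (2 ^ 2 ^ J) (v i) ∧ hit ro Q (v i) = U)).card : ℝ) ≤
      2 * (X * VV Om z0 (2 ^ 2 ^ J) * Pm (fun q => 1 / ((q : ℝ) - (Om q).card)) Q U) +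
        ((J : ℝ) + 2) * EI κ E z0 (2 ^ 2 ^ J) ((2 ^ 2 ^ J) ^ (C0 * C0)) (∏ q ∈ U, q) U := by
  classical
  obtain ⟨C1, hC1, h⟩ := flI (κ + 1)
  refine ⟨max C1 (κ + 1), by omega, ?_⟩
  intro J z0 hz0 ι 𝒜 v X E hX0 hE0 hLev Om ro Q hOm hQ hro U hU hUz
  obtain ⟨C0, hC0⟩ : ∃ C0 : ℕ, C0 = max C1 (κ + 1) := ⟨_, rfl⟩
  rw [← hC0] at hz0 hLev ⊢
  have hC10 : C1 ≤ C0 := by omega
  have hκ0 : κ < z0 := by omega
  have hUp : ∀ q ∈ U, q.Prime := fun q hq => Pr_prime (hQ (hU hq))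
  obtain ⟨S, hS⟩ : ∃ S : Finset ι, S = 𝒜.filter (fun i => ∀ q ∈ U, v i % q = ro q) := ⟨_, rfl⟩
  obtain ⟨P, hP⟩ : ∃ P : Finset ℕ, P = Pr z0 (2 ^ 2 ^ J) \ U := ⟨_, rfl⟩
  have hd : (0 : ℝ) < ∏ q ∈ U, (q : ℝ) := prod_pos fun q hq => by exact_mod_cast (hUp q hq).pos
  have hA : (0 : ℝ) ≤ X / ∏ q ∈ U, (q : ℝ) := by positivity
  have hz1 : 1 ≤ 2 ^ 2 ^ J := Nat.one_le_two_pow
  have h1 := h C0 J z0 P (Om2 Om ro Q) hC10 (hC10.trans hz0) (by
    intro p hp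
    rw [hP] at hp
    have h2 := (mem_sdiff.1 hp).1
    have h3 := Pr_mem.1 h2
    exact ⟨Pr_prime h2, h3.1.1, h3.1.2⟩) (by
    intro p hp
    rw [hP] at hp
    have h2 := Pr_prime (mem_sdiff.1 hp).1
    unfold Om2
    split_ifs with h3
    · exact (card_insert_le _ _).trans (by have := (hOm p h2).1; omega)
    · exact (hOm p h2).1.trans (by omega)) ι S v (X / ∏ q ∈ U, (q : ℝ)) (fun m => E ((∏ q ∈ U, q) * m)) hA
    (fun m => hE0 _) (by
    intro T hT hTY c hc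
    have hTp : ∀ p ∈ T, p.Prime := fun p hp => by
      have := hT hp
      rw [hP] at this
      exact Pr_prime (mem_sdiff.1 this).1
    have hdisj : Disjoint U T := by
      rw [disjoint_left]
      intro x hx hx'
      have := hT hx'
      rw [hP] at this
      exact (mem_sdiff.1 this).2 hx
    have hcl : ∀ p ∈ T, c p < p := by
      intro p hp
      have h2 := hc p hp
      unfold Om2 at h2
      split_ifs at h2 with h3
      · rw [mem_insert] at h2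
        rcases h2 with h2 | h2
        · rw [h2]; exact (hro p h3).1
        · exact (hOm p (hTp p hp)).2 _ h2
      · exact (hOm p (hTp p hp)).2 _ h2
    have h4 := hLev.cls (W := U ∪ T) (by
      apply union_subset (hU.trans hQ)
      intro p hp
      have := hT hp
      rw [hP] at this
      exact (mem_sdiff.1 this).1) (by
      rw [prod_union hdisj, pow_add, mul_comm]
      apply Nat.mul_le_mul
      · exact hTY.trans (Nat.pow_le_pow_right hz1 (Nat.mul_le_mul_right _ hC10))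
      · refine hUz.trans ?_
        rw [pow_two]
        exact Nat.le_mul_of_pos_left _ hz1) (c := fun p => if p ∈ U then ro p else c p) (by
      intro p hp
      rw [mem_union] at hp
      show (if p ∈ U then ro p else c p) < p
      split_ifs with h5
      · exact (hro p (hU h5)).1
      · exact hcl p (hp.resolve_left h5))
    rw [prod_union hdisj, prod_union hdisj] at h4
    have e : 𝒜.filter (fun i => ∀ p ∈ U ∪ T, v i % p = if p ∈ U then ro p else c p) =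
        S.filter (fun i => ∀ p ∈ T, v i % p = c p) := by
      rw [hS, filter_filter]
      apply filter_congr
      intro i _
      constructor
      · intro h5
        refine ⟨fun q hq => ?_, fun q hq => ?_⟩
        · have := h5 q (mem_union_left _ hq)
          rwa [if_pos hq] at this
        · have := h5 q (mem_union_right _ hq)
          rwa [if_neg (fun h => (disjoint_left.1 hdisj) h hq)] at this
      · rintro ⟨h5, h6⟩ q hq
        split_ifs with h7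
        · exact h5 q h7
        · exact h6 q ((mem_union.1 hq).resolve_left h7)
    rw [e] at h4
    rw [div_div]
    exact h4)
  have h2 := (abs_le.1 h1).2
  have e1 : X / (∏ q ∈ U, (q : ℝ)) * ∏ p ∈ P, (1 - ((Om2 Om ro Q p).card : ℝ) / p) =
      X * VV Om z0 (2 ^ 2 ^ J) * Pm (fun q => 1 / ((q : ℝ) - (Om q).card)) Q U := by
    rw [hP]
    exact Pm_prod hQ hU hκ0 (fun p hp => (hOm p hp).1) (fun q hq => (hro q hq).2) X
  rw [e1] at h2
  have hsub : 𝒜.filter (fun i => Av Om z0 (2 ^ 2 ^ J) (v i) ∧ hit ro Q (v i) = U) ⊆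
      S.filter (fun i => ∀ p ∈ P, v i % p ∉ Om2 Om ro Q p) := by
    intro n hn
    rw [mem_filter] at hn
    obtain ⟨hn1, hn2, hn3⟩ := hn
    rw [mem_filter, hS, mem_filter]
    refine ⟨⟨hn1, fun q hq => ?_⟩, fun p hp => ?_⟩
    · rw [← hn3] at hq
      exact (mem_hit.1 hq).2
    · rw [hP, mem_sdiff] at hp
      unfold Om2
      split_ifs with h3
      · rw [mem_insert]
        rintro (h4 | h4)
        · exact hp.2 (by rw [← hn3, mem_hit]; exact ⟨h3, h4⟩)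
        · exact hn2 p hp.1 h4
      · exact hn2 p hp.1
  have h3 : ((𝒜.filter (fun i => Av Om z0 (2 ^ 2 ^ J) (v i) ∧ hit ro Q (v i) = U)).card : ℝ) ≤
      ((S.filter (fun i => ∀ p ∈ P, v i % p ∉ Om2 Om ro Q p)).card : ℝ) := Nat.cast_le.2 (card_le_card hsub)
  have hA0 : 0 ≤ (X : ℝ) * VV Om z0 (2 ^ 2 ^ J) * Pm (fun q => 1 / ((q : ℝ) - (Om q).card)) Q U := by
    rw [← e1]
    apply mul_nonneg hA
    apply prod_nonneg
    intro p hp
    rw [hP] at hp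
    have h5 := Pr_prime (mem_sdiff.1 hp).1
    have h6 : z0 < p := (Pr_mem.1 (mem_sdiff.1 hp).1).1.1
    have h7 : (Om2 Om ro Q p).card ≤ κ + 1 := by
      unfold Om2
      split_ifs with h3
      · exact (card_insert_le _ _).trans (by have := (hOm p h5).1; omega)
      · exact (hOm p h5).1.trans (by omega)
    have h8 : (Om2 Om ro Q p).card ≤ p := by omega
    rw [sub_nonneg, div_le_one (by exact_mod_cast h5.pos)]
    exact_mod_cast h8
  have hb : (1 / 2 : ℝ) ^ C0 ≤ 1 := pow_le_one₀ (by norm_num) (by norm_num)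
  have h9 := mul_le_mul_of_nonneg_right hb hA0
  have h10 : ∑ T ∈ P.powerset.filter (fun T : Finset ℕ => ∏ p ∈ T, p ≤ (2 ^ 2 ^ J) ^ (C1 * C0)),
      ((κ + 1 : ℕ) : ℝ) ^ T.card * E ((∏ q ∈ U, q) * ∏ p ∈ T, p) ≤
      EI κ E z0 (2 ^ 2 ^ J) ((2 ^ 2 ^ J) ^ (C0 * C0)) (∏ q ∈ U, q) U := by
    unfold EI
    rw [hP]
    apply sum_le_sum_of_subset_of_nonneg
    · intro T hT
      rw [mem_filter] at hT ⊢
      exact ⟨hT.1, hT.2.trans (Nat.pow_le_pow_right hz1 (Nat.mul_le_mul_right _ hC10))⟩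
    · intro T _ _
      exact mul_nonneg (by positivity) (hE0 _)
  have h11 := mul_le_mul_of_nonneg_left h10 (show (0 : ℝ) ≤ (J : ℝ) + 2 by positivity)
  linarith

/-- the total error -/
noncomputable def TE (κ : ℕ) (E : ℕ → ℝ) (z0 z Y : ℕ) : ℝ :=
  ∑ W ∈ (Pr z0 z).powerset.filter (fun W : Finset ℕ => ∏ p ∈ W, p ≤ Y),
    ((κ + 2 : ℕ) : ℝ) ^ W.card * E (∏ p ∈ W, p)

/-- summation over the sets `U` -/
theorem conv {κ : ℕ} {E : ℕ → ℝ} (hE : ∀ m, 0 ≤ E m) {z0 z Y Y' : ℕ} {B : Finset (Finset ℕ)}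
    (hB : ∀ U ∈ B, U ⊆ Pr z0 z ∧ (∏ q ∈ U, q) * Y ≤ Y') :
    ∑ U ∈ B, EI κ E z0 z Y (∏ q ∈ U, q) U ≤ TE κ E z0 z Y' := by
  classical
  unfold EI TE
  have h1 : ∀ W ∈ (Pr z0 z).powerset.filter (fun W : Finset ℕ => ∏ p ∈ W, p ≤ Y'),
      ((κ + 2 : ℕ) : ℝ) ^ W.card * E (∏ p ∈ W, p) =
      ∑ U ∈ W.powerset, ((κ + 1 : ℕ) : ℝ) ^ (W \ U).card * E (∏ p ∈ W, p) := by
    intro W _
    rw [← sum_mul]
    congr 1
    have h2 := Finset.prod_add (fun _ : ℕ => (1 : ℝ)) (fun _ : ℕ => ((κ + 1 : ℕ) : ℝ)) W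
    simp only [prod_const, one_pow, one_mul] at h2
    rw [← h2]
    push_cast
    ring
  rw [sum_congr rfl h1, sum_sigma', sum_sigma']
  refine le_trans (le_of_eq ?_) (sum_le_sum_of_subset_of_nonneg (s := (B.sigma (fun U =>
    ((Pr z0 z) \ U).powerset.filter (fun T : Finset ℕ => ∏ p ∈ T, p ≤ Y))).image
    (fun x : (_ : Finset ℕ) × Finset ℕ => (⟨x.1 ∪ x.2, x.1⟩ : (_ : Finset ℕ) × Finset ℕ))) ?_ ?_)
  · rw [sum_image]
    · apply sum_congr rfl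
      rintro ⟨U, T⟩ hx
      rw [mem_sigma, mem_filter, mem_powerset] at hx
      obtain ⟨hU, hT, hTY⟩ := hx
      have hdisj : Disjoint U T := by
        rw [disjoint_left]
        intro p hp hp'
        exact (mem_sdiff.1 (hT hp')).2 hp
      show ((κ + 1 : ℕ) : ℝ) ^ T.card * E ((∏ q ∈ U, q) * ∏ p ∈ T, p) =
        ((κ + 1 : ℕ) : ℝ) ^ ((U ∪ T) \ U).card * E (∏ p ∈ U ∪ T, p)
      rw [prod_union hdisj, union_sdiff_cancel_left hdisj]
    · rintro ⟨U, T⟩ hx ⟨U', T'⟩ hx' hxx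
      rw [mem_coe, mem_sigma, mem_filter, mem_powerset] at hx hx'
      obtain ⟨hU, hT, hTY⟩ := hx
      obtain ⟨hU', hT', hTY'⟩ := hx'
      have e1 : U ∪ T = U' ∪ T' := congrArg (fun x : (_ : Finset ℕ) × Finset ℕ => x.1) hxx
      have e2 : U = U' := congrArg (fun x : (_ : Finset ℕ) × Finset ℕ => x.2) hxx
      subst e2
      have hd1 : Disjoint U T := by
        rw [disjoint_left]
        intro p hp hp'
        exact (mem_sdiff.1 (hT hp')).2 hp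
      have hd2 : Disjoint U T' := by
        rw [disjoint_left]
        intro p hp hp'
        exact (mem_sdiff.1 (hT' hp')).2 hp
      have e3 : T = T' := by
        rw [← union_sdiff_cancel_left hd1, e1, union_sdiff_cancel_left hd2]
      rw [e3]
  · intro x hx
    rw [mem_image] at hx
    obtain ⟨⟨U, T⟩, hx, rfl⟩ := hx
    rw [mem_sigma, mem_filter, mem_powerset] at hx
    obtain ⟨hU, hT, hTY⟩ := hx
    have hdisj : Disjoint U T := by
      rw [disjoint_left]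
      intro p hp hp'
      exact (mem_sdiff.1 (hT hp')).2 hp
    rw [mem_sigma, mem_filter, mem_powerset, mem_powerset]
    refine ⟨⟨union_subset (hB U hU).1 (hT.trans sdiff_subset), ?_⟩, subset_union_left⟩
    show ∏ p ∈ U ∪ T, p ≤ Y'
    rw [prod_union hdisj]
    exact (Nat.mul_le_mul_left _ hTY).trans (hB U hU).2
  · rintro ⟨W, U⟩ _ _
    exact mul_nonneg (by positivity) (hE _)

end Pool.Agent.X26.AN
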