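import Pool.Agent.X26.AN.BvA

/-!
# Sequences with a level of distribution: the three parts
-/

set_option autoImplicit false

namespace Pool.Agent.X26.AN

open Finset
open Pool.Agent.Y843.HS (Pr VV Pr_mem Pr_prime)

open Classical in
/-- the conclusion of `NU_I` -/
def NUI (κ C0 : ℕ) : Prop := ∀ (J z0 : ℕ), C0 ≤ z0 → ∀ (ι : Type) (𝒜 : Finset ι) (v : ι → ℕ) (X : ℝ)
    (E : ℕ → ℝ), 0 ≤ X → (∀ m, 0 ≤ E m) → Lev 𝒜 v X E z0 (2 ^ 2 ^ J) ((2 ^ 2 ^ J) ^ (C0 * C0 + 2)) →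
    ∀ (Om : ℕ → Finset ℕ) (ro : ℕ → ℕ)
    (Q : Finset ℕ), (∀ p : ℕ, p.Prime → (Om p).card ≤ κ ∧ ∀ c ∈ Om p, c < p) → Q ⊆ Pr z0 (2 ^ 2 ^ J) →
    (∀ q ∈ Q, ro q < q ∧ ro q ∉ Om q) → ∀ U ⊆ Q, ∏ q ∈ U, q ≤ 2 ^ 2 ^ J →
    ((𝒜.filter (fun i => Av Om z0 (2 ^ 2 ^ J) (v i) ∧ hit ro Q (v i) = U)).card : ℝ) ≤
      2 * (X * VV Om z0 (2 ^ 2 ^ J) * Pm (fun q => 1 / ((q : ℝ) - (Om q).card)) Q U) +
        ((J : ℝ) + 2) * EI κ E z0 (2 ^ 2 ^ J) ((2 ^ 2 ^ J) ^ (C0 * C0)) (∏ q ∈ U, q) U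

theorem NUI_ex (κ : ℕ) : ∃ C0 : ℕ, κ < C0 ∧ NUI κ C0 := NU_I κ

theorem VV_nonneg' {κ z0 z : ℕ} {Om : ℕ → Finset ℕ} {ro : ℕ → ℕ} {Q : Finset ℕ} (hd : Dat κ z0 z Om ro Q)
    (hz1 : 2 * κ + 2 ≤ z0) : 0 ≤ VV Om z0 z := by
  unfold VV
  apply prod_nonneg
  intro p hp
  have h5 := Pr_mem.1 hp
  have h6 := (hd.om p h5.2).1
  have h7 : (Om p).card ≤ p := by omega
  rw [sub_nonneg, div_le_one (by exact_mod_cast h5.2.pos)]
  exact_mod_cast h7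

open Classical in
/-- the values of the additive function at the small primes -/
theorem partAI {κ C0 : ℕ} (hC : NUI κ C0)
    {J z0 : ℕ} (hz0 : C0 ≤ z0) (hz1 : 2 * κ + 2 ≤ z0) {ι : Type} {𝒜 : Finset ι} {v : ι → ℕ} {X : ℝ} {E : ℕ → ℝ}
    (hX : 0 ≤ X) (hE : ∀ m, 0 ≤ E m) (hLev : Lev 𝒜 v X E z0 (2 ^ 2 ^ J) ((2 ^ 2 ^ J) ^ (C0 * C0 + 2)))
    {Om : ℕ → Finset ℕ} {ro : ℕ → ℕ} {Q : Finset ℕ}
    (hd : Dat κ z0 (2 ^ 2 ^ J) Om ro Q) (f : ℕ → ℝ) (hf : ∀ q, |f q| ≤ 1) {lam : ℝ} (hl : 0 < lam) :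
    ((𝒜.filter (fun i => Av Om z0 (2 ^ 2 ^ J) (v i) ∧
      lam < |∑ q ∈ hit ro Q (v i), f q - ∑ q ∈ Q, f q * (1 / ((q : ℝ) - (Om q).card))|)).card : ℝ) ≤
      2 * (X * VV Om z0 (2 ^ 2 ^ J)) * ((∑ q ∈ Q, 1 / ((q : ℝ) - (Om q).card)) / lam ^ 2) +
      ((J : ℝ) + 2) * TE κ E z0 (2 ^ 2 ^ J) ((2 ^ 2 ^ J) ^ (C0 * C0 + 2)) +
      ((𝒜.filter (fun i => 2 ^ 2 ^ J < ∏ q ∈ hit ro Q (v i), q)).card : ℝ) := by
  obtain ⟨g, hg⟩ : ∃ g : ℕ → ℝ, g = fun q : ℕ => 1 / ((q : ℝ) - (Om q).card) := ⟨_, rfl⟩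
  have hg0 : ∀ q ∈ Q, 0 ≤ g q ∧ g q ≤ 1 := fun q hq => by
    have := g_bd hd hz1 q hq
    rw [hg]
    exact ⟨this.1, this.2.1⟩
  have hGq : ∀ q : ℕ, 1 / ((q : ℝ) - (Om q).card) = g q := fun q => by rw [hg]
  simp only [hGq]
  have hz1' : 1 ≤ 2 ^ 2 ^ J := Nat.one_le_two_pow
  obtain ⟨B, hB⟩ : ∃ B : Finset (Finset ℕ), B = (Q.powerset.filter (fun T : Finset ℕ => ∏ p ∈ T, p ≤ 2 ^ 2 ^ J)).filter
    (fun U => lam < |∑ q ∈ U, f q - ∑ q ∈ Q, f q * g q|) := ⟨_, rfl⟩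
  obtain ⟨N1, hN1⟩ : ∃ N1 : Finset ℕ → Finset ι, N1 = fun U => 𝒜.filter
    (fun i => Av Om z0 (2 ^ 2 ^ J) (v i) ∧ hit ro Q (v i) = U) := ⟨_, rfl⟩
  obtain ⟨R, hR⟩ : ∃ R : Finset ι, R = 𝒜.filter (fun i => 2 ^ 2 ^ J < ∏ q ∈ hit ro Q (v i), q) := ⟨_, rfl⟩
  have hsub : 𝒜.filter (fun i => Av Om z0 (2 ^ 2 ^ J) (v i) ∧
      lam < |∑ q ∈ hit ro Q (v i), f q - ∑ q ∈ Q, f q * g q|) ⊆ B.biUnion N1 ∪ R := by
    intro n hn
    rw [mem_filter] at hn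
    obtain ⟨h1, h2, h3⟩ := hn
    rw [mem_union]
    by_cases h4 : 2 ^ 2 ^ J < ∏ q ∈ hit ro Q (v n), q
    · right
      rw [hR, mem_filter]
      exact ⟨h1, h4⟩
    · left
      rw [mem_biUnion]
      refine ⟨hit ro Q (v n), ?_, ?_⟩
      · rw [hB, mem_filter, mem_filter, mem_powerset]
        exact ⟨⟨hit_sub, not_lt.1 h4⟩, h3⟩
      · rw [hN1, mem_filter]
        exact ⟨h1, h2, rfl⟩
  rw [← hR]
  refine (Nat.cast_le.2 (card_le_card hsub)).trans ?_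
  refine (Nat.cast_le.2 (card_union_le _ _)).trans ?_
  rw [Nat.cast_add]
  apply add_le_add _ le_rfl
  refine (Nat.cast_le.2 card_biUnion_le).trans ?_
  rw [Nat.cast_sum]
  have h1 : ∀ U ∈ B, ((N1 U).card : ℝ) ≤ 2 * (X * VV Om z0 (2 ^ 2 ^ J)) * Pm g Q U +
      ((J : ℝ) + 2) * EI κ E z0 (2 ^ 2 ^ J) ((2 ^ 2 ^ J) ^ (C0 * C0)) (∏ q ∈ U, q) U := by
    intro U hU
    rw [hB, mem_filter, mem_filter, mem_powerset] at hU
    have h2 := hC J z0 hz0 ι 𝒜 v X E hX hE hLev Om ro Q hd.om hd.sub hd.ro U hU.1.1 hU.1.2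
    rw [hN1]
    rw [← hg] at h2
    refine h2.trans (le_of_eq ?_)
    ring
  refine (sum_le_sum h1).trans ?_
  rw [sum_add_distrib, ← mul_sum, ← mul_sum]
  have hV := VV_nonneg' hd hz1
  apply add_le_add
  · apply mul_le_mul_of_nonneg_left _ (by positivity)
    refine le_trans ?_ (cheb hg0 (fun q _ => hf q) hl)
    apply sum_le_sum_of_subset_of_nonneg
    · intro U hU
      rw [hB, mem_filter, mem_filter] at hU
      rw [mem_filter]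
      exact ⟨hU.1.1, hU.2⟩
    · intro U hU _
      rw [mem_filter, mem_powerset] at hU
      exact Pm_nonneg hU.1 hg0
  · apply mul_le_mul_of_nonneg_left _ (by positivity)
    apply conv hE
    intro U hU
    rw [hB, mem_filter, mem_filter, mem_powerset] at hU
    refine ⟨hU.1.1.trans hd.sub, ?_⟩
    calc (∏ q ∈ U, q) * (2 ^ 2 ^ J) ^ (C0 * C0) ≤ 2 ^ 2 ^ J * (2 ^ 2 ^ J) ^ (C0 * C0) :=
          Nat.mul_le_mul_right _ hU.1.2
      _ = (2 ^ 2 ^ J) ^ (C0 * C0 + 1) := by rw [pow_succ, mul_comm]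
      _ ≤ _ := Nat.pow_le_pow_right hz1' (by omega)

/-- Rankin's bound for the large smooth parts -/
theorem partBI {ι : Type} {𝒜 : Finset ι} {v : ι → ℕ} {X : ℝ} {E : ℕ → ℝ} {κ z0 z Y : ℕ}
    (hX : 0 ≤ X) (hE : ∀ m, 0 ≤ E m) (hLev : Lev 𝒜 v X E z0 z Y) {ro : ℕ → ℕ} {Q : Finset ℕ} {w D : ℕ}
    (hQz : Q ⊆ Pr z0 z) (hQ : ∀ q ∈ Q, q ≤ w ∧ ro q < q) (hD : 1 ≤ D) (hw : 3 ≤ w) (hDY : D * w ≤ Y) :
    ((𝒜.filter (fun i => D < ∏ q ∈ hit ro Q (v i), q)).card : ℝ) ≤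
      X * (Real.exp (-(Real.log D / Real.log w)) * Real.exp (3 * ∑ q ∈ Q, 1 / (q : ℝ))) + TE κ E z0 z Y := by
  classical
  have hlw : 0 < Real.log w := Real.log_pos (by exact_mod_cast (show 1 < w by omega))
  have hD0 : (0 : ℝ) < D := by exact_mod_cast hD
  obtain ⟨B, hB⟩ : ∃ B : Finset (Finset ℕ), B = Q.powerset.filter
    (fun V => D < ∏ q ∈ V, q ∧ ∏ q ∈ V, q ≤ D * w) := ⟨_, rfl⟩
  have hsub : 𝒜.filter (fun i => D < ∏ q ∈ hit ro Q (v i), q) ⊆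
      B.biUnion (fun V => 𝒜.filter (fun i => ∀ q ∈ V, v i % q = ro q)) := by
    intro n hn
    rw [mem_filter] at hn
    obtain ⟨V, hV, h1, h2⟩ := exists_part (w := w) hD (hit ro Q (v n)) (fun q hq => (hQ q (hit_sub hq)).1) hn.2
    rw [mem_biUnion]
    refine ⟨V, ?_, ?_⟩
    · rw [hB, mem_filter, mem_powerset]
      exact ⟨hV.trans hit_sub, h1, h2⟩
    · rw [mem_filter]
      exact ⟨hn.1, fun q hq => (mem_hit.1 (hV hq)).2⟩
  refine (Nat.cast_le.2 ((card_le_card hsub).trans card_biUnion_le)).trans ?_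
  rw [Nat.cast_sum]
  have h1 : ∀ V ∈ B, (((𝒜.filter (fun i => ∀ q ∈ V, v i % q = ro q)).card : ℕ) : ℝ) ≤
      X * (Real.exp (-(Real.log D / Real.log w)) * ∏ q ∈ V, (3 * (1 / (q : ℝ)))) + E (∏ q ∈ V, q) := by
    intro V hV
    rw [hB, mem_filter, mem_powerset] at hV
    obtain ⟨hVQ, hV1, hV2⟩ := hV
    have h2 := (abs_le.1 (hLev.cls (hVQ.trans hQz) (hV2.trans hDY) (c := ro) (fun p hp => (hQ p (hVQ hp)).2))).2
    have hVp : (0 : ℝ) < ∏ p ∈ V, (p : ℝ) := prod_pos fun p hp => by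
      exact_mod_cast (Pr_prime (hQz (hVQ hp))).pos
    have h3 : ((∏ p ∈ V, p : ℕ) : ℝ) = ∏ p ∈ V, (p : ℝ) := by push_cast; rfl
    have h6 : Real.log D ≤ Real.log (∏ p ∈ V, (p : ℝ)) := by
      apply Real.log_le_log hD0
      rw [← h3]
      exact_mod_cast hV1.le
    have h7 : Real.log (∏ p ∈ V, (p : ℝ)) = ∑ p ∈ V, Real.log p :=
      Real.log_prod (fun p hp => by
        have := (Pr_prime (hQz (hVQ hp))).pos
        positivity)
    have h8 : ∏ q ∈ V, (3 * (1 / (q : ℝ))) = (∏ q ∈ V, (3 : ℝ)) * (1 / ∏ p ∈ V, (p : ℝ)) := by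
      rw [prod_mul_distrib]
      congr 1
      rw [one_div, ← prod_inv_distrib]
      apply prod_congr rfl
      intro q _
      rw [one_div]
    have h9 : 1 ≤ Real.exp (-(Real.log D / Real.log w)) * ∏ q ∈ V, (3 : ℝ) := by
      have h10 : Real.exp (Real.log D / Real.log w) ≤ ∏ q ∈ V, (3 : ℝ) := by
        have h11 : Real.log D / Real.log w ≤ ∑ p ∈ V, Real.log p / Real.log w := by
          rw [← sum_div]
          apply div_le_div_of_nonneg_right _ hlw.le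
          rw [← h7]
          exact h6
        refine (Real.exp_le_exp.2 h11).trans ?_
        rw [Real.exp_sum]
        apply Finset.prod_le_prod
        · intro q _
          exact (Real.exp_pos _).le
        · intro q hq
          have h12 : Real.log q / Real.log w ≤ 1 := by
            rw [div_le_one hlw]
            apply Real.log_le_log
            · exact_mod_cast (Pr_prime (hQz (hVQ hq))).pos
            · exact_mod_cast (hQ q (hVQ hq)).1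
          refine (Real.exp_le_exp.2 h12).trans ?_
          linarith [Real.exp_one_lt_d9]
      rw [Real.exp_neg, inv_mul_eq_div, le_div_iff₀ (Real.exp_pos _), one_mul]
      exact h10
    have h13 : X / ∏ p ∈ V, (p : ℝ) ≤ X * (Real.exp (-(Real.log D / Real.log w)) * ∏ q ∈ V, (3 * (1 / (q : ℝ)))) := by
      rw [div_eq_mul_one_div]
      apply mul_le_mul_of_nonneg_left _ hX
      rw [h8, ← mul_assoc]
      calc 1 / ∏ p ∈ V, (p : ℝ) = 1 * (1 / ∏ p ∈ V, (p : ℝ)) := by ring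
        _ ≤ _ := mul_le_mul_of_nonneg_right h9 (by positivity)
    linarith
  refine (sum_le_sum h1).trans ?_
  rw [sum_add_distrib, ← mul_sum, ← mul_sum]
  apply add_le_add
  · apply mul_le_mul_of_nonneg_left _ hX
    apply mul_le_mul_of_nonneg_left _ (Real.exp_pos _).le
    have h2 : ∑ V ∈ B, ∏ q ∈ V, (3 * (1 / (q : ℝ))) ≤ ∑ V ∈ Q.powerset, ∏ q ∈ V, (3 * (1 / (q : ℝ))) := by
      apply sum_le_sum_of_subset_of_nonneg
      · rw [hB]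
        exact filter_subset _ _
      · intro V _ _
        exact prod_nonneg fun q _ => by positivity
    refine h2.trans ?_
    rw [← prod_one_add, mul_sum, Real.exp_sum]
    apply Finset.prod_le_prod
    · intro q _
      positivity
    · intro q _
      have := Real.add_one_le_exp (3 * (1 / (q : ℝ)))
      linarith
  · unfold TE
    have h2 : ∑ V ∈ B, E (∏ q ∈ V, q) ≤ ∑ V ∈ B, ((κ + 2 : ℕ) : ℝ) ^ V.card * E (∏ q ∈ V, q) := by
      apply sum_le_sum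
      intro V _
      apply le_mul_of_one_le_left (hE _)
      apply one_le_pow₀
      exact_mod_cast (by omega : 1 ≤ κ + 2)
    refine h2.trans (sum_le_sum_of_subset_of_nonneg ?_ fun V _ _ => mul_nonneg (by positivity) (hE _))
    intro V hV
    rw [hB, mem_filter, mem_powerset] at hV
    rw [mem_filter, mem_powerset]
    exact ⟨hV.1.trans hQz, hV.2.2.trans hDY⟩

open Classical in
/-- the primes of medium size -/
theorem partCI {κ C0 : ℕ} (hC : NUI κ C0)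
    {J z0 : ℕ} (hz0 : C0 ≤ z0) {ι : Type} {𝒜 : Finset ι} {v : ι → ℕ} {X : ℝ} {E : ℕ → ℝ}
    (hX : 0 ≤ X) (hE : ∀ m, 0 ≤ E m) (hLev : Lev 𝒜 v X E z0 (2 ^ 2 ^ J) ((2 ^ 2 ^ J) ^ (C0 * C0 + 2)))
    {Om : ℕ → Finset ℕ} {ro : ℕ → ℕ} {Q : Finset ℕ}
    (hd : Dat κ z0 (2 ^ 2 ^ J) Om ro Q) (lam : ℝ) :
    ((𝒜.filter (fun i => Av Om z0 (2 ^ 2 ^ J) (v i) ∧ lam < ((hit ro Q (v i)).card : ℝ))).card : ℝ) * lam ≤
      2 * (X * VV Om z0 (2 ^ 2 ^ J)) * (∑ q ∈ Q, 1 / ((q : ℝ) - (Om q).card)) +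
      ((J : ℝ) + 2) * TE κ E z0 (2 ^ 2 ^ J) ((2 ^ 2 ^ J) ^ (C0 * C0 + 2)) := by
  have hz1' : 1 ≤ 2 ^ 2 ^ J := Nat.one_le_two_pow
  obtain ⟨A, hA⟩ : ∃ A : Finset ι, A = 𝒜.filter (fun i => Av Om z0 (2 ^ 2 ^ J) (v i)) := ⟨_, rfl⟩
  have h1 : ((𝒜.filter (fun i => Av Om z0 (2 ^ 2 ^ J) (v i) ∧ lam < ((hit ro Q (v i)).card : ℝ))).card : ℝ) * lam ≤
      ∑ n ∈ A, ((hit ro Q (v n)).card : ℝ) := by
    rw [← nsmul_eq_mul, ← sum_const]
    refine (sum_le_sum fun n hn => ?_).trans (sum_le_sum_of_subset_of_nonneg ?_ fun n _ _ => Nat.cast_nonneg _)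
    · exact (mem_filter.1 hn).2.2.le
    · intro n hn
      rw [mem_filter] at hn
      rw [hA, mem_filter]
      exact ⟨hn.1, hn.2.1⟩
  refine h1.trans ?_
  have h2 : ∑ n ∈ A, ((hit ro Q (v n)).card : ℝ) = ∑ q ∈ Q, ((A.filter (fun n => v n % q = ro q)).card : ℝ) := by
    have h3 : ∀ n, ((hit ro Q (v n)).card : ℝ) = ∑ q ∈ Q, (if v n % q = ro q then (1 : ℝ) else 0) := by
      intro n
      unfold hit
      rw [card_filter]
      push_cast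
      rfl
    simp_rw [h3]
    rw [sum_comm]
    apply sum_congr rfl
    intro q _
    rw [card_filter]
    push_cast
    rfl
  rw [h2]
  have h4 : ∀ q ∈ Q, ((A.filter (fun n => v n % q = ro q)).card : ℝ) ≤
      2 * (X * VV Om z0 (2 ^ 2 ^ J)) * (1 / ((q : ℝ) - (Om q).card)) +
        ((J : ℝ) + 2) * EI κ E z0 (2 ^ 2 ^ J) ((2 ^ 2 ^ J) ^ (C0 * C0)) (∏ p ∈ {q}, p) {q} := by
    intro q hq
    have h5 := hC J z0 hz0 ι 𝒜 v X E hX hE hLev Om ro {q} hd.om (singleton_subset_iff.2 (hd.sub hq)) (by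
      intro p hp
      rw [mem_singleton] at hp
      rw [hp]
      exact hd.ro q hq) {q} (Subset.refl _) (by
      rw [prod_singleton]
      exact (Pr_mem.1 (hd.sub hq)).1.2)
    have e1 : Pm (fun q => 1 / ((q : ℝ) - (Om q).card)) {q} {q} = 1 / ((q : ℝ) - (Om q).card) := by
      unfold Pm
      rw [sdiff_self, prod_singleton]
      simp
    rw [e1] at h5
    have e2 : A.filter (fun n => v n % q = ro q) ⊆
        𝒜.filter (fun i => Av Om z0 (2 ^ 2 ^ J) (v i) ∧ hit ro {q} (v i) = {q}) := by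
      intro n hn
      rw [mem_filter, hA, mem_filter] at hn
      rw [mem_filter]
      refine ⟨hn.1.1, hn.1.2, ?_⟩
      unfold hit
      rw [filter_singleton, if_pos hn.2]
    refine (Nat.cast_le.2 (card_le_card e2)).trans (h5.trans (le_of_eq ?_))
    ring
  refine (sum_le_sum h4).trans ?_
  rw [sum_add_distrib, ← mul_sum, ← mul_sum]
  apply add_le_add le_rfl
  apply mul_le_mul_of_nonneg_left _ (by positivity)
  have h5 : ∑ q ∈ Q, EI κ E z0 (2 ^ 2 ^ J) ((2 ^ 2 ^ J) ^ (C0 * C0)) (∏ p ∈ {q}, p) {q} =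
      ∑ U ∈ Q.image (fun q => ({q} : Finset ℕ)), EI κ E z0 (2 ^ 2 ^ J) ((2 ^ 2 ^ J) ^ (C0 * C0)) (∏ p ∈ U, p) U := by
    rw [sum_image]
    intro a _ b _ hab
    exact singleton_injective hab
  rw [h5]
  apply conv hE
  intro U hU
  rw [mem_image] at hU
  obtain ⟨q, hq, rfl⟩ := hU
  refine ⟨singleton_subset_iff.2 (hd.sub hq), ?_⟩
  rw [prod_singleton]
  calc q * (2 ^ 2 ^ J) ^ (C0 * C0) ≤ 2 ^ 2 ^ J * (2 ^ 2 ^ J) ^ (C0 * C0) :=
        Nat.mul_le_mul_right _ (Pr_mem.1 (hd.sub hq)).1.2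
    _ = (2 ^ 2 ^ J) ^ (C0 * C0 + 1) := by rw [pow_succ, mul_comm]
    _ ≤ _ := Nat.pow_le_pow_right hz1' (by omega)

end Pool.Agent.X26.AN
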