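import Pool.Agent.X26.AN.Main

/-!
# Large deviations: the model and the three parts
-/

set_option autoImplicit false

namespace Pool.Agent.X26.AN

open Finset
open Pool.Agent.Y843.HS (Pr VV Pr_mem Pr_prime)

/-- the moment generating function in the independent model -/
theorem mgf (g : ℕ → ℝ) (y : ℝ) (Q : Finset ℕ) :
    ∑ U ∈ Q.powerset, Pm g Q U * y ^ U.card = ∏ q ∈ Q, (1 + (y - 1) * g q) := by
  induction Q using Finset.induction_on with
  | empty => simp [Pm]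
  | insert a Q ha ih =>
    rw [sum_powerset_insert ha, ← sum_add_distrib, prod_insert ha, ← ih, mul_sum]
    apply sum_congr rfl
    intro U hU
    rw [Pm_insert_not ha (mem_powerset.1 hU), Pm_insert ha (mem_powerset.1 hU),
      card_insert_of_notMem (fun h => ha (mem_powerset.1 hU h))]
    ring

theorem mgf_le {g : ℕ → ℝ} {y : ℝ} (hy : 0 < y) {Q : Finset ℕ} (hg : ∀ q ∈ Q, 0 ≤ g q ∧ g q ≤ 1) :
    ∑ U ∈ Q.powerset, Pm g Q U * y ^ U.card ≤ Real.exp ((y - 1) * ∑ q ∈ Q, g q) := by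
  rw [mgf, mul_sum, Real.exp_sum]
  apply Finset.prod_le_prod
  · intro q hq
    obtain ⟨h1, h2⟩ := hg q hq
    nlinarith
  · intro q _
    have := Real.add_one_le_exp ((y - 1) * g q)
    linarith

theorem pow_ineq {S a : ℝ} (hS : 0 ≤ S) (ha : 0 ≤ a) (r : ℕ) :
    S ^ (r + 1) + (r + 1) * a * S ^ r ≤ (S + a) ^ (r + 1) := by
  induction r with
  | zero => simp
  | succ r ih =>
    have h1 := mul_le_mul_of_nonneg_left ih (show 0 ≤ S + a by positivity)
    have h2 : 0 ≤ ((r : ℝ) + 1) * a * a * S ^ r := by positivity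
    push_cast
    calc S ^ (r + 1 + 1) + ((r : ℝ) + 1 + 1) * a * S ^ (r + 1)
        ≤ (S + a) * (S ^ (r + 1) + (r + 1) * a * S ^ r) := by
          have e : (S + a) * (S ^ (r + 1) + (r + 1) * a * S ^ r) =
              S ^ (r + 1 + 1) + ((r : ℝ) + 1 + 1) * a * S ^ (r + 1) + ((r : ℝ) + 1) * a * a * S ^ r := by ring
          rw [e]
          linarith
      _ ≤ (S + a) * (S + a) ^ (r + 1) := h1
      _ = (S + a) ^ (r + 1 + 1) := by ring

/-- the elementary symmetric sums -/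
theorem esym_le {g : ℕ → ℝ} (Q : Finset ℕ) (hg : ∀ q ∈ Q, 0 ≤ g q) : ∀ r : ℕ,
    ∑ U ∈ Q.powersetCard r, ∏ q ∈ U, g q ≤ (∑ q ∈ Q, g q) ^ r / (r.factorial : ℝ) := by
  induction Q using Finset.induction_on with
  | empty =>
    intro r
    cases r with
    | zero => simp
    | succ r =>
      have h : (∅ : Finset ℕ).powersetCard (r + 1) = ∅ := powersetCard_eq_empty.2 (by simp)
      rw [h]
      simp
  | insert a Q ha ih =>
    have hQ : ∀ q ∈ Q, 0 ≤ g q := fun q hq => hg q (mem_insert_of_mem hq)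
    have ha0 : 0 ≤ g a := hg a (mem_insert_self _ _)
    have hS : 0 ≤ ∑ q ∈ Q, g q := sum_nonneg hQ
    intro r
    cases r with
    | zero => simp
    | succ r =>
      rw [powersetCard_succ_insert ha, sum_union, sum_image, sum_insert ha]
      · have h1 := ih hQ (r + 1)
        have h2 := ih hQ r
        have h3 : ∑ U ∈ Q.powersetCard r, ∏ q ∈ insert a U, g q =
            g a * ∑ U ∈ Q.powersetCard r, ∏ q ∈ U, g q := by
          rw [mul_sum]
          apply sum_congr rfl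
          intro U hU
          rw [prod_insert (fun h => ha ((mem_powersetCard.1 hU).1 h))]
        rw [h3]
        have h4 := mul_le_mul_of_nonneg_left h2 ha0
        have hf : (0 : ℝ) < (r.factorial : ℝ) := by exact_mod_cast Nat.factorial_pos r
        have hf1 : (((r + 1).factorial : ℕ) : ℝ) = (r + 1) * (r.factorial : ℝ) := by
          rw [Nat.factorial_succ]
          push_cast
          ring
        rw [hf1] at h1 ⊢
        refine (add_le_add h1 h4).trans ?_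
        rw [add_comm (g a)]
        have e : (∑ q ∈ Q, g q) ^ (r + 1) / ((r + 1) * (r.factorial : ℝ)) +
            g a * ((∑ q ∈ Q, g q) ^ r / (r.factorial : ℝ)) =
            ((∑ q ∈ Q, g q) ^ (r + 1) + (r + 1) * g a * (∑ q ∈ Q, g q) ^ r) / ((r + 1) * (r.factorial : ℝ)) := by
          field_simp
        rw [e]
        apply div_le_div_of_nonneg_right _ (by positivity)
        exact pow_ineq hS ha0 r
      · intro U hU V hV h
        have h1 : a ∉ U := fun h => ha ((mem_powersetCard.1 hU).1 h)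
        have h2 : a ∉ V := fun h => ha ((mem_powersetCard.1 hV).1 h)
        have h3 := congrArg (fun W => Finset.erase W a) h
        simp only [erase_insert h1, erase_insert h2] at h3
        exact h3
      · rw [disjoint_left]
        intro U hU hU'
        rw [mem_image] at hU'
        obtain ⟨V, _, h1⟩ := hU'
        apply ha
        apply (mem_powersetCard.1 hU).1
        rw [← h1]
        exact mem_insert_self _ _

open Classical in
/-- Chernoff's bound for the small primes -/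
theorem partA_ld {κ C0 : ℕ} (hC : ∀ (J z0 : ℕ), C0 ≤ z0 → ∀ (Om : ℕ → Finset ℕ) (ro : ℕ → ℕ)
    (Q : Finset ℕ), (∀ p : ℕ, p.Prime → (Om p).card ≤ κ ∧ ∀ c ∈ Om p, c < p) → Q ⊆ Pr z0 (2 ^ 2 ^ J) →
    (∀ q ∈ Q, ro q < q ∧ ro q ∉ Om q) → ∀ M X : ℕ, ∀ U ⊆ Q,
    (((Ioc M (M + X)).filter (fun n => Av Om z0 (2 ^ 2 ^ J) n ∧ hit ro Q n = U)).card : ℝ) ≤
      2 * (X * VV Om z0 (2 ^ 2 ^ J) * Pm (fun q => 1 / ((q : ℝ) - (Om q).card)) Q U) + Er C0 J)
    {J z0 : ℕ} (hz0 : C0 ≤ z0) (hz1 : 2 * κ + 2 ≤ z0) {Om : ℕ → Finset ℕ} {ro : ℕ → ℕ} {Q : Finset ℕ}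
    (hd : Dat κ z0 (2 ^ 2 ^ J) Om ro Q) {y lam : ℝ} (hy : 0 < y) {P : ℕ → Prop}
    (hP : ∀ m : ℕ, P m → y ^ lam ≤ y ^ m) (M X D : ℕ) :
    (((Ioc M (M + X)).filter (fun n => Av Om z0 (2 ^ 2 ^ J) n ∧ P (hit ro Q n).card)).card : ℝ) ≤
      2 * (X * VV Om z0 (2 ^ 2 ^ J)) *
        (Real.exp ((y - 1) * ∑ q ∈ Q, 1 / ((q : ℝ) - (Om q).card)) / y ^ lam) + D * Er C0 J +
      (((Ioc M (M + X)).filter (fun n => D < ∏ q ∈ hit ro Q n, q)).card : ℝ) := by
  obtain ⟨g, hg⟩ : ∃ g : ℕ → ℝ, g = fun q : ℕ => 1 / ((q : ℝ) - (Om q).card) := ⟨_, rfl⟩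
  have hg0 : ∀ q ∈ Q, 0 ≤ g q ∧ g q ≤ 1 := fun q hq => by
    have := g_bd hd hz1 q hq
    rw [hg]
    exact ⟨this.1, this.2.1⟩
  have hGq : ∀ q : ℕ, 1 / ((q : ℝ) - (Om q).card) = g q := fun q => by rw [hg]
  simp only [hGq]
  have hQp : ∀ q ∈ Q, q.Prime := fun q hq => Pr_prime (hd.sub hq)
  obtain ⟨B, hB⟩ : ∃ B : Finset (Finset ℕ), B = (Q.powerset.filter (fun T : Finset ℕ => ∏ p ∈ T, p ≤ D)).filter
    (fun U => P U.card) := ⟨_, rfl⟩
  obtain ⟨N1, hN1⟩ : ∃ N1 : Finset ℕ → Finset ℕ, N1 = fun U => (Ioc M (M + X)).filter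
    (fun n => Av Om z0 (2 ^ 2 ^ J) n ∧ hit ro Q n = U) := ⟨_, rfl⟩
  obtain ⟨R, hR⟩ : ∃ R : Finset ℕ, R = (Ioc M (M + X)).filter (fun n => D < ∏ q ∈ hit ro Q n, q) := ⟨_, rfl⟩
  have hsub : (Ioc M (M + X)).filter (fun n => Av Om z0 (2 ^ 2 ^ J) n ∧ P (hit ro Q n).card) ⊆
      B.biUnion N1 ∪ R := by
    intro n hn
    rw [mem_filter] at hn
    obtain ⟨h1, h2, h3⟩ := hn
    rw [mem_union]
    by_cases h4 : D < ∏ q ∈ hit ro Q n, q
    · right
      rw [hR, mem_filter]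
      exact ⟨h1, h4⟩
    · left
      rw [mem_biUnion]
      refine ⟨hit ro Q n, ?_, ?_⟩
      · rw [hB, mem_filter, mem_filter, mem_powerset]
        exact ⟨⟨hit_sub, not_lt.1 h4⟩, h3⟩
      · rw [hN1, mem_filter]
        exact ⟨h1, h2, rfl⟩
  rw [← hR]
  refine (Nat.cast_le.2 (card_le_card hsub)).trans ?_
  refine (Nat.cast_le.2 (card_union_le _ _)).trans ?_
  rw [Nat.cast_add]
  apply add_le_add _ le_rfl
  refine (Nat.cast_le.2 card_biUnion_le).trans ?_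
  rw [Nat.cast_sum]
  have h1 : ∀ U ∈ B, ((N1 U).card : ℝ) ≤ 2 * (X * VV Om z0 (2 ^ 2 ^ J)) * Pm g Q U + Er C0 J := by
    intro U hU
    rw [hB, mem_filter, mem_filter, mem_powerset] at hU
    have h2 := hC J z0 hz0 Om ro Q hd.om hd.sub hd.ro M X U hU.1.1
    rw [hN1]
    rw [← hg] at h2
    refine h2.trans (le_of_eq ?_)
    ring
  refine (sum_le_sum h1).trans ?_
  rw [sum_add_distrib, ← mul_sum, sum_const, nsmul_eq_mul]
  have hE : 0 ≤ Er C0 J := by unfold Er; positivity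
  have hV : 0 ≤ VV Om z0 (2 ^ 2 ^ J) := by
    unfold VV
    apply prod_nonneg
    intro p hp
    have h5 := Pr_mem.1 hp
    have h6 := (hd.om p h5.2).1
    have h7 : (Om p).card ≤ p := by omega
    rw [sub_nonneg, div_le_one (by exact_mod_cast h5.2.pos)]
    exact_mod_cast h7
  have hyl : 0 < y ^ lam := Real.rpow_pos_of_pos hy _
  apply add_le_add
  · apply mul_le_mul_of_nonneg_left _ (by positivity)
    rw [le_div_iff₀ hyl, sum_mul]
    refine le_trans ?_ (mgf_le hy hg0)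
    refine (sum_le_sum fun U hU => ?_).trans (sum_le_sum_of_subset_of_nonneg (s := B) ?_ fun U hU _ => ?_)
    · rw [hB, mem_filter, mem_filter, mem_powerset] at hU
      exact mul_le_mul_of_nonneg_left (hP _ hU.2) (Pm_nonneg hU.1.1 hg0)
    · rw [hB]
      exact (filter_subset _ _).trans (filter_subset _ _)
    · exact mul_nonneg (Pm_nonneg (mem_powerset.1 hU) hg0) (pow_nonneg hy.le _)
  · apply mul_le_mul_of_nonneg_right _ hE
    have h2 : B.card ≤ D := by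
      refine le_trans (card_le_card ?_) (Pool.Agent.TH882.FL.card_le Q hQp D)
      rw [hB]
      exact filter_subset _ _
    exact_mod_cast h2

open Classical in
/-- many primes of medium size -/
theorem partC_ld {κ C0 : ℕ} (hC : ∀ (J z0 : ℕ), C0 ≤ z0 → ∀ (Om : ℕ → Finset ℕ) (ro : ℕ → ℕ)
    (Q : Finset ℕ), (∀ p : ℕ, p.Prime → (Om p).card ≤ κ ∧ ∀ c ∈ Om p, c < p) → Q ⊆ Pr z0 (2 ^ 2 ^ J) →
    (∀ q ∈ Q, ro q < q ∧ ro q ∉ Om q) → ∀ M X : ℕ, ∀ U ⊆ Q,
    (((Ioc M (M + X)).filter (fun n => Av Om z0 (2 ^ 2 ^ J) n ∧ hit ro Q n = U)).card : ℝ) ≤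
      2 * (X * VV Om z0 (2 ^ 2 ^ J) * Pm (fun q => 1 / ((q : ℝ) - (Om q).card)) Q U) + Er C0 J)
    {J z0 : ℕ} (hz0 : C0 ≤ z0) (hz1 : 2 * κ + 2 ≤ z0) {Om : ℕ → Finset ℕ} {ro : ℕ → ℕ} {Q : Finset ℕ}
    (hd : Dat κ z0 (2 ^ 2 ^ J) Om ro Q) {r D : ℕ} (hD : ∀ U ⊆ Q, U.card = r → ∏ q ∈ U, q ≤ D) (M X : ℕ) :
    (((Ioc M (M + X)).filter (fun n => Av Om z0 (2 ^ 2 ^ J) n ∧ r ≤ (hit ro Q n).card)).card : ℝ) ≤
      2 * (X * VV Om z0 (2 ^ 2 ^ J)) *
        ((∑ q ∈ Q, 1 / ((q : ℝ) - (Om q).card)) ^ r / (r.factorial : ℝ)) + D * Er C0 J := by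
  obtain ⟨g, hg⟩ : ∃ g : ℕ → ℝ, g = fun q : ℕ => 1 / ((q : ℝ) - (Om q).card) := ⟨_, rfl⟩
  have hg0 : ∀ q ∈ Q, 0 ≤ g q ∧ g q ≤ 1 := fun q hq => by
    have := g_bd hd hz1 q hq
    rw [hg]
    exact ⟨this.1, this.2.1⟩
  have hGq : ∀ q : ℕ, 1 / ((q : ℝ) - (Om q).card) = g q := fun q => by rw [hg]
  simp only [hGq]
  have hQp : ∀ q ∈ Q, q.Prime := fun q hq => Pr_prime (hd.sub hq)
  obtain ⟨N1, hN1⟩ : ∃ N1 : Finset ℕ → Finset ℕ, N1 = fun U => (Ioc M (M + X)).filter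
    (fun n => Av Om z0 (2 ^ 2 ^ J) n ∧ hit ro U n = U) := ⟨_, rfl⟩
  have hsub : (Ioc M (M + X)).filter (fun n => Av Om z0 (2 ^ 2 ^ J) n ∧ r ≤ (hit ro Q n).card) ⊆
      (Q.powersetCard r).biUnion N1 := by
    intro n hn
    rw [mem_filter] at hn
    obtain ⟨h1, h2, h3⟩ := hn
    obtain ⟨U, hU1, hU2⟩ := exists_subset_card_eq h3
    rw [mem_biUnion]
    refine ⟨U, ?_, ?_⟩
    · rw [mem_powersetCard]
      exact ⟨hU1.trans hit_sub, hU2⟩
    · rw [hN1, mem_filter]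
      refine ⟨h1, h2, ?_⟩
      ext q
      rw [mem_hit]
      exact ⟨fun h => h.1, fun h => ⟨h, (mem_hit.1 (hU1 h)).2⟩⟩
  refine (Nat.cast_le.2 ((card_le_card hsub).trans card_biUnion_le)).trans ?_
  rw [Nat.cast_sum]
  have h1 : ∀ U ∈ Q.powersetCard r, ((N1 U).card : ℝ) ≤
      2 * (X * VV Om z0 (2 ^ 2 ^ J)) * (∏ q ∈ U, g q) + Er C0 J := by
    intro U hU
    have hUQ := (mem_powersetCard.1 hU).1
    have h2 := hC J z0 hz0 Om ro U hd.om (hUQ.trans hd.sub) (fun q hq => hd.ro q (hUQ hq)) M X U (Subset.refl _)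
    rw [hN1]
    rw [← hg] at h2
    refine h2.trans (le_of_eq ?_)
    unfold Pm
    have e0 : U \ U = ∅ := Finset.sdiff_self U
    rw [e0, prod_empty]
    ring
  refine (sum_le_sum h1).trans ?_
  rw [sum_add_distrib, ← mul_sum, sum_const, nsmul_eq_mul]
  have hE : 0 ≤ Er C0 J := by unfold Er; positivity
  have hV : 0 ≤ VV Om z0 (2 ^ 2 ^ J) := by
    unfold VV
    apply prod_nonneg
    intro p hp
    have h5 := Pr_mem.1 hp
    have h6 := (hd.om p h5.2).1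
    have h7 : (Om p).card ≤ p := by omega
    rw [sub_nonneg, div_le_one (by exact_mod_cast h5.2.pos)]
    exact_mod_cast h7
  apply add_le_add
  · apply mul_le_mul_of_nonneg_left _ (by positivity)
    exact esym_le Q (fun q hq => (hg0 q hq).1) r
  · apply mul_le_mul_of_nonneg_right _ hE
    have h2 : (Q.powersetCard r).card ≤ D := by
      refine le_trans (card_le_card ?_) (Pool.Agent.TH882.FL.card_le Q hQp D)
      intro U hU
      rw [mem_powersetCard] at hU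
      rw [mem_filter, mem_powerset]
      exact ⟨hU.1, hD U hU.1 hU.2⟩
    exact_mod_cast h2

end Pool.Agent.X26.AN
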