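import Pool.Agent.X26.AN.LdA

/-!
# Large deviations of the number of prime factors in sifted sets
-/

set_option autoImplicit false

namespace Pool.Agent.X26.AN

open Finset Filter
open Pool.Agent.Y843.HS (Pr VV Pr_mem Pr_prime)

open Classical in
/-- **Large deviations in sifted sets.** -/
theorem mainLD (κ : ℕ) : ∃ z0 N : ℕ, 1 ≤ N ∧ ∀ H y k : ℝ, 0 ≤ H → 0 < y → 0 < k → ∃ C : ℝ, 0 < C ∧
    ∃ J0 : ℕ, ∀ J : ℕ, J0 ≤ J →
    ∀ X : ℕ, (2 ^ 2 ^ J) ^ N ≤ X → ∀ (Om : ℕ → Finset ℕ) (ro : ℕ → ℕ) (Q : Finset ℕ),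
    Dat κ z0 (2 ^ 2 ^ J) Om ro Q →
    (∀ q ∈ Q, (q : ℝ) ≤ Real.exp (Real.log ((2 ^ 2 ^ J : ℕ) : ℝ) /
      (k * Real.log (Real.log ((2 ^ 2 ^ J : ℕ) : ℝ))))) →
    ∀ (P : ℕ → Prop) (lam : ℝ),
    (∀ a b : ℕ, (b : ℝ) < k * Real.log (Real.log ((2 ^ 2 ^ J : ℕ) : ℝ)) → P (a + b) → y ^ lam ≤ y ^ a) →
    ∀ M : ℕ, (((Ioc M (M + X)).filter (fun n => Av Om z0 (2 ^ 2 ^ J) n ∧ P (hit ro Q n).card)).card : ℝ) ≤
      X * VV Om z0 (2 ^ 2 ^ J) * (C * Real.exp ((y - 1) * ∑ q ∈ Q, 1 / (q : ℝ) - lam * Real.log y) +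
        Real.exp (-(H * Real.log (Real.log ((2 ^ 2 ^ J : ℕ) : ℝ))))) := by
  obtain ⟨C0, hκC0, hNU⟩ := NU_le κ
  obtain ⟨C, hC⟩ := Pool.Agent.Helper256.KM.mertens_inv
  have hC0 : 0 ≤ C := (abs_nonneg _).trans (hC 3 le_rfl)
  refine ⟨max C0 (2 * κ + 2), 2 * (C0 * C0) + 4, by omega, ?_⟩
  obtain ⟨z0, hz0⟩ : ∃ z0 : ℕ, z0 = max C0 (2 * κ + 2) := ⟨_, rfl⟩
  rw [← hz0]
  have hz01 : C0 ≤ z0 := by omega
  have hz02 : 2 * κ + 2 ≤ z0 := by omega
  intro H y k hH hy hk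
  have hκ0 : (0 : ℝ) ≤ κ := Nat.cast_nonneg _
  obtain ⟨S, hS⟩ : ∃ S : ℝ, S = 2 * κ + H + 5 + k := ⟨_, rfl⟩
  have hS5 : 5 ≤ S := by rw [hS]; linarith
  have hSk : k ≤ S := by rw [hS]; linarith
  obtain ⟨μ, hμ⟩ : ∃ μ : ℝ, μ = Real.log (2 * S / k) + 2 * C := ⟨_, rfl⟩
  have hμ0 : 0 ≤ μ := by
    have : 0 ≤ Real.log (2 * S / k) := by
      apply Real.log_nonneg
      rw [le_div_iff₀ hk]
      linarith
    rw [hμ]
    linarith
  obtain ⟨B, hB⟩ : ∃ B : ℝ, B = Real.exp ((H + 2) / k) := ⟨_, rfl⟩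
  have hB0 : 0 < B := by rw [hB]; exact Real.exp_pos _
  have hB1 : 1 ≤ B := by rw [hB]; exact Real.one_le_exp (by positivity)
  -- the conditions on `l = log log z`
  have hl : ∀ᶠ l : ℝ in atTop, 1 ≤ l ∧ C ≤ l ∧ Real.exp (-2 * l + (2 * κ + 3) * C) ≤ 1 / 8 ∧
      Real.exp (2 * μ * B) * B * Real.exp (-2 * l) ≤ 1 / 8 := by
    have h1 : Tendsto (fun l : ℝ => Real.exp (-2 * l + (2 * κ + 3) * C)) atTop (nhds 0) := by
      apply Real.tendsto_exp_atBot.comp
      apply tendsto_atBot_add_const_right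
      exact tendsto_id.const_mul_atTop_of_neg (by norm_num)
    have h2 : Tendsto (fun l : ℝ => Real.exp (2 * μ * B) * B * Real.exp (-2 * l)) atTop (nhds 0) := by
      have h3 : Tendsto (fun l : ℝ => Real.exp (-2 * l)) atTop (nhds 0) := by
        apply Real.tendsto_exp_atBot.comp
        exact tendsto_id.const_mul_atTop_of_neg (by norm_num)
      have h4 := h3.const_mul (Real.exp (2 * μ * B) * B)
      rwa [mul_zero] at h4
    filter_upwards [eventually_ge_atTop (1 : ℝ), eventually_ge_atTop C,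
      h1.eventually_le_const (show (0 : ℝ) < 1 / 8 by norm_num),
      h2.eventually_le_const (show (0 : ℝ) < 1 / 8 by norm_num)] with l h3 h4 h5 h6
    exact ⟨h3, h4, h5, h6⟩
  have hL : ∀ᶠ L : ℝ in atTop, 1 ≤ L ∧ 2 * (S * Real.log L) ≤ L ∧ 2 * κ * (Real.log L + C) ≤ L ∧
      H * Real.log L + Real.log 8 ≤ L := by
    have h1 := Real.isLittleO_log_id_atTop.bound (show (0 : ℝ) < 1 / (2 * (S + 2 * κ + 1 + H)) by positivity)
    filter_upwards [h1, eventually_ge_atTop (1 : ℝ), eventually_ge_atTop (8 * (κ * C) + 1),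
      eventually_ge_atTop (2 * Real.log 8)] with L h2 h3 h4 h5
    rw [id, Real.norm_eq_abs, Real.norm_eq_abs, abs_of_nonneg (show (0 : ℝ) ≤ L by linarith),
      abs_of_nonneg (Real.log_nonneg h3)] at h2
    have h8 := Real.log_nonneg h3
    have h7 : Real.log L * (2 * (S + 2 * κ + 1 + H)) ≤ L := by
      have h9 := mul_le_mul_of_nonneg_right h2 (show (0 : ℝ) ≤ 2 * (S + 2 * κ + 1 + H) by positivity)
      have e : 1 / (2 * (S + 2 * κ + 1 + H)) * L * (2 * (S + 2 * κ + 1 + H)) = L := by field_simp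
      linarith
    have h10 : 0 ≤ (κ : ℝ) * Real.log L := by positivity
    have h11 : 0 ≤ S * Real.log L := by positivity
    have h13 : 0 ≤ H * Real.log L := by positivity
    refine ⟨h3, by nlinarith, ?_, by nlinarith⟩
    have h12 : 4 * (κ * Real.log L) ≤ L := by nlinarith
    nlinarith
  have hev := tend_z.eventually (hL.and (Real.tendsto_log_atTop.eventually hl))
  obtain ⟨J0, hJ0⟩ := eventually_atTop.1 hev
  refine ⟨2 * Real.exp (|y - 1| * (2 * κ + μ)), by positivity, J0, fun J hJ X hX Om ro Q hd hQw P lam hP M => ?_⟩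
  obtain ⟨⟨hL1, hL2, hL3, hL4⟩, hl1, hl2, hl3, hl4⟩ := hJ0 J hJ
  have hJz := J_le J
  obtain ⟨z, hz⟩ : ∃ z : ℕ, z = 2 ^ 2 ^ J := ⟨_, rfl⟩
  have hE0 : Er C0 J = ((J : ℝ) + 2) * ((z : ℝ) ^ (C0 * C0)) ^ 2 := by unfold Er; rw [hz]
  have hA := partA_ld hNU hz01 hz02 (Q := Q.filter (fun q => q ≤ ⌊Real.exp (Real.log z / (S * Real.log (Real.log z)))⌋₊))
    (hd.mono (filter_subset _ _)) (lam := lam) hy (P := fun a : ℕ => y ^ lam ≤ y ^ a) (fun a h => h) M X z
  have hCc := fun (r : ℕ) (hr : ∀ U ⊆ Q.filter (fun q => ¬ q ≤ ⌊Real.exp (Real.log z / (S * Real.log (Real.log z)))⌋₊),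
      U.card = r → ∏ q ∈ U, q ≤ z) => partC_ld hNU hz01 hz02
    (Q := Q.filter (fun q => ¬ q ≤ ⌊Real.exp (Real.log z / (S * Real.log (Real.log z)))⌋₊))
    (hd.mono (filter_subset _ _)) (r := r) (D := z) hr M X
  rw [← hz] at hX hd hQw hP hL1 hL2 hL3 hL4 hl1 hl2 hl3 hl4 hJz hA hCc ⊢
  obtain ⟨L, hLz⟩ : ∃ L : ℝ, L = Real.log z := ⟨_, rfl⟩
  rw [← hLz] at hQw hP hL1 hL2 hL3 hL4 hl1 hl2 hl3 hl4 hA hCc ⊢
  obtain ⟨l, hlL⟩ : ∃ l : ℝ, l = Real.log L := ⟨_, rfl⟩
  rw [← hlL] at hQw hP hL2 hL3 hL4 hl1 hl2 hl3 hl4 hA hCc ⊢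
  obtain ⟨w, hw⟩ : ∃ w : ℕ, w = ⌊Real.exp (L / (S * l))⌋₊ := ⟨_, rfl⟩
  rw [← hw] at hA hCc
  obtain ⟨Q1, hQ1⟩ : ∃ Q1 : Finset ℕ, Q1 = Q.filter (fun q => q ≤ w) := ⟨_, rfl⟩
  obtain ⟨Q2, hQ2⟩ : ∃ Q2 : Finset ℕ, Q2 = Q.filter (fun q => ¬ q ≤ w) := ⟨_, rfl⟩
  rw [← hQ1] at hA
  rw [← hQ2] at hCc
  have hd1 : Dat κ z0 z Om ro Q1 := hd.mono (by rw [hQ1]; exact filter_subset _ _)
  have hd2 : Dat κ z0 z Om ro Q2 := hd.mono (by rw [hQ2]; exact filter_subset _ _)
  have hz1 : (0 : ℝ) < z := by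
    have : 0 < z := by rw [hz]; positivity
    exact_mod_cast this
  have hexpL : Real.exp L = z := by rw [hLz]; exact Real.exp_log hz1
  have hz3 : 3 ≤ z := by
    by_contra hcon
    have h1 : (z : ℝ) ≤ 2 := by exact_mod_cast (by omega : z ≤ 2)
    have h2 := Real.exp_le_exp.2 hL1
    rw [hexpL] at h2
    have h3 := Real.exp_one_gt_d9
    linarith
  have hS0 : 0 < S * l := by positivity
  have hk0 : 0 < k * l := by positivity
  -- the number `w`
  obtain ⟨a, ha⟩ : ∃ a : ℝ, a = L / (S * l) := ⟨_, rfl⟩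
  rw [← ha] at hw
  have ha2 : 2 ≤ a := by rw [ha, le_div_iff₀ hS0]; linarith
  have haL : a ≤ L := by
    rw [ha]
    apply div_le_self (by linarith)
    nlinarith
  have hexp1 := Real.exp_one_gt_d9
  have hea : Real.exp 1 * Real.exp 1 ≤ Real.exp a := by
    rw [← Real.exp_add]
    exact Real.exp_le_exp.2 (by linarith)
  have hea7 : 7 ≤ Real.exp a := by nlinarith
  have hwlo : Real.exp a - 1 < w := by rw [hw]; exact Nat.sub_one_lt_floor _
  have hwhi : (w : ℝ) ≤ Real.exp a := by rw [hw]; exact Nat.floor_le (Real.exp_pos _).le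
  have hw3 : 3 ≤ w := by
    have h1 : (3 : ℝ) < w := by linarith
    exact_mod_cast h1.le
  have hwz : w ≤ z := by
    have h1 : (w : ℝ) ≤ z := by
      rw [← hexpL]
      exact hwhi.trans (Real.exp_le_exp.2 haL)
    exact_mod_cast h1
  have hw0 : (0 : ℝ) < w := by exact_mod_cast (show 0 < w by omega)
  have hlw : 0 < Real.log w := Real.log_pos (by exact_mod_cast (show 1 < w by omega))
  have hlwa : Real.log w ≤ a := by
    rw [← Real.log_exp a]
    exact Real.log_le_log hw0 hwhi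
  have hlwb : a / 2 ≤ Real.log w := by
    rw [← Real.log_exp (a / 2)]
    apply Real.log_le_log (Real.exp_pos _)
    have h1 : Real.exp (a / 2) * Real.exp (a / 2) = Real.exp a := by
      rw [← Real.exp_add]
      congr 1
      ring
    have h2 : Real.exp 1 ≤ Real.exp (a / 2) := Real.exp_le_exp.2 (by linarith)
    nlinarith
  -- the number `w'`
  obtain ⟨a', ha'⟩ : ∃ a' : ℝ, a' = L / (k * l) := ⟨_, rfl⟩
  rw [← ha'] at hQw
  have haa : a ≤ a' := by
    rw [ha, ha']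
    apply div_le_div_of_nonneg_left (by linarith) hk0
    exact mul_le_mul_of_nonneg_right hSk (by linarith)
  obtain ⟨w', hw'⟩ : ∃ w' : ℕ, w' = ⌊Real.exp a'⌋₊ := ⟨_, rfl⟩
  have hww : w ≤ w' := by
    rw [hw, hw']
    exact Nat.floor_mono (Real.exp_le_exp.2 haa)
  have hw'0 : (0 : ℝ) < w' := by exact_mod_cast (show 0 < w' by omega)
  have hlw' : Real.log w' ≤ a' := by
    rw [← Real.log_exp a']
    apply Real.log_le_log hw'0
    rw [hw']
    exact Nat.floor_le (Real.exp_pos _).le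
  have hlw'0 : 0 < Real.log w' := Real.log_pos (by exact_mod_cast (show 1 < w' by omega))
  -- sums over primes
  have hsum1 : ∑ p ∈ Pr z0 z, 1 / (p : ℝ) ≤ l + C := by
    have h1 := (abs_le.1 (hC z hz3)).2
    rw [← hLz, ← hlL] at h1
    have h2 : ∑ p ∈ Pr z0 z, 1 / (p : ℝ) ≤ ∑ p ∈ (Icc 1 z).filter Nat.Prime, (1 : ℝ) / p := by
      apply sum_le_sum_of_subset_of_nonneg
      · intro p hp
        have h3 := Pr_mem.1 hp
        rw [mem_filter, mem_Icc]
        exact ⟨⟨h3.2.one_lt.le, h3.1.2⟩, h3.2⟩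
      · intro p _ _
        positivity
    linarith
  have hsub1 : ∑ q ∈ Q1, 1 / (q : ℝ) ≤ l + C :=
    (sum_le_sum_of_subset_of_nonneg hd1.sub fun q _ _ => by positivity).trans hsum1
  have hQ2w : Q2 ⊆ Pr w w' := by
    intro q hq
    have h1 := Pr_mem.1 (hd2.sub hq)
    rw [hQ2, mem_filter] at hq
    rw [Pr_mem]
    refine ⟨⟨not_le.1 hq.2, ?_⟩, h1.2⟩
    rw [hw']
    exact Nat.le_floor (hQw q hq.1)
  have hsum2 : ∑ q ∈ Q2, 1 / (q : ℝ) ≤ μ := by
    have h1 := Pool.Agent.Y79.HS.sum_pr hC hw3 hww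
    have h2 : ∑ q ∈ Q2, 1 / (q : ℝ) ≤ ∑ p ∈ Pr w w', (1 : ℝ) / p :=
      sum_le_sum_of_subset_of_nonneg hQ2w fun q _ _ => by positivity
    have h3 : Real.log (Real.log w') - Real.log (Real.log w) ≤ Real.log (2 * S / k) := by
      have h4 : Real.log (a / 2) ≤ Real.log (Real.log w) := Real.log_le_log (by linarith) hlwb
      have h5 : Real.log (Real.log w') ≤ Real.log a' := Real.log_le_log hlw'0 hlw'
      have h6 : Real.log a' - Real.log (a / 2) = Real.log (2 * S / k) := by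
        rw [← Real.log_div (by linarith) (by linarith)]
        congr 1
        rw [ha, ha']
        field_simp
      linarith
    rw [hμ]
    linarith
  have hg2 : ∑ q ∈ Q2, 1 / ((q : ℝ) - (Om q).card) ≤ 2 * μ := by
    have h1 : ∑ q ∈ Q2, 1 / ((q : ℝ) - (Om q).card) ≤ ∑ q ∈ Q2, 2 * (1 / (q : ℝ)) :=
      sum_le_sum fun q hq => (g_bd hd2 hz02 q hq).2.2.1
    rw [← mul_sum] at h1
    linarith
  have hg20 : 0 ≤ ∑ q ∈ Q2, 1 / ((q : ℝ) - (Om q).card) :=
    sum_nonneg fun q hq => (g_bd hd2 hz02 q hq).1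
  have hsq : ∑ q ∈ Q1, 1 / (q : ℝ) ^ 2 ≤ 1 := by
    have h1 := Pool.Agent.Y79.HS.sum_sq_le (s := z0) (z := z) (by omega)
    have h2 : ∑ q ∈ Q1, 1 / (q : ℝ) ^ 2 ≤ ∑ p ∈ Pr z0 z, 1 / (p : ℝ) ^ 2 :=
      sum_le_sum_of_subset_of_nonneg hd1.sub fun q _ _ => by positivity
    have h3 : 1 / (z0 : ℝ) ≤ 1 := by
      have : (1 : ℝ) ≤ z0 := by exact_mod_cast (by omega : 1 ≤ z0)
      rw [div_le_one (by linarith)]
      exact this
    linarith
  -- the product
  obtain ⟨V, hV⟩ : ∃ V : ℝ, V = VV Om z0 z := ⟨_, rfl⟩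
  have hVlo : Real.exp (-(2 * κ * (l + C))) ≤ V := by
    rw [hV]
    refine le_trans (Real.exp_le_exp.2 (neg_le_neg ?_)) (V_pos (fun p hp => (hd.om p hp).1) hz02)
    exact mul_le_mul_of_nonneg_left hsum1 (by positivity)
  have hVz : 1 / (z : ℝ) ≤ V := by
    refine le_trans ?_ hVlo
    rw [← hexpL, one_div, ← Real.exp_neg]
    exact Real.exp_le_exp.2 (neg_le_neg hL3)
  have hV0 : 0 < V := lt_of_lt_of_le (by positivity) hVz
  rw [← hV] at hA hCc ⊢
  have hXr : (z : ℝ) ^ (2 * (C0 * C0) + 4) ≤ X := by exact_mod_cast hX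
  have hX0 : (0 : ℝ) < X := lt_of_lt_of_le (by positivity) hXr
  obtain ⟨Y, hY⟩ : ∃ Y : ℝ, Y = Real.exp (-(H * l)) := ⟨_, rfl⟩
  have hY0 : 0 < Y := by rw [hY]; exact Real.exp_pos _
  have hEr : (z : ℝ) * Er C0 J ≤ 1 / 8 * (X * V * Y) := by
    have h1 : ((J : ℝ) + 2) ≤ z := by exact_mod_cast hJz
    have h2 : (z : ℝ) * Er C0 J ≤ z * (z * ((z : ℝ) ^ (C0 * C0)) ^ 2) := by
      rw [hE0]
      apply mul_le_mul_of_nonneg_left _ hz1.le
      exact mul_le_mul_of_nonneg_right h1 (by positivity)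
    have h3 : (z : ℝ) * (z * ((z : ℝ) ^ (C0 * C0)) ^ 2) * (z * z) = z ^ (2 * (C0 * C0) + 4) := by ring
    have h4 : (z : ℝ) * Er C0 J ≤ X * (1 / z * (1 / z)) := by
      have e : (X : ℝ) * (1 / z * (1 / z)) = X / (z * z) := by ring
      rw [e, le_div_iff₀ (by positivity)]
      refine (mul_le_mul_of_nonneg_right h2 (by positivity)).trans ?_
      rw [h3]
      exact hXr
    refine h4.trans ?_
    have h5 : 1 / (z : ℝ) ≤ 1 / 8 * Y := by
      rw [hY, ← hexpL, one_div, ← Real.exp_neg]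
      have h8 : (1 : ℝ) / 8 = Real.exp (-Real.log 8) := by
        rw [Real.exp_neg, Real.exp_log (by norm_num)]
        norm_num
      rw [h8, ← Real.exp_add]
      exact Real.exp_le_exp.2 (by linarith)
    have h6 : 1 / (z : ℝ) * (1 / z) ≤ 1 / 8 * Y * V := mul_le_mul h5 hVz (by positivity) (by positivity)
    have h7 := mul_le_mul_of_nonneg_left h6 hX0.le
    linarith
  -- the three parts
  have hBb := partB (ro := ro) (Q := Q1) (w := w) (D := z) (X := X) M (by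
    intro q hq
    have h1 := hd1.ro q hq
    have h2 := Pr_prime (hd1.sub hq)
    rw [hQ1, mem_filter] at hq
    exact ⟨h2, hq.2, h1.1⟩) (by omega) hw3 (by
    have h1 : z * w ≤ z * z := Nat.mul_le_mul_left _ hwz
    have h2 : z * z ≤ z ^ (2 * (C0 * C0) + 4) := by
      rw [← pow_two]
      exact Nat.pow_le_pow_right (by omega) (by omega)
    omega)
  have hB2 : (((Ioc M (M + X)).filter (fun n => z < ∏ q ∈ hit ro Q1 n, q)).card : ℝ) ≤ 1 / 4 * (X * V * Y) := by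
    refine hBb.trans ?_
    have h1 : S * l ≤ Real.log z / Real.log w := by
      rw [← hLz, le_div_iff₀ hlw]
      have h2 : S * l * a = L := by rw [ha]; field_simp
      calc S * l * Real.log w ≤ S * l * a := mul_le_mul_of_nonneg_left hlwa hS0.le
        _ = L := h2
    have h3 : Real.exp (-(Real.log z / Real.log w)) * Real.exp (3 * ∑ q ∈ Q1, 1 / (q : ℝ)) ≤
        V * Y * Real.exp (-2 * l + (2 * κ + 3) * C) := by
      rw [← Real.exp_add]
      have hkl : 0 ≤ k * l := hk0.le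
      calc Real.exp (-(Real.log z / Real.log w) + 3 * ∑ q ∈ Q1, 1 / (q : ℝ))
          ≤ Real.exp (-(2 * κ * (l + C)) + -(H * l) + (-2 * l + (2 * κ + 3) * C)) := by
            apply Real.exp_le_exp.2
            have e : -(2 * κ * (l + C)) + -(H * l) + (-2 * l + (2 * κ + 3) * C) =
                -(S * l) + k * l + 3 * (l + C) := by
              rw [hS]; ring
            rw [e]
            linarith
        _ = Real.exp (-(2 * κ * (l + C))) * Y * Real.exp (-2 * l + (2 * κ + 3) * C) := by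
            rw [Real.exp_add, Real.exp_add, hY]
        _ ≤ _ := by
            apply mul_le_mul_of_nonneg_right _ (Real.exp_pos _).le
            exact mul_le_mul_of_nonneg_right hVlo hY0.le
    have h4 : V * Y * Real.exp (-2 * l + (2 * κ + 3) * C) ≤ V * Y * (1 / 8) :=
      mul_le_mul_of_nonneg_left hl3 (by positivity)
    calc 2 * (X : ℝ) * (Real.exp (-(Real.log z / Real.log w)) * Real.exp (3 * ∑ q ∈ Q1, 1 / (q : ℝ)))
        ≤ 2 * (X : ℝ) * (V * Y * (1 / 8)) := mul_le_mul_of_nonneg_left (h3.trans h4) (by positivity)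
      _ = 1 / 4 * (X * V * Y) := by ring
  -- the number `r`
  obtain ⟨r, hr⟩ : ∃ r : ℕ, r = ⌊k * l⌋₊ := ⟨_, rfl⟩
  have hrlo : k * l - 1 ≤ r := by rw [hr]; exact (Nat.sub_one_lt_floor _).le
  have hrhi : (r : ℝ) ≤ k * l := by rw [hr]; exact Nat.floor_le hk0.le
  have hC1 := hCc r (by
    intro U hU hUr
    have h1 : ((∏ q ∈ U, q : ℕ) : ℝ) ≤ z := by
      push_cast
      calc ∏ q ∈ U, (q : ℝ) ≤ ∏ q ∈ U, Real.exp a' := by
            apply Finset.prod_le_prod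
            · intro q _
              exact Nat.cast_nonneg _
            · intro q hq
              have h2 := hU hq
              rw [hQ2, mem_filter] at h2
              exact hQw q h2.1
        _ = Real.exp (r * a') := by rw [prod_const, hUr, ← Real.exp_nat_mul]
        _ ≤ Real.exp L := by
            apply Real.exp_le_exp.2
            have h3 : k * l * a' = L := by rw [ha']; field_simp
            rw [← h3]
            exact mul_le_mul_of_nonneg_right hrhi (by linarith)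
        _ = z := hexpL
    exact_mod_cast h1)
  have hC2 : (((Ioc M (M + X)).filter (fun n => Av Om z0 z n ∧ r ≤ (hit ro Q2 n).card)).card : ℝ) ≤
      1 / 4 * (X * V * Y) + 1 / 8 * (X * V * Y) := by
    refine hC1.trans (add_le_add ?_ hEr)
    have h1 : (∑ q ∈ Q2, 1 / ((q : ℝ) - (Om q).card)) ^ r / (r.factorial : ℝ) ≤
        Real.exp (2 * μ * B) * B * Real.exp (-(H + 2) * l) := by
      have h2 : (∑ q ∈ Q2, 1 / ((q : ℝ) - (Om q).card)) ^ r / (r.factorial : ℝ) ≤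
          (2 * μ) ^ r / (r.factorial : ℝ) :=
        div_le_div_of_nonneg_right (pow_le_pow_left₀ hg20 hg2 r) (Nat.cast_nonneg _)
      have h3 : (2 * μ) ^ r / (r.factorial : ℝ) = (2 * μ * B) ^ r / (r.factorial : ℝ) * (1 / B) ^ r := by
        rw [mul_pow (2 * μ) B r, one_div, inv_pow]
        field_simp
      have h4 := Real.pow_div_factorial_le_exp (2 * μ * B) (by positivity) r
      have h5 : (1 / B) ^ r ≤ B * Real.exp (-(H + 2) * l) := by
        rw [hB, one_div, ← Real.exp_neg, ← Real.exp_nat_mul, ← Real.exp_add]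
        apply Real.exp_le_exp.2
        have h6 : (k * l - 1) * ((H + 2) / k) ≤ r * ((H + 2) / k) :=
          mul_le_mul_of_nonneg_right hrlo (by positivity)
        have h7 : (k * l - 1) * ((H + 2) / k) = (H + 2) * l - (H + 2) / k := by field_simp
        linarith
      calc (∑ q ∈ Q2, 1 / ((q : ℝ) - (Om q).card)) ^ r / (r.factorial : ℝ)
          ≤ (2 * μ * B) ^ r / (r.factorial : ℝ) * (1 / B) ^ r := by rw [← h3]; exact h2
        _ ≤ Real.exp (2 * μ * B) * (B * Real.exp (-(H + 2) * l)) :=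
            mul_le_mul h4 h5 (by positivity) (Real.exp_pos _).le
        _ = _ := by ring
    have h8 : Real.exp (2 * μ * B) * B * Real.exp (-(H + 2) * l) ≤ 1 / 8 * Y := by
      have e : -(H + 2) * l = -2 * l + -(H * l) := by ring
      rw [e, Real.exp_add, ← hY, ← mul_assoc]
      exact mul_le_mul_of_nonneg_right hl4 hY0.le
    calc 2 * (X * V) * ((∑ q ∈ Q2, 1 / ((q : ℝ) - (Om q).card)) ^ r / (r.factorial : ℝ))
        ≤ 2 * (X * V) * (1 / 8 * Y) := mul_le_mul_of_nonneg_left (h1.trans h8) (by positivity)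
      _ = 1 / 4 * (X * V * Y) := by ring
  -- Chernoff
  have hA2 : 2 * (X * V) * (Real.exp ((y - 1) * ∑ q ∈ Q1, 1 / ((q : ℝ) - (Om q).card)) / y ^ lam) ≤
      X * V * (2 * Real.exp (|y - 1| * (2 * κ + μ)) *
        Real.exp ((y - 1) * ∑ q ∈ Q, 1 / (q : ℝ) - lam * Real.log y)) := by
    have hdev : |∑ q ∈ Q1, 1 / ((q : ℝ) - (Om q).card) - ∑ q ∈ Q, 1 / (q : ℝ)| ≤ 2 * κ + μ := by
      have h1 : ∑ q ∈ Q, 1 / (q : ℝ) = ∑ q ∈ Q1, 1 / (q : ℝ) + ∑ q ∈ Q2, 1 / (q : ℝ) := by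
        rw [hQ1, hQ2]
        exact (sum_filter_add_sum_filter_not _ _ _).symm
      have h2 : 0 ≤ ∑ q ∈ Q1, 1 / ((q : ℝ) - (Om q).card) - ∑ q ∈ Q1, 1 / (q : ℝ) := by
        rw [← sum_sub_distrib]
        exact sum_nonneg fun q hq => sub_nonneg.2 (g_bd hd1 hz02 q hq).2.2.2.1
      have h3 : ∑ q ∈ Q1, 1 / ((q : ℝ) - (Om q).card) - ∑ q ∈ Q1, 1 / (q : ℝ) ≤ 2 * κ := by
        rw [← sum_sub_distrib]
        have h4 : ∑ q ∈ Q1, (1 / ((q : ℝ) - (Om q).card) - 1 / (q : ℝ)) ≤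
            ∑ q ∈ Q1, 2 * (κ : ℝ) * (1 / (q : ℝ) ^ 2) :=
          sum_le_sum fun q hq => (g_bd hd1 hz02 q hq).2.2.2.2
        rw [← mul_sum] at h4
        have h5 : 2 * (κ : ℝ) * ∑ q ∈ Q1, 1 / (q : ℝ) ^ 2 ≤ 2 * κ * 1 :=
          mul_le_mul_of_nonneg_left hsq (by positivity)
        linarith
      have h6 : 0 ≤ ∑ q ∈ Q2, 1 / (q : ℝ) := sum_nonneg fun q _ => by positivity
      rw [abs_le, h1]
      constructor <;> linarith
    have h1 : (y - 1) * ∑ q ∈ Q1, 1 / ((q : ℝ) - (Om q).card) ≤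
        |y - 1| * (2 * κ + μ) + (y - 1) * ∑ q ∈ Q, 1 / (q : ℝ) := by
      have h2 : (y - 1) * (∑ q ∈ Q1, 1 / ((q : ℝ) - (Om q).card) - ∑ q ∈ Q, 1 / (q : ℝ)) ≤
          |y - 1| * (2 * κ + μ) := by
        refine (le_abs_self _).trans ?_
        rw [abs_mul]
        exact mul_le_mul_of_nonneg_left hdev (abs_nonneg _)
      linarith
    have h2 : Real.exp ((y - 1) * ∑ q ∈ Q1, 1 / ((q : ℝ) - (Om q).card)) / y ^ lam ≤
        Real.exp (|y - 1| * (2 * κ + μ)) * Real.exp ((y - 1) * ∑ q ∈ Q, 1 / (q : ℝ) - lam * Real.log y) := by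
      rw [Real.rpow_def_of_pos hy, ← Real.exp_sub, ← Real.exp_add]
      apply Real.exp_le_exp.2
      linarith
    calc 2 * (X * V) * (Real.exp ((y - 1) * ∑ q ∈ Q1, 1 / ((q : ℝ) - (Om q).card)) / y ^ lam)
        ≤ 2 * (X * V) * (Real.exp (|y - 1| * (2 * κ + μ)) *
          Real.exp ((y - 1) * ∑ q ∈ Q, 1 / (q : ℝ) - lam * Real.log y)) :=
          mul_le_mul_of_nonneg_left h2 (by positivity)
      _ = _ := by ring
  have hsplit : ∀ n, (hit ro Q n).card = (hit ro Q1 n).card + (hit ro Q2 n).card := by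
    intro n
    have h1 : hit ro Q1 n = (hit ro Q n).filter (fun q => q ≤ w) := by
      rw [hQ1]
      unfold hit
      rw [filter_filter, filter_filter]
      apply filter_congr
      intro q _
      tauto
    have h2 : hit ro Q2 n = (hit ro Q n).filter (fun q => ¬ q ≤ w) := by
      rw [hQ2]
      unfold hit
      rw [filter_filter, filter_filter]
      apply filter_congr
      intro q _
      tauto
    rw [h1, h2]
    exact (card_filter_add_card_filter_not (s := hit ro Q n) (fun q => q ≤ w)).symm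
  have hsub : (Ioc M (M + X)).filter (fun n => Av Om z0 z n ∧ P (hit ro Q n).card) ⊆
      (Ioc M (M + X)).filter (fun n => Av Om z0 z n ∧ y ^ lam ≤ y ^ (hit ro Q1 n).card) ∪
      (Ioc M (M + X)).filter (fun n => Av Om z0 z n ∧ r ≤ (hit ro Q2 n).card) := by
    intro n hn
    rw [mem_filter] at hn
    obtain ⟨h1, h2, h3⟩ := hn
    rw [mem_union, mem_filter, mem_filter]
    by_cases h4 : r ≤ (hit ro Q2 n).card
    · exact Or.inr ⟨h1, h2, h4⟩
    · left
      refine ⟨h1, h2, ?_⟩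
      rw [hsplit n] at h3
      refine hP _ _ (lt_of_lt_of_le ?_ hrhi) h3
      exact_mod_cast not_le.1 h4
  refine (Nat.cast_le.2 ((card_le_card hsub).trans (card_union_le _ _))).trans ?_
  rw [Nat.cast_add]
  have h0 : 0 ≤ (X : ℝ) * V * Y := by positivity
  rw [← hY]
  linarith

end Pool.Agent.X26.AN
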