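import Pool.Agent.X26.AN.BvB
import Pool.Agent.X26.AN.LdA

/-!
# Large deviations for sequences with a level of distribution: the parts
-/

set_option autoImplicit false

namespace Pool.Agent.X26.AN

open Finset
open Pool.Agent.Y843.HS (Pr VV Pr_mem Pr_prime)

open Classical in
/-- Chernoff's bound for the small primes -/
theorem partAI_ld {κ C0 : ℕ} (hC : NUI κ C0)
    {J z0 : ℕ} (hz0 : C0 ≤ z0) (hz1 : 2 * κ + 2 ≤ z0) {ι : Type} {𝒜 : Finset ι} {v : ι → ℕ} {X : ℝ} {E : ℕ → ℝ}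
    (hX : 0 ≤ X) (hE : ∀ m, 0 ≤ E m) (hLev : Lev 𝒜 v X E z0 (2 ^ 2 ^ J) ((2 ^ 2 ^ J) ^ (C0 * C0 + 2)))
    {Om : ℕ → Finset ℕ} {ro : ℕ → ℕ} {Q : Finset ℕ}
    (hd : Dat κ z0 (2 ^ 2 ^ J) Om ro Q) {y lam : ℝ} (hy : 0 < y) {P : ℕ → Prop}
    (hP : ∀ m : ℕ, P m → y ^ lam ≤ y ^ m) :
    ((𝒜.filter (fun i => Av Om z0 (2 ^ 2 ^ J) (v i) ∧ P (hit ro Q (v i)).card)).card : ℝ) ≤
      2 * (X * VV Om z0 (2 ^ 2 ^ J)) *
        (Real.exp ((y - 1) * ∑ q ∈ Q, 1 / ((q : ℝ) - (Om q).card)) / y ^ lam) +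
      ((J : ℝ) + 2) * TE κ E z0 (2 ^ 2 ^ J) ((2 ^ 2 ^ J) ^ (C0 * C0 + 2)) +
      ((𝒜.filter (fun i => 2 ^ 2 ^ J < ∏ q ∈ hit ro Q (v i), q)).card : ℝ) := by
  obtain ⟨g, hg⟩ : ∃ g : ℕ → ℝ, g = fun q : ℕ => 1 / ((q : ℝ) - (Om q).card) := ⟨_, rfl⟩
  have hg0 : ∀ q ∈ Q, 0 ≤ g q ∧ g q ≤ 1 := fun q hq => by
    have := g_bd hd hz1 q hq
    rw [hg]
    exact ⟨this.1, this.2.1⟩
  have hGq : ∀ q : ℕ, 1 / ((q : ℝ) - (Om q).card) = g q := fun q => by rw [hg]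
  simp only [hGq]
  have hz1' : 1 ≤ 2 ^ 2 ^ J := Nat.one_le_two_pow
  obtain ⟨B, hB⟩ : ∃ B : Finset (Finset ℕ), B = (Q.powerset.filter (fun T : Finset ℕ => ∏ p ∈ T, p ≤ 2 ^ 2 ^ J)).filter
    (fun U => P U.card) := ⟨_, rfl⟩
  obtain ⟨N1, hN1⟩ : ∃ N1 : Finset ℕ → Finset ι, N1 = fun U => 𝒜.filter
    (fun i => Av Om z0 (2 ^ 2 ^ J) (v i) ∧ hit ro Q (v i) = U) := ⟨_, rfl⟩
  obtain ⟨R, hR⟩ : ∃ R : Finset ι, R = 𝒜.filter (fun i => 2 ^ 2 ^ J < ∏ q ∈ hit ro Q (v i), q) := ⟨_, rfl⟩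
  have hsub : 𝒜.filter (fun i => Av Om z0 (2 ^ 2 ^ J) (v i) ∧ P (hit ro Q (v i)).card) ⊆ B.biUnion N1 ∪ R := by
    intro n hn
    rw [mem_filter] at hn
    obtain ⟨h1, h2, h3⟩ := hn
    rw [mem_union]
    by_cases h4 : 2 ^ 2 ^ J < ∏ q ∈ hit ro Q (v n), q
    · right
      rw [hR, mem_filter]
      exact ⟨h1, h4⟩
    · left
      rw [mem_biUnion]
      refine ⟨hit ro Q (v n), ?_, ?_⟩
      · rw [hB, mem_filter, mem_filter, mem_powerset]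
        exact ⟨⟨hit_sub, not_lt.1 h4⟩, h3⟩
      · rw [hN1, mem_filter]
        exact ⟨h1, h2, rfl⟩
  rw [← hR]
  refine (Nat.cast_le.2 (card_le_card hsub)).trans ?_
  refine (Nat.cast_le.2 (card_union_le _ _)).trans ?_
  rw [Nat.cast_add]
  apply add_le_add _ le_rfl
  refine (Nat.cast_le.2 card_biUnion_le).trans ?_
  rw [Nat.cast_sum]
  have h1 : ∀ U ∈ B, ((N1 U).card : ℝ) ≤ 2 * (X * VV Om z0 (2 ^ 2 ^ J)) * Pm g Q U +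
      ((J : ℝ) + 2) * EI κ E z0 (2 ^ 2 ^ J) ((2 ^ 2 ^ J) ^ (C0 * C0)) (∏ q ∈ U, q) U := by
    intro U hU
    rw [hB, mem_filter, mem_filter, mem_powerset] at hU
    have h2 := hC J z0 hz0 ι 𝒜 v X E hX hE hLev Om ro Q hd.om hd.sub hd.ro U hU.1.1 hU.1.2
    rw [hN1]
    rw [← hg] at h2
    refine h2.trans (le_of_eq ?_)
    ring
  refine (sum_le_sum h1).trans ?_
  rw [sum_add_distrib, ← mul_sum, ← mul_sum]
  have hV := VV_nonneg' hd hz1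
  have hyl : 0 < y ^ lam := Real.rpow_pos_of_pos hy _
  apply add_le_add
  · apply mul_le_mul_of_nonneg_left _ (by positivity)
    rw [le_div_iff₀ hyl, sum_mul]
    refine le_trans ?_ (mgf_le hy hg0)
    refine (sum_le_sum fun U hU => ?_).trans (sum_le_sum_of_subset_of_nonneg (s := B) ?_ fun U hU _ => ?_)
    · rw [hB, mem_filter, mem_filter, mem_powerset] at hU
      exact mul_le_mul_of_nonneg_left (hP _ hU.2) (Pm_nonneg hU.1.1 hg0)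
    · rw [hB]
      exact (filter_subset _ _).trans (filter_subset _ _)
    · exact mul_nonneg (Pm_nonneg (mem_powerset.1 hU) hg0) (pow_nonneg hy.le _)
  · apply mul_le_mul_of_nonneg_left _ (by positivity)
    apply conv hE
    intro U hU
    rw [hB, mem_filter, mem_filter, mem_powerset] at hU
    refine ⟨hU.1.1.trans hd.sub, ?_⟩
    calc (∏ q ∈ U, q) * (2 ^ 2 ^ J) ^ (C0 * C0) ≤ 2 ^ 2 ^ J * (2 ^ 2 ^ J) ^ (C0 * C0) :=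
          Nat.mul_le_mul_right _ hU.1.2
      _ = (2 ^ 2 ^ J) ^ (C0 * C0 + 1) := by rw [pow_succ, mul_comm]
      _ ≤ _ := Nat.pow_le_pow_right hz1' (by omega)

open Classical in
/-- many primes of medium size -/
theorem partCI_ld {κ C0 : ℕ} (hC : NUI κ C0)
    {J z0 : ℕ} (hz0 : C0 ≤ z0) (hz1 : 2 * κ + 2 ≤ z0) {ι : Type} {𝒜 : Finset ι} {v : ι → ℕ} {X : ℝ} {E : ℕ → ℝ}
    (hX : 0 ≤ X) (hE : ∀ m, 0 ≤ E m) (hLev : Lev 𝒜 v X E z0 (2 ^ 2 ^ J) ((2 ^ 2 ^ J) ^ (C0 * C0 + 2)))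
    {Om : ℕ → Finset ℕ} {ro : ℕ → ℕ} {Q : Finset ℕ}
    (hd : Dat κ z0 (2 ^ 2 ^ J) Om ro Q) {r : ℕ} (hD : ∀ U ⊆ Q, U.card = r → ∏ q ∈ U, q ≤ 2 ^ 2 ^ J) :
    ((𝒜.filter (fun i => Av Om z0 (2 ^ 2 ^ J) (v i) ∧ r ≤ (hit ro Q (v i)).card)).card : ℝ) ≤
      2 * (X * VV Om z0 (2 ^ 2 ^ J)) *
        ((∑ q ∈ Q, 1 / ((q : ℝ) - (Om q).card)) ^ r / (r.factorial : ℝ)) +
      ((J : ℝ) + 2) * TE κ E z0 (2 ^ 2 ^ J) ((2 ^ 2 ^ J) ^ (C0 * C0 + 2)) := by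
  obtain ⟨g, hg⟩ : ∃ g : ℕ → ℝ, g = fun q : ℕ => 1 / ((q : ℝ) - (Om q).card) := ⟨_, rfl⟩
  have hg0 : ∀ q ∈ Q, 0 ≤ g q ∧ g q ≤ 1 := fun q hq => by
    have := g_bd hd hz1 q hq
    rw [hg]
    exact ⟨this.1, this.2.1⟩
  have hGq : ∀ q : ℕ, 1 / ((q : ℝ) - (Om q).card) = g q := fun q => by rw [hg]
  simp only [hGq]
  have hz1' : 1 ≤ 2 ^ 2 ^ J := Nat.one_le_two_pow
  obtain ⟨N1, hN1⟩ : ∃ N1 : Finset ℕ → Finset ι, N1 = fun U => 𝒜.filter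
    (fun i => Av Om z0 (2 ^ 2 ^ J) (v i) ∧ hit ro U (v i) = U) := ⟨_, rfl⟩
  have hsub : 𝒜.filter (fun i => Av Om z0 (2 ^ 2 ^ J) (v i) ∧ r ≤ (hit ro Q (v i)).card) ⊆
      (Q.powersetCard r).biUnion N1 := by
    intro n hn
    rw [mem_filter] at hn
    obtain ⟨h1, h2, h3⟩ := hn
    obtain ⟨U, hU1, hU2⟩ := exists_subset_card_eq h3
    rw [mem_biUnion]
    refine ⟨U, ?_, ?_⟩
    · rw [mem_powersetCard]
      exact ⟨hU1.trans hit_sub, hU2⟩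
    · rw [hN1, mem_filter]
      refine ⟨h1, h2, ?_⟩
      ext q
      rw [mem_hit]
      exact ⟨fun h => h.1, fun h => ⟨h, (mem_hit.1 (hU1 h)).2⟩⟩
  refine (Nat.cast_le.2 ((card_le_card hsub).trans card_biUnion_le)).trans ?_
  rw [Nat.cast_sum]
  have h1 : ∀ U ∈ Q.powersetCard r, ((N1 U).card : ℝ) ≤
      2 * (X * VV Om z0 (2 ^ 2 ^ J)) * (∏ q ∈ U, g q) +
      ((J : ℝ) + 2) * EI κ E z0 (2 ^ 2 ^ J) ((2 ^ 2 ^ J) ^ (C0 * C0)) (∏ q ∈ U, q) U := by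
    intro U hU
    have hUQ := (mem_powersetCard.1 hU).1
    have h2 := hC J z0 hz0 ι 𝒜 v X E hX hE hLev Om ro U hd.om (hUQ.trans hd.sub)
      (fun q hq => hd.ro q (hUQ hq)) U (Subset.refl _) (hD U hUQ (mem_powersetCard.1 hU).2)
    rw [hN1]
    rw [← hg] at h2
    refine h2.trans (le_of_eq ?_)
    unfold Pm
    have e0 : U \ U = ∅ := Finset.sdiff_self U
    rw [e0, prod_empty]
    ring
  refine (sum_le_sum h1).trans ?_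
  rw [sum_add_distrib, ← mul_sum, ← mul_sum]
  have hV := VV_nonneg' hd hz1
  apply add_le_add
  · apply mul_le_mul_of_nonneg_left _ (by positivity)
    exact esym_le Q (fun q hq => (hg0 q hq).1) r
  · apply mul_le_mul_of_nonneg_left _ (by positivity)
    apply conv hE
    intro U hU
    rw [mem_powersetCard] at hU
    refine ⟨hU.1.trans hd.sub, ?_⟩
    calc (∏ q ∈ U, q) * (2 ^ 2 ^ J) ^ (C0 * C0) ≤ 2 ^ 2 ^ J * (2 ^ 2 ^ J) ^ (C0 * C0) :=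
          Nat.mul_le_mul_right _ (hD U hU.1 hU.2)
      _ = (2 ^ 2 ^ J) ^ (C0 * C0 + 1) := by rw [pow_succ, mul_comm]
      _ ≤ _ := Nat.pow_le_pow_right hz1' (by omega)

end Pool.Agent.X26.AN
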