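import Pool.Agent.X26.AN.LdB
import Pool.Agent.X26.AN.Tup

/-!
# Large deviations of the number of prime factors of `n + b` for the elements `n` of prime constellations
-/

set_option autoImplicit false

namespace Pool.Agent.X26.AN

open Finset Filter
open Pool.Agent.Y843.HS (Pr VV Pr_mem Pr_prime)
open Pool.Agent.Y843.AC.HL (Tup Tp Rough ZT gg gg_pos gg_ge mem_ZT ZT_ok V_up log_small log_one)

/-- the rate function `t log t - t + 1` -/
noncomputable def QQ (t : ℝ) : ℝ := t * Real.log t - t + 1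

/-- the exceptional small elements are negligible, with a power of the logarithm -/
theorem small_ld (r u : ℕ) (hu : 1 ≤ u) {θ : ℝ} (hθ : 0 < θ) : ∃ u' : ℕ, 1 ≤ u' ∧
    ∀ H : ℕ, ∃ x₀ : ℕ, ∀ x : ℕ, x₀ ≤ x → ∀ T : Finset ℤ, Tup r x T → ∀ y X : ℕ,
    (x : ℝ) ^ θ ≤ X →
    ∀ S : Finset ℕ, S ⊆ Ioc y (y + X) → (∀ m ∈ S, Tp u x T m) →
    ∃ S₁ S₂ : Finset ℕ, S₁ ⊆ S ∧ S ⊆ S₁ ∪ S₂ ∧ (∀ m ∈ S₁, Rough u' x T m) ∧
      (S₂.card : ℝ) ≤ X * gg T x / Real.log x ^ H := by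
  classical
  set u' := max (max u 1) ⌈2 / θ⌉₊ with hu'
  have hu1 : 1 ≤ u' := (le_max_right _ _).trans (le_max_left _ _)
  have huu : u ≤ u' := (le_max_left _ _).trans (le_max_left _ _)
  have hu0 : (0 : ℝ) < u' := by exact_mod_cast hu1
  have hu2 : 2 / θ ≤ u' := (Nat.le_ceil _).trans (by exact_mod_cast le_max_right _ _)
  refine ⟨u', hu1, fun H => ?_⟩
  obtain ⟨c₀, hc₀, hg⟩ := gg_ge r
  obtain ⟨n₂, hn₂⟩ := log_small (3 * r / c₀) (r + H) (show 0 < θ / 2 by positivity)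
  refine ⟨max n₂ 3, ?_⟩
  intro n hn T hT y X hX S hS hSp
  have hnn₂ : n₂ ≤ n := (le_max_left _ _).trans hn
  have hn3 : 3 ≤ n := (le_max_right _ _).trans hn
  have hn0 : (0 : ℝ) < n := by exact_mod_cast (show 0 < n by omega)
  have hn1 : (1 : ℝ) ≤ n := by exact_mod_cast (show 1 ≤ n by omega)
  have hlog1 := log_one hn3
  set w := (n : ℝ) ^ (1 / (u' : ℝ)) with hw
  have hw0 : 0 ≤ w := by positivity
  have hw1 : 1 ≤ w := Real.one_le_rpow hn1 (by positivity)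
  have hwθ : w ≤ (n : ℝ) ^ (θ / 2) := by
    apply Real.rpow_le_rpow_of_exponent_le hn1
    rw [div_le_iff₀ hu0]
    rw [div_le_iff₀ hθ] at hu2
    linarith
  set S₁ := S.filter (fun m : ℕ => ∀ t ∈ T, w < ((((m : ℤ) + t).natAbs : ℕ) : ℝ)) with hS₁
  set S₂ := S.filter (fun m : ℕ => ¬ ∀ t ∈ T, w < ((((m : ℤ) + t).natAbs : ℕ) : ℝ)) with hS₂
  have hcard : (S₂.card : ℝ) ≤ 3 * r * (n : ℝ) ^ (θ / 2) := by
    have h1 : S₂ ⊆ T.biUnion (fun t => (Icc (-(⌊w⌋₊ : ℤ)) ⌊w⌋₊).image (fun v : ℤ => (v - t).toNat)) := by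
      intro m hm
      rw [hS₂, mem_filter] at hm
      obtain ⟨_, hm2⟩ := hm
      push Not at hm2
      obtain ⟨t, ht, hmt⟩ := hm2
      rw [mem_biUnion]
      refine ⟨t, ht, mem_image.2 ⟨(m : ℤ) + t, ?_, ?_⟩⟩
      · have h2 : ((m : ℤ) + t).natAbs ≤ ⌊w⌋₊ := Nat.le_floor hmt
        rw [mem_Icc]
        omega
      · omega
    have h2 : S₂.card ≤ r * (2 * ⌊w⌋₊ + 1) := by
      refine (card_le_card h1).trans (card_biUnion_le.trans ?_)
      calc ∑ t ∈ T, ((Icc (-(⌊w⌋₊ : ℤ)) ⌊w⌋₊).image (fun v : ℤ => (v - t).toNat)).card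
          ≤ ∑ _t ∈ T, (2 * ⌊w⌋₊ + 1) := by
            apply Finset.sum_le_sum
            intro t _
            refine card_image_le.trans ?_
            rw [Int.card_Icc]
            omega
        _ = r * (2 * ⌊w⌋₊ + 1) := by rw [Finset.sum_const, hT.card, smul_eq_mul]
    have h3 : (S₂.card : ℝ) ≤ r * (2 * ⌊w⌋₊ + 1) := by exact_mod_cast h2
    have h4 := Nat.floor_le hw0
    have h5 : (r : ℝ) * (2 * ⌊w⌋₊ + 1) ≤ r * (3 * (n : ℝ) ^ (θ / 2)) :=
      mul_le_mul_of_nonneg_left (by linarith) (Nat.cast_nonneg _)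
    linarith
  have hgg := hg n hn3 T hT
  have hmain := hn₂ n hnn₂
  refine ⟨S₁, S₂, filter_subset _ _, ?_, ?_, ?_⟩
  · intro p hp
    rw [mem_union, hS₁, hS₂, mem_filter, mem_filter]
    by_cases h3 : ∀ t ∈ T, w < ((((p : ℤ) + t).natAbs : ℕ) : ℝ)
    · exact Or.inl ⟨hp, h3⟩
    · exact Or.inr ⟨hp, h3⟩
  · intro m hm q hq hqw t ht hd
    rw [hS₁, mem_filter] at hm
    obtain ⟨hmS, hm1⟩ := hm
    rcases hSp m hmS with hpr | hR
    · have h1 : q ∣ ((m : ℤ) + t).natAbs := Int.natCast_dvd.1 hd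
      have h2 := (Nat.prime_dvd_prime_iff_eq hq (hpr t ht)).1 h1
      have h3 := hm1 t ht
      rw [← h2] at h3
      linarith
    · refine hR q hq ?_ t ht hd
      refine hqw.trans (Real.rpow_le_rpow_of_exponent_le hn1 ?_)
      apply one_div_le_one_div_of_le (by exact_mod_cast hu)
      exact_mod_cast huu
  · have hl0 : 0 < Real.log (n : ℝ) := by linarith
    rw [le_div_iff₀ (by positivity)]
    have h7 : (n : ℝ) ^ θ = (n : ℝ) ^ (θ / 2) * (n : ℝ) ^ (θ / 2) := by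
      rw [← Real.rpow_add hn0]
      congr 1
      ring
    rw [div_mul_eq_mul_div, div_le_iff₀ hc₀, pow_add] at hmain
    calc (S₂.card : ℝ) * Real.log n ^ H ≤ 3 * r * (n : ℝ) ^ (θ / 2) * Real.log n ^ H :=
          mul_le_mul_of_nonneg_right hcard (by positivity)
      _ = (n : ℝ) ^ (θ / 2) * (3 * r * (Real.log n ^ r * Real.log n ^ H)) / Real.log n ^ r := by
          field_simp
      _ ≤ (n : ℝ) ^ (θ / 2) * ((n : ℝ) ^ (θ / 2) * c₀) / Real.log n ^ r := by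
          apply div_le_div_of_nonneg_right _ (by positivity)
          exact mul_le_mul_of_nonneg_left hmain (by positivity)
      _ = (n : ℝ) ^ θ * (c₀ / Real.log n ^ r) := by rw [h7]; ring
      _ ≤ X * gg T n := mul_le_mul hX hgg (by positivity) (Nat.cast_nonneg _)

/-- the number of prime factors and the number of classes hit -/
theorem dev_ld {T : Finset ℤ} {b : ℤ} {z0 w' n : ℕ} {Q : Finset ℕ} {ro : ℕ → ℕ}
    (hQ : Q = (Pr z0 w').filter (fun q : ℕ => ∀ t ∈ T, ¬ (q : ℤ) ∣ b - t))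
    (hro : ∀ q : ℕ, q.Prime → (n % q = ro q ↔ (q : ℤ) ∣ n + b))
    (hrough : ∀ q : ℕ, q.Prime → q ≤ w' → ∀ t ∈ T, ¬ (q : ℤ) ∣ n + t) (hnb : (n : ℤ) + b ≠ 0) (hw2 : 2 ≤ w')
    {B : ℝ} (hB : Real.log (((n : ℤ) + b).natAbs) ≤ B * Real.log w') :
    (hit ro Q n).card ≤ ((n : ℤ) + b).natAbs.primeFactors.card ∧
      (((n : ℤ) + b).natAbs.primeFactors.card : ℝ) ≤ (hit ro Q n).card + (z0 + B) := by
  obtain ⟨F, hF⟩ : ∃ F : Finset ℕ, F = ((n : ℤ) + b).natAbs.primeFactors := ⟨_, rfl⟩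
  rw [← hF]
  have hnb0 : ((n : ℤ) + b).natAbs ≠ 0 := Int.natAbs_ne_zero.2 hnb
  have hmF : ∀ q : ℕ, q ∈ F ↔ q.Prime ∧ (q : ℤ) ∣ (n : ℤ) + b := by
    intro q
    rw [hF, Nat.mem_primeFactors, Int.natCast_dvd]
    tauto
  have h1 : F.filter (fun q => z0 < q ∧ q ≤ w') = hit ro Q n := by
    ext q
    rw [mem_filter, mem_hit, hQ, mem_filter, hmF, Pr_mem]
    constructor
    · rintro ⟨⟨h1, h2⟩, h3, h4⟩
      refine ⟨⟨⟨⟨h3, h4⟩, h1⟩, fun t ht h5 => ?_⟩, (hro q h1).2 h2⟩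
      apply hrough q h1 h4 t ht
      have h6 := dvd_sub h2 h5
      have e : (n : ℤ) + b - (b - t) = n + t := by ring
      rwa [e] at h6
    · rintro ⟨⟨⟨⟨h3, h4⟩, h1⟩, _⟩, h6⟩
      exact ⟨⟨h1, (hro q h1).1 h6⟩, h3, h4⟩
  refine ⟨by rw [← h1]; exact card_filter_le _ _, ?_⟩
  have h4 : F ⊆ hit ro Q n ∪ (Icc 1 z0 ∪ F.filter (fun q => w' < q)) := by
    intro q hq
    rw [mem_union, mem_union, mem_Icc, mem_filter, ← h1, mem_filter]
    have h5 := ((hmF q).1 hq).1.one_lt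
    by_cases h6 : z0 < q
    · by_cases h7 : q ≤ w'
      · exact Or.inl ⟨hq, h6, h7⟩
      · exact Or.inr (Or.inr ⟨hq, not_le.1 h7⟩)
    · exact Or.inr (Or.inl ⟨h5.le, not_lt.1 h6⟩)
  have h5 : F.card ≤ (hit ro Q n).card + (z0 + (F.filter (fun q => w' < q)).card) := by
    refine (card_le_card h4).trans ((card_union_le _ _).trans ?_)
    have h6 := card_union_le (Icc 1 z0) (F.filter (fun q => w' < q))
    rw [Nat.card_Icc, Nat.add_sub_cancel] at h6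
    omega
  have h6 : (F.card : ℝ) ≤ (hit ro Q n).card + (z0 + ((F.filter (fun q => w' < q)).card : ℝ)) := by
    exact_mod_cast h5
  refine h6.trans ?_
  apply add_le_add le_rfl
  apply add_le_add le_rfl
  rw [hF]
  exact large_factors hnb hw2 hB

/-- the sum of the reciprocals of the primes that can divide `n + b` -/
theorem mean_ld {r x : ℕ} {T : Finset ℤ} (hTr : T.card = r) (hTx : ∀ t ∈ T, |t| ≤ x) {b : ℤ} (hbT : b ∉ T)
    (hbx : |b| ≤ x) {CM : ℝ}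
    (hCM : ∀ n : ℕ, 3 ≤ n → |∑ p ∈ (Icc 1 n).filter Nat.Prime, (1 : ℝ) / p - Real.log (Real.log n)| ≤ CM)
    {z0 w' : ℕ} (hx : 2 ≤ x) (hw3 : 3 ≤ w') (hlx : 16 ≤ Real.log x) {Q : Finset ℕ}
    (hQ : Q = (Pr z0 w').filter (fun q : ℕ => ∀ t ∈ T, ¬ (q : ℤ) ∣ b - t)) :
    ∑ q ∈ Q, 1 / (q : ℝ) ≤ Real.log (Real.log w') + CM ∧
    Real.log (Real.log w') - (z0 + 2 * CM + 4 * r) - Real.log (Real.log (Real.log x)) ≤ ∑ q ∈ Q, 1 / (q : ℝ) := by
  have hlx0 : 0 < Real.log x := by linarith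
  constructor
  · have h1 : ∑ q ∈ Q, 1 / (q : ℝ) ≤ ∑ p ∈ (Icc 1 w').filter Nat.Prime, (1 : ℝ) / p := by
      apply sum_le_sum_of_subset_of_nonneg
      · intro q hq
        rw [hQ, mem_filter, Pr_mem] at hq
        rw [mem_filter, mem_Icc]
        exact ⟨⟨hq.1.2.one_lt.le, hq.1.1.2⟩, hq.1.2⟩
      · intro q _ _
        positivity
    have h2 := (abs_le.1 (hCM w' hw3)).2
    linarith
  · obtain ⟨E, hE⟩ : ∃ E : ℕ, E = ∏ t ∈ T, (b - t).natAbs := ⟨_, rfl⟩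
    have hE0 : E ≠ 0 := by
      rw [hE]
      apply prod_ne_zero_iff.2
      intro t ht h
      rw [Int.natAbs_eq_zero, sub_eq_zero] at h
      exact hbT (h ▸ ht)
    have hEx : Real.log E ≤ 2 * r * Real.log x := by
      have h3 : E ≤ (x ^ 2) ^ r := by
        rw [hE, ← hTr, ← prod_const]
        apply prod_le_prod'
        intro t ht
        have h4 := abs_le.1 (hTx t ht)
        have h41 := abs_le.1 hbx
        have h5 : (b - t).natAbs ≤ 2 * x := by omega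
        refine h5.trans ?_
        rw [pow_two]
        exact Nat.mul_le_mul_right _ hx
      have h4 : (0 : ℝ) < E := by exact_mod_cast Nat.pos_of_ne_zero hE0
      have h5 : (E : ℝ) ≤ (x : ℝ) ^ (2 * r) := by
        rw [pow_mul]
        exact_mod_cast h3
      have h6 := Real.log_le_log h4 h5
      rw [Real.log_pow] at h6
      push_cast at h6
      exact h6
    obtain ⟨m, hm'⟩ : ∃ m : ℕ, m = ⌊Real.log x⌋₊ := ⟨_, rfl⟩
    have hm3 : 3 ≤ m := by
      rw [hm']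
      apply Nat.le_floor
      push_cast
      linarith
    have hmlog : (m : ℝ) ≤ Real.log x := by rw [hm']; exact Nat.floor_le hlx0.le
    have hsub : Pr 0 w' ⊆ Q ∪ ((Pr 0 z0 ∪ Pr 0 m) ∪
        (Pr 0 w').filter (fun q => q ∣ E ∧ Real.log x < q)) := by
      intro q hq
      have h3 := Pr_mem.1 hq
      rw [mem_union, mem_union, mem_union, mem_filter, Pr_mem, Pr_mem]
      by_cases h2 : q ∈ Q
      · exact Or.inl h2
      right
      by_cases h4 : q ≤ z0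
      · left; left
        exact ⟨⟨h3.1.1, h4⟩, h3.2⟩
      by_cases h6 : q ≤ m
      · left; right
        exact ⟨⟨h3.1.1, h6⟩, h3.2⟩
      right
      refine ⟨hq, ?_, ?_⟩
      · by_contra h7
        apply h2
        rw [hQ, mem_filter, Pr_mem]
        refine ⟨⟨⟨not_le.1 h4, h3.1.2⟩, h3.2⟩, fun t ht h8 => h7 ?_⟩
        rw [hE]
        exact (Int.natCast_dvd.1 h8).trans (dvd_prod_of_mem _ ht)
      · rw [hm'] at h6
        exact (Nat.lt_of_floor_lt (not_le.1 h6))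
    have hnn : ∀ s : Finset ℕ, 0 ≤ ∑ q ∈ s, 1 / (q : ℝ) := fun s => sum_nonneg fun q _ => by positivity
    have hun : ∀ s t : Finset ℕ, ∑ q ∈ s ∪ t, 1 / (q : ℝ) ≤ ∑ q ∈ s, 1 / (q : ℝ) + ∑ q ∈ t, 1 / (q : ℝ) := by
      intro s t
      have h3 := sum_union_inter (s₁ := s) (s₂ := t) (f := fun q : ℕ => 1 / (q : ℝ))
      have h4 := hnn (s ∩ t)
      linarith
    have h3 : ∑ q ∈ Pr 0 z0, 1 / (q : ℝ) ≤ z0 := by
      have h4 : ∑ q ∈ Pr 0 z0, 1 / (q : ℝ) ≤ ∑ q ∈ Pr 0 z0, (1 : ℝ) := by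
        apply sum_le_sum
        intro q hq
        have h5 := Pr_mem.1 hq
        rw [div_le_one (by exact_mod_cast h5.1.1)]
        exact_mod_cast h5.1.1
      refine h4.trans ?_
      rw [sum_const, nsmul_eq_mul, mul_one]
      have h5 : (Pr 0 z0).card ≤ z0 := (card_filter_le _ _).trans (by rw [Nat.card_Ioc]; omega)
      exact_mod_cast h5
    have h5 : ∑ q ∈ Pr 0 m, 1 / (q : ℝ) ≤ Real.log (Real.log (Real.log x)) + CM := by
      have h6 := (abs_le.1 (hCM m hm3)).2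
      have h7 : ∑ q ∈ Pr 0 m, 1 / (q : ℝ) = ∑ p ∈ (Icc 1 m).filter Nat.Prime, (1 : ℝ) / p := by
        unfold Pr
        congr 1
      have hm0 : (1 : ℝ) < m := by exact_mod_cast (show 1 < m by omega)
      have h8 : Real.log (Real.log m) ≤ Real.log (Real.log (Real.log x)) := by
        apply Real.log_le_log (Real.log_pos hm0)
        exact Real.log_le_log (by linarith) hmlog
      rw [h7]
      linarith
    have h6 : ∑ q ∈ (Pr 0 w').filter (fun q => q ∣ E ∧ Real.log x < q), 1 / (q : ℝ) ≤ 4 * r := by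
      have h7 := sum_dvd hE0 hlx0 (P := (Pr 0 w').filter (fun q => q ∣ E ∧ Real.log x < q)) (by
        intro q hq
        rw [mem_filter] at hq
        exact ⟨Pr_prime hq.1, hq.2.1, hq.2.2⟩)
      refine h7.trans ?_
      have hl2 : (1 : ℝ) / 2 ≤ Real.log 2 := by linarith [Real.log_two_gt_d9]
      rw [div_le_iff₀ (by positivity)]
      have h8 : (0 : ℝ) ≤ r := Nat.cast_nonneg _
      have h9 : 2 * (r : ℝ) * Real.log x ≤ 4 * r * (Real.log 2 * Real.log x) := by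
        have h10 : (r : ℝ) * Real.log x * (1 / 2) ≤ r * Real.log x * Real.log 2 :=
          mul_le_mul_of_nonneg_left hl2 (by positivity)
        linarith
      linarith
    have htot : Real.log (Real.log w') - CM ≤ ∑ q ∈ Pr 0 w', 1 / (q : ℝ) := by
      have h7 := (abs_le.1 (hCM w' hw3)).1
      have h8 : ∑ q ∈ Pr 0 w', 1 / (q : ℝ) = ∑ p ∈ (Icc 1 w').filter Nat.Prime, (1 : ℝ) / p := by
        unfold Pr
        congr 1
      rw [h8]
      linarith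
    have h7 := sum_le_sum_of_subset_of_nonneg (f := fun q : ℕ => 1 / (q : ℝ)) hsub fun q _ _ => by positivity
    have h8 := hun Q ((Pr 0 z0 ∪ Pr 0 m) ∪ (Pr 0 w').filter (fun q => q ∣ E ∧ Real.log x < q))
    have h9 := hun (Pr 0 z0 ∪ Pr 0 m) ((Pr 0 w').filter (fun q => q ∣ E ∧ Real.log x < q))
    have h10 := hun (Pr 0 z0) (Pr 0 m)
    linarith

/-- the exponent -/
theorem ld_exp {γ l lx G η ε k z0 lv lam : ℝ} (hl : 0 ≤ l) (hη : 0 ≤ η) (hγ : 0 < γ)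
    (h1 : l ≤ lx) (h2 : lx ≤ l + lv) (hz : 0 ≤ z0) (hlv : 0 ≤ lv) (h3 : z0 + γ * lv ≤ η / 4 * l)
    (h4 : k ≤ η / 4) (h5 : |G - l| ≤ η / 4 * l) (h6 : η * (|γ - 1| + |Real.log γ|) ≤ ε / 4)
    (hlam : lam = γ * lx - if 1 ≤ γ then (z0 + η / 4 * l) + k * l else 0) :
    (γ - 1) * G - lam * Real.log γ ≤ -(QQ γ * l) + ε / 4 * l := by
  have a1 : (γ - 1) * G ≤ (γ - 1) * l + |γ - 1| * (η / 4 * l) := by
    have b1 : (γ - 1) * (G - l) ≤ |γ - 1| * (η / 4 * l) := by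
      refine (le_abs_self _).trans ?_
      rw [abs_mul]
      exact mul_le_mul_of_nonneg_left h5 (abs_nonneg _)
    linarith
  have hgl : 0 ≤ γ * lv := by positivity
  have hηl : 0 ≤ η * l := by positivity
  have hkl : k * l ≤ η / 4 * l := mul_le_mul_of_nonneg_right h4 hl
  have a2 : γ * l * Real.log γ - |Real.log γ| * (η * l) ≤ lam * Real.log γ := by
    by_cases hg : 1 ≤ γ
    · rw [if_pos hg] at hlam
      have c1 : 0 ≤ Real.log γ := Real.log_nonneg hg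
      rw [abs_of_nonneg c1]
      have c2 : γ * l - η * l ≤ lam := by
        have c3 : γ * l ≤ γ * lx := mul_le_mul_of_nonneg_left h1 hγ.le
        rw [hlam]
        linarith
      have c4 := mul_le_mul_of_nonneg_right c2 c1
      linarith
    · rw [if_neg hg, sub_zero] at hlam
      have c1 : Real.log γ ≤ 0 := Real.log_nonpos hγ.le (not_le.1 hg).le
      rw [abs_of_nonpos c1]
      have c2 : lam ≤ γ * l + η * l := by
        have c3 : γ * lx ≤ γ * (l + lv) := mul_le_mul_of_nonneg_left h2 hγ.le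
        rw [hlam]
        linarith
      have c4 := mul_le_mul_of_nonpos_right c2 c1
      linarith
  have a3 := mul_le_mul_of_nonneg_right h6 hl
  have a4 : 0 ≤ |γ - 1| * (η * l) := by positivity
  unfold QQ
  linarith

/-- the final numerical inequality -/
theorem ld_num {Qv l lx ρ ε C C3 H lv : ℝ} (hl : 0 ≤ l) (hε : 0 < ε) (hC : 0 ≤ C) (hC3 : 0 ≤ C3)
    (h1 : l ≤ lx) (h2 : lx ≤ l + lv) (hρ : ρ = Qv - ε) (hH : |Qv| + 1 ≤ H)
    (h3 : 2 * (C3 * (C + 1)) * Real.exp (|ρ| * lv) ≤ Real.exp (ε / 4 * l)) :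
    2 * (C3 * (C * Real.exp (-(Qv * l) + ε / 4 * l) + Real.exp (-(H * l)))) ≤ Real.exp (lx * -ρ) := by
  have a1 : Real.exp (-(H * l)) ≤ Real.exp (-(Qv * l) + ε / 4 * l) := by
    apply Real.exp_le_exp.2
    have b1 : Qv * l ≤ H * l := mul_le_mul_of_nonneg_right ((le_abs_self _).trans (by linarith)) hl
    have b2 : 0 ≤ ε / 4 * l := by positivity
    linarith
  have a2 : C * Real.exp (-(Qv * l) + ε / 4 * l) + Real.exp (-(H * l)) ≤
      (C + 1) * Real.exp (-(Qv * l) + ε / 4 * l) := by linarith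
  have a3 : Real.exp (-(ρ * l) - |ρ| * lv) ≤ Real.exp (lx * -ρ) := by
    apply Real.exp_le_exp.2
    have b1 : ρ * (lx - l) ≤ |ρ| * lv :=
      (mul_le_mul_of_nonneg_right (le_abs_self ρ) (sub_nonneg.2 h1)).trans
        (mul_le_mul_of_nonneg_left (by linarith) (abs_nonneg _))
    linarith
  refine le_trans ?_ a3
  have a4 := Real.exp_pos (-(Qv * l) + ε / 4 * l)
  calc 2 * (C3 * (C * Real.exp (-(Qv * l) + ε / 4 * l) + Real.exp (-(H * l))))
      ≤ 2 * (C3 * ((C + 1) * Real.exp (-(Qv * l) + ε / 4 * l))) := by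
        apply mul_le_mul_of_nonneg_left _ (by norm_num)
        exact mul_le_mul_of_nonneg_left a2 hC3
    _ = (2 * (C3 * (C + 1)) * Real.exp (|ρ| * lv)) * Real.exp (-(|ρ| * lv)) *
        Real.exp (-(Qv * l) + ε / 4 * l) := by
        have e : Real.exp (|ρ| * lv) * Real.exp (-(|ρ| * lv)) = 1 := by
          rw [← Real.exp_add, add_neg_cancel, Real.exp_zero]
        calc 2 * (C3 * ((C + 1) * Real.exp (-(Qv * l) + ε / 4 * l)))
            = 2 * (C3 * (C + 1)) * 1 * Real.exp (-(Qv * l) + ε / 4 * l) := by ring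
          _ = _ := by rw [← e]; ring
    _ ≤ Real.exp (ε / 4 * l) * Real.exp (-(|ρ| * lv)) * Real.exp (-(Qv * l) + ε / 4 * l) := by
        apply mul_le_mul_of_nonneg_right _ a4.le
        exact mul_le_mul_of_nonneg_right h3 (Real.exp_pos _).le
    _ = Real.exp (ε / 4 * l + -(|ρ| * lv) + (-(Qv * l) + ε / 4 * l)) := by
        rw [Real.exp_add (ε / 4 * l + -(|ρ| * lv)), Real.exp_add (ε / 4 * l)]
    _ ≤ _ := by
        apply Real.exp_le_exp.2
        have b2 : 0 ≤ ε * l := by positivity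
        rw [hρ]
        linarith

/-- the number `⌊exp a⌋` -/
theorem fl_exp {a : ℝ} (ha : 2 ≤ a) {w : ℕ} (hw : w = ⌊Real.exp a⌋₊) : 3 ≤ w ∧ (w : ℝ) ≤ Real.exp a ∧
    Real.log w ≤ a ∧ a / 2 ≤ Real.log w := by
  have hexp1 := Real.exp_one_gt_d9
  have hea : Real.exp 1 * Real.exp 1 ≤ Real.exp a := by
    rw [← Real.exp_add]
    exact Real.exp_le_exp.2 (by linarith)
  have hea7 : 7 ≤ Real.exp a := by nlinarith
  have hwlo : Real.exp a - 1 < w := by rw [hw]; exact Nat.sub_one_lt_floor _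
  have hwhi : (w : ℝ) ≤ Real.exp a := by rw [hw]; exact Nat.floor_le (Real.exp_pos _).le
  have hw3 : 3 ≤ w := by
    have h1 : (3 : ℝ) < w := by linarith
    exact_mod_cast h1.le
  have hw0 : (0 : ℝ) < w := by exact_mod_cast (show 0 < w by omega)
  refine ⟨hw3, hwhi, ?_, ?_⟩
  · rw [← Real.log_exp a]
    exact Real.log_le_log hw0 hwhi
  · rw [← Real.log_exp (a / 2)]
    apply Real.log_le_log (Real.exp_pos _)
    have h1 : Real.exp (a / 2) * Real.exp (a / 2) = Real.exp a := by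
      rw [← Real.exp_add]
      congr 1
      ring
    have h2 : Real.exp 1 ≤ Real.exp (a / 2) := Real.exp_le_exp.2 (by linarith)
    nlinarith

/-- the residue classes -/
theorem ro_ok (b : ℤ) : ∃ ro : ℕ → ℕ, ∀ q : ℕ, q.Prime → (ro q < q ∧ ∀ n : ℕ, n % q = ro q ↔ (q : ℤ) ∣ n + b) := by
  refine ⟨fun q : ℕ => ((-b) % (q : ℤ)).toNat, ?_⟩
  intro q hq
  have hq0 : (0 : ℤ) < q := by exact_mod_cast hq.pos
  have h1 := Int.emod_nonneg (-b) hq0.ne'
  have h2 := Int.emod_lt_of_pos (-b) hq0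
  have h3 : (((((-b) % (q : ℤ)).toNat : ℕ)) : ℤ) = (-b) % q := Int.toNat_of_nonneg h1
  refine ⟨by show ((-b) % (q : ℤ)).toNat < q; omega, fun n => ?_⟩
  show n % q = ((-b) % (q : ℤ)).toNat ↔ _
  constructor
  · intro h
    have h4 : ((n % q : ℕ) : ℤ) = (-b) % q := by rw [h, h3]
    rw [Int.natCast_mod] at h4
    have h5 : (n : ℤ) ≡ -b [ZMOD q] := h4
    have h6 := (Int.modEq_iff_dvd.1 h5.symm)
    rwa [sub_neg_eq_add] at h6
  · intro h
    have h5 : (-b) ≡ n [ZMOD q] := by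
      rw [Int.modEq_iff_dvd, sub_neg_eq_add]
      exact h
    have h6 : ((n % q : ℕ) : ℤ) = ((((-b) % (q : ℤ)).toNat : ℕ) : ℤ) := by
      rw [h3, Int.natCast_mod]
      exact h5.symm
    exact_mod_cast h6

/-- the classes of `ro` and of `ZT T` are different -/
theorem dat_ld {r x z0 w' z : ℕ} {T : Finset ℤ} (hT : Tup r x T) {b : ℤ} (hwz : w' ≤ z) {Q : Finset ℕ}
    {ro : ℕ → ℕ} (hQ : Q = (Pr z0 w').filter (fun q : ℕ => ∀ t ∈ T, ¬ (q : ℤ) ∣ b - t))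
    (hroq : ∀ q : ℕ, q.Prime → (ro q < q ∧ ∀ n : ℕ, n % q = ro q ↔ (q : ℤ) ∣ n + b)) :
    Dat r z0 z (ZT T) ro Q := by
  refine ⟨fun p hp => ⟨(ZT_ok hT hp).1, (ZT_ok hT hp).2.2⟩, ?_, ?_⟩
  · intro q hq
    rw [hQ, mem_filter, Pr_mem] at hq
    rw [Pr_mem]
    exact ⟨⟨hq.1.1.1, hq.1.1.2.trans hwz⟩, hq.1.2⟩
  · intro q hq
    rw [hQ, mem_filter] at hq
    have hqp := Pr_prime hq.1
    obtain ⟨h1, h2⟩ := hroq q hqp
    refine ⟨h1, fun h => ?_⟩
    have h3 : ro q % q = ro q := Nat.mod_eq_of_lt h1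
    have h4 : (q : ℤ) ∣ (ro q : ℕ) + b := (h2 (ro q)).1 h3
    rw [← h3, mem_ZT hqp.pos] at h
    obtain ⟨t, ht, h5⟩ := h
    apply hq.2 t ht
    have h6 := dvd_sub h4 h5
    have e : ((ro q : ℕ) : ℤ) + b - (((ro q : ℕ) : ℤ) + t) = b - t := by ring
    rwa [e] at h6

/-- the product over the primes up to `z` -/
theorem V_ld {r x v z0 z x₁ : ℕ} {T : Finset ℤ} (hT : Tup r x T) (hv1 : 1 ≤ v) (hx1 : x₁ ≤ x) (hx : 3 ≤ x)
    {CV : ℝ} (hCV : 0 < CV)
    (hVup : ∀ x : ℕ, x₁ ≤ x → ∀ T : Finset ℤ, Tup r x T →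
      VV (ZT T) 0 ⌊(x : ℝ) ^ (1 / ((2 * v : ℕ) : ℝ))⌋₊ ≤ CV * gg T x) (hz : 0 < z)
    (hYz : (x : ℝ) ^ (1 / (v : ℝ)) < (z : ℝ) ^ 2) :
    VV (ZT T) z0 z ≤ ((z0 + 1 : ℕ) : ℝ) ^ (z0 + 1) * CV * gg T x := by
  have hx0 : (0 : ℝ) < x := by exact_mod_cast (show 0 < x by omega)
  have hz0' : (0 : ℝ) < z := by exact_mod_cast hz
  have hv0 : (0 : ℝ) < v := by exact_mod_cast hv1
  have hZlt : ∀ p : ℕ, p.Prime → (ZT T p).card < p := fun p hp => (ZT_ok hT hp).2.1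
  have hgg : 0 < gg T x := gg_pos hx hT
  have h1 := hVup x hx1 T hT
  obtain ⟨w, hw⟩ : ∃ w : ℕ, w = ⌊(x : ℝ) ^ (1 / ((2 * v : ℕ) : ℝ))⌋₊ := ⟨_, rfl⟩
  rw [← hw] at h1
  have hwz : w ≤ z := by
    have h2 : (w : ℝ) ≤ (x : ℝ) ^ (1 / ((2 * v : ℕ) : ℝ)) := by
      rw [hw]
      exact Nat.floor_le (by positivity)
    have h3 : ((x : ℝ) ^ (1 / ((2 * v : ℕ) : ℝ))) ^ 2 = (x : ℝ) ^ (1 / (v : ℝ)) := by
      rw [← Real.rpow_mul_natCast hx0.le]
      congr 1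
      push_cast
      field_simp
    have h4 : (w : ℝ) ^ 2 < (z : ℝ) ^ 2 :=
      lt_of_le_of_lt ((pow_le_pow_left₀ (Nat.cast_nonneg _) h2 2).trans h3.le) hYz
    have h5 := lt_of_pow_lt_pow_left₀ 2 hz0'.le h4
    exact_mod_cast h5.le
  have h6 := Pool.Agent.Y843.HG.VV_anti (Z := ZT T) hwz (fun p hp => (ZT_ok hT (Pr_prime hp)).2.2)
  have h7 := V_mid (Z := ZT T) (z0 := z0) hZlt (w := z)
  have h8 : (z0 : ℝ) ^ z0 ≤ ((z0 + 1 : ℕ) : ℝ) ^ (z0 + 1) := by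
    calc (z0 : ℝ) ^ z0 ≤ ((z0 + 1 : ℕ) : ℝ) ^ z0 := by
          apply pow_le_pow_left₀ (Nat.cast_nonneg _)
          exact_mod_cast Nat.le_succ _
      _ ≤ _ := by
          apply pow_le_pow_right₀ _ (Nat.le_succ _)
          exact_mod_cast (by omega : 1 ≤ z0 + 1)
  have h9 : VV (ZT T) 0 z ≤ CV * gg T x := h6.trans h1
  have h10 : 0 ≤ CV * gg T x := by positivity
  calc VV (ZT T) z0 z ≤ (z0 : ℝ) ^ z0 * VV (ZT T) 0 z := h7
    _ ≤ (z0 : ℝ) ^ z0 * (CV * gg T x) := mul_le_mul_of_nonneg_left h9 (by positivity)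
    _ ≤ ((z0 + 1 : ℕ) : ℝ) ^ (z0 + 1) * (CV * gg T x) := mul_le_mul_of_nonneg_right h8 h10
    _ = _ := by ring

/-- the size of `n + b` -/
theorem size_ld {x A n : ℕ} {b : ℤ} (hx : 3 ≤ x) (hn : n ≤ x ^ A) (hb : |b| ≤ x) (hnb : (n : ℤ) + b ≠ 0) :
    Real.log (((n : ℤ) + b).natAbs) ≤ ((A : ℝ) + 2) * Real.log x := by
  have hnb0 : ((n : ℤ) + b).natAbs ≠ 0 := Int.natAbs_ne_zero.2 hnb
  have hnx : ((((n : ℤ) + b).natAbs : ℕ) : ℝ) ≤ (x : ℝ) ^ (A + 2) := by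
    have h6 : ((n : ℤ) + b).natAbs ≤ x ^ A + x := by
      have h62 := abs_le.1 hb
      omega
    have h7 : x ^ A + x ≤ x ^ (A + 2) := by
      have h8 : x ^ A * 1 ≤ x ^ A * x := Nat.mul_le_mul_left _ (by omega)
      have h9 : 1 ≤ x ^ A := Nat.one_le_pow _ _ (by omega)
      have h10 : 1 * x ≤ x ^ A * x := Nat.mul_le_mul_right _ h9
      have h11 : x ^ (A + 2) = x ^ A * x * x := by ring
      have h12 : x ^ A * x * 2 ≤ x ^ A * x * x := Nat.mul_le_mul_left _ (by omega)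
      omega
    exact_mod_cast h6.trans h7
  have h8 : (0 : ℝ) < ((((n : ℤ) + b).natAbs : ℕ) : ℝ) := by exact_mod_cast Nat.pos_of_ne_zero hnb0
  have h9 := Real.log_le_log h8 hnx
  rw [Real.log_pow] at h9
  push_cast at h9
  exact h9

/-- the threshold -/
theorem ld_thr {γ lx lam D kl : ℝ} (hγ : 0 < γ) (hlam : lam = γ * lx - if 1 ≤ γ then D + kl else 0)
    {a b : ℕ} (hb : (b : ℝ) < kl) (h : ∃ w : ℕ, a + b ≤ w ∧ (w : ℝ) ≤ ((a + b : ℕ) : ℝ) + D ∧
      0 ≤ (γ - 1) * ((w : ℝ) - γ * lx)) : γ ^ lam ≤ γ ^ a := by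
  obtain ⟨w, h1, h2, h3⟩ := h
  push_cast at h2
  rw [← Real.rpow_natCast]
  rcases lt_trichotomy γ 1 with hg | hg | hg
  · rw [if_neg (not_le.2 hg), sub_zero] at hlam
    apply Real.rpow_le_rpow_of_exponent_ge hγ hg.le
    have h4 : (w : ℝ) - γ * lx ≤ 0 := by
      by_contra hcon
      have := mul_neg_of_neg_of_pos (sub_neg.2 hg) (not_le.1 hcon)
      linarith
    have h5 : (a : ℝ) ≤ w := by exact_mod_cast (Nat.le_add_right a b).trans h1
    rw [hlam]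
    linarith
  · rw [hg, Real.one_rpow, Real.one_rpow]
  · rw [if_pos hg.le] at hlam
    apply Real.rpow_le_rpow_of_exponent_le hg.le
    have h4 : 0 ≤ (w : ℝ) - γ * lx := by
      by_contra hcon
      have := mul_neg_of_pos_of_neg (sub_pos.2 hg) (not_le.1 hcon)
      linarith
    rw [hlam]
    linarith

end Pool.Agent.X26.AN
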