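import Pool.Agent.X26.AN.SvG
import Pool.Agent.Y79.HS.Den

/-!
# The three parts, several classes
-/

set_option autoImplicit false

namespace Pool.Agent.X26.AN

open Finset
open Pool.Agent.Y843.HS (Pr VV Pr_mem Pr_prime)

/-- the hypotheses on the classes -/
structure DatG (κ z0 z : ℕ) (Om Ro : ℕ → Finset ℕ) (Q : Finset ℕ) : Prop where
  om : ∀ p : ℕ, p.Prime → (Om p).card ≤ κ ∧ ∀ c ∈ Om p, c < p
  sub : Q ⊆ Pr z0 z
  ro : ∀ q ∈ Q, (Ro q).card ≤ κ ∧ (∀ c ∈ Ro q, c < q) ∧ Disjoint (Ro q) (Om q)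

theorem DatG.mono {κ z0 z : ℕ} {Om Ro : ℕ → Finset ℕ} {Q Q' : Finset ℕ} (h : DatG κ z0 z Om Ro Q)
    (hQ : Q' ⊆ Q) : DatG κ z0 z Om Ro Q' := ⟨h.om, hQ.trans h.sub, fun q hq => h.ro q (hQ hq)⟩

theorem gG_bd {κ z0 z : ℕ} {Om Ro : ℕ → Finset ℕ} {Q : Finset ℕ} (h : DatG κ z0 z Om Ro Q)
    (hz : 2 * κ + 2 ≤ z0) : ∀ q ∈ Q, 0 ≤ ((Ro q).card : ℝ) / ((q : ℝ) - (Om q).card) ∧
      ((Ro q).card : ℝ) / ((q : ℝ) - (Om q).card) ≤ 1 ∧
      ((Ro q).card : ℝ) / ((q : ℝ) - (Om q).card) ≤ 2 * κ * (1 / q) ∧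
      ((Ro q).card : ℝ) / (q : ℝ) ≤ ((Ro q).card : ℝ) / ((q : ℝ) - (Om q).card) ∧
      ((Ro q).card : ℝ) / ((q : ℝ) - (Om q).card) - ((Ro q).card : ℝ) / q ≤ 2 * κ ^ 2 * (1 / (q : ℝ) ^ 2) := by
  intro q hq
  have h1 := Pr_mem.1 (h.sub hq)
  have h2 := (h.om q h1.2).1
  have hr : ((Ro q).card : ℝ) ≤ κ := by exact_mod_cast (h.ro q hq).1
  have hr0 : (0 : ℝ) ≤ (Ro q).card := Nat.cast_nonneg _
  have h3 : (2 * κ + 2 : ℝ) ≤ q := by exact_mod_cast (hz.trans h1.1.1.le)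
  have h4 : ((Om q).card : ℝ) ≤ κ := by exact_mod_cast h2
  have h5 : (0 : ℝ) ≤ κ := Nat.cast_nonneg _
  have h6 : (0 : ℝ) ≤ (Om q).card := Nat.cast_nonneg _
  have h7 : (0 : ℝ) < q := by linarith
  have h8 : (q : ℝ) / 2 ≤ (q : ℝ) - (Om q).card := by linarith
  have h9 : (0 : ℝ) < (q : ℝ) - (Om q).card := by linarith
  refine ⟨by positivity, ?_, ?_, ?_, ?_⟩
  · rw [div_le_one h9]; linarith
  · rw [div_le_iff₀ h9]
    have : 2 * (κ : ℝ) * (1 / (q : ℝ)) * ((q : ℝ) - (Om q).card) ≥ 2 * κ * (1 / (q : ℝ)) * (q / 2) :=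
      mul_le_mul_of_nonneg_left h8 (by positivity)
    have e : 2 * (κ : ℝ) * (1 / (q : ℝ)) * (q / 2) = κ := by field_simp
    linarith
  · exact div_le_div_of_nonneg_left hr0 h9 (by linarith)
  · have e : ((Ro q).card : ℝ) / ((q : ℝ) - (Om q).card) - ((Ro q).card : ℝ) / q =
        ((Ro q).card * (Om q).card : ℝ) / (((q : ℝ) - (Om q).card) * q) := by
      field_simp
      ring
    rw [e, div_le_iff₀ (by positivity)]
    have h10 : 2 * (κ : ℝ) ^ 2 * (1 / (q : ℝ) ^ 2) * (((q : ℝ) - (Om q).card) * q) ≥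
        2 * (κ : ℝ) ^ 2 * (1 / (q : ℝ) ^ 2) * (q / 2 * q) := by
      apply mul_le_mul_of_nonneg_left _ (by positivity)
      exact mul_le_mul_of_nonneg_right h8 h7.le
    have e2 : 2 * (κ : ℝ) ^ 2 * (1 / (q : ℝ) ^ 2) * (q / 2 * q) = κ * κ := by field_simp
    have h11 : ((Ro q).card : ℝ) * (Om q).card ≤ κ * κ := mul_le_mul hr h4 h6 h5
    linarith

/-- the conclusion of `NU_leG` -/
def NUG (κ C0 : ℕ) : Prop := ∀ (J z0 : ℕ), C0 ≤ z0 → ∀ (Om Ro : ℕ → Finset ℕ)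
    (Q : Finset ℕ), (∀ p : ℕ, p.Prime → (Om p).card ≤ κ ∧ ∀ c ∈ Om p, c < p) → Q ⊆ Pr z0 (2 ^ 2 ^ J) →
    (∀ q ∈ Q, (Ro q).card ≤ κ ∧ (∀ c ∈ Ro q, c < q) ∧ Disjoint (Ro q) (Om q)) → ∀ M X : ℕ, ∀ U ⊆ Q,
    ∀ F : Finset ℕ, (∀ n ∈ F, n ∈ Ioc M (M + X) ∧ Av Om z0 (2 ^ 2 ^ J) n ∧ hitG Ro Q n = U) →
    (F.card : ℝ) ≤
      2 * (X * VV Om z0 (2 ^ 2 ^ J) * Pm (fun q => ((Ro q).card : ℝ) / ((q : ℝ) - (Om q).card)) Q U) +
        (∏ q ∈ U, ((Ro q).card : ℝ)) * Er C0 J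

theorem NUG_ex (κ : ℕ) : ∃ C0 : ℕ, κ < C0 ∧ NUG κ C0 := by
  classical
  obtain ⟨C0, h1, h2⟩ := NU_leG κ
  refine ⟨C0, h1, ?_⟩
  intro J z0 hz0 Om Ro Q hOm hQ hRo M X U hU F hF
  refine le_trans (Nat.cast_le.2 (card_le_card ?_)) (h2 J z0 hz0 Om Ro Q hOm hQ hRo M X U hU)
  intro n hn
  rw [mem_filter]
  exact hF n hn

open Classical in
/-- the values of the additive function at the small primes -/
theorem partAG {κ C0 : ℕ} (hC : NUG κ C0)
    {J z0 : ℕ} (hz0 : C0 ≤ z0) (hz1 : 2 * κ + 2 ≤ z0) {Om Ro : ℕ → Finset ℕ} {Q : Finset ℕ}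
    (hd : DatG κ z0 (2 ^ 2 ^ J) Om Ro Q) (f : ℕ → ℝ) (hf : ∀ q, |f q| ≤ 1) {lam : ℝ} (hl : 0 < lam) (M X D : ℕ) :
    (((Ioc M (M + X)).filter (fun n => Av Om z0 (2 ^ 2 ^ J) n ∧
      lam < |∑ q ∈ hitG Ro Q n, f q - ∑ q ∈ Q, f q * (((Ro q).card : ℝ) / ((q : ℝ) - (Om q).card))|)).card : ℝ) ≤
      2 * (X * VV Om z0 (2 ^ 2 ^ J)) * ((∑ q ∈ Q, ((Ro q).card : ℝ) / ((q : ℝ) - (Om q).card)) / lam ^ 2) +
      D * (D * Er C0 J) +
      (((Ioc M (M + X)).filter (fun n => D < ∏ q ∈ hitG Ro Q n, q)).card : ℝ) := by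
  obtain ⟨g, hg⟩ : ∃ g : ℕ → ℝ, g = fun q : ℕ => ((Ro q).card : ℝ) / ((q : ℝ) - (Om q).card) := ⟨_, rfl⟩
  have hg0 : ∀ q ∈ Q, 0 ≤ g q ∧ g q ≤ 1 := fun q hq => by
    have := gG_bd hd hz1 q hq
    rw [hg]
    exact ⟨this.1, this.2.1⟩
  have hGq : ∀ q : ℕ, ((Ro q).card : ℝ) / ((q : ℝ) - (Om q).card) = g q := fun q => by rw [hg]
  simp only [hGq]
  have hQp : ∀ q ∈ Q, q.Prime := fun q hq => Pr_prime (hd.sub hq)
  obtain ⟨B, hB⟩ : ∃ B : Finset (Finset ℕ), B = (Q.powerset.filter (fun T : Finset ℕ => ∏ p ∈ T, p ≤ D)).filter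
    (fun U => lam < |∑ q ∈ U, f q - ∑ q ∈ Q, f q * g q|) := ⟨_, rfl⟩
  obtain ⟨N1, hN1⟩ : ∃ N1 : Finset ℕ → Finset ℕ, N1 = fun U => (Ioc M (M + X)).filter
    (fun n => Av Om z0 (2 ^ 2 ^ J) n ∧ hitG Ro Q n = U) := ⟨_, rfl⟩
  obtain ⟨R, hR⟩ : ∃ R : Finset ℕ, R = (Ioc M (M + X)).filter (fun n => D < ∏ q ∈ hitG Ro Q n, q) := ⟨_, rfl⟩
  have hsub : (Ioc M (M + X)).filter (fun n => Av Om z0 (2 ^ 2 ^ J) n ∧
      lam < |∑ q ∈ hitG Ro Q n, f q - ∑ q ∈ Q, f q * g q|) ⊆ B.biUnion N1 ∪ R := by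
    intro n hn
    rw [mem_filter] at hn
    obtain ⟨h1, h2, h3⟩ := hn
    rw [mem_union]
    by_cases h4 : D < ∏ q ∈ hitG Ro Q n, q
    · right
      rw [hR, mem_filter]
      exact ⟨h1, h4⟩
    · left
      rw [mem_biUnion]
      refine ⟨hitG Ro Q n, ?_, ?_⟩
      · rw [hB, mem_filter, mem_filter, mem_powerset]
        exact ⟨⟨hitG_sub, not_lt.1 h4⟩, h3⟩
      · rw [hN1, mem_filter]
        exact ⟨h1, h2, rfl⟩
  rw [← hR]
  refine (Nat.cast_le.2 (card_le_card hsub)).trans ?_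
  refine (Nat.cast_le.2 (card_union_le _ _)).trans ?_
  rw [Nat.cast_add]
  apply add_le_add _ le_rfl
  refine (Nat.cast_le.2 card_biUnion_le).trans ?_
  rw [Nat.cast_sum]
  have hE : 0 ≤ Er C0 J := by unfold Er; positivity
  have h1 : ∀ U ∈ B, ((N1 U).card : ℝ) ≤ 2 * (X * VV Om z0 (2 ^ 2 ^ J)) * Pm g Q U + D * Er C0 J := by
    intro U hU
    rw [hB, mem_filter, mem_filter, mem_powerset] at hU
    have h2 := hC J z0 hz0 Om Ro Q hd.om hd.sub hd.ro M X U hU.1.1 (N1 U) (by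
      intro n hn
      rw [hN1, mem_filter] at hn
      exact hn)
    rw [← hg] at h2
    have h3 : ∏ q ∈ U, ((Ro q).card : ℝ) ≤ D := by
      have h4 : ∏ q ∈ U, (Ro q).card ≤ ∏ q ∈ U, q := by
        apply prod_le_prod'
        intro q hq
        have h5 := (hd.ro q (hU.1.1 hq)).1
        have h6 := (Pr_mem.1 (hd.sub (hU.1.1 hq))).1.1
        omega
      exact_mod_cast h4.trans hU.1.2
    have h7 := mul_le_mul_of_nonneg_right h3 hE
    refine h2.trans ?_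
    have e : 2 * (X * VV Om z0 (2 ^ 2 ^ J) * Pm g Q U) = 2 * (X * VV Om z0 (2 ^ 2 ^ J)) * Pm g Q U := by ring
    rw [e]
    exact add_le_add le_rfl h7
  refine (sum_le_sum h1).trans ?_
  rw [sum_add_distrib, ← mul_sum, sum_const, nsmul_eq_mul]
  have hV : 0 ≤ VV Om z0 (2 ^ 2 ^ J) := by
    unfold VV
    apply prod_nonneg
    intro p hp
    have h5 := Pr_mem.1 hp
    have h6 := (hd.om p h5.2).1
    have h7 : (Om p).card ≤ p := by omega
    rw [sub_nonneg, div_le_one (by exact_mod_cast h5.2.pos)]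
    exact_mod_cast h7
  apply add_le_add
  · apply mul_le_mul_of_nonneg_left _ (by positivity)
    refine le_trans ?_ (cheb hg0 (fun q _ => hf q) hl)
    apply sum_le_sum_of_subset_of_nonneg
    · intro U hU
      rw [hB, mem_filter, mem_filter] at hU
      rw [mem_filter]
      exact ⟨hU.1.1, hU.2⟩
    · intro U hU _
      rw [mem_filter, mem_powerset] at hU
      exact Pm_nonneg hU.1 hg0
  · apply mul_le_mul_of_nonneg_right _ (by positivity)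
    have h2 : B.card ≤ D := by
      refine le_trans (card_le_card ?_) (Pool.Agent.TH882.FL.card_le Q hQp D)
      rw [hB]
      exact filter_subset _ _
    exact_mod_cast h2

theorem exists_partG {D w : ℕ} (hD : 1 ≤ D) : ∀ U : Finset ℕ, (∀ q ∈ U, q ≤ w) → D < ∏ q ∈ U, q →
    ∃ V ⊆ U, D < ∏ q ∈ V, q ∧ ∏ q ∈ V, q ≤ D * w := by
  classical
  intro U
  induction U using Finset.induction_on with
  | empty =>
    intro _ h
    rw [prod_empty] at h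
    omega
  | insert a U ha ih =>
    intro h1 h2
    by_cases h3 : D < ∏ q ∈ U, q
    · obtain ⟨V, hV, h4⟩ := ih (fun q hq => h1 q (mem_insert_of_mem hq)) h3
      exact ⟨V, hV.trans (subset_insert _ _), h4⟩
    · refine ⟨insert a U, Subset.refl _, h2, ?_⟩
      rw [prod_insert ha, mul_comm]
      exact Nat.mul_le_mul (not_lt.1 h3) (h1 a (mem_insert_self _ _))

/-- Rankin's bound for the large smooth parts -/
theorem partBG {κ : ℕ} {Ro : ℕ → Finset ℕ} {Q : Finset ℕ} {w D X : ℕ} (M : ℕ)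
    (hQ : ∀ q ∈ Q, q.Prime ∧ q ≤ w ∧ (Ro q).card ≤ κ ∧ ∀ c ∈ Ro q, c < q) (hD : 1 ≤ D)
    (hw : 3 ≤ w) (hDX : D * w ≤ X) :
    (((Ioc M (M + X)).filter (fun n => D < ∏ q ∈ hitG Ro Q n, q)).card : ℝ) ≤
      2 * X * (Real.exp (-(Real.log D / Real.log w)) * Real.exp (3 * κ * ∑ q ∈ Q, 1 / (q : ℝ))) := by
  classical
  have hlw : 0 < Real.log w := Real.log_pos (by exact_mod_cast (show 1 < w by omega))
  have hD0 : (0 : ℝ) < D := by exact_mod_cast hD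
  obtain ⟨B, hB⟩ : ∃ B : Finset (Finset ℕ), B = Q.powerset.filter
    (fun V => D < ∏ q ∈ V, q ∧ ∏ q ∈ V, q ≤ D * w) := ⟨_, rfl⟩
  have hsub : (Ioc M (M + X)).filter (fun n => D < ∏ q ∈ hitG Ro Q n, q) ⊆
      B.biUnion (fun V => (Ioc M (M + X)).filter (fun n => (∀ q ∈ V, n % q ∈ Ro q) ∧
        ∀ p ∈ (∅ : Finset ℕ), n % p = 0)) := by
    intro n hn
    rw [mem_filter] at hn
    obtain ⟨V, hV, h1, h2⟩ := exists_partG (w := w) hD (hitG Ro Q n) (fun q hq => (hQ q (hitG_sub hq)).2.1) hn.2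
    rw [mem_biUnion]
    refine ⟨V, ?_, ?_⟩
    · rw [hB, mem_filter, mem_powerset]
      exact ⟨hV.trans hitG_sub, h1, h2⟩
    · rw [mem_filter]
      exact ⟨hn.1, fun q hq => (mem_hitG.1 (hV hq)).2, fun p hp => absurd hp (notMem_empty p)⟩
  refine (Nat.cast_le.2 ((card_le_card hsub).trans card_biUnion_le)).trans ?_
  rw [Nat.cast_sum]
  have h1 : ∀ V ∈ B, ((((Ioc M (M + X)).filter (fun n => (∀ q ∈ V, n % q ∈ Ro q) ∧
      ∀ p ∈ (∅ : Finset ℕ), n % p = 0)).card : ℕ) : ℝ) ≤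
      2 * X * (Real.exp (-(Real.log D / Real.log w)) * ∏ q ∈ V, (3 * (((Ro q).card : ℝ) / (q : ℝ)))) := by
    intro V hV
    rw [hB, mem_filter, mem_powerset] at hV
    obtain ⟨hVQ, hV1, hV2⟩ := hV
    have h2 := (abs_le.1 (cnt_set M X Ro V (fun q hq => ⟨(hQ q (hVQ hq)).1, (hQ q (hVQ hq)).2.2.2⟩) ∅ (fun _ => 0)
      (disjoint_empty_right _) (fun p hp => absurd hp (notMem_empty p)))).2
    rw [prod_empty, div_one] at h2
    have hVp : (0 : ℝ) < ∏ p ∈ V, (p : ℝ) := prod_pos fun p hp => by exact_mod_cast (hQ p (hVQ hp)).1.pos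
    have hRp : (0 : ℝ) ≤ ∏ p ∈ V, ((Ro p).card : ℝ) := prod_nonneg fun p _ => Nat.cast_nonneg _
    have h3 : ((∏ p ∈ V, p : ℕ) : ℝ) = ∏ p ∈ V, (p : ℝ) := by push_cast; rfl
    have hdd : ∏ q ∈ V, (((Ro q).card : ℝ) / q) = (∏ q ∈ V, ((Ro q).card : ℝ)) / ∏ q ∈ V, (q : ℝ) := prod_div_distrib _ _
    have h4 : (1 : ℝ) ≤ X / ∏ p ∈ V, (p : ℝ) := by
      rw [le_div_iff₀ hVp, one_mul, ← h3]
      exact_mod_cast hV2.trans hDX
    have h4' : ∏ p ∈ V, ((Ro p).card : ℝ) ≤ X * ∏ q ∈ V, (((Ro q).card : ℝ) / q) := by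
      rw [hdd]
      calc ∏ p ∈ V, ((Ro p).card : ℝ) = (∏ p ∈ V, ((Ro p).card : ℝ)) * 1 := (mul_one _).symm
        _ ≤ (∏ p ∈ V, ((Ro p).card : ℝ)) * (X / ∏ p ∈ V, (p : ℝ)) := mul_le_mul_of_nonneg_left h4 hRp
        _ = _ := by ring
    have h5 : (((Ioc M (M + X)).filter (fun n => (∀ q ∈ V, n % q ∈ Ro q) ∧
        ∀ p ∈ (∅ : Finset ℕ), n % p = 0)).card : ℝ) ≤ 2 * X * ∏ q ∈ V, (((Ro q).card : ℝ) / q) := by
      linarith
    refine h5.trans (mul_le_mul_of_nonneg_left ?_ (by positivity))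
    have h6 : Real.log D ≤ Real.log (∏ p ∈ V, (p : ℝ)) := by
      apply Real.log_le_log hD0
      rw [← h3]
      exact_mod_cast hV1.le
    have h7 : Real.log (∏ p ∈ V, (p : ℝ)) = ∑ p ∈ V, Real.log p :=
      Real.log_prod (fun p hp => by
        have := (hQ p (hVQ hp)).1.pos
        positivity)
    have h8 : ∏ q ∈ V, (3 * (((Ro q).card : ℝ) / (q : ℝ))) = (∏ q ∈ V, (3 : ℝ)) * ∏ q ∈ V, (((Ro q).card : ℝ) / q) :=
      prod_mul_distrib
    rw [h8, ← mul_assoc]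
    have h9 : 1 ≤ Real.exp (-(Real.log D / Real.log w)) * ∏ q ∈ V, (3 : ℝ) := by
      have h10 : Real.exp (Real.log D / Real.log w) ≤ ∏ q ∈ V, (3 : ℝ) := by
        have h11 : Real.log D / Real.log w ≤ ∑ p ∈ V, Real.log p / Real.log w := by
          rw [← sum_div]
          apply div_le_div_of_nonneg_right _ hlw.le
          rw [← h7]
          exact h6
        refine (Real.exp_le_exp.2 h11).trans ?_
        rw [Real.exp_sum]
        apply Finset.prod_le_prod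
        · intro q _
          exact (Real.exp_pos _).le
        · intro q hq
          have h12 : Real.log q / Real.log w ≤ 1 := by
            rw [div_le_one hlw]
            apply Real.log_le_log
            · exact_mod_cast (hQ q (hVQ hq)).1.pos
            · exact_mod_cast (hQ q (hVQ hq)).2.1
          refine (Real.exp_le_exp.2 h12).trans ?_
          linarith [Real.exp_one_lt_d9]
      rw [Real.exp_neg, inv_mul_eq_div, le_div_iff₀ (Real.exp_pos _), one_mul]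
      exact h10
    calc ∏ q ∈ V, (((Ro q).card : ℝ) / q) = 1 * ∏ q ∈ V, (((Ro q).card : ℝ) / q) := (one_mul _).symm
      _ ≤ _ := mul_le_mul_of_nonneg_right h9 (prod_nonneg fun q _ => by positivity)
  refine (sum_le_sum h1).trans ?_
  rw [← mul_sum, ← mul_sum]
  apply mul_le_mul_of_nonneg_left _ (by positivity)
  apply mul_le_mul_of_nonneg_left _ (Real.exp_pos _).le
  have h2 : ∑ V ∈ B, ∏ q ∈ V, (3 * (((Ro q).card : ℝ) / (q : ℝ))) ≤
      ∑ V ∈ Q.powerset, ∏ q ∈ V, (3 * (((Ro q).card : ℝ) / (q : ℝ))) := by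
    apply sum_le_sum_of_subset_of_nonneg
    · rw [hB]
      exact filter_subset _ _
    · intro V _ _
      exact prod_nonneg fun q _ => by positivity
  refine h2.trans ?_
  rw [← prod_one_add, mul_sum, Real.exp_sum]
  apply Finset.prod_le_prod
  · intro q _
    positivity
  · intro q hq
    have h3 := Real.add_one_le_exp (3 * κ * (1 / (q : ℝ)))
    have h4 : ((Ro q).card : ℝ) / q ≤ κ * (1 / q) := by
      rw [mul_one_div]
      apply div_le_div_of_nonneg_right _ (Nat.cast_nonneg _)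
      exact_mod_cast (hQ q hq).2.2.1
    linarith

open Classical in
/-- the primes of medium size -/
theorem partCG {κ C0 : ℕ} (hC : NUG κ C0)
    {J z0 : ℕ} (hz0 : C0 ≤ z0) {Om Ro : ℕ → Finset ℕ} {Q : Finset ℕ}
    (hd : DatG κ z0 (2 ^ 2 ^ J) Om Ro Q) (lam : ℝ) (M X : ℕ) :
    (((Ioc M (M + X)).filter (fun n => Av Om z0 (2 ^ 2 ^ J) n ∧ lam < ((hitG Ro Q n).card : ℝ))).card : ℝ) * lam ≤
      2 * (X * VV Om z0 (2 ^ 2 ^ J)) * (∑ q ∈ Q, ((Ro q).card : ℝ) / ((q : ℝ) - (Om q).card)) +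
        Q.card * (κ * Er C0 J) := by
  have hE : 0 ≤ Er C0 J := by unfold Er; positivity
  obtain ⟨A, hA⟩ : ∃ A : Finset ℕ, A = (Ioc M (M + X)).filter (fun n => Av Om z0 (2 ^ 2 ^ J) n) := ⟨_, rfl⟩
  have h1 : (((Ioc M (M + X)).filter (fun n => Av Om z0 (2 ^ 2 ^ J) n ∧ lam < ((hitG Ro Q n).card : ℝ))).card : ℝ) * lam ≤
      ∑ n ∈ A, ((hitG Ro Q n).card : ℝ) := by
    rw [← nsmul_eq_mul, ← sum_const]
    refine (sum_le_sum fun n hn => ?_).trans (sum_le_sum_of_subset_of_nonneg ?_ fun n _ _ => Nat.cast_nonneg _)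
    · exact (mem_filter.1 hn).2.2.le
    · intro n hn
      rw [mem_filter] at hn
      rw [hA, mem_filter]
      exact ⟨hn.1, hn.2.1⟩
  refine h1.trans ?_
  have h2 : ∑ n ∈ A, ((hitG Ro Q n).card : ℝ) = ∑ q ∈ Q, ((A.filter (fun n => n % q ∈ Ro q)).card : ℝ) := by
    have h3 : ∀ n, ((hitG Ro Q n).card : ℝ) = ∑ q ∈ Q, (if n % q ∈ Ro q then (1 : ℝ) else 0) := by
      intro n
      unfold hitG
      rw [card_filter]
      push_cast
      rfl
    simp_rw [h3]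
    rw [sum_comm]
    apply sum_congr rfl
    intro q _
    rw [card_filter]
    push_cast
    rfl
  rw [h2]
  have h4 : ∀ q ∈ Q, ((A.filter (fun n => n % q ∈ Ro q)).card : ℝ) ≤
      2 * (X * VV Om z0 (2 ^ 2 ^ J)) * (((Ro q).card : ℝ) / ((q : ℝ) - (Om q).card)) + κ * Er C0 J := by
    intro q hq
    have h5 := hC J z0 hz0 Om Ro {q} hd.om (singleton_subset_iff.2 (hd.sub hq)) (by
      intro p hp
      rw [mem_singleton] at hp
      rw [hp]
      exact hd.ro q hq) M X {q} (Subset.refl _) (A.filter (fun n => n % q ∈ Ro q)) (by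
      intro n hn
      rw [mem_filter, hA, mem_filter] at hn
      refine ⟨hn.1.1, hn.1.2, ?_⟩
      unfold hitG
      rw [filter_singleton, if_pos hn.2])
    have e1 : Pm (fun q => ((Ro q).card : ℝ) / ((q : ℝ) - (Om q).card)) {q} {q} =
        ((Ro q).card : ℝ) / ((q : ℝ) - (Om q).card) := by
      unfold Pm
      rw [sdiff_self, prod_singleton]
      simp
    rw [e1, prod_singleton] at h5
    have h6 : ((Ro q).card : ℝ) * Er C0 J ≤ κ * Er C0 J :=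
      mul_le_mul_of_nonneg_right (by exact_mod_cast (hd.ro q hq).1) hE
    refine h5.trans ?_
    have e : 2 * (X * VV Om z0 (2 ^ 2 ^ J) * (((Ro q).card : ℝ) / ((q : ℝ) - (Om q).card))) =
      2 * (X * VV Om z0 (2 ^ 2 ^ J)) * (((Ro q).card : ℝ) / ((q : ℝ) - (Om q).card)) := by ring
    rw [e]
    exact add_le_add le_rfl h6
  refine (sum_le_sum h4).trans (le_of_eq ?_)
  rw [sum_add_distrib, ← mul_sum, sum_const, nsmul_eq_mul]

end Pool.Agent.X26.AN
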