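import Pool.Agent.X26.AN.LemG
import Pool.Agent.X26.AN.Main

/-!
# The Turán–Kubilius inequality for arbitrary sifted sets, several classes
-/

set_option autoImplicit false

namespace Pool.Agent.X26.AN

open Finset Filter
open Pool.Agent.Y843.HS (Pr VV Pr_mem Pr_prime)

open Classical in
/-- **Turán–Kubilius for sifted sets.** -/
theorem mainG (κ : ℕ) : ∃ z0 N : ℕ, 1 ≤ N ∧ ∀ δ : ℝ, 0 < δ → ∃ K : ℝ, 0 < K ∧ ∃ J0 : ℕ, ∀ J : ℕ, J0 ≤ J →
    ∀ X : ℕ, (2 ^ 2 ^ J) ^ N ≤ X → ∀ (Om Ro : ℕ → Finset ℕ) (Q : Finset ℕ),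
    DatG κ z0 (2 ^ 2 ^ J) Om Ro Q → ∀ f : ℕ → ℝ, (∀ q, |f q| ≤ 1) → ∀ M : ℕ,
    (((Ioc M (M + X)).filter (fun n => Av Om z0 (2 ^ 2 ^ J) n ∧
      K * √(Real.log (Real.log ((2 ^ 2 ^ J : ℕ) : ℝ))) <
        |∑ q ∈ hitG Ro Q n, f q - ∑ q ∈ Q, f q * (((Ro q).card : ℝ) / (q : ℝ))|)).card : ℝ) ≤
      δ * (X * VV Om z0 (2 ^ 2 ^ J)) := by
  obtain ⟨C0, hκC0, hNU⟩ := NUG_ex κ
  obtain ⟨C, hC⟩ := Pool.Agent.Helper256.KM.mertens_inv
  have hC0 : 0 ≤ C := (abs_nonneg _).trans (hC 3 le_rfl)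
  refine ⟨max C0 (2 * κ + 2), 2 * (C0 * C0) + 6, by omega, ?_⟩
  obtain ⟨z0, hz0⟩ : ∃ z0 : ℕ, z0 = max C0 (2 * κ + 2) := ⟨_, rfl⟩
  rw [← hz0]
  have hz01 : C0 ≤ z0 := by omega
  have hz02 : 2 * κ + 2 ≤ z0 := by omega
  intro δ hδ
  obtain ⟨K1, hK1⟩ : ∃ K1 : ℝ, K1 = 8 * (κ + 1) / δ + 8 := ⟨_, rfl⟩
  have hK10 : 0 < K1 := by rw [hK1]; positivity
  have hK1sq : 64 * (κ + 1) / δ ≤ K1 ^ 2 := by
    have h1 : 0 < 8 * ((κ : ℝ) + 1) / δ := by positivity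
    have h2 : 64 * ((κ : ℝ) + 1) / δ = 8 * (8 * (κ + 1) / δ) := by ring
    rw [hK1, h2]
    nlinarith
  obtain ⟨S, hS⟩ : ∃ S : ℝ, S = 5 * κ + 8 := ⟨_, rfl⟩
  have hS8 : 8 ≤ S := by
    rw [hS]
    have : (0 : ℝ) ≤ κ := Nat.cast_nonneg _
    linarith
  -- the conditions on `l = log log z`
  have hκ00 : (0 : ℝ) ≤ κ := Nat.cast_nonneg _
  have hl : ∀ᶠ l : ℝ in atTop, 1 ≤ l ∧ C ≤ l ∧ Real.exp (-8 * l + 5 * κ * C) ≤ δ / 16 ∧
      κ * (Real.log (2 * S) + 2 * C + Real.log l) + 2 * (κ : ℝ) ^ 2 ≤ √l ∧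
      κ * (Real.log (2 * S) + 2 * C + Real.log l) ≤ δ / 32 * √l := by
    have h1 : Tendsto (fun l : ℝ => Real.exp (-8 * l + 5 * κ * C)) atTop (nhds 0) := by
      apply Real.tendsto_exp_atBot.comp
      apply tendsto_atBot_add_const_right
      exact tendsto_id.const_mul_atTop_of_neg (by norm_num)
    filter_upwards [eventually_ge_atTop (1 : ℝ), eventually_ge_atTop C,
      h1.eventually_le_const (show (0 : ℝ) < δ / 16 by positivity),
      ev_log (Real.log (2 * S) + 2 * C + 2 * κ) (show (0 : ℝ) < 1 / (κ + 1) by positivity),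
      ev_log (Real.log (2 * S) + 2 * C) (show (0 : ℝ) < δ / 32 / (κ + 1) by positivity)] with l h2 h3 h4 h5 h6
    have h7 : (κ : ℝ) / (κ + 1) ≤ 1 := by
      rw [div_le_one (by positivity)]
      linarith
    have h8 := mul_le_mul_of_nonneg_left h5 hκ00
    have h9 := mul_le_mul_of_nonneg_left h6 hκ00
    have e1 : (κ : ℝ) * (1 / (κ + 1) * √l) = κ / (κ + 1) * √l := by ring
    have e2 : (κ : ℝ) * (δ / 32 / (κ + 1) * √l) = κ / (κ + 1) * (δ / 32 * √l) := by ring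
    rw [e1] at h8
    rw [e2] at h9
    have h10 := mul_le_mul_of_nonneg_right h7 (Real.sqrt_nonneg l)
    have h11 := mul_le_mul_of_nonneg_right h7 (show (0 : ℝ) ≤ δ / 32 * √l by positivity)
    refine ⟨h2, h3, h4, ?_, ?_⟩
    · have e3 : (κ : ℝ) * (Real.log (2 * S) + 2 * C + Real.log l) + 2 * (κ : ℝ) ^ 2 =
          κ * (Real.log (2 * S) + 2 * C + 2 * κ + Real.log l) := by ring
      rw [e3]
      linarith
    · linarith
  have hL : ∀ᶠ L : ℝ in atTop, 1 ≤ L ∧ 2 * (S * Real.log L) ≤ L ∧ 2 * κ * (Real.log L + C) ≤ L ∧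
      8 / δ ≤ Real.exp L ∧ (κ : ℝ) ≤ L := by
    have h1 := Real.isLittleO_log_id_atTop.bound (show (0 : ℝ) < 1 / (2 * (S + 2 * κ + 1)) by positivity)
    filter_upwards [h1, eventually_ge_atTop (1 : ℝ), eventually_ge_atTop (8 * (κ * C) + 1),
      Real.tendsto_exp_atTop.eventually_ge_atTop (8 / δ), eventually_ge_atTop (κ : ℝ)] with L h2 h3 h4 h5 hκL
    have h6 : (0 : ℝ) ≤ κ := Nat.cast_nonneg _
    rw [id, Real.norm_eq_abs, Real.norm_eq_abs, abs_of_nonneg (show (0 : ℝ) ≤ L by linarith),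
      abs_of_nonneg (Real.log_nonneg h3)] at h2
    have h8 := Real.log_nonneg h3
    have h7 : Real.log L * (2 * (S + 2 * κ + 1)) ≤ L := by
      have h9 := mul_le_mul_of_nonneg_right h2 (show (0 : ℝ) ≤ 2 * (S + 2 * κ + 1) by positivity)
      have e : 1 / (2 * (S + 2 * κ + 1)) * L * (2 * (S + 2 * κ + 1)) = L := by field_simp
      linarith
    have h10 : 0 ≤ (κ : ℝ) * Real.log L := by positivity
    have h11 : 0 ≤ S * Real.log L := by positivity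
    refine ⟨h3, by nlinarith, ?_, h5, hκL⟩
    have h12 : 4 * (κ * Real.log L) ≤ L := by nlinarith
    nlinarith
  have hev := tend_z.eventually (hL.and (Real.tendsto_log_atTop.eventually hl))
  obtain ⟨J0, hJ0⟩ := eventually_atTop.1 hev
  refine ⟨K1 + 3, by positivity, J0, fun J hJ X hX Om Ro Q hd f hf M => ?_⟩
  obtain ⟨⟨hL1, hL2, hL3, hL4, hL5⟩, hl1, hl2, hl3, hl4, hl5⟩ := hJ0 J hJ
  have hJz := J_le J
  obtain ⟨z, hz⟩ : ∃ z : ℕ, z = 2 ^ 2 ^ J := ⟨_, rfl⟩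
  have hE0 : Er C0 J = ((J : ℝ) + 2) * ((z : ℝ) ^ (C0 * C0)) ^ 2 := by unfold Er; rw [hz]
  have hA := partAG hNU hz01 hz02 (Q := Q.filter (fun q => q ≤ ⌊Real.exp (Real.log z / (S * Real.log (Real.log z)))⌋₊))
    (hd.mono (filter_subset _ _)) f hf (lam := K1 * √(Real.log (Real.log ((2 ^ 2 ^ J : ℕ) : ℝ)))) (by positivity) M X z
  have hCc := partCG hNU hz01 (Q := Q.filter (fun q => ¬ q ≤ ⌊Real.exp (Real.log z / (S * Real.log (Real.log z)))⌋₊))
    (hd.mono (filter_subset _ _)) (√(Real.log (Real.log ((2 ^ 2 ^ J : ℕ) : ℝ)))) M X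
  rw [← hz] at hX hd hL1 hL2 hL3 hL4 hL5 hl1 hl2 hl3 hl4 hl5 hJz hA hCc ⊢
  obtain ⟨L, hLz⟩ : ∃ L : ℝ, L = Real.log z := ⟨_, rfl⟩
  rw [← hLz] at hL1 hL2 hL3 hL4 hL5 hl1 hl2 hl3 hl4 hl5 hA hCc ⊢
  obtain ⟨l, hlL⟩ : ∃ l : ℝ, l = Real.log L := ⟨_, rfl⟩
  rw [← hlL] at hL2 hL3 hl1 hl2 hl3 hl4 hl5 hA hCc ⊢
  obtain ⟨w, hw⟩ : ∃ w : ℕ, w = ⌊Real.exp (L / (S * l))⌋₊ := ⟨_, rfl⟩
  rw [← hw] at hA hCc
  obtain ⟨Q1, hQ1⟩ : ∃ Q1 : Finset ℕ, Q1 = Q.filter (fun q => q ≤ w) := ⟨_, rfl⟩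
  obtain ⟨Q2, hQ2⟩ : ∃ Q2 : Finset ℕ, Q2 = Q.filter (fun q => ¬ q ≤ w) := ⟨_, rfl⟩
  rw [← hQ1] at hA
  rw [← hQ2] at hCc
  have hκ0 : (0 : ℝ) ≤ κ := Nat.cast_nonneg _
  have hd1 : DatG κ z0 z Om Ro Q1 := hd.mono (by rw [hQ1]; exact filter_subset _ _)
  have hd2 : DatG κ z0 z Om Ro Q2 := hd.mono (by rw [hQ2]; exact filter_subset _ _)
  have hz1 : (0 : ℝ) < z := by
    have : 0 < z := by rw [hz]; positivity
    exact_mod_cast this
  have hexpL : Real.exp L = z := by rw [hLz]; exact Real.exp_log hz1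
  have hz3 : 3 ≤ z := by
    by_contra hcon
    have h1 : (z : ℝ) ≤ 2 := by exact_mod_cast (by omega : z ≤ 2)
    have h2 := Real.exp_le_exp.2 hL1
    rw [hexpL] at h2
    have h3 := Real.exp_one_gt_d9
    linarith
  have hS0 : 0 < S * l := by positivity
  -- the number `w`
  obtain ⟨a, ha⟩ : ∃ a : ℝ, a = L / (S * l) := ⟨_, rfl⟩
  rw [← ha] at hw
  have ha2 : 2 ≤ a := by rw [ha, le_div_iff₀ hS0]; exact hL2
  have haL : a ≤ L := by
    rw [ha]
    apply div_le_self (by linarith)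
    nlinarith
  have hexp1 := Real.exp_one_gt_d9
  have hea : Real.exp 1 * Real.exp 1 ≤ Real.exp a := by
    rw [← Real.exp_add]
    exact Real.exp_le_exp.2 (by linarith)
  have hea7 : 7 ≤ Real.exp a := by nlinarith
  have hwlo : Real.exp a - 1 < w := by rw [hw]; exact Nat.sub_one_lt_floor _
  have hwhi : (w : ℝ) ≤ Real.exp a := by rw [hw]; exact Nat.floor_le (Real.exp_pos _).le
  have hw3 : 3 ≤ w := by
    have h1 : (3 : ℝ) < w := by linarith
    exact_mod_cast h1.le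
  have hwz : w ≤ z := by
    have h1 : (w : ℝ) ≤ z := by
      rw [← hexpL]
      exact hwhi.trans (Real.exp_le_exp.2 haL)
    exact_mod_cast h1
  have hw0 : (0 : ℝ) < w := by exact_mod_cast (show 0 < w by omega)
  have hlw : 0 < Real.log w := Real.log_pos (by exact_mod_cast (show 1 < w by omega))
  have hlwa : Real.log w ≤ a := by
    rw [← Real.log_exp a]
    exact Real.log_le_log hw0 hwhi
  have hlwb : a / 2 ≤ Real.log w := by
    rw [← Real.log_exp (a / 2)]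
    apply Real.log_le_log (Real.exp_pos _)
    have h1 : Real.exp (a / 2) * Real.exp (a / 2) = Real.exp a := by
      rw [← Real.exp_add]
      congr 1
      ring
    have h2 : Real.exp 1 ≤ Real.exp (a / 2) := Real.exp_le_exp.2 (by linarith)
    nlinarith
  -- sums over primes
  have hsum1 : ∑ p ∈ Pr z0 z, 1 / (p : ℝ) ≤ l + C := by
    have h1 := (abs_le.1 (hC z hz3)).2
    rw [← hLz, ← hlL] at h1
    have h2 : ∑ p ∈ Pr z0 z, 1 / (p : ℝ) ≤ ∑ p ∈ (Icc 1 z).filter Nat.Prime, (1 : ℝ) / p := by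
      apply sum_le_sum_of_subset_of_nonneg
      · intro p hp
        have h3 := Pr_mem.1 hp
        rw [mem_filter, mem_Icc]
        exact ⟨⟨h3.2.one_lt.le, h3.1.2⟩, h3.2⟩
      · intro p _ _
        positivity
    linarith
  have hsub1 : ∑ q ∈ Q1, 1 / (q : ℝ) ≤ l + C :=
    (sum_le_sum_of_subset_of_nonneg hd1.sub fun q _ _ => by positivity).trans hsum1
  have hQ2w : Q2 ⊆ Pr w z := by
    intro q hq
    have h1 := Pr_mem.1 (hd2.sub hq)
    rw [hQ2, mem_filter] at hq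
    rw [Pr_mem]
    exact ⟨⟨not_le.1 hq.2, h1.1.2⟩, h1.2⟩
  have hsum2 : ∑ q ∈ Q2, 1 / (q : ℝ) ≤ Real.log (2 * S) + 2 * C + Real.log l := by
    have h1 := Pool.Agent.Y79.HS.sum_pr hC hw3 hwz
    have h2 : ∑ q ∈ Q2, 1 / (q : ℝ) ≤ ∑ p ∈ Pr w z, (1 : ℝ) / p :=
      sum_le_sum_of_subset_of_nonneg hQ2w fun q _ _ => by positivity
    have h3 : l - (Real.log (2 * S) + Real.log l) ≤ Real.log (Real.log w) := by
      have h4 : Real.log (a / 2) ≤ Real.log (Real.log w) := Real.log_le_log (by linarith) hlwb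
      have h5 : Real.log (a / 2) = l - (Real.log (2 * S) + Real.log l) := by
        rw [ha, div_div, Real.log_div (by linarith) (by positivity), ← hlL,
          show S * l * 2 = (2 * S) * l by ring, Real.log_mul (by positivity) (by linarith)]
      linarith
    rw [← hLz, ← hlL] at h1
    linarith
  have hg1 : ∑ q ∈ Q1, ((Ro q).card : ℝ) / ((q : ℝ) - (Om q).card) ≤ 4 * κ * l := by
    have h1 : ∑ q ∈ Q1, ((Ro q).card : ℝ) / ((q : ℝ) - (Om q).card) ≤ ∑ q ∈ Q1, 2 * κ * (1 / (q : ℝ)) :=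
      sum_le_sum fun q hq => (gG_bd hd1 hz02 q hq).2.2.1
    rw [← mul_sum] at h1
    have h2 := mul_le_mul_of_nonneg_left (show ∑ q ∈ Q1, 1 / (q : ℝ) ≤ 2 * l by linarith)
      (show (0 : ℝ) ≤ 2 * κ by positivity)
    linarith
  have hg2 : ∑ q ∈ Q2, ((Ro q).card : ℝ) / ((q : ℝ) - (Om q).card) ≤
      2 * (κ * (Real.log (2 * S) + 2 * C + Real.log l)) := by
    have h1 : ∑ q ∈ Q2, ((Ro q).card : ℝ) / ((q : ℝ) - (Om q).card) ≤ ∑ q ∈ Q2, 2 * κ * (1 / (q : ℝ)) :=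
      sum_le_sum fun q hq => (gG_bd hd2 hz02 q hq).2.2.1
    rw [← mul_sum] at h1
    have h2 := mul_le_mul_of_nonneg_left hsum2 (show (0 : ℝ) ≤ 2 * κ by positivity)
    linarith
  have hsq : ∑ q ∈ Q1, 1 / (q : ℝ) ^ 2 ≤ 1 := by
    have h1 := Pool.Agent.Y79.HS.sum_sq_le (s := z0) (z := z) (by omega)
    have h2 : ∑ q ∈ Q1, 1 / (q : ℝ) ^ 2 ≤ ∑ p ∈ Pr z0 z, 1 / (p : ℝ) ^ 2 :=
      sum_le_sum_of_subset_of_nonneg hd1.sub fun q _ _ => by positivity
    have h3 : 1 / (z0 : ℝ) ≤ 1 := by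
      have : (1 : ℝ) ≤ z0 := by exact_mod_cast (by omega : 1 ≤ z0)
      rw [div_le_one (by linarith)]
      exact this
    linarith
  -- the product
  obtain ⟨V, hV⟩ : ∃ V : ℝ, V = VV Om z0 z := ⟨_, rfl⟩
  have hVlo : Real.exp (-(2 * κ * (l + C))) ≤ V := by
    rw [hV]
    refine le_trans (Real.exp_le_exp.2 (neg_le_neg ?_)) (V_pos (fun p hp => (hd.om p hp).1) hz02)
    exact mul_le_mul_of_nonneg_left hsum1 (by positivity)
  have hVz : 1 / (z : ℝ) ≤ V := by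
    refine le_trans ?_ hVlo
    rw [← hexpL, one_div, ← Real.exp_neg]
    exact Real.exp_le_exp.2 (neg_le_neg hL3)
  have hV0 : 0 < V := lt_of_lt_of_le (by positivity) hVz
  rw [← hV] at hA hCc ⊢
  have hXr : (z : ℝ) ^ (2 * (C0 * C0) + 6) ≤ X := by exact_mod_cast hX
  have hX0 : (0 : ℝ) < X := lt_of_lt_of_le (by positivity) hXr
  have hEr : (z : ℝ) * (z * Er C0 J) ≤ δ / 8 * (X * V) := by
    have h1 : ((J : ℝ) + 2) ≤ z := by exact_mod_cast hJz
    have h2 : (z : ℝ) * (z * Er C0 J) ≤ z * (z * (z * z * ((z : ℝ) ^ (C0 * C0)) ^ 2)) := by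
      rw [hE0]
      apply mul_le_mul_of_nonneg_left _ hz1.le
      apply mul_le_mul_of_nonneg_left _ hz1.le
      apply mul_le_mul_of_nonneg_right _ (by positivity)
      have h0 : (1 : ℝ) ≤ z := by exact_mod_cast (show 1 ≤ z by omega)
      nlinarith
    have h3 : (z : ℝ) * (z * (z * z * ((z : ℝ) ^ (C0 * C0)) ^ 2)) * (z * z) = z ^ (2 * (C0 * C0) + 6) := by ring
    have h4 : (z : ℝ) * (z * Er C0 J) ≤ X * (1 / z * (1 / z)) := by
      have e : (X : ℝ) * (1 / z * (1 / z)) = X / (z * z) := by ring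
      rw [e, le_div_iff₀ (by positivity)]
      refine (mul_le_mul_of_nonneg_right h2 (by positivity)).trans ?_
      rw [h3]
      exact hXr
    refine h4.trans ?_
    have h5 : 1 / (z : ℝ) ≤ δ / 8 := by
      rw [hexpL, div_le_iff₀ hδ] at hL4
      rw [div_le_iff₀ hz1]
      linarith
    have h6 : 1 / (z : ℝ) * (1 / z) ≤ δ / 8 * V := mul_le_mul h5 hVz (by positivity) (by positivity)
    have h7 := mul_le_mul_of_nonneg_left h6 hX0.le
    linarith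
  have hEr0 : 0 ≤ Er C0 J := by unfold Er; positivity
  -- the three parts
  have hB := partBG (κ := κ) (Ro := Ro) (Q := Q1) (w := w) (D := z) (X := X) M (by
    intro q hq
    have h1 := hd1.ro q hq
    have h2 := Pr_prime (hd1.sub hq)
    rw [hQ1, mem_filter] at hq
    exact ⟨h2, hq.2, h1.1, h1.2.1⟩) (by omega) hw3 (by
    have h1 : z * w ≤ z * z := Nat.mul_le_mul_left _ hwz
    have h2 : z * z ≤ z ^ (2 * (C0 * C0) + 6) := by
      rw [← pow_two]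
      exact Nat.pow_le_pow_right (by omega) (by omega)
    omega)
  have hB2 : (((Ioc M (M + X)).filter (fun n => z < ∏ q ∈ hitG Ro Q1 n, q)).card : ℝ) ≤ δ / 8 * (X * V) := by
    refine hB.trans ?_
    have h1 : S * l ≤ Real.log z / Real.log w := by
      rw [← hLz, le_div_iff₀ hlw]
      have h2 : S * l * a = L := by rw [ha]; field_simp
      calc S * l * Real.log w ≤ S * l * a := mul_le_mul_of_nonneg_left hlwa hS0.le
        _ = L := h2
    have h3 : Real.exp (-(Real.log z / Real.log w)) * Real.exp (3 * κ * ∑ q ∈ Q1, 1 / (q : ℝ)) ≤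
        V * Real.exp (-8 * l + 5 * κ * C) := by
      rw [← Real.exp_add]
      calc Real.exp (-(Real.log z / Real.log w) + 3 * κ * ∑ q ∈ Q1, 1 / (q : ℝ))
          ≤ Real.exp (-(2 * κ * (l + C)) + (-8 * l + 5 * κ * C)) := by
            apply Real.exp_le_exp.2
            have e : -(2 * κ * (l + C)) + (-8 * l + 5 * κ * C) = -(S * l) + 3 * κ * (l + C) := by
              rw [hS]; ring
            rw [e]
            have h5 := mul_le_mul_of_nonneg_left hsub1 (show (0 : ℝ) ≤ 3 * κ by positivity)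
            linarith
        _ = Real.exp (-(2 * κ * (l + C))) * Real.exp (-8 * l + 5 * κ * C) := Real.exp_add _ _
        _ ≤ _ := mul_le_mul_of_nonneg_right hVlo (Real.exp_pos _).le
    have h4 : V * Real.exp (-8 * l + 5 * κ * C) ≤ V * (δ / 16) := mul_le_mul_of_nonneg_left hl3 hV0.le
    calc 2 * (X : ℝ) * (Real.exp (-(Real.log z / Real.log w)) * Real.exp (3 * κ * ∑ q ∈ Q1, 1 / (q : ℝ)))
        ≤ 2 * (X : ℝ) * (V * (δ / 16)) := mul_le_mul_of_nonneg_left (h3.trans h4) (by positivity)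
      _ = δ / 8 * (X * V) := by ring
  have hsl : 0 < √l := Real.sqrt_pos.2 (by linarith)
  have hsl2 : √l ^ 2 = l := Real.sq_sqrt (by linarith)
  have hA2 : 2 * (X * V) * ((∑ q ∈ Q1, ((Ro q).card : ℝ) / ((q : ℝ) - (Om q).card)) / (K1 * √l) ^ 2) ≤ δ / 8 * (X * V) := by
    have h1 : (∑ q ∈ Q1, ((Ro q).card : ℝ) / ((q : ℝ) - (Om q).card)) / (K1 * √l) ^ 2 ≤ δ / 16 := by
      rw [mul_pow, hsl2, div_le_iff₀ (by positivity)]
      have h2 : 64 * ((κ : ℝ) + 1) ≤ K1 ^ 2 * δ := by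
        rw [div_le_iff₀ hδ] at hK1sq
        exact hK1sq
      have h3 := mul_le_mul_of_nonneg_right h2 (show (0 : ℝ) ≤ l by linarith)
      have e : δ / 16 * (K1 ^ 2 * l) = K1 ^ 2 * δ * l / 16 := by ring
      rw [e]
      linarith
    calc 2 * (X * V) * ((∑ q ∈ Q1, ((Ro q).card : ℝ) / ((q : ℝ) - (Om q).card)) / (K1 * √l) ^ 2)
        ≤ 2 * (X * V) * (δ / 16) := mul_le_mul_of_nonneg_left h1 (by positivity)
      _ = δ / 8 * (X * V) := by ring
  have hC2 : (((Ioc M (M + X)).filter (fun n => Av Om z0 z n ∧ √l < ((hitG Ro Q2 n).card : ℝ))).card : ℝ) ≤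
      2 * (δ / 8 * (X * V)) := by
    have h1 : (Q2.card : ℝ) * (κ * Er C0 J) ≤ δ / 8 * (X * V) := by
      have hκz : (κ : ℝ) ≤ z := by
        rw [← hexpL]
        linarith [Real.add_one_le_exp L]
      refine le_trans (mul_le_mul ?_ (mul_le_mul_of_nonneg_right hκz hEr0) (by positivity) hz1.le) hEr
      have h2 : Q2.card ≤ z := by
        refine (card_le_card (hQ2w.trans ?_)).trans (le_of_eq (Nat.card_Icc 1 z))
        intro q hq
        have h3 := Pr_mem.1 hq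
        rw [mem_Icc]
        exact ⟨h3.2.one_lt.le, h3.1.2⟩
      exact_mod_cast h2
    have h3 : 2 * (X * V) * (∑ q ∈ Q2, ((Ro q).card : ℝ) / ((q : ℝ) - (Om q).card)) ≤ δ / 8 * (X * V) * √l := by
      calc 2 * (X * V) * (∑ q ∈ Q2, ((Ro q).card : ℝ) / ((q : ℝ) - (Om q).card))
          ≤ 2 * (X * V) * (2 * (κ * (Real.log (2 * S) + 2 * C + Real.log l))) :=
            mul_le_mul_of_nonneg_left hg2 (by positivity)
        _ ≤ 2 * (X * V) * (2 * (δ / 32 * √l)) := by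
            apply mul_le_mul_of_nonneg_left _ (by positivity)
            linarith
        _ = δ / 8 * (X * V) * √l := by ring
    have h4 : 1 ≤ √l := by
      rw [Real.one_le_sqrt]
      exact hl1
    have h5 : δ / 8 * (X * V) ≤ δ / 8 * (X * V) * √l := le_mul_of_one_le_right (by positivity) h4
    have h6 : (((Ioc M (M + X)).filter (fun n => Av Om z0 z n ∧ √l < ((hitG Ro Q2 n).card : ℝ))).card : ℝ) * √l ≤
        2 * (δ / 8 * (X * V)) * √l := by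
      refine hCc.trans ?_
      linarith
    exact le_of_mul_le_mul_right h6 hsl
  -- the end
  have hdev : |∑ q ∈ Q1, f q * (((Ro q).card : ℝ) / ((q : ℝ) - (Om q).card)) -
      ∑ q ∈ Q1, f q * (((Ro q).card : ℝ) / (q : ℝ))| ≤ 2 * (κ : ℝ) ^ 2 := by
    rw [← sum_sub_distrib]
    refine (abs_sum_le_sum_abs _ _).trans ?_
    have h1 : ∀ q ∈ Q1, |f q * (((Ro q).card : ℝ) / ((q : ℝ) - (Om q).card)) - f q * (((Ro q).card : ℝ) / (q : ℝ))| ≤
        2 * (κ : ℝ) ^ 2 * (1 / (q : ℝ) ^ 2) := by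
      intro q hq
      obtain ⟨_, _, _, h2, h3⟩ := gG_bd hd1 hz02 q hq
      rw [← mul_sub, abs_mul, abs_of_nonneg (sub_nonneg.2 h2)]
      calc |f q| * (((Ro q).card : ℝ) / ((q : ℝ) - (Om q).card) - ((Ro q).card : ℝ) / q) ≤
            1 * (((Ro q).card : ℝ) / ((q : ℝ) - (Om q).card) - ((Ro q).card : ℝ) / q) :=
            mul_le_mul_of_nonneg_right (hf q) (sub_nonneg.2 h2)
        _ ≤ _ := by rw [one_mul]; exact h3
    refine (sum_le_sum h1).trans ?_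
    rw [← mul_sum]
    calc 2 * (κ : ℝ) ^ 2 * ∑ q ∈ Q1, 1 / (q : ℝ) ^ 2 ≤ 2 * (κ : ℝ) ^ 2 * 1 :=
          mul_le_mul_of_nonneg_left hsq (by positivity)
      _ = 2 * (κ : ℝ) ^ 2 := mul_one _
  have hdev2 : |∑ q ∈ Q2, f q * (((Ro q).card : ℝ) / (q : ℝ))| ≤
      κ * (Real.log (2 * S) + 2 * C + Real.log l) := by
    refine (abs_sum_le_sum_abs _ _).trans (le_trans ?_ (mul_le_mul_of_nonneg_left hsum2 hκ0))
    rw [mul_sum]
    apply sum_le_sum
    intro q hq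
    have h1 : (0 : ℝ) ≤ ((Ro q).card : ℝ) / (q : ℝ) := by positivity
    rw [abs_mul, abs_of_nonneg h1]
    have h2 : ((Ro q).card : ℝ) / q ≤ κ * (1 / q) := by
      rw [mul_one_div]
      apply div_le_div_of_nonneg_right _ (Nat.cast_nonneg _)
      exact_mod_cast (hd2.ro q hq).1
    calc |f q| * (((Ro q).card : ℝ) / (q : ℝ)) ≤ 1 * (((Ro q).card : ℝ) / (q : ℝ)) :=
          mul_le_mul_of_nonneg_right (hf q) h1
      _ ≤ _ := by rw [one_mul]; exact h2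
  have hsplit : ∑ q ∈ Q, f q * (((Ro q).card : ℝ) / (q : ℝ)) =
      ∑ q ∈ Q1, f q * (((Ro q).card : ℝ) / (q : ℝ)) + ∑ q ∈ Q2, f q * (((Ro q).card : ℝ) / (q : ℝ)) := by
    rw [hQ1, hQ2]
    exact (sum_filter_add_sum_filter_not _ _ _).symm
  have hsplit2 : ∀ n, ∑ q ∈ hitG Ro Q n, f q = ∑ q ∈ hitG Ro Q1 n, f q + ∑ q ∈ hitG Ro Q2 n, f q := by
    intro n
    have h1 : hitG Ro Q1 n = (hitG Ro Q n).filter (fun q => q ≤ w) := by
      rw [hQ1]
      unfold hitG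
      rw [filter_filter, filter_filter]
      apply filter_congr
      intro q _
      tauto
    have h2 : hitG Ro Q2 n = (hitG Ro Q n).filter (fun q => ¬ q ≤ w) := by
      rw [hQ2]
      unfold hitG
      rw [filter_filter, filter_filter]
      apply filter_congr
      intro q _
      tauto
    rw [h1, h2]
    exact (sum_filter_add_sum_filter_not _ _ _).symm
  have hsub : (Ioc M (M + X)).filter (fun n => Av Om z0 z n ∧ (K1 + 3) * √l <
      |∑ q ∈ hitG Ro Q n, f q - ∑ q ∈ Q, f q * (((Ro q).card : ℝ) / (q : ℝ))|) ⊆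
      (Ioc M (M + X)).filter (fun n => Av Om z0 z n ∧
        K1 * √l < |∑ q ∈ hitG Ro Q1 n, f q - ∑ q ∈ Q1, f q * (((Ro q).card : ℝ) / ((q : ℝ) - (Om q).card))|) ∪
      (Ioc M (M + X)).filter (fun n => Av Om z0 z n ∧ √l < ((hitG Ro Q2 n).card : ℝ)) := by
    intro n hn
    rw [mem_filter] at hn
    obtain ⟨h1, h2, h3⟩ := hn
    rw [mem_union, mem_filter, mem_filter]
    by_contra hcon
    push Not at hcon
    have h4 := hcon.1 h1 h2
    have h5 := hcon.2 h1 h2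
    have h6 : |∑ q ∈ hitG Ro Q2 n, f q| ≤ ((hitG Ro Q2 n).card : ℝ) := by
      refine (abs_sum_le_sum_abs _ _).trans ?_
      refine (sum_le_sum fun q _ => hf q).trans (le_of_eq ?_)
      rw [sum_const, nsmul_eq_mul, mul_one]
    rw [hsplit2 n, hsplit] at h3
    have e : ∑ q ∈ hitG Ro Q1 n, f q + ∑ q ∈ hitG Ro Q2 n, f q -
        (∑ q ∈ Q1, f q * (((Ro q).card : ℝ) / (q : ℝ)) + ∑ q ∈ Q2, f q * (((Ro q).card : ℝ) / (q : ℝ))) =
        (∑ q ∈ hitG Ro Q1 n, f q - ∑ q ∈ Q1, f q * (((Ro q).card : ℝ) / ((q : ℝ) - (Om q).card))) + ∑ q ∈ hitG Ro Q2 n, f q +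
        (∑ q ∈ Q1, f q * (((Ro q).card : ℝ) / ((q : ℝ) - (Om q).card)) - ∑ q ∈ Q1, f q * (((Ro q).card : ℝ) / (q : ℝ))) -
        ∑ q ∈ Q2, f q * (((Ro q).card : ℝ) / (q : ℝ)) := by ring
    rw [e] at h3
    have h7 := abs_sub (((∑ q ∈ hitG Ro Q1 n, f q - ∑ q ∈ Q1, f q * (((Ro q).card : ℝ) / ((q : ℝ) - (Om q).card))) +
        ∑ q ∈ hitG Ro Q2 n, f q) +
        (∑ q ∈ Q1, f q * (((Ro q).card : ℝ) / ((q : ℝ) - (Om q).card)) - ∑ q ∈ Q1, f q * (((Ro q).card : ℝ) / (q : ℝ))))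
        (∑ q ∈ Q2, f q * (((Ro q).card : ℝ) / (q : ℝ)))
    have h8 := abs_add_le ((∑ q ∈ hitG Ro Q1 n, f q - ∑ q ∈ Q1, f q * (((Ro q).card : ℝ) / ((q : ℝ) - (Om q).card))) +
        ∑ q ∈ hitG Ro Q2 n, f q)
        (∑ q ∈ Q1, f q * (((Ro q).card : ℝ) / ((q : ℝ) - (Om q).card)) - ∑ q ∈ Q1, f q * (((Ro q).card : ℝ) / (q : ℝ)))
    have h9 := abs_add_le (∑ q ∈ hitG Ro Q1 n, f q - ∑ q ∈ Q1, f q * (((Ro q).card : ℝ) / ((q : ℝ) - (Om q).card)))
        (∑ q ∈ hitG Ro Q2 n, f q)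
    linarith
  refine (Nat.cast_le.2 ((card_le_card hsub).trans (card_union_le _ _))).trans ?_
  rw [Nat.cast_add]
  have h0 : 0 ≤ X * V := by positivity
  linarith

end Pool.Agent.X26.AN
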