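import Mathlib

/-!
# The second moment of an additive function in the independent model
-/

set_option autoImplicit false

namespace Pool.Agent.X26.AN

open Finset

/-- the probability of the set `U` in the independent model with the probabilities `g` -/
noncomputable def Pm (g : ℕ → ℝ) (Q U : Finset ℕ) : ℝ := (∏ q ∈ U, g q) * ∏ q ∈ Q \ U, (1 - g q)

theorem Pm_nonneg {g : ℕ → ℝ} {Q U : Finset ℕ} (hU : U ⊆ Q) (hg : ∀ q ∈ Q, 0 ≤ g q ∧ g q ≤ 1) :
    0 ≤ Pm g Q U := by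
  unfold Pm
  apply mul_nonneg
  · exact prod_nonneg fun q hq => (hg q (hU hq)).1
  · exact prod_nonneg fun q hq => sub_nonneg.2 (hg q (mem_sdiff.1 hq).1).2

theorem Pm_insert_not {g : ℕ → ℝ} {Q U : Finset ℕ} {a : ℕ} (ha : a ∉ Q) (hU : U ⊆ Q) :
    Pm g (insert a Q) U = Pm g Q U * (1 - g a) := by
  unfold Pm
  have h1 : insert a Q \ U = insert a (Q \ U) := by
    rw [insert_sdiff_of_notMem]
    exact fun h => ha (hU h)
  rw [h1, prod_insert (fun h => ha (mem_sdiff.1 h).1)]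
  ring

theorem Pm_insert {g : ℕ → ℝ} {Q U : Finset ℕ} {a : ℕ} (ha : a ∉ Q) (hU : U ⊆ Q) :
    Pm g (insert a Q) (insert a U) = Pm g Q U * g a := by
  unfold Pm
  have h1 : insert a Q \ insert a U = Q \ U := by
    ext x
    simp only [mem_sdiff, mem_insert]
    constructor
    · rintro ⟨h1, h2⟩
      push Not at h2
      exact ⟨h1.resolve_left h2.1, h2.2⟩
    · rintro ⟨h1, h2⟩
      refine ⟨Or.inr h1, ?_⟩
      push Not
      exact ⟨fun h => ha (h ▸ h1), h2⟩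
  rw [h1, prod_insert (fun h => ha (hU h))]
  ring

theorem Pm_moments (g f : ℕ → ℝ) (Q : Finset ℕ) :
    ∑ U ∈ Q.powerset, Pm g Q U = 1 ∧
    ∑ U ∈ Q.powerset, Pm g Q U * (∑ q ∈ U, f q - ∑ q ∈ Q, f q * g q) = 0 ∧
    ∑ U ∈ Q.powerset, Pm g Q U * (∑ q ∈ U, f q - ∑ q ∈ Q, f q * g q) ^ 2 =
      ∑ q ∈ Q, f q ^ 2 * (g q * (1 - g q)) := by
  induction Q using Finset.induction_on with
  | empty => simp [Pm]
  | insert a Q ha ih =>
    obtain ⟨h0, h1, h2⟩ := ih
    refine ⟨?_, ?_, ?_⟩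
    · rw [sum_powerset_insert ha]
      rw [← sum_add_distrib, ← h0]
      apply sum_congr rfl
      intro U hU
      rw [Pm_insert_not ha (mem_powerset.1 hU), Pm_insert ha (mem_powerset.1 hU)]
      ring
    · rw [sum_powerset_insert ha, ← sum_add_distrib, ← h1]
      apply sum_congr rfl
      intro U hU
      rw [Pm_insert_not ha (mem_powerset.1 hU), Pm_insert ha (mem_powerset.1 hU), sum_insert ha,
        sum_insert (fun h => ha (mem_powerset.1 hU h))]
      ring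
    · rw [sum_powerset_insert ha, ← sum_add_distrib]
      have h4 : ∑ q ∈ insert a Q, f q ^ 2 * (g q * (1 - g q)) =
          f a ^ 2 * (g a * (1 - g a)) + ∑ q ∈ Q, f q ^ 2 * (g q * (1 - g q)) := sum_insert ha
      rw [h4]
      have h3 : ∑ U ∈ Q.powerset, (Pm g Q U * (∑ q ∈ U, f q - ∑ q ∈ Q, f q * g q) ^ 2 +
          f a ^ 2 * (g a * (1 - g a)) * Pm g Q U) =
          f a ^ 2 * (g a * (1 - g a)) + ∑ q ∈ Q, f q ^ 2 * (g q * (1 - g q)) := by
        rw [sum_add_distrib, h2, ← mul_sum, h0]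
        ring
      rw [← h3]
      apply sum_congr rfl
      intro U hU
      rw [Pm_insert_not ha (mem_powerset.1 hU), Pm_insert ha (mem_powerset.1 hU), sum_insert ha,
        sum_insert (fun h => ha (mem_powerset.1 hU h))]
      ring

open Classical in
/-- Chebyshev's inequality in the model -/
theorem cheb {g f : ℕ → ℝ} {Q : Finset ℕ} (hg : ∀ q ∈ Q, 0 ≤ g q ∧ g q ≤ 1) (hf : ∀ q ∈ Q, |f q| ≤ 1)
    {lam : ℝ} (hl : 0 < lam) :
    ∑ U ∈ Q.powerset.filter (fun U => lam < |∑ q ∈ U, f q - ∑ q ∈ Q, f q * g q|), Pm g Q U ≤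
      (∑ q ∈ Q, g q) / lam ^ 2 := by
  have h2 := (Pm_moments g f Q).2.2
  rw [le_div_iff₀ (by positivity), sum_mul]
  have h3 : ∑ U ∈ Q.powerset.filter (fun U => lam < |∑ q ∈ U, f q - ∑ q ∈ Q, f q * g q|), Pm g Q U * lam ^ 2 ≤
      ∑ U ∈ Q.powerset, Pm g Q U * (∑ q ∈ U, f q - ∑ q ∈ Q, f q * g q) ^ 2 := by
    refine (sum_le_sum fun U hU => ?_).trans (sum_le_sum_of_subset_of_nonneg (filter_subset _ _) fun U hU _ => ?_)
    · rw [mem_filter, mem_powerset] at hU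
      apply mul_le_mul_of_nonneg_left _ (Pm_nonneg hU.1 hg)
      rw [← sq_abs (∑ q ∈ U, f q - ∑ q ∈ Q, f q * g q)]
      exact pow_le_pow_left₀ hl.le hU.2.le 2
    · exact mul_nonneg (Pm_nonneg (mem_powerset.1 hU) hg) (sq_nonneg _)
  refine h3.trans (h2.le.trans (sum_le_sum fun q hq => ?_))
  obtain ⟨h4, h5⟩ := hg q hq
  have h6 : f q ^ 2 ≤ 1 := by
    rw [← sq_abs]
    exact pow_le_one₀ (abs_nonneg _) (hf q hq)
  have h7 : g q * (1 - g q) ≤ g q := by nlinarith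
  have h8 : 0 ≤ g q * (1 - g q) := mul_nonneg h4 (by linarith)
  nlinarith [sq_nonneg (f q)]

end Pool.Agent.X26.AN
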