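import Pool.Agent.X26.AN.MainG
import Pool.Agent.X26.AN.Tup
import Pool.Agent.X26.GP.Sys

/-!
# The prime factors of the values of polynomials, on sifted sets given by polynomials
-/

set_option autoImplicit false

namespace Pool.Agent.X26.AN

open Finset Filter Polynomial
open Pool.Agent.Y843.HS (Pr VV Pr_mem Pr_prime VV_split)
open Pool.Agent.X26.GP (Zf NF mem_Zf_mod Zf_lt Zf_card_lt Zf_card_le dvd_eval_iff VV_low OK_Zf)
open Pool.Agent.Y843.AC (OK)

/-- few zeros modulo `q` -/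
theorem Zf_card_le' {f : ℤ[X]} {q : ℕ} (hq : q.Prime) (h : ∃ n : ℤ, ¬ (q : ℤ) ∣ f.eval n) :
    (Zf f q).card ≤ f.natDegree := by
  classical
  have : Fact q.Prime := ⟨hq⟩
  obtain ⟨g, hg⟩ : ∃ g : Polynomial (ZMod q), g = f.map (Int.castRingHom (ZMod q)) := ⟨_, rfl⟩
  have hev : ∀ a : ℤ, g.eval ((a : ℤ) : ZMod q) = ((f.eval a : ℤ) : ZMod q) := by
    intro a
    rw [hg, Polynomial.eval_intCast_map]
    simp
  have hg0 : g ≠ 0 := by
    intro h0
    obtain ⟨n, hn⟩ := h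
    apply hn
    have h1 := hev n
    rw [h0, Polynomial.eval_zero] at h1
    exact (ZMod.intCast_zmod_eq_zero_iff_dvd _ _).1 h1.symm
  have h1 : (Zf f q).card ≤ g.roots.toFinset.card := by
    apply card_le_card_of_injOn (f := fun u : ℕ => ((u : ℤ) : ZMod q))
    · intro u hu
      rw [mem_coe] at hu
      unfold Zf at hu
      rw [mem_filter] at hu
      rw [mem_coe, Multiset.mem_toFinset, Polynomial.mem_roots hg0]
      show g.eval _ = 0
      rw [hev]
      exact (ZMod.intCast_zmod_eq_zero_iff_dvd _ _).2 hu.2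
    · intro u hu v hv huv
      rw [mem_coe] at hu hv
      have h2 := Zf_lt f q u hu
      have h3 := Zf_lt f q v hv
      have h4 : ((u : ℤ) : ZMod q) = ((v : ℤ) : ZMod q) := huv
      rw [ZMod.intCast_eq_intCast_iff] at h4
      have h5 : u ≡ v [MOD q] := Int.natCast_modEq_iff.1 h4
      have h6 : u % q = v % q := h5
      rwa [Nat.mod_eq_of_lt h2, Nat.mod_eq_of_lt h3] at h6
  refine h1.trans ((Multiset.toFinset_card_le _).trans ((Polynomial.card_roots' g).trans ?_))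
  rw [hg]
  exact Polynomial.natDegree_map_le

/-- the classes `u` modulo `q` with `q ∣ G u` and `q ∤ P u` -/
def Rg (P G : ℤ[X]) (q : ℕ) : Finset ℕ := Zf G q \ Zf P q

/-- the proportion of the classes with `q ∣ G u` among those with `q ∤ P u` -/
noncomputable def rh (P G : ℤ[X]) (q : ℕ) : ℝ := ((Rg P G q).card : ℝ) / ((q : ℝ) - (Zf P q).card)

/-- the mean value -/
noncomputable def mnP (f : ℕ → ℝ) (P G : ℤ[X]) (x : ℕ) : ℝ := ∑ q ∈ Pr 0 x, f q * rh P G q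

theorem rh_bd {P : ℤ[X]} (hP : NF P) (G : ℤ[X]) {q : ℕ} (hq : q.Prime) : 0 ≤ rh P G q ∧ rh P G q ≤ 1 := by
  unfold rh
  have h1 := Zf_card_lt hP hq
  have h2 : (0 : ℝ) < (q : ℝ) - (Zf P q).card := by
    rw [sub_pos]
    exact_mod_cast h1
  refine ⟨by positivity, ?_⟩
  rw [div_le_one h2, le_sub_iff_add_le]
  have h3 : (Rg P G q).card + (Zf P q).card ≤ q := by
    rw [← card_union_of_disjoint (by unfold Rg; exact sdiff_disjoint)]
    refine (card_le_card ?_).trans (le_of_eq (card_range q))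
    intro u hu
    rw [mem_range]
    rw [mem_union] at hu
    rcases hu with hu | hu
    · unfold Rg at hu
      exact Zf_lt G q u (Finset.mem_sdiff.1 hu).1
    · exact Zf_lt P q u hu
  exact_mod_cast h3

/-- the primes dividing all values -/
theorem rh_fixed {P : ℤ[X]} (hP : NF P) {G : ℤ[X]} {q : ℕ} (hq : q.Prime) (h : ∀ n : ℤ, (q : ℤ) ∣ G.eval n) :
    rh P G q = 1 := by
  unfold rh
  have h1 := Zf_card_lt hP hq
  have h2 : (0 : ℝ) < (q : ℝ) - (Zf P q).card := by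
    rw [sub_pos]
    exact_mod_cast h1
  rw [div_eq_one_iff_eq h2.ne']
  have h3 : Zf G q = range q := by
    unfold Zf
    apply filter_true_of_mem
    intro u _
    exact h u
  have h4 : Zf P q ⊆ range q := fun u hu => mem_range.2 (Zf_lt P q u hu)
  unfold Rg
  rw [h3, card_sdiff_of_subset h4, card_range, Nat.cast_sub h1.le]

open Classical in
/-- **the prime factors of the values of polynomials** -/
theorem polyTK (r B u A : ℕ) (hu : 1 ≤ u) {θ ε : ℝ} (hθ : 0 < θ) (hε : 0 < ε) : ∃ K : ℝ, 0 < K ∧ ∃ x₀ : ℕ,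
    ∀ x : ℕ, x₀ ≤ x → ∀ P G : ℤ[X], P.natDegree ≤ r → NF P → G.natDegree ≤ r → G ≠ 0 →
    ∀ y X : ℕ, (x : ℝ) ^ θ ≤ X → y + X ≤ x ^ A → (∀ n ∈ Ioc y (y + X), (G.eval (n : ℤ)).natAbs ≤ x ^ B) →
    ∀ f : ℕ → ℝ, (∀ q, |f q| ≤ 1) → ∀ S : Finset ℕ, S ⊆ Ioc y (y + X) →
    (∀ n ∈ S, ∀ q : ℕ, q.Prime → (q : ℝ) ≤ (x : ℝ) ^ (1 / (u : ℝ)) → ¬ (q : ℤ) ∣ P.eval (n : ℤ)) →
    ((S.filter (fun n : ℕ => G.eval (n : ℤ) ≠ 0 ∧
      K * √(Real.log (Real.log x)) < |om f (G.eval (n : ℤ)) - mnP f P G x|)).card : ℝ) ≤ ε * (X * VV (Zf P) 0 x) := by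
  obtain ⟨z0, N, hN, hmain⟩ := mainG r
  obtain ⟨CM, hCM⟩ := Pool.Agent.Helper256.KM.mertens_inv
  have hCM0 : 0 ≤ CM := (abs_nonneg _).trans (hCM 3 le_rfl)
  obtain ⟨z1, hz1⟩ : ∃ z1 : ℕ, z1 = max z0 (2 * r + 2) := ⟨_, rfl⟩
  have hz01 : z0 ≤ z1 := by omega
  have hz12 : 2 * r + 2 ≤ z1 := by omega
  -- the number `v`
  obtain ⟨v, hv⟩ : ∃ v : ℕ, v = max u ⌈(N : ℝ) / θ⌉₊ + 1 := ⟨_, rfl⟩
  have hv1 : 1 ≤ v := by omega
  have hvu : u ≤ v := by
    have := le_max_left u ⌈(N : ℝ) / θ⌉₊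
    omega
  have hvN : (N : ℝ) / θ ≤ v := by
    refine (Nat.le_ceil _).trans ?_
    have := le_max_right u ⌈(N : ℝ) / θ⌉₊
    exact_mod_cast (by omega : ⌈(N : ℝ) / θ⌉₊ ≤ v)
  have hv0 : (0 : ℝ) < v := by exact_mod_cast hv1
  obtain ⟨H, hH⟩ : ∃ H : ℝ, H = Real.log (2 * v) + 2 * CM := ⟨_, rfl⟩
  have hH0 : 0 ≤ H := by
    rw [hH]
    have h1 : (1 : ℝ) ≤ v := by exact_mod_cast hv1
    have h2 : 0 ≤ Real.log (2 * v) := Real.log_nonneg (by linarith)
    linarith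
  obtain ⟨δ, hδ⟩ : ∃ δ : ℝ, δ = ε / (((z0 + 1 : ℕ) : ℝ) ^ (z0 + 1) * Real.exp (2 * r * H)) := ⟨_, rfl⟩
  have hδ0 : 0 < δ := by rw [hδ]; positivity
  obtain ⟨K, hK, J0, hJ0⟩ := hmain δ hδ0
  -- the eventual conditions
  obtain ⟨W, hW⟩ : ∃ W : ℝ, W = (z1 + 2 * v * B) + (z1 + (2 * r * H + 2 * v * B)) + 2 * (r : ℝ) ^ 2 := ⟨_, rfl⟩
  have hev : ∀ᶠ x : ℕ in atTop, ((2 ^ 2 ^ J0 : ℕ) : ℝ) ≤ (x : ℝ) ^ (1 / (v : ℝ)) ∧
      W ≤ √(Real.log (Real.log x)) ∧ 1 ≤ Real.log x ∧ (((z1 + 3) ^ 2 : ℕ) : ℝ) ≤ (x : ℝ) ^ (1 / (v : ℝ)) := by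
    have t1 : Tendsto (fun x : ℕ => (x : ℝ) ^ (1 / (v : ℝ))) atTop atTop :=
      (tendsto_rpow_atTop (show (0 : ℝ) < 1 / v by positivity)).comp tendsto_natCast_atTop_atTop
    have t2 : Tendsto (fun x : ℕ => Real.log x) atTop atTop :=
      Real.tendsto_log_atTop.comp tendsto_natCast_atTop_atTop
    have t3 : Tendsto (fun x : ℕ => √(Real.log (Real.log x))) atTop atTop :=
      Real.tendsto_sqrt_atTop.comp (Real.tendsto_log_atTop.comp t2)
    filter_upwards [t1.eventually_ge_atTop ((2 ^ 2 ^ J0 : ℕ) : ℝ), t3.eventually_ge_atTop W,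
      t2.eventually_ge_atTop (1 : ℝ), t1.eventually_ge_atTop (((z1 + 3) ^ 2 : ℕ) : ℝ)] with x h1 h2 h3 h4
    exact ⟨h1, h2, h3, h4⟩
  obtain ⟨x₃, hx₃⟩ := eventually_atTop.1 hev
  refine ⟨K + 1, by positivity, max x₃ 3, ?_⟩
  intro x hx P G hPr hP hGr hG0 y X hX hyX hGB f hf S hS hSP
  have hx3 : x₃ ≤ x := (le_max_left _ _).trans hx
  have hx4 : 3 ≤ x := (le_max_right _ _).trans hx
  obtain ⟨e1, e2, e3, e4⟩ := hx₃ x hx3
  obtain ⟨J, hJJ, hzY, hYz⟩ := ex_J e1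
  obtain ⟨z, hz⟩ : ∃ z : ℕ, z = 2 ^ 2 ^ J := ⟨_, rfl⟩
  rw [← hz] at hzY hYz
  have hxr : (1 : ℝ) ≤ x := by exact_mod_cast (show 1 ≤ x by omega)
  have hx0 : (0 : ℝ) < x := by linarith
  have hlx : 0 < Real.log x := by linarith
  have hzz1 : z1 + 3 ≤ z := by
    have h1 : (((z1 + 3 : ℕ) : ℝ)) ^ 2 < (z : ℝ) ^ 2 := by
      refine lt_of_le_of_lt ?_ hYz
      exact_mod_cast e4
    have h2 := lt_of_pow_lt_pow_left₀ 2 (Nat.cast_nonneg z) h1
    exact_mod_cast h2.le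
  have hz3 : 3 ≤ z := by omega
  have hz0' : (0 : ℝ) < z := by exact_mod_cast (show 0 < z by omega)
  have hlz : 0 < Real.log z := Real.log_pos (by exact_mod_cast (show 1 < z by omega))
  have hzx : (z : ℝ) ≤ x := by
    refine hzY.trans ?_
    calc (x : ℝ) ^ (1 / (v : ℝ)) ≤ (x : ℝ) ^ (1 : ℝ) := by
          apply Real.rpow_le_rpow_of_exponent_le hxr
          rw [div_le_one hv0]
          exact_mod_cast hv1
      _ = x := Real.rpow_one _
  have hzx' : z ≤ x := by exact_mod_cast hzx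
  -- `log x ≤ 2 v log z`
  have hlxz : Real.log x ≤ 2 * v * Real.log z := by
    have h1 := Real.log_le_log (Real.rpow_pos_of_pos hx0 _) hYz.le
    rw [Real.log_rpow hx0, Real.log_pow] at h1
    push_cast at h1
    have h2 : Real.log x = v * (1 / v * Real.log x) := by field_simp
    rw [h2]
    calc (v : ℝ) * (1 / v * Real.log x) ≤ v * (2 * Real.log z) := mul_le_mul_of_nonneg_left h1 hv0.le
      _ = 2 * v * Real.log z := by ring
  have hXN : (2 ^ 2 ^ J) ^ N ≤ X := by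
    rw [← hz]
    have h1 : ((z : ℝ)) ^ N ≤ X := by
      refine le_trans ?_ hX
      calc (z : ℝ) ^ N ≤ ((x : ℝ) ^ (1 / (v : ℝ))) ^ N := pow_le_pow_left₀ hz0'.le hzY N
        _ = (x : ℝ) ^ (1 / (v : ℝ) * N) := by rw [← Real.rpow_mul_natCast hx0.le]
        _ ≤ (x : ℝ) ^ θ := by
            apply Real.rpow_le_rpow_of_exponent_le hxr
            rw [div_le_iff₀ hθ] at hvN
            rw [one_div, inv_mul_le_iff₀ hv0]
            exact hvN
    exact_mod_cast h1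
  have hrough : ∀ n ∈ S, ∀ q : ℕ, q.Prime → q ≤ z → ¬ (q : ℤ) ∣ P.eval (n : ℤ) := by
    intro n hn q hq hqz
    apply hSP n hn q hq
    have h1 : (q : ℝ) ≤ z := by exact_mod_cast hqz
    refine h1.trans (hzY.trans ?_)
    apply Real.rpow_le_rpow_of_exponent_le hxr
    apply one_div_le_one_div_of_le (by exact_mod_cast hu)
    exact_mod_cast hvu
  -- the classes
  obtain ⟨Q, hQ⟩ : ∃ Q : Finset ℕ, Q = (Pr z1 z).filter (fun q : ℕ => ∃ n : ℤ, ¬ (q : ℤ) ∣ G.eval n) := ⟨_, rfl⟩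
  have hPc : ∀ p : ℕ, p.Prime → (Zf P p).card ≤ r ∧ ∀ c ∈ Zf P p, c < p :=
    fun p hp => ⟨(Zf_card_le hP hp).trans hPr, Zf_lt P p⟩
  have hroQ : ∀ q ∈ Q, (Rg P G q).card ≤ r ∧ (∀ c ∈ Rg P G q, c < q) ∧ Disjoint (Rg P G q) (Zf P q) := by
    intro q hq
    rw [hQ, mem_filter] at hq
    have hqp := Pr_prime hq.1
    refine ⟨?_, fun c hc => ?_, ?_⟩
    · refine le_trans (card_le_card ?_) ((Zf_card_le' hqp hq.2).trans hGr)
      unfold Rg
      exact sdiff_subset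
    · unfold Rg at hc
      exact Zf_lt G q c (Finset.mem_sdiff.1 hc).1
    · unfold Rg
      exact sdiff_disjoint
  have hdat1 : DatG r z1 z (Zf P) (Rg P G) Q := ⟨hPc, by rw [hQ]; exact filter_subset _ _, hroQ⟩
  have hdat : DatG r z0 (2 ^ 2 ^ J) (Zf P) (Rg P G) Q := by
    refine ⟨hPc, ?_, hroQ⟩
    rw [← hz]
    intro q hq
    have h1 := Pr_mem.1 (hdat1.sub hq)
    rw [Pr_mem]
    exact ⟨⟨by omega, h1.1.2⟩, h1.2⟩
  have hm := hJ0 J hJJ X hXN (Zf P) (Rg P G) Q hdat f hf y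
  rw [← hz] at hm
  -- the sums over the primes above `z`
  have hsumz : ∑ q ∈ Pr z x, 1 / (q : ℝ) ≤ H := by
    have h5 := Pool.Agent.Y79.HS.sum_pr hCM hz3 hzx'
    have h6 : Real.log (Real.log x) ≤ Real.log (2 * v) + Real.log (Real.log z) := by
      rw [← Real.log_mul (by positivity) hlz.ne']
      exact Real.log_le_log hlx hlxz
    rw [hH]
    linarith
  -- the product
  have hVnn : 0 ≤ VV (Zf P) 0 x := prod_nonneg fun p hp => by
    have h1 := Zf_card_lt hP (Pr_prime hp)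
    rw [sub_nonneg, div_le_one (by exact_mod_cast (Pr_prime hp).pos)]
    exact_mod_cast h1.le
  have hVb : VV (Zf P) z0 z ≤ ((z0 + 1 : ℕ) : ℝ) ^ (z0 + 1) * (Real.exp (2 * r * H) * VV (Zf P) 0 x) := by
    have h1 : Real.exp (-(2 * r * H)) ≤ VV (Zf P) z x := by
      refine le_trans (Real.exp_le_exp.2 (neg_le_neg ?_)) (V_pos (fun p hp => (hPc p hp).1) (by omega))
      exact mul_le_mul_of_nonneg_left hsumz (by positivity)
    have h2 : VV (Zf P) 0 z * VV (Zf P) z x = VV (Zf P) 0 x := VV_split (Zf P) (Nat.zero_le z) hzx'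
    have h20 : 0 ≤ VV (Zf P) 0 z := prod_nonneg fun p hp => by
      have h1 := Zf_card_lt hP (Pr_prime hp)
      rw [sub_nonneg, div_le_one (by exact_mod_cast (Pr_prime hp).pos)]
      exact_mod_cast h1.le
    have h3 : VV (Zf P) 0 z ≤ Real.exp (2 * r * H) * VV (Zf P) 0 x := by
      rw [← h2]
      have h4 : 1 ≤ Real.exp (2 * r * H) * VV (Zf P) z x := by
        calc (1 : ℝ) = Real.exp (2 * r * H) * Real.exp (-(2 * r * H)) := by
              rw [← Real.exp_add, add_neg_cancel, Real.exp_zero]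
          _ ≤ _ := mul_le_mul_of_nonneg_left h1 (Real.exp_pos _).le
      calc VV (Zf P) 0 z ≤ VV (Zf P) 0 z * (Real.exp (2 * r * H) * VV (Zf P) z x) := le_mul_of_one_le_right h20 h4
        _ = _ := by ring
    have h7 := V_mid (Z := Zf P) (z0 := z0) (fun p hp => Zf_card_lt hP hp) (w := z)
    have h8 : (z0 : ℝ) ^ z0 ≤ ((z0 + 1 : ℕ) : ℝ) ^ (z0 + 1) := by
      calc (z0 : ℝ) ^ z0 ≤ ((z0 + 1 : ℕ) : ℝ) ^ z0 := by
            apply pow_le_pow_left₀ (Nat.cast_nonneg _)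
            exact_mod_cast Nat.le_succ _
        _ ≤ _ := by
            apply pow_le_pow_right₀ _ (Nat.le_succ _)
            exact_mod_cast (by omega : 1 ≤ z0 + 1)
    have h10 : 0 ≤ Real.exp (2 * r * H) * VV (Zf P) 0 x := by positivity
    calc VV (Zf P) z0 z ≤ (z0 : ℝ) ^ z0 * VV (Zf P) 0 z := h7
      _ ≤ (z0 : ℝ) ^ z0 * (Real.exp (2 * r * H) * VV (Zf P) 0 x) := mul_le_mul_of_nonneg_left h3 (by positivity)
      _ ≤ _ := mul_le_mul_of_nonneg_right h8 h10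
  -- the deviations
  have hdev : ∀ n ∈ S, G.eval (n : ℤ) ≠ 0 →
      |(om f (G.eval (n : ℤ)) - mnP f P G x) - (∑ q ∈ hitG (Rg P G) Q n, f q -
        ∑ q ∈ Q, f q * (((Rg P G q).card : ℝ) / (q : ℝ)))| ≤ √(Real.log (Real.log x)) := by
    intro n hn hGn
    obtain ⟨F, hF⟩ : ∃ F : Finset ℕ, F = (G.eval (n : ℤ)).natAbs.primeFactors := ⟨_, rfl⟩
    have hGn0 : (G.eval (n : ℤ)).natAbs ≠ 0 := Int.natAbs_ne_zero.2 hGn
    have hmF : ∀ q : ℕ, q ∈ F ↔ q.Prime ∧ (q : ℤ) ∣ G.eval (n : ℤ) := by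
      intro q
      rw [hF, Nat.mem_primeFactors, Int.natCast_dvd]
      tauto
    obtain ⟨Q', hQ'⟩ : ∃ Q' : Finset ℕ, Q' = (Pr z1 z).filter (fun q : ℕ => ¬ ∃ n : ℤ, ¬ (q : ℤ) ∣ G.eval n) := ⟨_, rfl⟩
    have hfx : ∀ q : ℕ, (¬ ∃ n : ℤ, ¬ (q : ℤ) ∣ G.eval n) → ∀ m : ℤ, (q : ℤ) ∣ G.eval m := by
      intro q h m
      by_contra h2
      exact h ⟨m, h2⟩
    -- the large prime factors
    have hlarge : ((F.filter (fun q => z < q)).card : ℝ) ≤ 2 * v * B := by
      rw [hF]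
      apply large_factors hGn (by omega)
      have h8 : (0 : ℝ) < (((G.eval (n : ℤ)).natAbs : ℕ) : ℝ) := by exact_mod_cast Nat.pos_of_ne_zero hGn0
      have h7 : (((G.eval (n : ℤ)).natAbs : ℕ) : ℝ) ≤ (x : ℝ) ^ B := by exact_mod_cast hGB n (hS hn)
      have h9 := Real.log_le_log h8 h7
      rw [Real.log_pow] at h9
      have h10 : (B : ℝ) * Real.log x ≤ B * (2 * v * Real.log z) :=
        mul_le_mul_of_nonneg_left hlxz (by positivity)
      linarith
    have h1 : F.filter (fun q => z1 < q ∧ q ≤ z) = hitG (Rg P G) Q n ∪ Q' := by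
      ext q
      rw [mem_filter, mem_union, mem_hitG, hQ, hQ', mem_filter, mem_filter, hmF, Pr_mem]
      constructor
      · rintro ⟨⟨h1, h2⟩, h3, h4⟩
        by_cases h5 : ∃ n : ℤ, ¬ (q : ℤ) ∣ G.eval n
        · left
          refine ⟨⟨⟨⟨h3, h4⟩, h1⟩, h5⟩, ?_⟩
          unfold Rg
          rw [Finset.mem_sdiff, mem_Zf_mod h1.pos, mem_Zf_mod h1.pos]
          exact ⟨h2, hrough n hn q h1 h4⟩
        · right
          exact ⟨⟨⟨h3, h4⟩, h1⟩, h5⟩
      · rintro (⟨⟨⟨⟨h3, h4⟩, h1⟩, _⟩, h6⟩ | ⟨⟨⟨h3, h4⟩, h1⟩, h5⟩)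
        · unfold Rg at h6
          rw [Finset.mem_sdiff, mem_Zf_mod h1.pos] at h6
          exact ⟨⟨h1, h6.1⟩, h3, h4⟩
        · exact ⟨⟨h1, hfx q h5 _⟩, h3, h4⟩
    have hdisj : Disjoint (hitG (Rg P G) Q n) Q' := by
      rw [disjoint_left]
      intro q hq hq'
      have h2 := hitG_sub hq
      rw [hQ, mem_filter] at h2
      rw [hQ', mem_filter] at hq'
      exact hq'.2 h2.2
    have h2 : om f (G.eval (n : ℤ)) = ∑ q ∈ hitG (Rg P G) Q n, f q + ∑ q ∈ Q', f q +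
        ∑ q ∈ F.filter (fun q => ¬ (z1 < q ∧ q ≤ z)), f q := by
      rw [← sum_union hdisj, ← h1]
      unfold om
      rw [← hF, ← sum_filter_add_sum_filter_not F (fun q => z1 < q ∧ q ≤ z)]
    have h3 : |∑ q ∈ F.filter (fun q => ¬ (z1 < q ∧ q ≤ z)), f q| ≤ z1 + 2 * v * B := by
      have h3 : |∑ q ∈ F.filter (fun q => ¬ (z1 < q ∧ q ≤ z)), f q| ≤
          ((F.filter (fun q => ¬ (z1 < q ∧ q ≤ z))).card : ℝ) := by
        refine (abs_sum_le_sum_abs _ _).trans ?_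
        refine (sum_le_sum fun q _ => hf q).trans (le_of_eq ?_)
        rw [sum_const, nsmul_eq_mul, mul_one]
      refine h3.trans ?_
      have h4 : F.filter (fun q => ¬ (z1 < q ∧ q ≤ z)) ⊆ Icc 1 z1 ∪ F.filter (fun q => z < q) := by
        intro q hq
        rw [mem_filter] at hq
        rw [mem_union, mem_Icc, mem_filter]
        have h5 := ((hmF q).1 hq.1).1.one_lt
        by_cases h6 : z1 < q
        · right
          refine ⟨hq.1, ?_⟩
          by_contra h7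
          exact hq.2 ⟨h6, not_lt.1 h7⟩
        · left
          omega
      refine (Nat.cast_le.2 ((card_le_card h4).trans (card_union_le _ _))).trans ?_
      rw [Nat.cast_add, Nat.card_Icc, Nat.add_sub_cancel]
      exact add_le_add le_rfl hlarge
    -- the mean value
    have habs : ∀ q : ℕ, q.Prime → |f q * rh P G q| ≤ rh P G q := by
      intro q hq
      have h4 := rh_bd hP G hq
      rw [abs_mul, abs_of_nonneg h4.1]
      calc |f q| * rh P G q ≤ 1 * rh P G q := mul_le_mul_of_nonneg_right (hf q) h4.1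
        _ = _ := one_mul _
    have h4 : mnP f P G x = ∑ q ∈ Q, f q * rh P G q + ∑ q ∈ Q', f q + (∑ q ∈ Pr 0 z1, f q * rh P G q +
        ∑ q ∈ Pr z x, f q * rh P G q) := by
      have h5 : Pr 0 x = (Q ∪ Q') ∪ (Pr 0 z1 ∪ Pr z x) := by
        have h6 : Q ∪ Q' = Pr z1 z := by
          rw [hQ, hQ']
          exact filter_union_filter_not_eq _ _
        rw [h6]
        ext q
        rw [mem_union, mem_union, Pr_mem, Pr_mem, Pr_mem, Pr_mem]
        constructor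
        · rintro ⟨⟨h1, h2⟩, h3⟩
          by_cases h4 : q ≤ z1
          · right; left
            exact ⟨⟨h1, h4⟩, h3⟩
          by_cases h5 : q ≤ z
          · left
            exact ⟨⟨by omega, h5⟩, h3⟩
          · right; right
            exact ⟨⟨by omega, h2⟩, h3⟩
        · rintro (⟨⟨h1, h2⟩, h3⟩ | ⟨⟨h1, h2⟩, h3⟩ | ⟨⟨h1, h2⟩, h3⟩)
          · exact ⟨⟨h3.pos, by omega⟩, h3⟩
          · exact ⟨⟨h3.pos, by omega⟩, h3⟩
          · exact ⟨⟨h3.pos, h2⟩, h3⟩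
      have h6 : Disjoint Q Q' := by
        rw [hQ, hQ']
        exact disjoint_filter_filter_not _ _ _
      have h7 : Disjoint (Pr 0 z1) (Pr z x) := by
        rw [disjoint_left]
        intro q h8 h9
        have h10 := Pr_mem.1 h8
        have h11 := Pr_mem.1 h9
        omega
      have h8 : Disjoint (Q ∪ Q') (Pr 0 z1 ∪ Pr z x) := by
        rw [disjoint_left]
        intro q h8 h9
        have h10 : q ∈ Pr z1 z := by
          rw [hQ, hQ'] at h8
          rcases mem_union.1 h8 with h | h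
          · exact (mem_filter.1 h).1
          · exact (mem_filter.1 h).1
        have h11 := Pr_mem.1 h10
        rw [mem_union, Pr_mem, Pr_mem] at h9
        rcases h9 with h | h <;> omega
      unfold mnP
      rw [h5, sum_union h8, sum_union h7, sum_union h6]
      congr 1
      congr 1
      apply sum_congr rfl
      intro q hq
      rw [hQ', mem_filter] at hq
      rw [rh_fixed hP (Pr_prime hq.1) (hfx q hq.2), mul_one]
    have h5 : |∑ q ∈ Pr 0 z1, f q * rh P G q| ≤ z1 := by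
      refine (abs_sum_le_sum_abs _ _).trans ?_
      have h6 : ∑ q ∈ Pr 0 z1, |f q * rh P G q| ≤ ∑ q ∈ Pr 0 z1, (1 : ℝ) :=
        sum_le_sum fun q hq => (habs q (Pr_prime hq)).trans (rh_bd hP G (Pr_prime hq)).2
      refine h6.trans ?_
      rw [sum_const, nsmul_eq_mul, mul_one]
      have h7 : (Pr 0 z1).card ≤ z1 := (card_filter_le _ _).trans (by rw [Nat.card_Ioc]; omega)
      exact_mod_cast h7
    have hrq : ∀ q : ℕ, q.Prime → z1 < q → (∃ n : ℤ, ¬ (q : ℤ) ∣ G.eval n) → rh P G q ≤ 2 * r * (1 / q) := by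
      intro q hq hqz hex
      have hd : DatG r z1 q (Zf P) (Rg P G) {q} := by
        refine ⟨hPc, ?_, ?_⟩
        · intro p hp
          rw [mem_singleton] at hp
          rw [hp, Pr_mem]
          exact ⟨⟨hqz, le_rfl⟩, hq⟩
        · intro p hp
          rw [mem_singleton] at hp
          rw [hp]
          refine ⟨?_, fun c hc => ?_, ?_⟩
          · refine le_trans (card_le_card ?_) ((Zf_card_le' hq hex).trans hGr)
            unfold Rg
            exact sdiff_subset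
          · unfold Rg at hc
            exact Zf_lt G q c (Finset.mem_sdiff.1 hc).1
          · unfold Rg
            exact sdiff_disjoint
      exact (gG_bd hd hz12 q (mem_singleton_self q)).2.2.1
    have h6 : |∑ q ∈ Pr z x, f q * rh P G q| ≤ 2 * r * H + 2 * v * B := by
      refine (abs_sum_le_sum_abs _ _).trans ?_
      have h7 : ∑ q ∈ Pr z x, |f q * rh P G q| ≤ ∑ q ∈ Pr z x, (2 * r * (1 / (q : ℝ)) +
          if ∃ n : ℤ, ¬ (q : ℤ) ∣ G.eval n then 0 else 1) := by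
        apply sum_le_sum
        intro q hq
        have h8 := Pr_mem.1 hq
        refine (habs q h8.2).trans ?_
        split_ifs with h9
        · rw [add_zero]
          exact hrq q h8.2 (by omega) h9
        · have h10 : (0 : ℝ) ≤ 2 * r * (1 / (q : ℝ)) := by positivity
          linarith [(rh_bd hP G h8.2).2]
      refine h7.trans ?_
      rw [sum_add_distrib, ← mul_sum]
      apply add_le_add
      · exact mul_le_mul_of_nonneg_left hsumz (by positivity)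
      · have h8 : ∑ q ∈ Pr z x, (if ∃ n : ℤ, ¬ (q : ℤ) ∣ G.eval n then (0 : ℝ) else 1) =
            (((Pr z x).filter (fun q : ℕ => ¬ ∃ n : ℤ, ¬ (q : ℤ) ∣ G.eval n)).card : ℝ) := by
          rw [card_filter]
          push_cast
          apply sum_congr rfl
          intro q _
          by_cases h9 : ∃ n : ℤ, ¬ (q : ℤ) ∣ G.eval n
          · rw [if_pos h9, if_neg (not_not.2 h9)]
          · rw [if_neg h9, if_pos h9]
        rw [h8]
        refine le_trans (Nat.cast_le.2 (card_le_card ?_)) hlarge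
        intro q hq
        rw [mem_filter] at hq ⊢
        have h9 := Pr_mem.1 hq.1
        rw [hmF]
        exact ⟨⟨h9.2, hfx q hq.2 _⟩, h9.1.1⟩
    have h7 : |∑ q ∈ Q, f q * rh P G q - ∑ q ∈ Q, f q * (((Rg P G q).card : ℝ) / (q : ℝ))| ≤ 2 * (r : ℝ) ^ 2 := by
      rw [← sum_sub_distrib]
      refine (abs_sum_le_sum_abs _ _).trans ?_
      have h8 : ∀ q ∈ Q, |f q * rh P G q - f q * (((Rg P G q).card : ℝ) / (q : ℝ))| ≤
          2 * (r : ℝ) ^ 2 * (1 / (q : ℝ) ^ 2) := by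
        intro q hq
        obtain ⟨_, _, _, h2, h3⟩ := gG_bd hdat1 hz12 q hq
        unfold rh
        rw [← mul_sub, abs_mul, abs_of_nonneg (sub_nonneg.2 h2)]
        calc |f q| * (((Rg P G q).card : ℝ) / ((q : ℝ) - (Zf P q).card) - ((Rg P G q).card : ℝ) / q) ≤
              1 * (((Rg P G q).card : ℝ) / ((q : ℝ) - (Zf P q).card) - ((Rg P G q).card : ℝ) / q) :=
              mul_le_mul_of_nonneg_right (hf q) (sub_nonneg.2 h2)
          _ ≤ _ := by rw [one_mul]; exact h3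
      refine (sum_le_sum h8).trans ?_
      rw [← mul_sum]
      have hsq : ∑ q ∈ Q, 1 / (q : ℝ) ^ 2 ≤ 1 := by
        have h1 := Pool.Agent.Y79.HS.sum_sq_le (s := z1) (z := z) (by omega)
        have h2 : ∑ q ∈ Q, 1 / (q : ℝ) ^ 2 ≤ ∑ p ∈ Pr z1 z, 1 / (p : ℝ) ^ 2 :=
          sum_le_sum_of_subset_of_nonneg hdat1.sub fun q _ _ => by positivity
        have h3 : 1 / (z1 : ℝ) ≤ 1 := by
          have : (1 : ℝ) ≤ z1 := by exact_mod_cast (by omega : 1 ≤ z1)
          rw [div_le_one (by linarith)]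
          exact this
        linarith
      calc 2 * (r : ℝ) ^ 2 * ∑ q ∈ Q, 1 / (q : ℝ) ^ 2 ≤ 2 * (r : ℝ) ^ 2 * 1 :=
            mul_le_mul_of_nonneg_left hsq (by positivity)
        _ = 2 * (r : ℝ) ^ 2 := mul_one _
    have e : (om f (G.eval (n : ℤ)) - mnP f P G x) - (∑ q ∈ hitG (Rg P G) Q n, f q -
        ∑ q ∈ Q, f q * (((Rg P G q).card : ℝ) / (q : ℝ))) =
        ∑ q ∈ F.filter (fun q => ¬ (z1 < q ∧ q ≤ z)), f q -
        (∑ q ∈ Pr 0 z1, f q * rh P G q + ∑ q ∈ Pr z x, f q * rh P G q) -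
        (∑ q ∈ Q, f q * rh P G q - ∑ q ∈ Q, f q * (((Rg P G q).card : ℝ) / (q : ℝ))) := by
      rw [h2, h4]
      ring
    rw [e]
    have g1 := abs_sub (∑ q ∈ F.filter (fun q => ¬ (z1 < q ∧ q ≤ z)), f q -
        (∑ q ∈ Pr 0 z1, f q * rh P G q + ∑ q ∈ Pr z x, f q * rh P G q))
        (∑ q ∈ Q, f q * rh P G q - ∑ q ∈ Q, f q * (((Rg P G q).card : ℝ) / (q : ℝ)))
    have g2 := abs_sub (∑ q ∈ F.filter (fun q => ¬ (z1 < q ∧ q ≤ z)), f q)
        (∑ q ∈ Pr 0 z1, f q * rh P G q + ∑ q ∈ Pr z x, f q * rh P G q)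
    have g3 := abs_add_le (∑ q ∈ Pr 0 z1, f q * rh P G q) (∑ q ∈ Pr z x, f q * rh P G q)
    rw [hW] at e2
    linarith
  have hsub : S.filter (fun n : ℕ => G.eval (n : ℤ) ≠ 0 ∧
      (K + 1) * √(Real.log (Real.log x)) < |om f (G.eval (n : ℤ)) - mnP f P G x|) ⊆
      (Ioc y (y + X)).filter (fun n => Av (Zf P) z0 z n ∧ K * √(Real.log (Real.log z)) <
        |∑ q ∈ hitG (Rg P G) Q n, f q - ∑ q ∈ Q, f q * (((Rg P G q).card : ℝ) / (q : ℝ))|) := by
    intro n hn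
    rw [mem_filter] at hn
    obtain ⟨h1, h2, h3⟩ := hn
    rw [mem_filter]
    refine ⟨hS h1, ?_, ?_⟩
    · intro p hp hcon
      have hpp := Pr_mem.1 hp
      rw [mem_Zf_mod hpp.2.pos] at hcon
      exact hrough n h1 p hpp.2 hpp.1.2 hcon
    · have h5 := hdev n h1 h2
      have h6 : √(Real.log (Real.log z)) ≤ √(Real.log (Real.log x)) := by
        apply Real.sqrt_le_sqrt
        apply Real.log_le_log hlz
        exact Real.log_le_log hz0' hzx
      have h7 := mul_le_mul_of_nonneg_left h6 hK.le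
      have h8 := abs_sub_abs_le_abs_sub (om f (G.eval (n : ℤ)) - mnP f P G x)
        (∑ q ∈ hitG (Rg P G) Q n, f q - ∑ q ∈ Q, f q * (((Rg P G q).card : ℝ) / (q : ℝ)))
      linarith
  refine (Nat.cast_le.2 (card_le_card hsub)).trans (hm.trans ?_)
  have hX0 : (0 : ℝ) ≤ X := Nat.cast_nonneg _
  calc δ * (X * VV (Zf P) z0 z) ≤
        δ * (X * (((z0 + 1 : ℕ) : ℝ) ^ (z0 + 1) * (Real.exp (2 * r * H) * VV (Zf P) 0 x))) := by
        apply mul_le_mul_of_nonneg_left _ hδ0.le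
        exact mul_le_mul_of_nonneg_left hVb hX0
    _ = ε * (X * VV (Zf P) 0 x) := by
        rw [hδ]
        field_simp

end Pool.Agent.X26.AN
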