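import Pool.Agent.W93.AU1

/-!
# Shifts of random integers: the second moment over the shifts
-/

set_option autoImplicit false

namespace Pool.Agent.X26.AN

open Finset
open Pool.Agent.H807R2.Dav
open Pool.Agent.H373R2.T7
open Pool.Agent.W93.DG
open Pool.Agent.W93.RD
open Pool.Agent.W93.TD
open Pool.Agent.W93.AU

/-- the mean of `f (h + Y)`, modulo `M` -/
noncomputable def shf (f : ℕ → ℝ) (X M : ℕ) {ι : Type} (Ω : Finset ι) (p : ι → ℝ) (Y : ι → ℤ) (h : ℤ) : ℝ :=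
  ∑ ω ∈ Ω, p ω * ∑ n ∈ Icc 1 X, f n * (if (M : ℤ) ∣ (n : ℤ) - h - Y ω then 1 else 0)

/-- the characteristic function -/
noncomputable def chf (M : ℕ) {ι : Type} (Ω : Finset ι) (p : ι → ℝ) (Y : ι → ℤ) (t : ℕ) : ℂ :=
  ∑ ω ∈ Ω, ((p ω : ℝ) : ℂ) * ee ((Y ω : ℝ) * ((t : ℝ) / (M : ℝ)))

lemma shf_eq (f : ℕ → ℝ) (X M : ℕ) (hM : 1 ≤ M) {ι : Type} (Ω : Finset ι) (p : ι → ℝ) (Y : ι → ℤ) (h : ℤ) :
    (((M : ℝ) * shf f X M Ω p Y h : ℝ) : ℂ) =
      ∑ t ∈ range M, (FF f X M t * (starRingEnd ℂ) (chf M Ω p Y t)) * ee ((h : ℝ) * (((-(t : ℤ) : ℤ) : ℝ) / M)) := by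
  have h1 : ∀ t ∈ range M, (FF f X M t * (starRingEnd ℂ) (chf M Ω p Y t)) * ee ((h : ℝ) * (((-(t : ℤ) : ℤ) : ℝ) / M)) =
      ∑ ω ∈ Ω, ∑ n ∈ Icc 1 X, (((p ω * f n : ℝ)) : ℂ) * ee ((t : ℝ) * ((((n : ℤ) - h - Y ω : ℤ) : ℝ) / M)) := by
    intro t _
    unfold FF chf
    rw [map_sum, sum_mul_sum, sum_comm, sum_mul]
    apply sum_congr rfl
    intro ω _
    rw [sum_mul]
    apply sum_congr rfl
    intro n _
    rw [map_mul, conj_ee, Complex.conj_ofReal]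
    have e1 : ee ((t : ℝ) * ((((n : ℤ) - h - Y ω : ℤ) : ℝ) / M)) = ee ((n : ℝ) * ((t : ℝ) / M)) *
        ee (-((Y ω : ℝ) * ((t : ℝ) / M))) * ee ((h : ℝ) * (((-(t : ℤ) : ℤ) : ℝ) / M)) := by
      rw [← ee_add, ← ee_add]
      congr 1
      push_cast
      ring
    rw [e1]
    push_cast
    ring
  rw [sum_congr rfl h1, sum_comm]
  have h2 : ∀ ω ∈ Ω, ∑ t ∈ range M, ∑ n ∈ Icc 1 X, (((p ω * f n : ℝ)) : ℂ) * ee ((t : ℝ) * ((((n : ℤ) - h - Y ω : ℤ) : ℝ) / M)) =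
      (((M : ℝ) * (p ω * ∑ n ∈ Icc 1 X, f n * (if (M : ℤ) ∣ (n : ℤ) - h - Y ω then 1 else 0)) : ℝ) : ℂ) := by
    intro ω _
    rw [sum_comm]
    have h3 : ∀ n ∈ Icc 1 X, ∑ t ∈ range M, (((p ω * f n : ℝ)) : ℂ) * ee ((t : ℝ) * ((((n : ℤ) - h - Y ω : ℤ) : ℝ) / M)) =
        (((M : ℝ) * (p ω * (f n * (if (M : ℤ) ∣ (n : ℤ) - h - Y ω then 1 else 0))) : ℝ) : ℂ) := by
      intro n _
      rw [← mul_sum, orth M hM]
      split_ifs
      · push_cast; ring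
      · push_cast; ring
    rw [sum_congr rfl h3, ← Complex.ofReal_sum, ← mul_sum, ← mul_sum]
  rw [sum_congr rfl h2, ← Complex.ofReal_sum, ← mul_sum]
  rfl

/-- Parseval -/
lemma shf_pars (f : ℕ → ℝ) (X M : ℕ) (hM : 1 ≤ M) {ι : Type} (Ω : Finset ι) (p : ι → ℝ) (Y : ι → ℤ) :
    (M : ℝ) * ∑ h ∈ range M, shf f X M Ω p Y h ^ 2 = ∑ t ∈ range M, ‖FF f X M t‖ ^ 2 * ‖chf M Ω p Y t‖ ^ 2 := by
  have hM0 : (0 : ℝ) < M := by exact_mod_cast hM
  have h1 := sq_expand (range M) (fun t => FF f X M t * (starRingEnd ℂ) (chf M Ω p Y t)) (fun t => -(t : ℤ)) M hM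
  have h2 : ∀ h ∈ range M, ‖∑ t ∈ range M, (FF f X M t * (starRingEnd ℂ) (chf M Ω p Y t)) *
      ee ((h : ℝ) * (((-(t : ℤ) : ℤ) : ℝ) / M))‖ ^ 2 = (M : ℝ) ^ 2 * shf f X M Ω p Y h ^ 2 := by
    intro h _
    have := shf_eq f X M hM Ω p Y h
    rw [Int.cast_natCast] at this
    rw [← this, Complex.norm_real, Real.norm_eq_abs, sq_abs]
    ring
  rw [sum_congr rfl h2] at h1
  have h3 : ∀ i ∈ range M, ∑ j ∈ range M, (FF f X M i * (starRingEnd ℂ) (chf M Ω p Y i)) *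
      (starRingEnd ℂ) (FF f X M j * (starRingEnd ℂ) (chf M Ω p Y j)) * (if (M : ℤ) ∣ -(i : ℤ) - -(j : ℤ) then (M : ℂ) else 0) =
      (((M : ℝ) * (‖FF f X M i‖ ^ 2 * ‖chf M Ω p Y i‖ ^ 2) : ℝ) : ℂ) := by
    intro i hi
    rw [sum_eq_single i]
    · rw [if_pos (by simp), Complex.mul_conj', norm_mul, RCLike.norm_conj]
      push_cast
      ring
    · intro j hj hne
      rw [if_neg, mul_zero]
      intro hd
      rw [mem_range] at hi hj
      apply hne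
      have h5 := Int.eq_zero_of_abs_lt_dvd hd (by rw [abs_lt]; constructor <;> omega)
      omega
    · intro h; exact absurd hi h
  rw [sum_congr rfl h3] at h1
  have h4 : ∑ h ∈ range M, (M : ℝ) ^ 2 * shf f X M Ω p Y h ^ 2 = ∑ i ∈ range M, (M : ℝ) * (‖FF f X M i‖ ^ 2 * ‖chf M Ω p Y i‖ ^ 2) := by
    exact_mod_cast h1
  rw [← mul_sum, ← mul_sum] at h4
  have h5 : (M : ℝ) * ((M : ℝ) * ∑ h ∈ range M, shf f X M Ω p Y h ^ 2) =
      (M : ℝ) * ∑ t ∈ range M, ‖FF f X M t‖ ^ 2 * ‖chf M Ω p Y t‖ ^ 2 := by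
    rw [← h4]; ring
  exact mul_left_cancel₀ hM0.ne' h5

/-- the second moment over all shifts is small -/
theorem sh_sq (b F : ℕ) (hb : 2 ≤ b) (hF : 1 ≤ F) (U D : ℕ) : ∃ B : ℕ, ∀ Ez : ℕ, ∃ K₀ : ℕ, ∀ K : ℕ, K₀ ≤ K →
    ∀ z : ℕ, Real.log ((b ^ K : ℕ) : ℝ) ^ B ≤ z → (z : ℝ) ≤ Real.log ((b ^ K : ℕ) : ℝ) ^ Ez →
    ∀ (ι : Type) (Ω : Finset ι) (p : ι → ℝ) (Y : ι → ℤ), Law b F D (U + 6) K Ω p Y →
    ∑ h ∈ range (b ^ (K + 1)), shf (fun n => ArithmeticFunction.vonMangoldt n - lamz z n) (b ^ K) (b ^ (K + 1)) Ω p Y h ^ 2 ≤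
      ((b ^ K : ℕ) : ℝ) / (K : ℝ) ^ U := by
  classical
  have hbr : (2 : ℝ) ≤ b := by exact_mod_cast hb
  obtain ⟨R, hR, hbad⟩ := bad_sq b hb
  obtain ⟨A₁, B, hUA, hB⟩ := hbad F (max (2 * (U + 6)) (D * R))
  refine ⟨B, fun Ez => ?_⟩
  obtain ⟨k1, h1⟩ := hB Ez
  obtain ⟨N2, h2⟩ := G_sq Ez
  obtain ⟨k3, h3⟩ := hh_small b A₁ 4 hb
  refine ⟨k1 + N2 + k3 + 14 * b ^ 2 + 4, fun K hk z hz1 hz2 ι Ω p Yv hlaw => ?_⟩
  obtain ⟨X, hX⟩ : ∃ X, X = b ^ K := ⟨_, rfl⟩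
  obtain ⟨M, hM⟩ : ∃ M, M = b ^ (K + 1) := ⟨_, rfl⟩
  have hchar := hlaw.char
  rw [← hX] at hz1 hz2 ⊢
  rw [← hM] at hchar ⊢
  have hKX : K < X := by rw [hX]; exact Nat.lt_pow_self (by omega)
  have hXM : X ≤ M := by rw [hX, hM]; exact Nat.pow_le_pow_right (by omega) (by omega)
  have hX0 : (0 : ℝ) < X := by exact_mod_cast (by omega : 0 < X)
  have hM0 : (0 : ℝ) < M := by exact_mod_cast (by omega : 0 < M)
  obtain ⟨hL1, hL2⟩ := logX b K hb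
  rw [← hX] at hL1 hL2
  obtain ⟨L, hL⟩ : ∃ L, L = Real.log (X : ℝ) := ⟨_, rfl⟩
  rw [← hL] at hL1 hL2 hz1 hz2
  have hK4 : (4 : ℝ) ≤ K := by exact_mod_cast (by omega : 4 ≤ K)
  have hKb : 14 * (b : ℝ) ^ 2 + 4 ≤ K := by exact_mod_cast (by omega : 14 * b ^ 2 + 4 ≤ K)
  have hL0 : 0 < L := by linarith
  have hz : 1 ≤ z := by
    have : (1 : ℝ) ≤ z := (one_le_pow₀ (by linarith : 1 ≤ L)).trans hz1
    exact_mod_cast this
  obtain ⟨G, hG⟩ : ∃ G : ℕ → ℂ, G = FF (fun n => ArithmeticFunction.vonMangoldt n - lamz z n) X M := ⟨_, rfl⟩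
  have hG2 := h2 X (by omega) M hXM z hz (by rw [← hL]; exact hz2)
  rw [← hG, ← hL] at hG2
  have hpars := shf_pars (fun n => ArithmeticFunction.vonMangoldt n - lamz z n) X M (by omega) Ω p Yv
  rw [← hG] at hpars
  have hch1 : ∀ t, ‖chf M Ω p Yv t‖ ≤ 1 := by
    intro t
    unfold chf
    refine (norm_sum_le _ _).trans (le_trans ?_ hlaw.le_one)
    apply sum_le_sum
    intro ω hω
    rw [norm_mul, norm_ee, mul_one, Complex.norm_real, Real.norm_of_nonneg (hlaw.nonneg ω hω)]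
  have hK1 : (1 : ℝ) ≤ (K : ℝ) ^ (U + 6) := one_le_pow₀ (by linarith)
  -- nearly extremal frequencies
  have hb1 : ∑ t ∈ (range M).filter (fun t => Bad b R K (hh b A₁ K) (K / (16 * b)) ((F * t) % M)),
      ‖G t‖ ^ 2 * ‖chf M Ω p Yv t‖ ^ 2 ≤ M * X / (K : ℝ) ^ (2 * (U + 6)) := by
    have e1 := h1 K (by omega) z (by rw [← hX, ← hL]; exact hz1) (by rw [← hX, ← hL]; exact hz2) 0 F hF
        ((Nat.lt_pow_self (by omega : 1 < b)).le) ((range M).filter (fun t => Bad b R K (hh b A₁ K) (K / (16 * b)) ((F * t) % M))) (by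
          intro r' hr'
          rw [mem_filter, mem_range] at hr'
          rw [← hM, add_zero]
          exact hr')
    rw [← hX, ← hM, ← hG] at e1
    refine le_trans ?_ (e1.trans ?_)
    · apply sum_le_sum
      intro t _
      have := pow_le_one₀ (norm_nonneg _) (hch1 t) (n := 2)
      nlinarith [sq_nonneg ‖G t‖]
    · apply div_le_div_of_nonneg_left (by positivity) (by positivity)
      exact pow_le_pow_right₀ (by linarith) (le_max_left _ _)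
  -- the other frequencies
  have hb2 : ∑ t ∈ (range M).filter (fun t => ¬ Bad b R K (hh b A₁ K) (K / (16 * b)) ((F * t) % M)),
      ‖G t‖ ^ 2 * ‖chf M Ω p Yv t‖ ^ 2 ≤ (M * (14 * X * L ^ 2)) / (K : ℝ) ^ (2 * (U + 6)) := by
    have e1 : ∀ t ∈ (range M).filter (fun t => ¬ Bad b R K (hh b A₁ K) (K / (16 * b)) ((F * t) % M)),
        ‖G t‖ ^ 2 * ‖chf M Ω p Yv t‖ ^ 2 ≤ ‖G t‖ ^ 2 * (1 / (K : ℝ) ^ (2 * (U + 6))) := by
      intro t ht
      rw [mem_filter] at ht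
      apply mul_le_mul_of_nonneg_left _ (sq_nonneg _)
      have hnb := ht.2
      have hne : D * (Nat.log b K + 1) ≤ ne b 0 K ((F * t) % M) := by
        unfold Bad at hnb
        by_contra hcon
        push Not at hcon
        have h4 := h3 K (by omega)
        have hbound : ne b 0 K ((F * t) % M) * R ≤ 2 * hh b A₁ K := by
          have a1 : ne b 0 K ((F * t) % M) * R ≤ D * (Nat.log b K + 1) * R := Nat.mul_le_mul_right _ hcon.le
          refine a1.trans ?_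
          unfold hh
          have a2 : D * R ≤ A₁ := (le_max_right _ _).trans hUA
          calc D * (Nat.log b K + 1) * R = (D * R) * (Nat.log b K + 1) := by ring
            _ ≤ A₁ * (Nat.log b K + 1) := Nat.mul_le_mul_right _ a2
            _ ≤ 4 * (A₁ * (Nat.log b K + 1)) := by omega
            _ = 2 * (2 * A₁ * (Nat.log b K + 1)) := by ring
        have hm2 : 2 * (K / (16 * b) / 8) ≤ K := by
          have a1 : K / (16 * b) / 8 * 8 ≤ K / (16 * b) := Nat.div_mul_le_self _ _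
          have a2 : K / (16 * b) ≤ K := Nat.div_le_self _ _
          omega
        apply hnb
        refine ⟨?_, ?_, ?_⟩
        · have a1 := ne_window b (K - 1 - hh b A₁ K) (hh b A₁ K) 0 K ((F * t) % M) (by omega) (by omega)
          have a2 := Nat.mul_le_mul_right R a1
          omega
        · have a1 := ne_window b 1 (hh b A₁ K) 0 K ((F * t) % M) (by omega) (by omega)
          have a2 := Nat.mul_le_mul_right R a1
          omega
        · have a1 := ne_window b (K / (16 * b) / 8) (K - 2 * (K / (16 * b) / 8)) 0 K ((F * t) % M) (by omega) (by omega)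
          have a2 := Nat.mul_le_mul_right R a1
          omega
      have h5 := hchar t hne
      calc ‖chf M Ω p Yv t‖ ^ 2 ≤ (1 / (K : ℝ) ^ (U + 6)) ^ 2 := pow_le_pow_left₀ (norm_nonneg _) h5 2
        _ = 1 / (K : ℝ) ^ (2 * (U + 6)) := by rw [one_div_pow, ← pow_mul, mul_comm 2]
    refine (sum_le_sum e1).trans ?_
    rw [← sum_mul, mul_one_div]
    apply div_le_div_of_nonneg_right _ (by positivity)
    exact (sum_le_sum_of_subset_of_nonneg (filter_subset _ _) fun _ _ _ => sq_nonneg _).trans hG2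
  have hsum : (M : ℝ) * ∑ h ∈ range M, shf (fun n => ArithmeticFunction.vonMangoldt n - lamz z n) X M Ω p Yv h ^ 2 ≤
      M * (X / (K : ℝ) ^ U) := by
    rw [hpars, ← sum_filter_add_sum_filter_not (range M) (fun t => Bad b R K (hh b A₁ K) (K / (16 * b)) ((F * t) % M))]
    refine (add_le_add hb1 hb2).trans ?_
    rw [← add_div, show (M : ℝ) * (X / (K : ℝ) ^ U) = M * X / (K : ℝ) ^ U by ring, div_le_div_iff₀ (by positivity) (by positivity)]
    have e1 : L ^ 2 ≤ (b : ℝ) ^ 2 * (K : ℝ) ^ 2 := by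
      rw [← mul_pow]
      exact pow_le_pow_left₀ hL0.le hL2 2
    have e2 : 1 + 14 * L ^ 2 ≤ (K : ℝ) ^ 3 := by
      have e3 : 1 + 14 * L ^ 2 ≤ (1 + 14 * (b : ℝ) ^ 2) * (K : ℝ) ^ 2 := by nlinarith
      refine e3.trans ?_
      calc (1 + 14 * (b : ℝ) ^ 2) * (K : ℝ) ^ 2 ≤ K * (K : ℝ) ^ 2 :=
            mul_le_mul_of_nonneg_right (by linarith) (by positivity)
        _ = _ := by ring
    have e4 : (K : ℝ) ^ (2 * (U + 6)) = (K : ℝ) ^ U * ((K : ℝ) ^ 3 * (K : ℝ) ^ (U + 9)) := by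
      rw [← pow_add, ← pow_add]
      congr 1
      omega
    rw [e4]
    have e5 : (M * X + M * (14 * X * L ^ 2) : ℝ) = M * X * (1 + 14 * L ^ 2) := by ring
    rw [e5]
    have e6 : (1 : ℝ) ≤ (K : ℝ) ^ (U + 9) := one_le_pow₀ (by linarith)
    have e7 : (1 + 14 * L ^ 2) ≤ (K : ℝ) ^ 3 * (K : ℝ) ^ (U + 9) := e2.trans (le_mul_of_one_le_right (by positivity) e6)
    calc (M : ℝ) * X * (1 + 14 * L ^ 2) * (K : ℝ) ^ U ≤ M * X * ((K : ℝ) ^ 3 * (K : ℝ) ^ (U + 9)) * (K : ℝ) ^ U := by gcongr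
      _ = _ := by ring
  exact le_of_mul_le_mul_left hsum hM0

end Pool.Agent.X26.AN
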