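import Pool.Agent.X26.AN.ShA

/-!
# Shifts of random integers: almost all shifts
-/

set_option autoImplicit false

namespace Pool.Agent.X26.AN

open Finset
open Pool.Agent.H807R2.Dav
open Pool.Agent.H373R2.T7
open Pool.Agent.W93.DG
open Pool.Agent.W93.RD
open Pool.Agent.W93.TD
open Pool.Agent.W93.AU

lemma shf_mod (f : ℕ → ℝ) (X M : ℕ) {ι : Type} (Ω : Finset ι) (p : ι → ℝ) (Y : ι → ℤ) (h h' : ℤ)
    (hh : (M : ℤ) ∣ h - h') : shf f X M Ω p Y h = shf f X M Ω p Y h' := by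
  unfold shf
  apply sum_congr rfl
  intro ω _
  congr 1
  apply sum_congr rfl
  intro n _
  congr 1
  have h1 : (n : ℤ) - h' - Y ω = ((n : ℤ) - h - Y ω) + (h - h') := by ring
  have h2 : ((M : ℤ) ∣ (n : ℤ) - h - Y ω) ↔ ((M : ℤ) ∣ (n : ℤ) - h' - Y ω) := by
    rw [h1]
    exact (dvd_add_left hh).symm
  simp only [h2]

lemma shf_val (f : ℕ → ℝ) (X M : ℕ) (hM : 2 * X ≤ M) {ι : Type} (Ω : Finset ι) (p : ι → ℝ) (Y : ι → ℤ) (h : ℤ)
    (hh : ∀ ω ∈ Ω, |h + Y ω| < X) :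
    shf f X M Ω p Y h = ∑ ω ∈ Ω, p ω * (if 1 ≤ h + Y ω then f (h + Y ω).toNat else 0) := by
  unfold shf
  apply sum_congr rfl
  intro ω hω
  congr 1
  have h1 := abs_lt.1 (hh ω hω)
  by_cases h2 : 1 ≤ h + Y ω
  · rw [if_pos h2, sum_eq_single (h + Y ω).toNat]
    · rw [if_pos, mul_one]
      have : (((h + Y ω).toNat : ℕ) : ℤ) = h + Y ω := Int.toNat_of_nonneg (by omega)
      rw [this]
      exact ⟨0, by ring⟩
    · intro n hn hne
      rw [if_neg, mul_zero]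
      intro hd
      rw [mem_Icc] at hn
      have h5 := Int.eq_zero_of_abs_lt_dvd hd (by rw [abs_lt]; constructor <;> omega)
      apply hne
      omega
    · intro h3
      exfalso
      apply h3
      rw [mem_Icc]
      omega
  · rw [if_neg h2]
    apply sum_eq_zero
    intro n hn
    rw [if_neg, mul_zero]
    intro hd
    rw [mem_Icc] at hn
    have h5 := Int.eq_zero_of_abs_lt_dvd hd (by rw [abs_lt]; constructor <;> omega)
    omega

/-- large values are rare -/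
theorem sh_rare (b F : ℕ) (hb : 2 ≤ b) (hF : 1 ≤ F) (U D : ℕ) : ∃ B : ℕ, ∀ Ez : ℕ, ∃ K₀ : ℕ, ∀ K : ℕ, K₀ ≤ K →
    ∀ z : ℕ, Real.log ((b ^ K : ℕ) : ℝ) ^ B ≤ z → (z : ℝ) ≤ Real.log ((b ^ K : ℕ) : ℝ) ^ Ez →
    ∀ (ι : Type) (Ω : Finset ι) (p : ι → ℝ) (Y : ι → ℤ), Law b F D (3 * U + 6) K Ω p Y →
    ∀ H : ℤ, 2 * H < (b : ℤ) ^ (K + 1) → ∀ S : Finset ℤ, S ⊆ Icc (-H) H →
    (∀ h ∈ S, 1 / (K : ℝ) ^ U ≤ |shf (fun n => ArithmeticFunction.vonMangoldt n - lamz z n) (b ^ K) (b ^ (K + 1)) Ω p Y h|) →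
    (S.card : ℝ) ≤ ((b ^ K : ℕ) : ℝ) / (K : ℝ) ^ U := by
  classical
  obtain ⟨B, hB⟩ := sh_sq b F hb hF (3 * U) D
  refine ⟨B, fun Ez => ?_⟩
  obtain ⟨K₀, hK₀⟩ := hB Ez
  refine ⟨K₀ + 1, ?_⟩
  intro K hK z hz1 hz2 ι Ω p Y hlaw H hH S hS hbig
  have h1 := hK₀ K (by omega) z hz1 hz2 ι Ω p Y hlaw
  obtain ⟨G, hG⟩ : ∃ G : ℤ → ℝ, G = fun h => shf (fun n => ArithmeticFunction.vonMangoldt n - lamz z n) (b ^ K) (b ^ (K + 1)) Ω p Y h :=
    ⟨_, rfl⟩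
  have hG' : ∀ h, shf (fun n => ArithmeticFunction.vonMangoldt n - lamz z n) (b ^ K) (b ^ (K + 1)) Ω p Y h = G h :=
    fun h => by rw [hG]
  simp only [hG'] at h1 hbig
  have hM0 : 0 < b ^ (K + 1) := by positivity
  obtain ⟨M, hM⟩ : ∃ M, M = b ^ (K + 1) := ⟨_, rfl⟩
  have hMz : ((M : ℕ) : ℤ) = (b : ℤ) ^ (K + 1) := by rw [hM]; push_cast; rfl
  rw [← hM] at h1 hM0
  rw [← hMz] at hH
  have hK0 : (0 : ℝ) < K := by exact_mod_cast (by omega : 0 < K)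
  have hr : ∀ h : ℤ, ((((h % (M : ℤ)).toNat : ℕ)) : ℤ) = h % M := fun h =>
    Int.toNat_of_nonneg (Int.emod_nonneg _ (by exact_mod_cast hM0.ne'))
  have hlt : ∀ h : ℤ, (h % (M : ℤ)).toNat < M := by
    intro h
    have := Int.emod_lt_of_pos h (show (0 : ℤ) < M by exact_mod_cast hM0)
    have := hr h
    omega
  have hGm : ∀ h : ℤ, G (((h % (M : ℤ)).toNat : ℕ) : ℤ) = G h := by
    intro h
    rw [← hG', ← hG']
    apply shf_mod
    rw [hr, ← hM]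
    exact ⟨-(h / M), by have := Int.emod_add_mul_ediv h M; linarith⟩
  have h2 : ∑ h ∈ S, G h ^ 2 ≤ ∑ r ∈ range M, G r ^ 2 := by
    have h3 : ∑ h ∈ S, G h ^ 2 = ∑ r ∈ S.image (fun h : ℤ => (h % (M : ℤ)).toNat), G r ^ 2 := by
      rw [sum_image]
      · exact sum_congr rfl fun h _ => by rw [hGm]
      · intro a ha a' ha' haa
        have e1 := mem_Icc.1 (hS ha)
        have e2 := mem_Icc.1 (hS ha')
        have haa' : (a % (M : ℤ)).toNat = (a' % (M : ℤ)).toNat := haa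
        have e3 : a % (M : ℤ) = a' % M := (hr a).symm.trans ((congrArg (fun n : ℕ => (n : ℤ)) haa').trans (hr a'))
        have e4 : (M : ℤ) ∣ a - a' := (Int.ModEq.dvd (show a' ≡ a [ZMOD M] from e3.symm))
        have e5 := Int.eq_zero_of_abs_lt_dvd e4 (by rw [abs_lt]; constructor <;> omega)
        omega
    rw [h3]
    apply sum_le_sum_of_subset_of_nonneg
    · intro r hr
      rw [mem_image] at hr
      obtain ⟨h, -, rfl⟩ := hr
      exact mem_range.2 (hlt h)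
    · intro r _ _
      exact sq_nonneg _
  have h4 : (S.card : ℝ) * (1 / (K : ℝ) ^ U) ^ 2 ≤ ∑ h ∈ S, G h ^ 2 := by
    rw [← nsmul_eq_mul, ← sum_const]
    apply sum_le_sum
    intro h hh
    rw [← sq_abs (G h)]
    exact pow_le_pow_left₀ (by positivity) (hbig h hh) 2
  have h5 := h4.trans (h2.trans h1)
  have h6 : (1 / (K : ℝ) ^ U) ^ 2 = 1 / (K : ℝ) ^ (2 * U) := by rw [one_div_pow, ← pow_mul, mul_comm 2]
  rw [h6, mul_one_div, div_le_iff₀ (by positivity)] at h5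
  refine h5.trans (le_of_eq ?_)
  rw [show 3 * U = U + 2 * U by ring, pow_add (K : ℝ) U (2 * U)]
  field_simp

end Pool.Agent.X26.AN
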