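import Pool.Agent.TH872.Mir3
import Pool.Agent.X37.PL.Set

/-!
# The law of palindromes
-/

set_option autoImplicit false

namespace Pool.Agent.X26.AN

open Finset
open Pool.Agent.H807R2.Dav
open Pool.Agent.W93.AU (Law)
open Pool.Agent.TH872.Mir (Q Gs pw val Mirr mir_law FF0)
open Pool.Agent.Y816.PS (VE ae ae_lt ae_out VE_inj pal pal_eq top_digit av)
open Pool.Agent.X37.PL (PalS PalS_eq)

/-- the distributions of the pairs of digits of a palindrome with leading digit `d` -/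
noncomputable def wp (b d : ℕ) (i : ℕ) (a : ℕ × ℕ) : ℝ :=
  if i = 0 then (if a = (d, d) then 1 else 0) else (if a.1 = a.2 then 1 / (b : ℝ) else 0)

lemma wp_nonneg (b d i : ℕ) (a : ℕ × ℕ) : 0 ≤ wp b d i a := by
  unfold wp
  split_ifs <;> positivity

lemma wp_mirr {b : ℕ} (hb : 2 ≤ b) (m d : ℕ) (hd : d < b) : Mirr b m (1 / (b : ℝ) ^ 2) (wp b d) where
  nonneg := fun i _ a => wp_nonneg b d i a
  sum := by
    intro i _
    have hb0 : (b : ℝ) ≠ 0 := by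
      have : 0 < b := by omega
      positivity
    unfold wp Q
    by_cases hi : i = 0
    · simp only [if_pos hi]
      rw [sum_ite_eq', if_pos (mem_product.2 ⟨mem_range.2 hd, mem_range.2 hd⟩)]
    · simp only [if_neg hi]
      rw [sum_product]
      have h1 : ∀ x ∈ range b, ∑ y ∈ range b, (if x = y then 1 / (b : ℝ) else 0) = 1 / b := by
        intro x hx
        rw [sum_ite_eq, if_pos hx]
      rw [sum_congr rfl h1, sum_const, card_range, nsmul_eq_mul]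
      field_simp
  mir := by
    intro i _ hi
    have h0 : ((0, 0) : ℕ × ℕ) ∈ Q b := mem_product.2 ⟨mem_range.2 (by omega), mem_range.2 (by omega)⟩
    have h1 : ((1, 1) : ℕ × ℕ) ∈ Q b := mem_product.2 ⟨mem_range.2 (by omega), mem_range.2 (by omega)⟩
    have hnn : ∀ a a' : ℕ × ℕ, (0 : ℝ) ≤ if a.1 ≠ a'.1 ∧ a.2 ≠ a'.2 then wp b d i a * wp b d i a' else 0 := by
      intro a a'
      split_ifs
      · exact mul_nonneg (wp_nonneg _ _ _ _) (wp_nonneg _ _ _ _)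
      · exact le_rfl
    have e1 : (1 / (b : ℝ) ^ 2) = if ((0, 0) : ℕ × ℕ).1 ≠ ((1, 1) : ℕ × ℕ).1 ∧ ((0, 0) : ℕ × ℕ).2 ≠ ((1, 1) : ℕ × ℕ).2 then
        wp b d i (0, 0) * wp b d i (1, 1) else 0 := by
      rw [if_pos (by norm_num)]
      unfold wp
      rw [if_neg (by omega), if_pos rfl, if_neg (by omega), if_pos rfl]
      ring
    rw [e1]
    refine le_trans (single_le_sum (f := fun a' : ℕ × ℕ => if ((0, 0) : ℕ × ℕ).1 ≠ a'.1 ∧ ((0, 0) : ℕ × ℕ).2 ≠ a'.2 then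
      wp b d i (0, 0) * wp b d i a' else 0) (fun a' _ => hnn _ a') h1) ?_
    exact single_le_sum (f := fun a : ℕ × ℕ => ∑ a' ∈ Q b, if a.1 ≠ a'.1 ∧ a.2 ≠ a'.2 then
      wp b d i a * wp b d i a' else 0) (fun a _ => sum_nonneg fun a' _ => hnn a a') h0

/-- the string of pairs of a palindrome -/
def ph (b L x e : ℕ) (m : Fin L → Fin b × Fin 1) (i : Fin (L + 1)) : ℕ × ℕ :=
  (ae b (L + 1) L x e m (L + 1 - i), ae b (L + 1) L x e m (L + 1 - i))

lemma ph_val (b L x e : ℕ) (m : Fin L → Fin b × Fin 1) :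
    VE b (L + 1) L x e m = val b (2 * (L + 1) + 1) (ph b L x e m) + e * b ^ (L + 1) := by
  have h0 : VE b (L + 1) L x e m = pal b (L + 1) (ae b (L + 1) L x e m) := rfl
  have h1 : ae b (L + 1) L x e m 0 = e := by simp [ae]
  rw [h0, pal_eq, h1]
  unfold Pool.Agent.TH872.Mir.val ph
  have h2 : ∑ i : Fin (L + 1), (ae b (L + 1) L x e m (L + 1 - (i : ℕ)) * b ^ (i : ℕ) +
      ae b (L + 1) L x e m (L + 1 - (i : ℕ)) * b ^ (2 * (L + 1) + 1 - 1 - (i : ℕ))) =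
      ∑ i ∈ range (L + 1), (ae b (L + 1) L x e m (L + 1 - i) * b ^ i +
      ae b (L + 1) L x e m (L + 1 - i) * b ^ (2 * (L + 1) + 1 - 1 - i)) :=
    (Finset.sum_range (fun i : ℕ => ae b (L + 1) L x e m (L + 1 - i) * b ^ i +
      ae b (L + 1) L x e m (L + 1 - i) * b ^ (2 * (L + 1) + 1 - 1 - i))).symm
  have h3 : ∑ i ∈ range (L + 1), (ae b (L + 1) L x e m (L + 1 - i) * b ^ i +
      ae b (L + 1) L x e m (L + 1 - i) * b ^ (2 * (L + 1) + 1 - 1 - i)) =
      ∑ c ∈ range (L + 1), ae b (L + 1) L x e m (c + 1) * (b ^ (L + 1 + c + 1) + b ^ (L + 1 - 1 - c)) := by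
    rw [← sum_range_reflect]
    apply sum_congr rfl
    intro c hc
    rw [mem_range] at hc
    rw [show L + 1 - (L + 1 - 1 - c) = c + 1 by omega, show 2 * (L + 1) + 1 - 1 - (L + 1 - 1 - c) = L + 1 + c + 1 by omega]
    ring
  simp only at h2 ⊢
  rw [h2, h3]
  ring

lemma ph_inj {b : ℕ} (hb : 2 ≤ b) (L x e : ℕ) : Function.Injective (ph b L x e) := by
  intro m m' h
  apply VE_inj (N := L + 1) (x := x) (e := e) hb le_rfl
  rw [ph_val, ph_val, h]

lemma ph_mem {b : ℕ} (hb : 2 ≤ b) (L x : ℕ) {e : ℕ} (he : e < b) (m : Fin L → Fin b × Fin 1) :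
    ph b L x e m ∈ Gs b (L + 1) := by
  unfold Gs Q
  rw [Fintype.mem_piFinset]
  intro i
  exact mem_product.2 ⟨mem_range.2 (ae_lt hb _ _ _ he _ _), mem_range.2 (ae_lt hb _ _ _ he _ _)⟩

lemma ph_zero {b : ℕ} (hb : 2 ≤ b) {L x : ℕ} (e : ℕ) (hx : x < b ^ (2 * (L + 1) + 1)) (m : Fin L → Fin b × Fin 1) :
    ph b L x e m 0 = (x / b ^ (2 * (L + 1)), x / b ^ (2 * (L + 1))) := by
  unfold ph
  have h1 : ae b (L + 1) L x e m (L + 1 - ((0 : Fin (L + 1)) : ℕ)) = x / b ^ (2 * (L + 1)) := by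
    rw [Fin.val_zero, Nat.sub_zero, ae_out m (by omega), top_digit hb hx]
  rw [h1]

lemma pw_ph {b : ℕ} (hb : 2 ≤ b) {L x : ℕ} (e : ℕ) (hx : x < b ^ (2 * (L + 1) + 1)) (m : Fin L → Fin b × Fin 1) :
    pw (wp b (x / b ^ (2 * (L + 1)))) (ph b L x e m) = 1 / (b : ℝ) ^ L := by
  unfold pw
  rw [Fin.prod_univ_succ, ph_zero hb e hx]
  have h1 : wp b (x / b ^ (2 * (L + 1))) ((0 : Fin (L + 1)) : ℕ) (x / b ^ (2 * (L + 1)), x / b ^ (2 * (L + 1))) = 1 := by
    unfold wp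
    simp
  have h2 : ∀ i : Fin L, wp b (x / b ^ (2 * (L + 1))) ((i.succ : Fin (L + 1)) : ℕ) (ph b L x e m i.succ) = 1 / (b : ℝ) := by
    intro i
    unfold wp ph
    rw [if_neg (by simp), if_pos rfl]
  rw [h1, one_mul, Fintype.prod_congr _ _ h2, prod_const, card_univ, Fintype.card_fin, one_div_pow]

lemma ph_surj {b : ℕ} (hb : 2 ≤ b) {L x : ℕ} (e : ℕ) (hx : x < b ^ (2 * (L + 1) + 1)) (g : Fin (L + 1) → ℕ × ℕ)
    (hg : g ∈ Gs b (L + 1)) (hne : pw (wp b (x / b ^ (2 * (L + 1)))) g ≠ 0) : ∃ m, ph b L x e m = g := by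
  unfold Gs Q at hg
  rw [Fintype.mem_piFinset] at hg
  unfold pw at hne
  rw [prod_ne_zero_iff] at hne
  have hlt : ∀ i, (g i).1 < b := fun i => mem_range.1 (mem_product.1 (hg i)).1
  have h0 : g 0 = (x / b ^ (2 * (L + 1)), x / b ^ (2 * (L + 1))) := by
    by_contra h
    apply hne 0 (mem_univ _)
    unfold wp
    rw [if_pos (by simp), if_neg h]
  have h1 : ∀ i : Fin (L + 1), (i : ℕ) ≠ 0 → (g i).1 = (g i).2 := by
    intro i hi
    by_contra h
    apply hne i (mem_univ _)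
    unfold wp
    rw [if_neg hi, if_neg h]
  refine ⟨fun c => (⟨(g ⟨L - c, by omega⟩).1, hlt _⟩, 0), ?_⟩
  funext i
  by_cases hi : (i : ℕ) = 0
  · have : i = 0 := Fin.ext hi
    rw [this, ph_zero hb e hx, h0]
  · have hiL : (i : ℕ) < L + 1 := i.isLt
    have h2 : ae b (L + 1) L x e (fun c => (⟨(g ⟨L - c, by omega⟩).1, hlt _⟩, 0)) (L + 1 - i) = (g i).1 := by
      unfold ae av
      rw [if_neg (by omega), if_neg (by omega), dif_pos (show L + 1 - (i : ℕ) - 1 < L by omega)]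
      have h3 : (⟨L - (L + 1 - (i : ℕ) - 1), by omega⟩ : Fin (L + 1)) = i := Fin.ext (by simp; omega)
      simp only [h3]
      simp
    unfold ph
    rw [h2]
    exact Prod.ext rfl (h1 i hi)

/-- sums over palindromes -/
lemma sum_pal {b : ℕ} (hb : 2 ≤ b) {L x e : ℕ} (h1 : b ^ (2 * (L + 1)) ≤ x) (hx : x < b ^ (2 * (L + 1) + 1)) (he : e < b)
    (F : ℕ → ℂ) :
    ∑ g ∈ Gs b (L + 1), ((pw (wp b (x / b ^ (2 * (L + 1)))) g : ℝ) : ℂ) * F (val b (2 * (L + 1) + 1) g + e * b ^ (L + 1)) =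
      ∑ n ∈ PalS b (L + 1) L x e, ((1 / (b : ℝ) ^ L : ℝ) : ℂ) * F n := by
  classical
  rw [PalS_eq hb le_rfl h1 hx he, sum_image (fun m _ m' _ h => VE_inj hb le_rfl h)]
  have h2 : (univ : Finset (Fin L → Fin b × Fin 1)).image (ph b L x e) ⊆ Gs b (L + 1) := by
    intro g hg
    rw [mem_image] at hg
    obtain ⟨m, -, rfl⟩ := hg
    exact ph_mem hb L x he m
  rw [← sum_subset h2]
  · rw [sum_image (fun m _ m' _ h => ph_inj hb L x e h)]
    apply sum_congr rfl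
    intro m _
    rw [pw_ph hb e hx, ph_val]
  · intro g hg hng
    by_cases hz : pw (wp b (x / b ^ (2 * (L + 1)))) g = 0
    · rw [hz, Complex.ofReal_zero, zero_mul]
    · obtain ⟨m, hm⟩ := ph_surj hb e hx g hg hz
      exact absurd (mem_image.2 ⟨m, mem_univ _, hm⟩) hng

lemma card_PalS {b : ℕ} (hb : 2 ≤ b) {L x e : ℕ} (h1 : b ^ (2 * (L + 1)) ≤ x) (hx : x < b ^ (2 * (L + 1) + 1)) (he : e < b) :
    (PalS b (L + 1) L x e).card = b ^ L := by
  rw [PalS_eq hb le_rfl h1 hx he, card_image_of_injective _ (VE_inj hb le_rfl), card_univ]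
  simp

/-- **the law of the palindromes with given leading digit and middle digit** -/
theorem palLaw (b : ℕ) (hb : 2 ≤ b) (κ : ℤ) (e0 V : ℕ) : ∃ D : ℕ, ∀ L x e : ℕ, b ^ (2 * (L + 1)) ≤ x →
    x < b ^ (2 * (L + 1) + 1) → e < b → Law b (FF0 b κ) D V (2 * (L + 1) + 1 + e0) (PalS b (L + 1) L x e)
      (fun _ => 1 / (b : ℝ) ^ L) (fun n : ℕ => κ * (n : ℤ)) := by
  have hb0 : (0 : ℝ) < b := by exact_mod_cast (by omega : 0 < b)
  obtain ⟨D, hD⟩ := mir_law b hb (1 / (b : ℝ) ^ 2) (by positivity) κ e0 1 V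
  refine ⟨D, ?_⟩
  intro L x e h1 hx he
  have hd : x / b ^ (2 * (L + 1)) < b := by
    rw [Nat.div_lt_iff_lt_mul (by positivity), ← pow_succ']
    exact hx
  have hlaw := hD (L + 1) (2 * (L + 1) + 1 + e0) rfl (by omega) (wp b (x / b ^ (2 * (L + 1)))) (wp_mirr hb _ _ hd)
    (κ * (e * b ^ (L + 1) : ℕ))
  refine ⟨fun n _ => by positivity, ?_, ?_⟩
  · rw [sum_const, card_PalS hb h1 hx he, nsmul_eq_mul]
    push_cast
    apply le_of_eq
    field_simp
  · intro t ht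
    have h2 := hlaw.char t ht
    have h3 := sum_pal hb h1 hx he (fun n : ℕ => ee (((κ * (n : ℤ) : ℤ) : ℝ) * ((t : ℝ) / ((b ^ (2 * (L + 1) + 1 + e0 + 1) : ℕ) : ℝ))))
    rw [← h3]
    refine le_trans (le_of_eq ?_) h2
    congr 1
    apply sum_congr rfl
    intro g _
    congr 3
    push_cast
    ring

end Pool.Agent.X26.AN
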