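import Pool.Agent.X37.PL.Set
import Pool.Agent.H373R2.T7.LamZ

/-!
# The sieve model on shifted palindromes
-/

set_option autoImplicit false

namespace Pool.Agent.X26.AN

open Finset
open Pool.Agent.H373R2.T7 (lamz pz Vz mem_pz)
open Pool.Agent.X37.PL (PalS PR fund_pal)

/-- the product of `(1 - 1 / p) ^ (-1)` over the primes dividing `2 b κ` -/
noncomputable def cst (b : ℕ) (κ : ℤ) : ℝ := ∏ p ∈ (2 * b * κ.natAbs).primeFactors, (1 - 1 / (p : ℝ))⁻¹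

lemma one_sub_pos {p : ℕ} (hp : p.Prime) : 0 < 1 - 1 / (p : ℝ) := by
  have : (1 : ℝ) < p := by exact_mod_cast hp.one_lt
  have h1 : 1 / (p : ℝ) < 1 := by rw [div_lt_one (by linarith)]; exact this
  linarith

lemma one_le_cst (b : ℕ) (κ : ℤ) : 1 ≤ cst b κ := by
  unfold cst
  calc (1 : ℝ) = ∏ p ∈ (2 * b * κ.natAbs).primeFactors, (1 : ℝ) := by simp
    _ ≤ _ := by
      apply prod_le_prod (fun _ _ => zero_le_one)
      intro p hp
      have hp' := Nat.prime_of_mem_primeFactors hp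
      have hp0 : (0 : ℝ) < p := by exact_mod_cast hp'.pos
      rw [one_le_inv₀ (one_sub_pos hp')]
      have : (0 : ℝ) < 1 / p := by positivity
      linarith

lemma class_card {p : ℕ} (hp : p.Prime) (κ h : ℤ) (hκ : ¬ (p : ℤ) ∣ κ) :
    ((range p).filter (fun r : ℕ => (p : ℤ) ∣ h + κ * r)).card = 1 := by
  have hpi : Prime (p : ℤ) := Nat.prime_iff_prime_int.1 hp
  have hp0 : (0 : ℤ) < p := by exact_mod_cast hp.pos
  have hcop : IsCoprime (p : ℤ) κ := (hpi.irreducible.coprime_iff_not_dvd).2 hκ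
  obtain ⟨v, u, huv⟩ := hcop
  have hr0 : (((-(h * u)) % (p : ℤ)).toNat : ℤ) = (-(h * u)) % (p : ℤ) := Int.toNat_of_nonneg (Int.emod_nonneg _ hp0.ne')
  have hlt : ((-(h * u)) % (p : ℤ)).toNat < p := by
    have := Int.emod_lt_of_pos (-(h * u)) hp0
    omega
  rw [card_eq_one]
  refine ⟨((-(h * u)) % (p : ℤ)).toNat, ?_⟩
  have hdvd : (p : ℤ) ∣ h + κ * (((-(h * u)) % (p : ℤ)).toNat : ℤ) := by
    rw [hr0]
    have h1 : -(h * u) % (p : ℤ) = -(h * u) - p * (-(h * u) / p) := by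
      have := Int.emod_add_mul_ediv (-(h * u)) p
      linarith
    rw [h1]
    refine ⟨h * v - κ * (-(h * u) / p), ?_⟩
    have h2 : h = h * (v * p + u * κ) := by rw [huv, mul_one]
    calc h + κ * (-(h * u) - p * (-(h * u) / p)) = h * (v * p + u * κ) + κ * (-(h * u) - p * (-(h * u) / p)) := by rw [← h2]
      _ = _ := by ring
  ext r
  rw [mem_filter, mem_range, mem_singleton]
  constructor
  · rintro ⟨h1, h2⟩
    have h3 := dvd_sub h2 hdvd
    have h4 : (p : ℤ) ∣ κ * ((r : ℤ) - (((-(h * u)) % (p : ℤ)).toNat : ℤ)) := by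
      have e9 : κ * ((r : ℤ) - (((-(h * u)) % (p : ℤ)).toNat : ℤ)) =
          (h + κ * (r : ℤ)) - (h + κ * (((-(h * u)) % (p : ℤ)).toNat : ℤ)) := by ring
      rw [e9]
      exact h3
    have h5 := (hpi.dvd_or_dvd h4).resolve_left hκ
    have h6 := Int.eq_zero_of_abs_lt_dvd h5 (by rw [abs_lt]; constructor <;> omega)
    omega
  · rintro rfl
    exact ⟨hlt, hdvd⟩

theorem pal_lamz {b : ℕ} (hb : 2 ≤ b) (κ : ℤ) (hκ : κ ≠ 0) (η : ℝ) (hη : 0 < η) :
    ∃ u : ℝ, 0 < u ∧ ∃ L0 : ℕ, ∀ L x e : ℕ, L0 ≤ L → b ^ (2 * (L + 1)) ≤ x → x < b ^ (2 * (L + 1) + 1) → e < b →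
      ∀ z : ℕ, 2 * b * κ.natAbs ≤ z → (z : ℝ) ≤ (b : ℝ) ^ (u * L) → ∀ h : ℤ,
      (PalS b (L + 1) L x e).Nonempty →
      (∀ n ∈ PalS b (L + 1) L x e, 1 ≤ h + κ * n) →
      (∀ p : ℕ, p.Prime → p ∣ 2 * b * κ.natAbs → ∀ n ∈ PalS b (L + 1) L x e, ¬ (p : ℤ) ∣ h + κ * n) →
      |∑ n ∈ PalS b (L + 1) L x e, lamz z (h + κ * n).toNat - (b : ℝ) ^ L * cst b κ| ≤ η * ((b : ℝ) ^ L * cst b κ) := by
  classical
  obtain ⟨u, c, hu, hc, L0, hf⟩ := fund_pal hb 1 η hη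
  refine ⟨u, hu, L0, ?_⟩
  intro L x e hL h1 hx he z hz hz2 h hne hpos hadm
  obtain ⟨P, hP⟩ : ∃ P, P = PalS b (L + 1) L x e := ⟨_, rfl⟩
  rw [← hP] at hne hpos hadm
  obtain ⟨Ω, hΩ⟩ : ∃ Ω : ℕ → Finset ℕ, Ω = fun p => if p ∣ κ.natAbs then ∅ else (range p).filter (fun r : ℕ => (p : ℤ) ∣ h + κ * r) :=
    ⟨_, rfl⟩
  have hΩ1 : ∀ p : ℕ, p ∣ κ.natAbs → Ω p = ∅ := fun p hp => by rw [hΩ]; exact if_pos hp
  have hΩ2 : ∀ p : ℕ, ¬ p ∣ κ.natAbs → Ω p = (range p).filter (fun r : ℕ => (p : ℤ) ∣ h + κ * r) := fun p hp => by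
    rw [hΩ]; exact if_neg hp
  have hdz : ∀ p : ℕ, p ∣ κ.natAbs ↔ (p : ℤ) ∣ κ := fun p => Int.natCast_dvd.symm
  have hΩc : ∀ p : ℕ, p.Prime → ¬ p ∣ κ.natAbs → (Ω p).card = 1 := fun p hp hpk => by
    rw [hΩ2 p hpk]
    exact class_card hp κ h (fun hd => hpk ((hdz p).2 hd))
  have h2 := hf L (L + 1) x e hL (by omega) h1 hx he 1 0 one_pos (Nat.coprime_one_left _)
    (by rw [Nat.cast_one]; exact Real.one_le_exp (by positivity)) Ω (by
      intro p hp _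
      by_cases hpk : p ∣ κ.natAbs
      · rw [hΩ1 p hpk]
        exact ⟨empty_subset _, by simp, by simpa using hp.pos⟩
      · refine ⟨?_, (hΩc p hp hpk).le, ?_⟩
        · rw [hΩ2 p hpk]
          exact filter_subset _ _
        · rw [hΩc p hp hpk]
          exact hp.one_lt) z hz2
  rw [← hP] at h2
  -- the two conditions agree
  have h3 : P.filter (fun n : ℕ => ∀ p ∈ pz z, ¬ p ∣ (h + κ * n).toNat) =
      P.filter (fun n : ℕ => n % 1 = 0 % 1 ∧ ∀ p ∈ PR b 1 z, n % p ∉ Ω p) := by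
    apply filter_congr
    intro n hn
    have hn1 := hpos n hn
    have htn : (((h + κ * (n : ℤ)).toNat : ℕ) : ℤ) = h + κ * n := Int.toNat_of_nonneg (by omega)
    have hdv : ∀ p : ℕ, p ∣ (h + κ * (n : ℤ)).toNat ↔ (p : ℤ) ∣ h + κ * n := by
      intro p
      rw [← htn, Int.natCast_dvd_natCast]
      rfl
    have hcl : ∀ p : ℕ, ((p : ℤ) ∣ h + κ * ((n % p : ℕ) : ℤ)) ↔ (p : ℤ) ∣ h + κ * n := by
      intro p
      have e1 : h + κ * (n : ℤ) = (h + κ * ((n % p : ℕ) : ℤ)) + p * (κ * ((n / p : ℕ) : ℤ)) := by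
        have : ((n : ℕ) : ℤ) = ((n % p : ℕ) : ℤ) + p * ((n / p : ℕ) : ℤ) := by
          exact_mod_cast (Nat.mod_add_div n p).symm
        exact (congrArg (fun t : ℤ => h + κ * t) this).trans (by ring)
      rw [e1]
      exact (dvd_add_left (dvd_mul_right _ _)).symm
    constructor
    · intro h4
      refine ⟨by simp [Nat.mod_one], ?_⟩
      intro p hp
      unfold PR at hp
      rw [mem_filter, mem_Icc] at hp
      obtain ⟨⟨hp1, hp2⟩, hp3, hp4⟩ := hp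
      by_cases hpk : p ∣ κ.natAbs
      · rw [hΩ1 p hpk]
        exact notMem_empty _
      · rw [hΩ2 p hpk, mem_filter]
        rintro ⟨-, h5⟩
        exact h4 p (mem_pz.2 ⟨hp2, hp3⟩) ((hdv p).2 ((hcl p).1 h5))
    · rintro ⟨-, h4⟩ p hp h5
      rw [mem_pz] at hp
      rw [hdv] at h5
      by_cases hpd : p ∣ 2 * b * κ.natAbs
      · exact hadm p hp.2 hpd n hn h5
      · have hpk : ¬ p ∣ κ.natAbs := fun hh => hpd (hh.mul_left _)
        have hpb : ¬ p ∣ 2 * b := fun hh => hpd (hh.mul_right _)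
        have h6 := h4 p (by
          unfold PR
          rw [mem_filter, mem_Icc]
          exact ⟨⟨hp.2.one_le, hp.1⟩, hp.2, by rw [mul_one]; exact hpb⟩)
        rw [hΩ2 p hpk, mem_filter] at h6
        exact h6 ⟨mem_range.2 (Nat.mod_lt _ hp.2.pos), (hcl p).2 h5⟩
  have h4 : ∑ n ∈ P, lamz z (h + κ * n).toNat =
      ((P.filter (fun n : ℕ => n % 1 = 0 % 1 ∧ ∀ p ∈ PR b 1 z, n % p ∉ Ω p)).card : ℝ) * (Vz z)⁻¹ := by
    rw [← h3]
    unfold lamz
    rw [← sum_filter, sum_const, nsmul_eq_mul]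
  -- the product
  have h5 : (∏ p ∈ PR b 1 z, (1 - ((Ω p).card : ℝ) / p)) * (Vz z)⁻¹ = cst b κ := by
    have e1 : ∏ p ∈ PR b 1 z, (1 - ((Ω p).card : ℝ) / p) = ∏ p ∈ (pz z).filter (fun p => ¬ p ∣ 2 * b * κ.natAbs), (1 - 1 / (p : ℝ)) := by
      rw [← prod_filter_mul_prod_filter_not (PR b 1 z) (fun p => p ∣ κ.natAbs)]
      have e2 : ∏ p ∈ (PR b 1 z).filter (fun p => p ∣ κ.natAbs), (1 - ((Ω p).card : ℝ) / p) = 1 := by
        apply prod_eq_one
        intro p hp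
        rw [hΩ1 p (mem_filter.1 hp).2]
        simp
      have e3 : (PR b 1 z).filter (fun p => ¬ p ∣ κ.natAbs) = (pz z).filter (fun p => ¬ p ∣ 2 * b * κ.natAbs) := by
        ext p
        unfold PR
        rw [mem_filter, mem_filter, mem_filter, mem_pz, mem_Icc, mul_one]
        constructor
        · rintro ⟨⟨⟨g1, g2⟩, g3, g4⟩, g5⟩
          exact ⟨⟨g2, g3⟩, fun hh => (g3.dvd_mul.1 hh).elim g4 g5⟩
        · rintro ⟨⟨g1, g2⟩, g3⟩
          exact ⟨⟨⟨g2.one_le, g1⟩, g2, fun hh => g3 (hh.mul_right _)⟩, fun hh => g3 (hh.mul_left _)⟩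
      rw [e2, one_mul, ← e3]
      apply prod_congr rfl
      intro p hp
      rw [mem_filter] at hp
      have hp2 : p.Prime := by
        have := hp.1
        unfold PR at this
        exact (mem_filter.1 this).2.1
      rw [hΩc p hp2 hp.2, Nat.cast_one]
    have e4 : Vz z = (∏ p ∈ (2 * b * κ.natAbs).primeFactors, (1 - 1 / (p : ℝ))) *
        ∏ p ∈ (pz z).filter (fun p => ¬ p ∣ 2 * b * κ.natAbs), (1 - 1 / (p : ℝ)) := by
      unfold Vz
      rw [← prod_filter_mul_prod_filter_not (pz z) (fun p => p ∣ 2 * b * κ.natAbs)]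
      congr 1
      apply prod_congr _ (fun _ _ => rfl)
      ext p
      rw [mem_filter, mem_pz, Nat.mem_primeFactors]
      have hn0 : 2 * b * κ.natAbs ≠ 0 := by
        have := Int.natAbs_pos.2 hκ
        positivity
      constructor
      · rintro ⟨⟨g1, g2⟩, g3⟩
        exact ⟨g2, g3, hn0⟩
      · rintro ⟨g1, g2, g3⟩
        exact ⟨⟨(Nat.le_of_dvd (Nat.pos_of_ne_zero hn0) g2).trans hz, g1⟩, g2⟩
    have e5 : (∏ p ∈ (pz z).filter (fun p => ¬ p ∣ 2 * b * κ.natAbs), (1 - 1 / (p : ℝ))) ≠ 0 := by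
      apply prod_ne_zero_iff.2
      intro p hp
      exact (one_sub_pos (mem_pz.1 (mem_filter.1 hp).1).2).ne'
    rw [e1, e4, mul_inv]
    unfold cst
    rw [prod_inv_distrib]
    field_simp
  have hV : 0 < Vz z := by
    unfold Vz
    apply prod_pos
    intro p hp
    exact one_sub_pos (mem_pz.1 hp).2
  rw [← hP, h4, ← h5]
  have h6 : (b : ℝ) ^ L * ((∏ p ∈ PR b 1 z, (1 - ((Ω p).card : ℝ) / p)) * (Vz z)⁻¹) =
      ((b : ℝ) ^ L / (1 : ℕ) * ∏ p ∈ PR b 1 z, (1 - ((Ω p).card : ℝ) / p)) * (Vz z)⁻¹ := by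
    push_cast
    ring
  rw [h6, ← sub_mul, abs_mul, abs_of_pos (inv_pos.2 hV), ← mul_assoc]
  exact mul_le_mul_of_nonneg_right h2 (inv_pos.2 hV).le

end Pool.Agent.X26.AN
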