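import Pool.Agent.X26.AN.ShB
import Pool.Agent.X26.AN.ShC
import Pool.Agent.X26.AN.ShD

/-!
# Primes in almost all shifts of the palindromes: the von Mangoldt function
-/

set_option autoImplicit false

namespace Pool.Agent.X26.AN

open Finset Filter
open Pool.Agent.H373R2.T7 (lamz)
open Pool.Agent.W93.AU (Law)
open Pool.Agent.W93.DG (logX)
open Pool.Agent.TH872.Mir (FF0 FF0_pos)
open Pool.Agent.X37.PL (PalS)

/-- polynomials are smaller than exponentials -/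
lemma poly_exp (b : ℕ) (hb : 2 ≤ b) (u : ℝ) (hu : 0 < u) (C : ℝ) (hC : 0 ≤ C) (E : ℕ) :
    ∃ L1 : ℕ, ∀ L : ℕ, L1 ≤ L → (C * L) ^ E ≤ (b : ℝ) ^ (u * L) := by
  have hb1 : (1 : ℝ) < b := by exact_mod_cast (by omega : 1 < b)
  have hr : 1 < (b : ℝ) ^ u := Real.one_lt_rpow hb1 hu
  have h1 := isLittleO_pow_const_const_pow_of_one_lt (R := ℝ) E hr
  have hc : 0 < 1 / (C ^ E + 1) := by positivity
  obtain ⟨L1, hL1⟩ := eventually_atTop.1 (h1.def hc)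
  refine ⟨L1, fun L hL => ?_⟩
  have h2 := hL1 L hL
  rw [Real.norm_of_nonneg (by positivity), Real.norm_of_nonneg (by positivity)] at h2
  rw [mul_pow, Real.rpow_mul (by positivity), Real.rpow_natCast]
  have h3 : C ^ E * ((L : ℝ) ^ E) ≤ C ^ E * (1 / (C ^ E + 1) * ((b : ℝ) ^ u) ^ L) :=
    mul_le_mul_of_nonneg_left h2 (by positivity)
  refine h3.trans ?_
  rw [← mul_assoc, mul_one_div]
  apply mul_le_of_le_one_left (by positivity)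
  rw [div_le_one (by positivity)]
  linarith

lemma z_choice (ℓ : ℝ) (h2 : 2 ≤ ℓ) (B : ℕ) : ℓ ^ B ≤ (⌈ℓ ^ (B + 1)⌉₊ : ℝ) ∧ (⌈ℓ ^ (B + 1)⌉₊ : ℝ) ≤ ℓ ^ (B + 2) ∧
    ℓ ≤ (⌈ℓ ^ (B + 1)⌉₊ : ℝ) := by
  have h1 : (1 : ℝ) ≤ ℓ := by linarith
  have h3 := Nat.le_ceil (ℓ ^ (B + 1))
  have h4 := Nat.ceil_lt_add_one (show (0 : ℝ) ≤ ℓ ^ (B + 1) by positivity)
  refine ⟨(pow_le_pow_right₀ h1 (by omega)).trans h3, ?_, ?_⟩
  · have h5 : (1 : ℝ) ≤ ℓ ^ (B + 1) := one_le_pow₀ h1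
    have h6 : ℓ ^ (B + 2) = ℓ * ℓ ^ (B + 1) := by ring
    rw [h6]
    nlinarith
  · have h5 : ℓ ^ 1 ≤ ℓ ^ (B + 1) := pow_le_pow_right₀ h1 (by omega)
    rw [pow_one] at h5
    exact h5.trans h3

lemma mem_PalS_lt {b N L x e n : ℕ} (h : n ∈ PalS b N L x e) : b ^ (2 * N) ≤ n ∧ n < b ^ (2 * N + 1) := by
  unfold PalS at h
  rw [mem_filter, mem_range] at h
  exact ⟨h.2.1, h.1⟩

/-- **almost all shifts of the palindromes contain the expected number of primes**, with weights -/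
theorem shift_sum {b : ℕ} (hb : 2 ≤ b) (κ : ℤ) (hκ : κ ≠ 0) (A B : ℕ) (ε : ℝ) (hε : 0 < ε) :
    ∃ N0 : ℕ, ∀ L x e : ℕ, N0 ≤ L → b ^ (2 * (L + 1)) ≤ x → x < b ^ (2 * (L + 1) + 1) → e < b → ∀ S : Finset ℤ,
    S ⊆ Icc (-(B * (b : ℤ) ^ (2 * (L + 1) + 1))) (B * (b : ℤ) ^ (2 * (L + 1) + 1)) →
    (∀ h ∈ S, (∀ n ∈ PalS b (L + 1) L x e, 1 ≤ h + κ * n) ∧
      (∀ p : ℕ, p.Prime → p ∣ 2 * b * κ.natAbs → ∀ n ∈ PalS b (L + 1) L x e, ¬ (p : ℤ) ∣ h + κ * n) ∧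
      ε * ((b : ℝ) ^ L * cst b κ) <
        |∑ n ∈ PalS b (L + 1) L x e, ArithmeticFunction.vonMangoldt (h + κ * n).toNat - (b : ℝ) ^ L * cst b κ|) →
    (S.card : ℝ) ≤ (b : ℝ) ^ (2 * (L + 1)) / ((L + 1 : ℕ) : ℝ) ^ A := by
  classical
  have hbr : (2 : ℝ) ≤ b := by exact_mod_cast hb
  obtain ⟨e0, he0⟩ : ∃ e0, e0 = B + κ.natAbs := ⟨_, rfl⟩
  obtain ⟨D, hD⟩ := palLaw b hb κ e0 (3 * (A + 1) + 6)
  obtain ⟨B', hB'⟩ := sh_rare b (FF0 b κ) hb (FF0_pos b κ hκ) (A + 1) D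
  obtain ⟨K₀, hK₀⟩ := hB' (B' + 2)
  obtain ⟨u, hu, L0, hsv⟩ := pal_lamz hb κ hκ (ε / 2) (by positivity)
  obtain ⟨L1, hL1⟩ := poly_exp b hb u hu (b * (5 + e0)) (by positivity) (B' + 2)
  obtain ⟨L2, hL2⟩ := exists_nat_ge (2 / ε)
  refine ⟨K₀ + L0 + L1 + L2 + 4 * b * κ.natAbs + b ^ (1 + e0) + 4, ?_⟩
  intro L x e hL h1 hx he S hS hSP
  obtain ⟨K, hK⟩ : ∃ K, K = 2 * (L + 1) + 1 + e0 := ⟨_, rfl⟩
  obtain ⟨P, hP⟩ : ∃ P, P = PalS b (L + 1) L x e := ⟨_, rfl⟩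
  have hlaw := hD L x e h1 hx he
  rw [← hP] at hSP hlaw
  rw [← hK] at hlaw
  obtain ⟨hl1, hl2⟩ := logX b K hb
  obtain ⟨ℓ, hℓ⟩ : ∃ ℓ, ℓ = Real.log ((b ^ K : ℕ) : ℝ) := ⟨_, rfl⟩
  rw [← hℓ] at hl1 hl2
  have hKr : (K : ℝ) = 2 * (L + 1) + 1 + e0 := by rw [hK]; push_cast; ring
  have hLr : (L2 + 4 * b * κ.natAbs + b ^ (1 + e0) + 4 : ℝ) ≤ L := by
    have : L2 + 4 * b * κ.natAbs + b ^ (1 + e0) + 4 ≤ L := by omega
    exact_mod_cast this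
  have hbe : (0 : ℝ) < (b : ℝ) ^ (1 + e0) := by positivity
  have hbκ : (0 : ℝ) ≤ 4 * b * κ.natAbs := by positivity
  have hL20 : (0 : ℝ) ≤ L2 := Nat.cast_nonneg _
  have he00 : (0 : ℝ) ≤ e0 := Nat.cast_nonneg _
  have hℓ2 : 2 ≤ ℓ := by linarith
  obtain ⟨hz1, hz2, hz3⟩ := z_choice ℓ hℓ2 B'
  obtain ⟨z, hz⟩ : ∃ z : ℕ, z = ⌈ℓ ^ (B' + 1)⌉₊ := ⟨_, rfl⟩
  rw [← hz] at hz1 hz2 hz3
  have hz4 : 2 * b * κ.natAbs ≤ z := by
    have : (2 * b * κ.natAbs : ℝ) ≤ z := by linarith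
    exact_mod_cast this
  have hz5 : (z : ℝ) ≤ (b : ℝ) ^ (u * L) := by
    refine hz2.trans (le_trans ?_ (hL1 L (by omega)))
    apply pow_le_pow_left₀ (by linarith)
    refine hl2.trans ?_
    rw [mul_assoc]
    apply mul_le_mul_of_nonneg_left _ (by linarith)
    rw [hKr]
    nlinarith
  -- sizes
  have hKp : (b : ℤ) ^ K = (b : ℤ) ^ (2 * (L + 1) + 1) * (b : ℤ) ^ e0 := by rw [hK, pow_add]
  have he0b : (e0 : ℤ) < (b : ℤ) ^ e0 := by exact_mod_cast Nat.lt_pow_self (by omega : 1 < b)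
  have hQ0 : (0 : ℤ) < (b : ℤ) ^ (2 * (L + 1) + 1) := by positivity
  have he0z : (e0 : ℤ) = B + |κ| := by rw [he0]; push_cast; ring
  have hXM : 2 * b ^ K ≤ b ^ (K + 1) := by
    rw [pow_succ, mul_comm 2]
    exact Nat.mul_le_mul_left _ hb
  have hPne : P.Nonempty := by
    rw [← card_pos, hP, card_PalS hb h1 hx he]
    positivity
  have hbig : ∀ h ∈ S, 1 / (K : ℝ) ^ (A + 1) ≤ |shf (fun n => ArithmeticFunction.vonMangoldt n - lamz z n) (b ^ K) (b ^ (K + 1)) P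
      (fun _ => 1 / (b : ℝ) ^ L) (fun n : ℕ => κ * (n : ℤ)) h| := by
    intro h hh
    obtain ⟨hpos, hadm, hdev⟩ := hSP h hh
    have hhB := mem_Icc.1 (hS hh)
    have hval := shf_val (fun n => ArithmeticFunction.vonMangoldt n - lamz z n) (b ^ K) (b ^ (K + 1)) hXM P
      (fun _ => 1 / (b : ℝ) ^ L) (fun n : ℕ => κ * (n : ℤ)) h (by
        intro n hn
        rw [hP] at hn
        have h3 := (mem_PalS_lt hn).2
        have h4 : |κ * (n : ℤ)| ≤ |κ| * (b : ℤ) ^ (2 * (L + 1) + 1) := by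
          rw [abs_mul, Nat.abs_cast]
          apply mul_le_mul_of_nonneg_left _ (abs_nonneg _)
          exact_mod_cast h3.le
        have h5 : |h| ≤ B * (b : ℤ) ^ (2 * (L + 1) + 1) := abs_le.2 hhB
        push_cast
        rw [hKp]
        calc |h + κ * (n : ℤ)| ≤ |h| + |κ * (n : ℤ)| := abs_add_le _ _
          _ ≤ B * (b : ℤ) ^ (2 * (L + 1) + 1) + |κ| * (b : ℤ) ^ (2 * (L + 1) + 1) := add_le_add h5 h4
          _ = (b : ℤ) ^ (2 * (L + 1) + 1) * e0 := by rw [he0z]; ring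
          _ < _ := mul_lt_mul_of_pos_left he0b hQ0)
    have h6 := hsv L x e (by omega) h1 hx he z hz4 hz5 h (by rw [← hP]; exact hPne) (by rw [← hP]; exact hpos) (by rw [← hP]; exact hadm)
    rw [← hP] at h6
    have h7 : ∑ n ∈ P, 1 / (b : ℝ) ^ L * (if 1 ≤ h + κ * (n : ℤ) then
        (ArithmeticFunction.vonMangoldt (h + κ * n).toNat - lamz z (h + κ * n).toNat) else 0) =
        1 / (b : ℝ) ^ L * (∑ n ∈ P, ArithmeticFunction.vonMangoldt (h + κ * n).toNat - ∑ n ∈ P, lamz z (h + κ * n).toNat) := by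
      rw [← sum_sub_distrib, mul_sum]
      apply sum_congr rfl
      intro n hn
      rw [if_pos (hpos n hn)]
    rw [hval]
    have h8 : ∑ ω ∈ P, (fun _ : ℕ => 1 / (b : ℝ) ^ L) ω * (if 1 ≤ h + (fun n : ℕ => κ * (n : ℤ)) ω then
        (fun n => ArithmeticFunction.vonMangoldt n - lamz z n) (h + (fun n : ℕ => κ * (n : ℤ)) ω).toNat else 0) =
        1 / (b : ℝ) ^ L * (∑ n ∈ P, ArithmeticFunction.vonMangoldt (h + κ * n).toNat - ∑ n ∈ P, lamz z (h + κ * n).toNat) := h7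
    rw [h8]
    obtain ⟨W1, hW1⟩ : ∃ W1, W1 = ∑ n ∈ P, ArithmeticFunction.vonMangoldt (h + κ * n).toNat := ⟨_, rfl⟩
    obtain ⟨W2, hW2⟩ : ∃ W2, W2 = ∑ n ∈ P, lamz z (h + κ * n).toNat := ⟨_, rfl⟩
    obtain ⟨T, hT⟩ : ∃ T, T = (b : ℝ) ^ L * cst b κ := ⟨_, rfl⟩
    rw [← hW1, ← hT] at hdev
    rw [← hW2, ← hT] at h6
    rw [← hW1, ← hW2]
    have hbL : (0 : ℝ) < (b : ℝ) ^ L := by positivity
    have hTb : (b : ℝ) ^ L ≤ T := by
      rw [hT]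
      exact le_mul_of_one_le_right hbL.le (one_le_cst b κ)
    have h9 : ε / 2 * T < |W1 - W2| := by
      have h10 : |W1 - T| ≤ |W1 - W2| + |W2 - T| := by
        have := abs_add_le (W1 - W2) (W2 - T)
        rwa [show W1 - W2 + (W2 - T) = W1 - T by ring] at this
      linarith
    rw [abs_mul, abs_of_pos (by positivity : 0 < 1 / (b : ℝ) ^ L)]
    have h11 : 1 / (K : ℝ) ^ (A + 1) ≤ ε / 2 := by
      have hK1 : (1 : ℝ) ≤ K := by linarith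
      have h12 : (K : ℝ) ≤ (K : ℝ) ^ (A + 1) := by
        have := pow_le_pow_right₀ hK1 (show 1 ≤ A + 1 by omega)
        rwa [pow_one] at this
      have h13 : 2 / ε ≤ (K : ℝ) ^ (A + 1) := by linarith
      rw [div_le_iff₀ (by positivity)]
      rw [div_le_iff₀ hε] at h13
      nlinarith
    refine h11.trans ?_
    rw [one_div, ← div_eq_inv_mul, le_div_iff₀ hbL]
    have : ε / 2 * (b : ℝ) ^ L ≤ ε / 2 * T := mul_le_mul_of_nonneg_left hTb (by positivity)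
    linarith
  have hH : 2 * (B * (b : ℤ) ^ (2 * (L + 1) + 1)) < (b : ℤ) ^ (K + 1) := by
    rw [pow_succ (b : ℤ) K, hKp]
    have hb2 : (2 : ℤ) ≤ b := by exact_mod_cast hb
    have hBe : (B : ℤ) ≤ e0 := by rw [he0z]; linarith [abs_nonneg κ]
    have h3 : (2 : ℤ) * B < b * (b : ℤ) ^ e0 := by nlinarith
    calc 2 * (B * (b : ℤ) ^ (2 * (L + 1) + 1)) = (b : ℤ) ^ (2 * (L + 1) + 1) * (2 * B) := by ring
      _ < (b : ℤ) ^ (2 * (L + 1) + 1) * (b * (b : ℤ) ^ e0) := mul_lt_mul_of_pos_left h3 hQ0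
      _ = _ := by ring
  have hfin := hK₀ K (by omega) z (by rw [← hℓ]; exact hz1) (by rw [← hℓ]; exact hz2) ℕ P (fun _ => 1 / (b : ℝ) ^ L)
    (fun n : ℕ => κ * (n : ℤ)) hlaw _ hH S hS hbig
  refine hfin.trans ?_
  push_cast
  have hK1 : (0 : ℝ) < K := by linarith
  have hL10 : (0 : ℝ) < (L : ℝ) + 1 := by positivity
  rw [div_le_div_iff₀ (by positivity) (by positivity)]
  have e1 : (b : ℝ) ^ K = (b : ℝ) ^ (2 * (L + 1)) * (b : ℝ) ^ (1 + e0) := by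
    rw [hK, ← pow_add]; congr 1; ring
  have e2 : (b : ℝ) ^ (1 + e0) ≤ K := by linarith
  have e3 : ((L : ℝ) + 1) ^ A ≤ (K : ℝ) ^ A := pow_le_pow_left₀ hL10.le (by linarith) A
  rw [e1, mul_assoc]
  apply mul_le_mul_of_nonneg_left _ (by positivity)
  calc (b : ℝ) ^ (1 + e0) * ((L : ℝ) + 1) ^ A ≤ K * (K : ℝ) ^ A := mul_le_mul e2 e3 (by positivity) hK1.le
    _ = _ := by ring

end Pool.Agent.X26.AN
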