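import Pool.Agent.X26.AN.ShE

/-!
# Primes in almost all shifts of the palindromes: counting primes
-/

set_option autoImplicit false

namespace Pool.Agent.X26.AN

open Finset Filter
open Pool.Agent.W93.DG (logX)
open Pool.Agent.X37.PL (PalS)

lemma three_parts {S S1 S2 S3 : Finset ℤ} (h : S ⊆ S1 ∪ S2 ∪ S3) {y c1 c2 c3 : ℝ} (h1 : (S1.card : ℝ) ≤ c1)
    (h2 : (S2.card : ℝ) ≤ c2) (h3 : (S3.card : ℝ) ≤ c3) (hy : c1 + c2 + c3 ≤ y) : (S.card : ℝ) ≤ y := by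
  have e1 : S.card ≤ S1.card + S2.card + S3.card :=
    (card_le_card h).trans ((card_union_le _ _).trans (Nat.add_le_add_right (card_union_le _ _) _))
  have e2 : (S.card : ℝ) ≤ S1.card + S2.card + S3.card := by exact_mod_cast e1
  linarith

/-- from the weighted sum to the number of primes -/
lemma count_num {C W Wn T Nr lb K ε ℓ : ℝ} (hε : 0 < ε) (hε8 : ε ≤ 1 / 8) (hN : 0 < Nr) (hlb : 0 < lb) (hT : 0 ≤ T)
    (h1 : |W - T| ≤ ε * T) (h2 : 0 ≤ Wn) (h3 : Wn ≤ ε * T) (h4 : C * (2 * Nr * lb - ℓ) ≤ W - Wn)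
    (h5 : W - Wn ≤ C * (K * lb)) (h6 : ℓ ≤ ε * (2 * Nr * lb)) (h7 : K ≤ (1 + ε) * (2 * Nr)) (hC : 0 ≤ C) :
    |C - T / (2 * Nr * lb)| ≤ 4 * ε * (T / (2 * Nr * lb)) := by
  have hD : 0 < 2 * Nr * lb := by positivity
  obtain ⟨D, hDd⟩ : ∃ D, D = 2 * Nr * lb := ⟨_, rfl⟩
  rw [← hDd] at h4 h6 hD ⊢
  obtain ⟨g1, g2⟩ := abs_le.1 h1
  have a1 : C * ((1 - ε) * D) ≤ (1 + ε) * T := by
    have : C * ((1 - ε) * D) ≤ C * (D - ℓ) := mul_le_mul_of_nonneg_left (by linarith) hC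
    linarith
  have a2 : (1 - 2 * ε) * T ≤ C * ((1 + ε) * D) := by
    have e1 : K * lb ≤ (1 + ε) * D := by
      rw [hDd]
      nlinarith
    have : C * (K * lb) ≤ C * ((1 + ε) * D) := mul_le_mul_of_nonneg_left e1 hC
    linarith
  obtain ⟨m, hm⟩ : ∃ m, m = T / D := ⟨_, rfl⟩
  have hm0 : 0 ≤ m := by rw [hm]; positivity
  have hTm : T = m * D := by rw [hm]; field_simp
  rw [← hm]
  rw [hTm] at a1 a2
  have a3 : C * (1 - ε) ≤ (1 + ε) * m := by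
    have : (C * (1 - ε)) * D ≤ ((1 + ε) * m) * D := by linarith
    exact le_of_mul_le_mul_right this hD
  have a4 : (1 - 2 * ε) * m ≤ C * (1 + ε) := by
    have : ((1 - 2 * ε) * m) * D ≤ (C * (1 + ε)) * D := by linarith
    exact le_of_mul_le_mul_right this hD
  rw [abs_le]
  constructor
  · -- C ≥ (1 - 4 ε) m
    have e1 : (1 - 4 * ε) * m * (1 + ε) ≤ C * (1 + ε) := by
      refine le_trans ?_ a4
      nlinarith [mul_nonneg hm0 hε.le, mul_nonneg hm0 (sq_nonneg ε)]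
    have := le_of_mul_le_mul_right e1 (by linarith : 0 < 1 + ε)
    linarith
  · have e1 : C * (1 - ε) ≤ (1 + 4 * ε) * m * (1 - ε) := by
      refine a3.trans ?_
      nlinarith [mul_nonneg hm0 hε.le, mul_nonneg (mul_nonneg hm0 hε.le) (by linarith : (0 : ℝ) ≤ 1 - 2 * ε)]
    have := le_of_mul_le_mul_right e1 (by linarith : 0 < 1 - ε)
    linarith

/-- shifts with small values -/
lemma small_shifts (P : Finset ℕ) (hP : P.Nonempty) (κ : ℤ) (Y : ℕ) (S : Finset ℤ) (hS : ∀ h ∈ S, ∀ n ∈ P, 1 ≤ h + κ * (n : ℤ)) :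
    (S.filter (fun h => ∃ n ∈ P, h + κ * (n : ℤ) ≤ Y)).card ≤ Y := by
  obtain ⟨n0, hn0, hmin⟩ := exists_min_image P (fun n : ℕ => κ * (n : ℤ)) hP
  have h1 : S.filter (fun h => ∃ n ∈ P, h + κ * (n : ℤ) ≤ Y) ⊆ Icc (1 - κ * (n0 : ℤ)) (Y - κ * (n0 : ℤ)) := by
    intro h hh
    rw [mem_filter] at hh
    obtain ⟨h2, n, hn, h3⟩ := hh
    have h4 := hmin n hn
    have h5 := hS h h2 n0 hn0
    rw [mem_Icc]
    constructor <;> linarith
  refine (card_le_card h1).trans ?_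
  rw [Int.card_Icc]
  omega

/-- shifts with many prime powers -/
lemma power_shifts (P : Finset ℕ) (κ : ℤ) (X : ℕ) (hX : 1 ≤ X) (S : Finset ℤ) (δ : ℝ)
    (hS : ∀ h ∈ S, ∀ n ∈ P, 1 ≤ h + κ * (n : ℤ) ∧ h + κ * (n : ℤ) ≤ X)
    (hδ : ∀ h ∈ S, δ ≤ ∑ n ∈ P.filter (fun n : ℕ => ¬ (h + κ * (n : ℤ)).toNat.Prime), ArithmeticFunction.vonMangoldt (h + κ * (n : ℤ)).toNat) :
    (S.card : ℝ) * δ ≤ P.card * (2 * √(X : ℝ) * Real.log X) := by
  have h0 : ∑ m ∈ Ioc 0 X with ¬ m.Prime, ArithmeticFunction.vonMangoldt m ≤ 2 * √(X : ℝ) * Real.log X := by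
    have h1 := Chebyshev.psi_sub_theta_le (x := (X : ℝ)) (by exact_mod_cast hX)
    rw [Chebyshev.psi_sub_theta_eq_sum_not_prime, Nat.floor_natCast] at h1
    exact h1
  have h1 : (S.card : ℝ) * δ ≤ ∑ h ∈ S, ∑ n ∈ P, (if ¬ (h + κ * (n : ℤ)).toNat.Prime then
      ArithmeticFunction.vonMangoldt (h + κ * (n : ℤ)).toNat else 0) := by
    rw [← nsmul_eq_mul, ← sum_const]
    apply sum_le_sum
    intro h hh
    refine (hδ h hh).trans (le_of_eq ?_)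
    rw [sum_filter]
  refine h1.trans ?_
  rw [sum_comm, ← nsmul_eq_mul, ← sum_const]
  apply sum_le_sum
  intro n hn
  refine le_trans ?_ h0
  rw [← sum_filter]
  have h2 : ∑ h ∈ S.filter (fun h : ℤ => ¬ (h + κ * (n : ℤ)).toNat.Prime), ArithmeticFunction.vonMangoldt (h + κ * (n : ℤ)).toNat =
      ∑ m ∈ (S.filter (fun h : ℤ => ¬ (h + κ * (n : ℤ)).toNat.Prime)).image (fun h : ℤ => (h + κ * (n : ℤ)).toNat),
        ArithmeticFunction.vonMangoldt m := by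
    rw [sum_image]
    intro a ha a' ha' haa
    have e1 := (hS a (mem_filter.1 ha).1 n hn).1
    have e2 := (hS a' (mem_filter.1 ha').1 n hn).1
    have haa' : (a + κ * (n : ℤ)).toNat = (a' + κ * (n : ℤ)).toNat := haa
    omega
  rw [h2]
  apply sum_le_sum_of_subset_of_nonneg
  · intro m hm
    rw [mem_image] at hm
    obtain ⟨h, hh, rfl⟩ := hm
    rw [mem_filter] at hh
    have e1 := hS h hh.1 n hn
    rw [mem_filter, mem_Ioc]
    exact ⟨by omega, hh.2⟩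
  · intro m _ _
    exact ArithmeticFunction.vonMangoldt_nonneg

lemma log_small (c : ℝ) (hc : 0 < c) : ∃ N0 : ℕ, ∀ N : ℕ, N0 ≤ N → Real.log N ≤ c * N := by
  have h1 := tendsto_natCast_atTop_atTop.eventually (Real.isLittleO_log_id_atTop.def hc)
  obtain ⟨N0, hN0⟩ := eventually_atTop.1 h1
  refine ⟨N0, fun N hN => ?_⟩
  have h2 := hN0 N hN
  simp only [id, Real.norm_eq_abs, Nat.abs_cast] at h2
  exact (le_abs_self _).trans h2

/-- **almost all shifts of the palindromes contain the expected number of primes** -/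
theorem shift_count {b : ℕ} (hb : 2 ≤ b) (κ : ℤ) (hκ : κ ≠ 0) (A B : ℕ) (ε : ℝ) (hε : 0 < ε) :
    ∃ N0 : ℕ, ∀ L x e : ℕ, N0 ≤ L → b ^ (2 * (L + 1)) ≤ x → x < b ^ (2 * (L + 1) + 1) → e < b → ∀ S : Finset ℤ,
    S ⊆ Icc (-(B * (b : ℤ) ^ (2 * (L + 1) + 1))) (B * (b : ℤ) ^ (2 * (L + 1) + 1)) →
    (∀ h ∈ S, (∀ n ∈ PalS b (L + 1) L x e, 1 ≤ h + κ * n) ∧
      (∀ p : ℕ, p.Prime → p ∣ 2 * b * κ.natAbs → ∀ n ∈ PalS b (L + 1) L x e, ¬ (p : ℤ) ∣ h + κ * n) ∧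
      ε * ((b : ℝ) ^ L * cst b κ / (2 * ((L + 1 : ℕ) : ℝ) * Real.log b)) <
        |(((PalS b (L + 1) L x e).filter (fun n : ℕ => (h + κ * (n : ℤ)).toNat.Prime)).card : ℝ) -
          (b : ℝ) ^ L * cst b κ / (2 * ((L + 1 : ℕ) : ℝ) * Real.log b)|) →
    (S.card : ℝ) ≤ (b : ℝ) ^ (2 * (L + 1)) / ((L + 1 : ℕ) : ℝ) ^ A := by
  classical
  have hbr : (2 : ℝ) ≤ b := by exact_mod_cast hb
  have hlb : 0 < Real.log b := Real.log_pos (by linarith)
  obtain ⟨ε1, hε1⟩ : ∃ ε1, ε1 = min ε 1 / 8 := ⟨_, rfl⟩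
  have hm1 : min ε 1 ≤ ε := min_le_left _ _
  have hm2 : min ε 1 ≤ 1 := min_le_right _ _
  have hm3 : 0 < min ε 1 := lt_min hε one_pos
  have hε10 : 0 < ε1 := by rw [hε1]; positivity
  have hε18 : ε1 ≤ 1 / 8 := by rw [hε1]; linarith
  have hε1e : 4 * ε1 ≤ ε := by rw [hε1]; linarith
  obtain ⟨e0, he0⟩ : ∃ e0, e0 = B + κ.natAbs := ⟨_, rfl⟩
  obtain ⟨n1, hn1⟩ := shift_sum hb κ hκ (A + 1) B ε1 hε10
  obtain ⟨n2, hn2⟩ := log_small (ε1 * (2 * Real.log b) / (A + 1)) (by positivity)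
  obtain ⟨n3, hn3⟩ := exists_nat_ge ((1 + e0 : ℝ) / (2 * ε1))
  obtain ⟨CC, hCC⟩ : ∃ CC : ℝ, CC = 2 * (b : ℝ) ^ (1 + e0) * b * (5 + e0) * 2 ^ (A + 1) / ε1 := ⟨_, rfl⟩
  have hCC0 : 0 ≤ CC := by rw [hCC]; positivity
  obtain ⟨n4, hn4⟩ := poly_exp b hb 1 one_pos (max CC 1) (by positivity) (A + 2)
  refine ⟨n1 + n2 + n3 + n4 + 3, ?_⟩
  intro L x e hL h1 hx he S hS hSP
  obtain ⟨P, hP⟩ : ∃ P, P = PalS b (L + 1) L x e := ⟨_, rfl⟩
  obtain ⟨N, hN⟩ : ∃ N, N = L + 1 := ⟨_, rfl⟩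
  have hPc : P.card = b ^ L := by rw [hP]; exact card_PalS hb h1 hx he
  have hPne : P.Nonempty := by
    rw [← card_pos, hPc]
    positivity
  have hPlt : ∀ n ∈ P, n < b ^ (2 * N + 1) := fun n hn => by
    rw [hP] at hn
    rw [hN]
    exact (mem_PalS_lt hn).2
  have hsum := hn1 L x e (by omega) h1 hx he
  rw [← hP] at hSP hsum
  rw [← hN] at hS hSP hsum ⊢
  obtain ⟨T, hT⟩ : ∃ T, T = (b : ℝ) ^ L * cst b κ := ⟨_, rfl⟩
  rw [← hT] at hSP hsum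
  have hbL : (0 : ℝ) < (b : ℝ) ^ L := by positivity
  have hTb : (b : ℝ) ^ L ≤ T := by
    rw [hT]
    exact le_mul_of_one_le_right hbL.le (one_le_cst b κ)
  have hT0 : 0 < T := lt_of_lt_of_le hbL hTb
  obtain ⟨K, hK⟩ : ∃ K, K = 2 * N + 1 + e0 := ⟨_, rfl⟩
  have hNr : (0 : ℝ) < N := by
    have : 0 < N := by omega
    exact_mod_cast this
  obtain ⟨Yr, hYr⟩ : ∃ Yr : ℝ, Yr = (b : ℝ) ^ (2 * N) / (N : ℝ) ^ (A + 1) := ⟨_, rfl⟩
  have hYr0 : 0 < Yr := by rw [hYr]; positivity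
  -- the values are small
  have hval : ∀ h ∈ S, ∀ n ∈ P, 1 ≤ h + κ * (n : ℤ) ∧ h + κ * (n : ℤ) ≤ ((b ^ K : ℕ) : ℤ) := by
    intro h hh n hn
    refine ⟨(hSP h hh).1 n hn, ?_⟩
    have g1 := (mem_Icc.1 (hS hh)).2
    have g2 : κ * (n : ℤ) ≤ |κ| * (b : ℤ) ^ (2 * N + 1) := by
      have g3 : ((n : ℕ) : ℤ) ≤ (b : ℤ) ^ (2 * N + 1) := by exact_mod_cast (hPlt n hn).le
      calc κ * (n : ℤ) ≤ |κ| * (n : ℤ) := mul_le_mul_of_nonneg_right (le_abs_self _) (Int.natCast_nonneg _)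
        _ ≤ _ := mul_le_mul_of_nonneg_left g3 (abs_nonneg _)
    have he0b : (e0 : ℤ) < (b : ℤ) ^ e0 := by exact_mod_cast Nat.lt_pow_self (by omega : 1 < b)
    have hQ0 : (0 : ℤ) < (b : ℤ) ^ (2 * N + 1) := by positivity
    have he0z : (e0 : ℤ) = B + |κ| := by rw [he0]; push_cast; ring
    push_cast
    rw [hK, pow_add (b : ℤ) (2 * N + 1) e0]
    calc h + κ * (n : ℤ) ≤ B * (b : ℤ) ^ (2 * N + 1) + |κ| * (b : ℤ) ^ (2 * N + 1) := add_le_add g1 g2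
      _ = (b : ℤ) ^ (2 * N + 1) * e0 := by rw [he0z]; ring
      _ ≤ _ := mul_le_mul_of_nonneg_left he0b.le hQ0.le
  obtain ⟨S1, hS1⟩ : ∃ S1 : Finset ℤ, S1 = S.filter (fun h => ε1 * T < |∑ n ∈ P, ArithmeticFunction.vonMangoldt (h + κ * n).toNat - T|) :=
    ⟨_, rfl⟩
  obtain ⟨S2, hS2⟩ : ∃ S2 : Finset ℤ, S2 = S.filter (fun h => ∃ n ∈ P, h + κ * (n : ℤ) ≤ (⌊Yr⌋₊ : ℕ)) := ⟨_, rfl⟩
  obtain ⟨S3, hS3⟩ : ∃ S3 : Finset ℤ, S3 = S.filter (fun h => ε1 * (b : ℝ) ^ L ≤ ∑ n ∈ P.filter (fun n : ℕ => ¬ (h + κ * (n : ℤ)).toNat.Prime),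
    ArithmeticFunction.vonMangoldt (h + κ * (n : ℤ)).toNat) := ⟨_, rfl⟩
  have hc1 : (S1.card : ℝ) ≤ Yr := by
    rw [hYr, hS1]
    apply hsum
    · exact (filter_subset _ _).trans hS
    · intro h hh
      rw [mem_filter] at hh
      exact ⟨(hSP h hh.1).1, (hSP h hh.1).2.1, hh.2⟩
  have hc2 : (S2.card : ℝ) ≤ Yr := by
    have g1 := small_shifts P hPne κ ⌊Yr⌋₊ S (fun h hh n hn => (hval h hh n hn).1)
    rw [← hS2] at g1
    exact (Nat.cast_le.2 g1).trans (Nat.floor_le hYr0.le)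
  have hKN : (K : ℝ) = 2 * N + 1 + e0 := by rw [hK]; push_cast; ring
  have hL3 : (3 : ℝ) ≤ L := by exact_mod_cast (by omega : 3 ≤ L)
  have hNL : (N : ℝ) = L + 1 := by rw [hN]; push_cast; ring
  have he00 : (0 : ℝ) ≤ e0 := Nat.cast_nonneg _
  have hc3 : (S3.card : ℝ) ≤ Yr := by
    have g1 := power_shifts P κ (b ^ K) (Nat.one_le_pow _ _ (by omega)) S3 (ε1 * (b : ℝ) ^ L)
      (fun h hh n hn => hval h (by rw [hS3, mem_filter] at hh; exact hh.1) n hn)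
      (fun h hh => by rw [hS3, mem_filter] at hh; exact hh.2)
    rw [hPc] at g1
    push_cast at g1
    have g2 : √((b : ℝ) ^ K) ≤ (b : ℝ) ^ (N + (1 + e0)) := by
      apply Real.sqrt_le_iff.2
      refine ⟨by positivity, ?_⟩
      rw [← pow_mul]
      apply pow_le_pow_right₀ (by linarith)
      rw [hK]
      omega
    have g3 : Real.log ((b : ℝ) ^ K) ≤ b * K := by
      have := (logX b K hb).2
      push_cast at this
      exact this
    have g4 : (S3.card : ℝ) * ε1 ≤ 2 * ((b : ℝ) ^ (N + (1 + e0)) * (b * K)) := by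
      have g5 : (S3.card : ℝ) * ε1 * (b : ℝ) ^ L ≤ (2 * ((b : ℝ) ^ (N + (1 + e0)) * (b * K))) * (b : ℝ) ^ L := by
        have g6 : √((b : ℝ) ^ K) * Real.log ((b : ℝ) ^ K) ≤ (b : ℝ) ^ (N + (1 + e0)) * (b * K) :=
          mul_le_mul g2 g3 (Real.log_nonneg (one_le_pow₀ (by linarith))) (by positivity)
        calc (S3.card : ℝ) * ε1 * (b : ℝ) ^ L = S3.card * (ε1 * (b : ℝ) ^ L) := by ring
          _ ≤ (b : ℝ) ^ L * (2 * √((b : ℝ) ^ K) * Real.log ((b : ℝ) ^ K)) := g1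
          _ = (2 * (√((b : ℝ) ^ K) * Real.log ((b : ℝ) ^ K))) * (b : ℝ) ^ L := by ring
          _ ≤ _ := by gcongr
      exact le_of_mul_le_mul_right g5 hbL
    -- compare
    have g7 := hn4 L (by omega)
    rw [one_mul, Real.rpow_natCast] at g7
    have g8 : CC * (L : ℝ) ^ (A + 2) ≤ (b : ℝ) ^ N := by
      have g9 : CC * (L : ℝ) ^ (A + 2) ≤ (max CC 1 * L) ^ (A + 2) := by
        rw [mul_pow]
        apply mul_le_mul_of_nonneg_right _ (by positivity)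
        calc CC ≤ max CC 1 := le_max_left _ _
          _ = (max CC 1) ^ 1 := by rw [pow_one]
          _ ≤ (max CC 1) ^ (A + 2) := pow_le_pow_right₀ (le_max_right _ _) (by omega)
      refine g9.trans (g7.trans ?_)
      exact pow_le_pow_right₀ (by linarith) (by omega)
    have g10 : (K : ℝ) ≤ (5 + e0) * L := by rw [hKN, hNL]; nlinarith
    have g11 : (N : ℝ) ≤ 2 * L := by rw [hNL]; linarith
    have g12 : 2 * ((b : ℝ) ^ (1 + e0) * (b * K)) / ε1 * (N : ℝ) ^ (A + 1) ≤ (b : ℝ) ^ N := by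
      refine le_trans ?_ g8
      have g13 : (N : ℝ) ^ (A + 1) ≤ (2 * L) ^ (A + 1) := pow_le_pow_left₀ hNr.le g11 _
      calc 2 * ((b : ℝ) ^ (1 + e0) * (b * K)) / ε1 * (N : ℝ) ^ (A + 1) ≤
          2 * ((b : ℝ) ^ (1 + e0) * (b * ((5 + e0) * L))) / ε1 * (2 * L) ^ (A + 1) := by gcongr
        _ = _ := by rw [hCC]; ring
    rw [hYr, le_div_iff₀ (by positivity)]
    have g14 : (S3.card : ℝ) ≤ 2 * ((b : ℝ) ^ (N + (1 + e0)) * (b * K)) / ε1 := by
      rw [le_div_iff₀ hε10]; exact g4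
    calc (S3.card : ℝ) * (N : ℝ) ^ (A + 1) ≤ 2 * ((b : ℝ) ^ (N + (1 + e0)) * (b * K)) / ε1 * (N : ℝ) ^ (A + 1) :=
          mul_le_mul_of_nonneg_right g14 (by positivity)
      _ = (b : ℝ) ^ N * (2 * ((b : ℝ) ^ (1 + e0) * (b * K)) / ε1 * (N : ℝ) ^ (A + 1)) := by rw [pow_add]; ring
      _ ≤ (b : ℝ) ^ N * (b : ℝ) ^ N := mul_le_mul_of_nonneg_left g12 (by positivity)
      _ = _ := by rw [← pow_add]; congr 1; ring
  apply three_parts (S1 := S1) (S2 := S2) (S3 := S3) ?_ hc1 hc2 hc3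
  · rw [hYr]
    have hN3 : (3 : ℝ) ≤ N := by linarith
    have g1 : 3 * ((b : ℝ) ^ (2 * N) / (N : ℝ) ^ (A + 1)) ≤ N * ((b : ℝ) ^ (2 * N) / (N : ℝ) ^ (A + 1)) :=
      mul_le_mul_of_nonneg_right hN3 (by positivity)
    have g2 : N * ((b : ℝ) ^ (2 * N) / (N : ℝ) ^ (A + 1)) = (b : ℝ) ^ (2 * N) / (N : ℝ) ^ A := by
      rw [mul_div_assoc', div_eq_div_iff (by positivity) (by positivity)]
      ring
    linarith
  · intro h hh
    by_contra hnot
    rw [mem_union, mem_union] at hnot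
    push Not at hnot
    obtain ⟨⟨k1, k2⟩, k3⟩ := hnot
    rw [hS1, mem_filter] at k1
    rw [hS2, mem_filter] at k2
    rw [hS3, mem_filter] at k3
    push Not at k1 k2 k3
    have k1 := k1 hh
    have k2 := k2 hh
    have k3 := k3 hh
    have hdev := (hSP h hh).2.2
    obtain ⟨Wn, hWn⟩ : ∃ Wn, Wn = ∑ n ∈ P.filter (fun n : ℕ => ¬ (h + κ * (n : ℤ)).toNat.Prime),
      ArithmeticFunction.vonMangoldt (h + κ * (n : ℤ)).toNat := ⟨_, rfl⟩
    obtain ⟨W, hW⟩ : ∃ W, W = ∑ n ∈ P, ArithmeticFunction.vonMangoldt (h + κ * n).toNat := ⟨_, rfl⟩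
    rw [← hWn] at k3
    rw [← hW] at k1
    have hsplit : W - Wn = ∑ n ∈ P.filter (fun n : ℕ => (h + κ * (n : ℤ)).toNat.Prime), ArithmeticFunction.vonMangoldt (h + κ * (n : ℤ)).toNat := by
      rw [hW, hWn, ← sum_filter_add_sum_filter_not P (fun n : ℕ => (h + κ * (n : ℤ)).toNat.Prime)]
      ring
    have hWn0 : 0 ≤ Wn := by
      rw [hWn]
      exact sum_nonneg fun _ _ => ArithmeticFunction.vonMangoldt_nonneg
    have hbnd : ∀ n ∈ P.filter (fun n : ℕ => (h + κ * (n : ℤ)).toNat.Prime),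
        2 * N * Real.log b - (A + 1) * Real.log N ≤ ArithmeticFunction.vonMangoldt (h + κ * (n : ℤ)).toNat ∧
        ArithmeticFunction.vonMangoldt (h + κ * (n : ℤ)).toNat ≤ K * Real.log b := by
      intro n hn
      rw [mem_filter] at hn
      obtain ⟨hnP, hpr⟩ := hn
      rw [ArithmeticFunction.vonMangoldt_apply_prime hpr]
      obtain ⟨q, hq⟩ : ∃ q, q = (h + κ * (n : ℤ)).toNat := ⟨_, rfl⟩
      have hv := hval h hh n hnP
      have hk := k2 n hnP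
      rw [← hq] at hpr ⊢
      have hqz : (q : ℤ) = h + κ * (n : ℤ) := by rw [hq]; exact Int.toNat_of_nonneg (by omega)
      rw [← hqz] at hv hk
      have hq0 : (0 : ℝ) < q := by exact_mod_cast hpr.pos
      constructor
      · have e1 : Yr ≤ q := by
          have e2 : ⌊Yr⌋₊ + 1 ≤ q := by exact_mod_cast hk
          have e3 : ((⌊Yr⌋₊ : ℕ) : ℝ) + 1 ≤ q := by exact_mod_cast e2
          linarith [(Nat.lt_floor_add_one Yr).le]
        have e4 := Real.log_le_log hYr0 e1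
        rw [hYr, Real.log_div (by positivity) (by positivity), Real.log_pow, Real.log_pow] at e4
        push_cast at e4
        exact e4
      · have e1 : (q : ℝ) ≤ (b : ℝ) ^ K := by
          have : q ≤ b ^ K := by exact_mod_cast hv.2
          exact_mod_cast this
        have e4 := Real.log_le_log hq0 e1
        rwa [Real.log_pow] at e4
    obtain ⟨C, hC⟩ : ∃ C : ℝ, C = ((P.filter (fun n : ℕ => (h + κ * (n : ℤ)).toNat.Prime)).card : ℝ) := ⟨_, rfl⟩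
    have c4 : C * (2 * N * Real.log b - (A + 1) * Real.log N) ≤ W - Wn := by
      rw [hsplit, hC, ← nsmul_eq_mul, ← sum_const]
      exact sum_le_sum fun n hn => (hbnd n hn).1
    have c5 : W - Wn ≤ C * (K * Real.log b) := by
      rw [hsplit, hC, ← nsmul_eq_mul, ← sum_const]
      exact sum_le_sum fun n hn => (hbnd n hn).2
    have c6 : (A + 1) * Real.log N ≤ ε1 * (2 * N * Real.log b) := by
      have := hn2 N (by omega)
      have hA : (0 : ℝ) < (A : ℝ) + 1 := by positivity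
      calc ((A : ℝ) + 1) * Real.log N ≤ (A + 1) * (ε1 * (2 * Real.log b) / (A + 1) * N) := mul_le_mul_of_nonneg_left this hA.le
        _ = _ := by field_simp
    have c7 : (K : ℝ) ≤ (1 + ε1) * (2 * N) := by
      have g1 : (n3 : ℝ) ≤ N := by exact_mod_cast (by omega : n3 ≤ N)
      have g2 : (1 + e0 : ℝ) / (2 * ε1) ≤ N := hn3.trans g1
      rw [div_le_iff₀ (by positivity)] at g2
      rw [hKN]
      linarith
    have hfin := count_num hε10 hε18 hNr hlb hT0.le k1 hWn0 (k3.le.trans (mul_le_mul_of_nonneg_left hTb hε10.le)) c4 c5 c6 c7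
      (by rw [hC]; exact Nat.cast_nonneg _)
    rw [← hC] at hdev
    have hM0 : 0 ≤ T / (2 * N * Real.log b) := by positivity
    have := mul_le_mul_of_nonneg_right hε1e hM0
    linarith

end Pool.Agent.X26.AN
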