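import Pool.Agent.TH882.FL
import Pool.Agent.TH423.SH.FLIP
import Pool.Agent.Y843.HS.CorA
import Pool.Agent.X26.AN.Mod

/-!
# Sifted integers with a prescribed set of prime factors of a further form: upper bound
-/

set_option autoImplicit false

namespace Pool.Agent.X26.AN

open Finset
open Pool.Agent.Y843.HS (Pr VV Pr_mem Pr_prime)

/-- the elements `q` of `Q` with `n` in the class `ro q` modulo `q` -/
def hit (ro : ℕ → ℕ) (Q : Finset ℕ) (n : ℕ) : Finset ℕ := Q.filter (fun q => n % q = ro q)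

theorem mem_hit {ro : ℕ → ℕ} {Q : Finset ℕ} {n q : ℕ} : q ∈ hit ro Q n ↔ q ∈ Q ∧ n % q = ro q := by
  unfold hit
  rw [mem_filter]

theorem hit_sub {ro : ℕ → ℕ} {Q : Finset ℕ} {n : ℕ} : hit ro Q n ⊆ Q := filter_subset _ _

theorem cnt_cls (M X : ℕ) (T : Finset ℕ) (c : ℕ → ℕ) (hT : ∀ p ∈ T, p.Prime) (hc : ∀ p ∈ T, c p < p) :
    |(((Ioc M (M + X)).filter (fun n => ∀ p ∈ T, n % p = c p)).card : ℝ) - X / ∏ p ∈ T, (p : ℝ)| ≤ 1 := by
  obtain ⟨v, hv⟩ := Pool.Agent.TH423.SH.FLIP.crt_set 1 0 c T (fun p hp => ⟨hT p hp, fun h =>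
    (hT p hp).one_lt.ne' (Nat.dvd_one.1 h)⟩) hc
  have hpos : 0 < 1 * ∏ p ∈ T, p := by
    rw [one_mul]
    exact prod_pos fun p hp => (hT p hp).pos
  have h := Pool.Agent.TH423.SH.FLIP.cnt_Ioc M (M + X) (1 * ∏ p ∈ T, p) v (by omega) hpos
  have e : (Ioc M (M + X)).filter (fun n => n ≡ v [MOD 1 * ∏ p ∈ T, p]) =
      (Ioc M (M + X)).filter (fun n => ∀ p ∈ T, n % p = c p) := by
    apply filter_congr
    intro n _
    rw [← hv n]
    simp only [Nat.mod_one, true_and]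
  rw [e] at h
  push_cast at h
  rw [one_mul] at h
  convert h using 3
  ring

/-- the classes to be avoided: those of `Om` and, for the primes of `Q`, the class `ro` -/
def Om2 (Om : ℕ → Finset ℕ) (ro : ℕ → ℕ) (Q : Finset ℕ) (p : ℕ) : Finset ℕ :=
  if p ∈ Q then insert (ro p) (Om p) else Om p

theorem Pm_prod {Om : ℕ → Finset ℕ} {ro : ℕ → ℕ} {κ z0 z : ℕ} {Q U : Finset ℕ}
    (hQ : Q ⊆ Pr z0 z) (hU : U ⊆ Q) (hκ : κ < z0)
    (hOm : ∀ p : ℕ, p.Prime → (Om p).card ≤ κ) (hro : ∀ q ∈ Q, ro q ∉ Om q) (X : ℝ) :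
    X / (∏ q ∈ U, (q : ℝ)) * ∏ p ∈ Pr z0 z \ U, (1 - ((Om2 Om ro Q p).card : ℝ) / p) =
      X * VV Om z0 z * Pm (fun q => 1 / ((q : ℝ) - (Om q).card)) Q U := by
  classical
  have hpos : ∀ p ∈ Pr z0 z, (0 : ℝ) < p ∧ (0 : ℝ) < (p : ℝ) - (Om p).card := by
    intro p hp
    have h1 := Pr_prime hp
    have h2 : z0 < p := (Pr_mem.1 hp).1.1
    have h3 := hOm p h1
    have h4 : (Om p).card < p := by omega
    refine ⟨by exact_mod_cast h1.pos, ?_⟩
    rw [sub_pos]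
    exact_mod_cast h4
  have e1 : ∏ p ∈ Pr z0 z \ U, (1 - ((Om2 Om ro Q p).card : ℝ) / p) =
      (∏ p ∈ Q \ U, (1 - ((Om p).card + 1 : ℝ) / p)) * ∏ p ∈ Pr z0 z \ Q, (1 - ((Om p).card : ℝ) / p) := by
    have h1 : Pr z0 z \ U = (Q \ U) ∪ (Pr z0 z \ Q) := by
      ext x
      simp only [mem_sdiff, mem_union]
      constructor
      · rintro ⟨h1, h2⟩
        by_cases h3 : x ∈ Q
        · exact Or.inl ⟨h3, h2⟩
        · exact Or.inr ⟨h1, h3⟩
      · rintro (⟨h1, h2⟩ | ⟨h1, h2⟩)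
        · exact ⟨hQ h1, h2⟩
        · exact ⟨h1, fun h => h2 (hU h)⟩
    have h2 : Disjoint (Q \ U) (Pr z0 z \ Q) := by
      rw [disjoint_left]
      intro x hx hx'
      exact (mem_sdiff.1 hx').2 (mem_sdiff.1 hx).1
    rw [h1, prod_union h2]
    congr 1
    · apply prod_congr rfl
      intro p hp
      have hpQ := (mem_sdiff.1 hp).1
      unfold Om2
      rw [if_pos hpQ, card_insert_of_notMem (hro p hpQ)]
      push_cast
      rfl
    · apply prod_congr rfl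
      intro p hp
      unfold Om2
      rw [if_neg (mem_sdiff.1 hp).2]
  have e2 : VV Om z0 z = (∏ p ∈ Pr z0 z \ Q, (1 - ((Om p).card : ℝ) / p)) *
      ((∏ p ∈ Q \ U, (1 - ((Om p).card : ℝ) / p)) * ∏ p ∈ U, (1 - ((Om p).card : ℝ) / p)) := by
    unfold VV
    rw [prod_sdiff hU, prod_sdiff hQ]
  have e3 : ∏ p ∈ Q \ U, (1 - ((Om p).card + 1 : ℝ) / p) =
      (∏ p ∈ Q \ U, (1 - ((Om p).card : ℝ) / p)) * ∏ p ∈ Q \ U, (1 - 1 / ((p : ℝ) - (Om p).card)) := by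
    rw [← prod_mul_distrib]
    apply prod_congr rfl
    intro p hp
    obtain ⟨h1, h2⟩ := hpos p (hQ (mem_sdiff.1 hp).1)
    field_simp
    ring
  have e4 : (∏ p ∈ U, (1 - ((Om p).card : ℝ) / p)) * ∏ q ∈ U, 1 / ((q : ℝ) - (Om q).card) =
      1 / ∏ q ∈ U, (q : ℝ) := by
    rw [← prod_mul_distrib, one_div, ← prod_inv_distrib]
    apply prod_congr rfl
    intro p hp
    obtain ⟨h1, h2⟩ := hpos p (hQ (hU hp))
    field_simp
  rw [e1, e2, e3]
  unfold Pm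
  have e5 : X / (∏ q ∈ U, (q : ℝ)) = X * (1 / ∏ q ∈ U, (q : ℝ)) := by ring
  rw [e5, ← e4]
  ring

/-- `n` avoids the classes `Om p`, for the primes `a < p ≤ b` -/
def Av (Om : ℕ → Finset ℕ) (a b n : ℕ) : Prop := ∀ p ∈ Pr a b, n % p ∉ Om p

/-- the error term of the sieve -/
noncomputable def Er (C0 J : ℕ) : ℝ := ((J : ℝ) + 2) * (((2 ^ 2 ^ J : ℕ) : ℝ) ^ (C0 * C0)) ^ 2

open Classical in
theorem NU_le (κ : ℕ) : ∃ C0 : ℕ, κ < C0 ∧ ∀ (J z0 : ℕ), C0 ≤ z0 → ∀ (Om : ℕ → Finset ℕ) (ro : ℕ → ℕ)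
    (Q : Finset ℕ), (∀ p : ℕ, p.Prime → (Om p).card ≤ κ ∧ ∀ c ∈ Om p, c < p) → Q ⊆ Pr z0 (2 ^ 2 ^ J) →
    (∀ q ∈ Q, ro q < q ∧ ro q ∉ Om q) → ∀ M X : ℕ, ∀ U ⊆ Q,
    (((Ioc M (M + X)).filter (fun n => Av Om z0 (2 ^ 2 ^ J) n ∧ hit ro Q n = U)).card : ℝ) ≤
      2 * (X * VV Om z0 (2 ^ 2 ^ J) * Pm (fun q => 1 / ((q : ℝ) - (Om q).card)) Q U) + Er C0 J := by
  classical
  obtain ⟨C1, hC1, h⟩ := Pool.Agent.TH882.FL.fl1 (κ + 1)
  refine ⟨max C1 (κ + 1), by omega, ?_⟩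
  intro J z0 hz0 Om ro Q hOm hQ hro M X U hU
  obtain ⟨C0, hC0⟩ : ∃ C0 : ℕ, C0 = max C1 (κ + 1) := ⟨_, rfl⟩
  rw [← hC0] at hz0 ⊢
  have hC10 : C1 ≤ C0 := by omega
  have hκ0 : κ < z0 := by omega
  have hUp : ∀ q ∈ U, q.Prime := fun q hq => Pr_prime (hQ (hU hq))
  obtain ⟨S, hS⟩ : ∃ S : Finset ℕ, S = (Ioc M (M + X)).filter (fun n => ∀ q ∈ U, n % q = ro q) := ⟨_, rfl⟩
  obtain ⟨P, hP⟩ : ∃ P : Finset ℕ, P = Pr z0 (2 ^ 2 ^ J) \ U := ⟨_, rfl⟩
  have hd : (0 : ℝ) < ∏ q ∈ U, (q : ℝ) := prod_pos fun q hq => by exact_mod_cast (hUp q hq).pos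
  have hA : (0 : ℝ) ≤ X / ∏ q ∈ U, (q : ℝ) := by positivity
  have h1 := h C0 J z0 P (Om2 Om ro Q) hC10 (hC10.trans hz0) (by
    intro p hp
    rw [hP] at hp
    have h2 := (mem_sdiff.1 hp).1
    have h3 := Pr_mem.1 h2
    exact ⟨Pr_prime h2, h3.1.1, h3.1.2⟩) (by
    intro p hp
    rw [hP] at hp
    have h2 := Pr_prime (mem_sdiff.1 hp).1
    unfold Om2
    split_ifs with h3
    · exact (card_insert_le _ _).trans (by have := (hOm p h2).1; omega)
    · exact (hOm p h2).1.trans (by omega)) S (X / ∏ q ∈ U, (q : ℝ)) hA (by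
    intro T hT c hc
    have hTp : ∀ p ∈ T, p.Prime := fun p hp => by
      have := hT hp
      rw [hP] at this
      exact Pr_prime (mem_sdiff.1 this).1
    have hdisj : Disjoint U T := by
      rw [disjoint_left]
      intro x hx hx'
      have := hT hx'
      rw [hP] at this
      exact (mem_sdiff.1 this).2 hx
    have hcl : ∀ p ∈ T, c p < p := by
      intro p hp
      have h2 := hc p hp
      unfold Om2 at h2
      split_ifs at h2 with h3
      · rw [mem_insert] at h2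
        rcases h2 with h2 | h2
        · rw [h2]; exact (hro p h3).1
        · exact (hOm p (hTp p hp)).2 _ h2
      · exact (hOm p (hTp p hp)).2 _ h2
    have h4 := cnt_cls M X (U ∪ T) (fun p => if p ∈ U then ro p else c p) (by
      intro p hp
      rw [mem_union] at hp
      exact hp.elim (hUp p) (hTp p)) (by
      intro p hp
      rw [mem_union] at hp
      show (if p ∈ U then ro p else c p) < p
      split_ifs with h5
      · exact (hro p (hU h5)).1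
      · exact hcl p (hp.resolve_left h5))
    rw [prod_union hdisj] at h4
    have e : (Ioc M (M + X)).filter (fun n => ∀ p ∈ U ∪ T, n % p = if p ∈ U then ro p else c p) =
        S.filter (fun n => ∀ p ∈ T, n % p = c p) := by
      rw [hS, filter_filter]
      apply filter_congr
      intro n _
      constructor
      · intro h5
        refine ⟨fun q hq => ?_, fun q hq => ?_⟩
        · have := h5 q (mem_union_left _ hq)
          rwa [if_pos hq] at this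
        · have := h5 q (mem_union_right _ hq)
          rwa [if_neg (fun h => (disjoint_left.1 hdisj) h hq)] at this
      · rintro ⟨h5, h6⟩ q hq
        split_ifs with h7
        · exact h5 q h7
        · exact h6 q ((mem_union.1 hq).resolve_left h7)
    rw [e] at h4
    rw [div_div]
    exact h4)
  have h2 := (abs_le.1 h1).2
  have e1 : X / (∏ q ∈ U, (q : ℝ)) * ∏ p ∈ P, (1 - ((Om2 Om ro Q p).card : ℝ) / p) =
      X * VV Om z0 (2 ^ 2 ^ J) * Pm (fun q => 1 / ((q : ℝ) - (Om q).card)) Q U := by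
    rw [hP]
    exact Pm_prod hQ hU hκ0 (fun p hp => (hOm p hp).1) (fun q hq => (hro q hq).2) X
  rw [e1] at h2
  have hsub : (Ioc M (M + X)).filter (fun n => Av Om z0 (2 ^ 2 ^ J) n ∧ hit ro Q n = U) ⊆
      S.filter (fun n => ∀ p ∈ P, n % p ∉ Om2 Om ro Q p) := by
    intro n hn
    rw [mem_filter] at hn
    obtain ⟨hn1, hn2, hn3⟩ := hn
    rw [mem_filter, hS, mem_filter]
    refine ⟨⟨hn1, fun q hq => ?_⟩, fun p hp => ?_⟩
    · rw [← hn3] at hq
      exact (mem_hit.1 hq).2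
    · rw [hP, mem_sdiff] at hp
      unfold Om2
      split_ifs with h3
      · rw [mem_insert]
        rintro (h4 | h4)
        · exact hp.2 (by rw [← hn3, mem_hit]; exact ⟨h3, h4⟩)
        · exact hn2 p hp.1 h4
      · exact hn2 p hp.1
  have h3 : (((Ioc M (M + X)).filter (fun n => Av Om z0 (2 ^ 2 ^ J) n ∧ hit ro Q n = U)).card : ℝ) ≤
      ((S.filter (fun n => ∀ p ∈ P, n % p ∉ Om2 Om ro Q p)).card : ℝ) := Nat.cast_le.2 (card_le_card hsub)
  have hA0 : 0 ≤ (X : ℝ) * VV Om z0 (2 ^ 2 ^ J) * Pm (fun q => 1 / ((q : ℝ) - (Om q).card)) Q U := by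
    rw [← e1]
    apply mul_nonneg hA
    apply prod_nonneg
    intro p hp
    rw [hP] at hp
    have h5 := Pr_prime (mem_sdiff.1 hp).1
    have h6 : z0 < p := (Pr_mem.1 (mem_sdiff.1 hp).1).1.1
    have h7 : (Om2 Om ro Q p).card ≤ κ + 1 := by
      unfold Om2
      split_ifs with h3
      · exact (card_insert_le _ _).trans (by have := (hOm p h5).1; omega)
      · exact (hOm p h5).1.trans (by omega)
    have h8 : (Om2 Om ro Q p).card ≤ p := by omega
    rw [sub_nonneg, div_le_one (by exact_mod_cast h5.pos)]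
    exact_mod_cast h8
  have hb : (1 / 2 : ℝ) ^ C0 ≤ 1 := pow_le_one₀ (by norm_num) (by norm_num)
  have h9 := mul_le_mul_of_nonneg_right hb hA0
  have h10 : (((2 ^ 2 ^ J : ℕ) : ℝ) ^ (C1 * C0)) ^ 2 ≤ (((2 ^ 2 ^ J : ℕ) : ℝ) ^ (C0 * C0)) ^ 2 := by
    apply pow_le_pow_left₀ (by positivity)
    apply pow_le_pow_right₀ _ (Nat.mul_le_mul_right _ hC10)
    exact_mod_cast Nat.one_le_two_pow
  have h11 := mul_le_mul_of_nonneg_left h10 (show (0 : ℝ) ≤ (J : ℝ) + 2 by positivity)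
  unfold Er
  linarith

end Pool.Agent.X26.AN
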