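import Pool.Agent.X26.AN.Sv

/-!
# Sifted integers with a prescribed set of prime factors, several classes
-/

set_option autoImplicit false

namespace Pool.Agent.X26.AN

open Finset
open Pool.Agent.Y843.HS (Pr VV Pr_mem Pr_prime)

/-- the fundamental lemma with a constant error -/
theorem fl1R (κ : ℕ) : ∃ C0 : ℕ, 1 ≤ C0 ∧ ∀ (b J z0 : ℕ) (P : Finset ℕ) (Om : ℕ → Finset ℕ),
    C0 ≤ b → C0 ≤ z0 → (∀ p ∈ P, p.Prime ∧ z0 < p ∧ p ≤ 2 ^ 2 ^ J) →
    (∀ p ∈ P, (Om p).card ≤ κ) → ∀ (S : Finset ℕ) (A R : ℝ), 0 ≤ A → 0 ≤ R →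
    (∀ T ⊆ P, ∀ c : ℕ → ℕ, (∀ p ∈ T, c p ∈ Om p) →
      |((S.filter (fun n => ∀ p ∈ T, n % p = c p)).card : ℝ) - A / ∏ p ∈ T, (p : ℝ)| ≤ R) →
    |((S.filter (fun n => ∀ p ∈ P, n % p ∉ Om p)).card : ℝ) -
        A * ∏ p ∈ P, (1 - ((Om p).card : ℝ) / p)| ≤
      (1 / 2 : ℝ) ^ b * (A * ∏ p ∈ P, (1 - ((Om p).card : ℝ) / p)) +
        R * (((J : ℝ) + 2) * (((2 ^ 2 ^ J : ℕ) : ℝ) ^ (C0 * b)) ^ 2) := by
  obtain ⟨C0, hC0, h⟩ := Pool.Agent.TH882.FL.fla κ
  refine ⟨max C0 κ, le_max_of_le_left hC0, ?_⟩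
  intro b J z0 P Om hb hz hP hOm S A R hA hR hS
  have hpp : ∀ p ∈ P, p.Prime := fun p hp => (hP p hp).1
  have h1 := h b J z0 P (fun p => 1 / (p : ℝ)) Om ((le_max_left _ _).trans hb)
    ((le_max_left _ _).trans hz) hP hOm (by
      intro p hp
      have hp2 : (2 : ℝ) ≤ p := by exact_mod_cast (hpp p hp).two_le
      refine ⟨by positivity, ?_⟩
      apply one_div_le_one_div_of_le (by linarith)
      linarith) S (fun _ => 1) A (fun _ => R) (fun _ _ => zero_le_one) hA (fun _ => hR)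
    (by
      intro T hT _ c hc
      have := hS T hT c hc
      rw [sum_const, nsmul_eq_mul, mul_one]
      convert this using 3
      rw [div_eq_mul_inv, ← prod_inv_distrib]
      simp only [one_div])
  have e1 : ∏ p ∈ P, (1 - ((Om p).card : ℝ) * (1 / (p : ℝ))) = ∏ p ∈ P, (1 - ((Om p).card : ℝ) / p) := by
    apply prod_congr rfl
    intro p _
    rw [mul_one_div]
  rw [e1] at h1
  rw [sum_const, nsmul_eq_mul, mul_one] at h1
  refine h1.trans ?_
  apply add_le_add le_rfl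
  have e2 : R * (((J : ℝ) + 2) * (((2 ^ 2 ^ J : ℕ) : ℝ) ^ (max C0 κ * b)) ^ 2) =
      ((J : ℝ) + 2) * (R * (((2 ^ 2 ^ J : ℕ) : ℝ) ^ (max C0 κ * b)) ^ 2) := by ring
  rw [e2]
  apply mul_le_mul_of_nonneg_left _ (by positivity)
  set Y : ℕ := (2 ^ 2 ^ J) ^ (C0 * b) with hY
  have hterm : ∀ T ∈ P.powerset.filter (fun T : Finset ℕ => ∏ p ∈ T, p ≤ Y),
      ((κ : ℝ) ^ T.card * R) ≤ (Y : ℝ) * R := by
    intro T hT
    rw [mem_filter, mem_powerset] at hT
    apply mul_le_mul_of_nonneg_right _ hR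
    have h2 : κ ^ T.card ≤ ∏ p ∈ T, p := by
      rw [← prod_const]
      apply prod_le_prod'
      intro p hp
      have := (hP p (hT.1 hp)).2.1
      have h3 : κ ≤ z0 := (le_max_right _ _).trans hz
      omega
    exact_mod_cast h2.trans hT.2
  have hYY : (Y : ℝ) ≤ ((2 ^ 2 ^ J : ℕ) : ℝ) ^ (max C0 κ * b) := by
    rw [hY]
    push_cast
    apply pow_le_pow_right₀
    · exact one_le_pow₀ (by norm_num)
    · exact Nat.mul_le_mul_right _ (le_max_left _ _)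
  calc ∑ T ∈ P.powerset.filter (fun T : Finset ℕ => ∏ p ∈ T, p ≤ Y), (κ : ℝ) ^ T.card * R ≤
      ∑ _T ∈ P.powerset.filter (fun T : Finset ℕ => ∏ p ∈ T, p ≤ Y), (Y : ℝ) * R := sum_le_sum hterm
    _ = ((P.powerset.filter (fun T : Finset ℕ => ∏ p ∈ T, p ≤ Y)).card : ℝ) * (Y * R) := by
        rw [sum_const, nsmul_eq_mul]
    _ ≤ (Y : ℝ) * (Y * R) := by
        apply mul_le_mul_of_nonneg_right _ (by positivity)
        exact_mod_cast Pool.Agent.TH882.FL.card_le P hpp Y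
    _ = R * (Y : ℝ) ^ 2 := by ring
    _ ≤ _ := by
        apply mul_le_mul_of_nonneg_left _ hR
        exact pow_le_pow_left₀ (by positivity) hYY 2

/-- the elements `q` of `Q` with `n` in one of the classes `Ro q` modulo `q` -/
def hitG (Ro : ℕ → Finset ℕ) (Q : Finset ℕ) (n : ℕ) : Finset ℕ := Q.filter (fun q => n % q ∈ Ro q)

theorem mem_hitG {Ro : ℕ → Finset ℕ} {Q : Finset ℕ} {n q : ℕ} : q ∈ hitG Ro Q n ↔ q ∈ Q ∧ n % q ∈ Ro q := by
  unfold hitG
  rw [mem_filter]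

theorem hitG_sub {Ro : ℕ → Finset ℕ} {Q : Finset ℕ} {n : ℕ} : hitG Ro Q n ⊆ Q := filter_subset _ _

/-- counting with several classes -/
theorem cnt_set (M X : ℕ) (Ro : ℕ → Finset ℕ) : ∀ U : Finset ℕ, (∀ q ∈ U, q.Prime ∧ ∀ c ∈ Ro q, c < q) →
    ∀ (T : Finset ℕ) (c : ℕ → ℕ), Disjoint U T → (∀ p ∈ T, p.Prime ∧ c p < p) →
    |(((Ioc M (M + X)).filter (fun n => (∀ q ∈ U, n % q ∈ Ro q) ∧ ∀ p ∈ T, n % p = c p)).card : ℝ) -
      (X * ∏ q ∈ U, (((Ro q).card : ℝ) / q)) / ∏ p ∈ T, (p : ℝ)| ≤ ∏ q ∈ U, ((Ro q).card : ℝ) := by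
  classical
  intro U
  induction U using Finset.induction_on with
  | empty =>
    intro _ T c _ hT
    have h := cnt_cls M X T c (fun p hp => (hT p hp).1) (fun p hp => (hT p hp).2)
    simpa using h
  | insert a U ha ih =>
    intro hU T c hd hT
    have haT : a ∉ T := fun h => (disjoint_left.1 hd) (mem_insert_self _ _) h
    have hdU : Disjoint U (insert a T) := by
      rw [disjoint_insert_right]
      exact ⟨ha, Disjoint.mono_left (subset_insert _ _) hd⟩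
    have haP := hU a (mem_insert_self _ _)
    have e1 : (Ioc M (M + X)).filter (fun n => (∀ q ∈ insert a U, n % q ∈ Ro q) ∧ ∀ p ∈ T, n % p = c p) =
        (Ro a).biUnion (fun c0 => (Ioc M (M + X)).filter (fun n => (∀ q ∈ U, n % q ∈ Ro q) ∧
          ∀ p ∈ insert a T, n % p = (Function.update c a c0) p)) := by
      ext n
      rw [mem_filter, mem_biUnion]
      constructor
      · rintro ⟨h1, h2, h3⟩
        refine ⟨n % a, h2 a (mem_insert_self _ _), ?_⟩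
        rw [mem_filter]
        refine ⟨h1, fun q hq => h2 q (mem_insert_of_mem hq), fun p hp => ?_⟩
        rw [mem_insert] at hp
        rcases hp with rfl | hp
        · rw [Function.update_self]
        · have hpa : p ≠ a := fun h => haT (h ▸ hp)
          rw [Function.update_of_ne hpa]
          exact h3 p hp
      · rintro ⟨c0, hc0, h⟩
        rw [mem_filter] at h
        obtain ⟨h1, h2, h3⟩ := h
        refine ⟨h1, fun q hq => ?_, fun p hp => ?_⟩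
        · rw [mem_insert] at hq
          rcases hq with rfl | hq
          · have := h3 q (mem_insert_self _ _)
            rw [Function.update_self] at this
            rw [this]
            exact hc0
          · exact h2 q hq
        · have hpa : p ≠ a := fun h => haT (h ▸ hp)
          have := h3 p (mem_insert_of_mem hp)
          rwa [Function.update_of_ne hpa] at this
    have e2 : ((Ro a).biUnion (fun c0 => (Ioc M (M + X)).filter (fun n => (∀ q ∈ U, n % q ∈ Ro q) ∧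
          ∀ p ∈ insert a T, n % p = (Function.update c a c0) p))).card =
        ∑ c0 ∈ Ro a, ((Ioc M (M + X)).filter (fun n => (∀ q ∈ U, n % q ∈ Ro q) ∧
          ∀ p ∈ insert a T, n % p = (Function.update c a c0) p)).card := by
      apply card_biUnion
      intro c0 _ c1 _ hne
      rw [Function.onFun, disjoint_left]
      intro n h1 h2
      rw [mem_filter] at h1 h2
      have h3 := h1.2.2 a (mem_insert_self _ _)
      have h4 := h2.2.2 a (mem_insert_self _ _)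
      rw [Function.update_self] at h3 h4
      exact hne (h3.symm.trans h4)
    rw [e1, e2, Nat.cast_sum]
    have e3 : (X * ∏ q ∈ insert a U, (((Ro q).card : ℝ) / q)) / ∏ p ∈ T, (p : ℝ) =
        ∑ _c0 ∈ Ro a, (X * ∏ q ∈ U, (((Ro q).card : ℝ) / q)) / ∏ p ∈ insert a T, (p : ℝ) := by
      rw [sum_const, nsmul_eq_mul, prod_insert ha, prod_insert haT]
      have ha0 : (a : ℝ) ≠ 0 := by exact_mod_cast haP.1.ne_zero
      have hT0 : ∏ p ∈ T, (p : ℝ) ≠ 0 := prod_ne_zero_iff.2 fun p hp => by exact_mod_cast (hT p hp).1.ne_zero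
      field_simp
    rw [e3, ← sum_sub_distrib, prod_insert ha]
    refine (abs_sum_le_sum_abs _ _).trans ?_
    calc ∑ c0 ∈ Ro a, |(((Ioc M (M + X)).filter (fun n => (∀ q ∈ U, n % q ∈ Ro q) ∧
          ∀ p ∈ insert a T, n % p = (Function.update c a c0) p)).card : ℝ) -
          (X * ∏ q ∈ U, (((Ro q).card : ℝ) / q)) / ∏ p ∈ insert a T, (p : ℝ)|
        ≤ ∑ _c0 ∈ Ro a, ∏ q ∈ U, ((Ro q).card : ℝ) := by
          apply sum_le_sum
          intro c0 hc0
          apply ih (fun q hq => hU q (mem_insert_of_mem hq)) (insert a T) _ hdU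
          intro p hp
          rw [mem_insert] at hp
          rcases hp with rfl | hp
          · rw [Function.update_self]
            exact ⟨haP.1, haP.2 c0 hc0⟩
          · have hpa : p ≠ a := fun h => haT (h ▸ hp)
            rw [Function.update_of_ne hpa]
            exact hT p hp
      _ = _ := by rw [sum_const, nsmul_eq_mul]

/-- the classes to be avoided: those of `Om` and, for the primes of `Q`, the classes `Ro` -/
def Om3 (Om : ℕ → Finset ℕ) (Ro : ℕ → Finset ℕ) (Q : Finset ℕ) (p : ℕ) : Finset ℕ :=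
  if p ∈ Q then Ro p ∪ Om p else Om p

theorem Pm_prodG {Om Ro : ℕ → Finset ℕ} {κ z0 z : ℕ} {Q U : Finset ℕ}
    (hQ : Q ⊆ Pr z0 z) (hU : U ⊆ Q) (hκ : κ < z0)
    (hOm : ∀ p : ℕ, p.Prime → (Om p).card ≤ κ) (hRo : ∀ q ∈ Q, Disjoint (Ro q) (Om q)) (X : ℝ) :
    (X * ∏ q ∈ U, (((Ro q).card : ℝ) / q)) * ∏ p ∈ Pr z0 z \ U, (1 - ((Om3 Om Ro Q p).card : ℝ) / p) =
      X * VV Om z0 z * Pm (fun q => ((Ro q).card : ℝ) / ((q : ℝ) - (Om q).card)) Q U := by
  classical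
  have hpos : ∀ p ∈ Pr z0 z, (0 : ℝ) < p ∧ (0 : ℝ) < (p : ℝ) - (Om p).card := by
    intro p hp
    have h1 := Pr_prime hp
    have h2 : z0 < p := (Pr_mem.1 hp).1.1
    have h3 := hOm p h1
    have h4 : (Om p).card < p := by omega
    refine ⟨by exact_mod_cast h1.pos, ?_⟩
    rw [sub_pos]
    exact_mod_cast h4
  have e1 : ∏ p ∈ Pr z0 z \ U, (1 - ((Om3 Om Ro Q p).card : ℝ) / p) =
      (∏ p ∈ Q \ U, (1 - ((Ro p).card + (Om p).card : ℝ) / p)) * ∏ p ∈ Pr z0 z \ Q, (1 - ((Om p).card : ℝ) / p) := by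
    have h1 : Pr z0 z \ U = (Q \ U) ∪ (Pr z0 z \ Q) := by
      ext x
      simp only [mem_sdiff, mem_union]
      constructor
      · rintro ⟨h1, h2⟩
        by_cases h3 : x ∈ Q
        · exact Or.inl ⟨h3, h2⟩
        · exact Or.inr ⟨h1, h3⟩
      · rintro (⟨h1, h2⟩ | ⟨h1, h2⟩)
        · exact ⟨hQ h1, h2⟩
        · exact ⟨h1, fun h => h2 (hU h)⟩
    have h2 : Disjoint (Q \ U) (Pr z0 z \ Q) := by
      rw [disjoint_left]
      intro x hx hx'
      exact (mem_sdiff.1 hx').2 (mem_sdiff.1 hx).1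
    rw [h1, prod_union h2]
    congr 1
    · apply prod_congr rfl
      intro p hp
      have hpQ := (mem_sdiff.1 hp).1
      unfold Om3
      rw [if_pos hpQ, card_union_of_disjoint (hRo p hpQ)]
      push_cast
      rfl
    · apply prod_congr rfl
      intro p hp
      unfold Om3
      rw [if_neg (mem_sdiff.1 hp).2]
  have e2 : VV Om z0 z = (∏ p ∈ Pr z0 z \ Q, (1 - ((Om p).card : ℝ) / p)) *
      ((∏ p ∈ Q \ U, (1 - ((Om p).card : ℝ) / p)) * ∏ p ∈ U, (1 - ((Om p).card : ℝ) / p)) := by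
    unfold VV
    rw [prod_sdiff hU, prod_sdiff hQ]
  have e3 : ∏ p ∈ Q \ U, (1 - ((Ro p).card + (Om p).card : ℝ) / p) =
      (∏ p ∈ Q \ U, (1 - ((Om p).card : ℝ) / p)) *
        ∏ p ∈ Q \ U, (1 - ((Ro p).card : ℝ) / ((p : ℝ) - (Om p).card)) := by
    rw [← prod_mul_distrib]
    apply prod_congr rfl
    intro p hp
    obtain ⟨h1, h2⟩ := hpos p (hQ (mem_sdiff.1 hp).1)
    field_simp
    ring
  have e4 : (∏ p ∈ U, (1 - ((Om p).card : ℝ) / p)) * ∏ q ∈ U, ((Ro q).card : ℝ) / ((q : ℝ) - (Om q).card) =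
      ∏ q ∈ U, (((Ro q).card : ℝ) / q) := by
    rw [← prod_mul_distrib]
    apply prod_congr rfl
    intro p hp
    obtain ⟨h1, h2⟩ := hpos p (hQ (hU hp))
    field_simp
  rw [e1, e2, e3]
  unfold Pm
  rw [← e4]
  ring

open Classical in
theorem NU_leG (κ : ℕ) : ∃ C0 : ℕ, κ < C0 ∧ ∀ (J z0 : ℕ), C0 ≤ z0 → ∀ (Om Ro : ℕ → Finset ℕ)
    (Q : Finset ℕ), (∀ p : ℕ, p.Prime → (Om p).card ≤ κ ∧ ∀ c ∈ Om p, c < p) → Q ⊆ Pr z0 (2 ^ 2 ^ J) →
    (∀ q ∈ Q, (Ro q).card ≤ κ ∧ (∀ c ∈ Ro q, c < q) ∧ Disjoint (Ro q) (Om q)) → ∀ M X : ℕ, ∀ U ⊆ Q,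
    (((Ioc M (M + X)).filter (fun n => Av Om z0 (2 ^ 2 ^ J) n ∧ hitG Ro Q n = U)).card : ℝ) ≤
      2 * (X * VV Om z0 (2 ^ 2 ^ J) * Pm (fun q => ((Ro q).card : ℝ) / ((q : ℝ) - (Om q).card)) Q U) +
        (∏ q ∈ U, ((Ro q).card : ℝ)) * Er C0 J := by
  classical
  obtain ⟨C1, hC1, h⟩ := fl1R (κ + κ)
  refine ⟨max C1 (2 * κ + 1), by omega, ?_⟩
  intro J z0 hz0 Om Ro Q hOm hQ hRo M X U hU
  obtain ⟨C0, hC0⟩ : ∃ C0 : ℕ, C0 = max C1 (2 * κ + 1) := ⟨_, rfl⟩
  rw [← hC0] at hz0 ⊢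
  have hC10 : C1 ≤ C0 := by omega
  have hκ0 : κ < z0 := by omega
  have hUp : ∀ q ∈ U, q.Prime := fun q hq => Pr_prime (hQ (hU hq))
  obtain ⟨S, hS⟩ : ∃ S : Finset ℕ, S = (Ioc M (M + X)).filter (fun n => ∀ q ∈ U, n % q ∈ Ro q) := ⟨_, rfl⟩
  obtain ⟨P, hP⟩ : ∃ P : Finset ℕ, P = Pr z0 (2 ^ 2 ^ J) \ U := ⟨_, rfl⟩
  have hR0 : (0 : ℝ) ≤ ∏ q ∈ U, ((Ro q).card : ℝ) := prod_nonneg fun q _ => Nat.cast_nonneg _
  have hA : (0 : ℝ) ≤ X * ∏ q ∈ U, (((Ro q).card : ℝ) / q) :=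
    mul_nonneg (Nat.cast_nonneg _) (prod_nonneg fun q _ => by positivity)
  have hcard : ∀ p ∈ P, (Om3 Om Ro Q p).card ≤ κ + κ := by
    intro p hp
    rw [hP] at hp
    have h2 := Pr_prime (mem_sdiff.1 hp).1
    unfold Om3
    split_ifs with h3
    · exact (card_union_le _ _).trans (Nat.add_le_add (hRo p h3).1 (hOm p h2).1)
    · exact (hOm p h2).1.trans (by omega)
  have h1 := h C0 J z0 P (Om3 Om Ro Q) hC10 (hC10.trans hz0) (by
    intro p hp
    rw [hP] at hp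
    have h2 := (mem_sdiff.1 hp).1
    have h3 := Pr_mem.1 h2
    exact ⟨Pr_prime h2, h3.1.1, h3.1.2⟩) hcard S (X * ∏ q ∈ U, (((Ro q).card : ℝ) / q))
    (∏ q ∈ U, ((Ro q).card : ℝ)) hA hR0 (by
    intro T hT c hc
    have hTp : ∀ p ∈ T, p.Prime := fun p hp => by
      have := hT hp
      rw [hP] at this
      exact Pr_prime (mem_sdiff.1 this).1
    have hdisj : Disjoint U T := by
      rw [disjoint_left]
      intro x hx hx'
      have := hT hx'
      rw [hP] at this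
      exact (mem_sdiff.1 this).2 hx
    have hcl : ∀ p ∈ T, c p < p := by
      intro p hp
      have h2 := hc p hp
      unfold Om3 at h2
      split_ifs at h2 with h3
      · rw [mem_union] at h2
        rcases h2 with h2 | h2
        · exact (hRo p h3).2.1 _ h2
        · exact (hOm p (hTp p hp)).2 _ h2
      · exact (hOm p (hTp p hp)).2 _ h2
    have h4 := cnt_set M X Ro U (fun q hq => ⟨hUp q hq, (hRo q (hU hq)).2.1⟩) T c hdisj
      (fun p hp => ⟨hTp p hp, hcl p hp⟩)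
    rw [hS, filter_filter]
    exact h4)
  have h2 := (abs_le.1 h1).2
  have e1 : (X * ∏ q ∈ U, (((Ro q).card : ℝ) / q)) * ∏ p ∈ P, (1 - ((Om3 Om Ro Q p).card : ℝ) / p) =
      X * VV Om z0 (2 ^ 2 ^ J) * Pm (fun q => ((Ro q).card : ℝ) / ((q : ℝ) - (Om q).card)) Q U := by
    rw [hP]
    exact Pm_prodG hQ hU hκ0 (fun p hp => (hOm p hp).1) (fun q hq => (hRo q hq).2.2) X
  rw [e1] at h2
  have hsub : (Ioc M (M + X)).filter (fun n => Av Om z0 (2 ^ 2 ^ J) n ∧ hitG Ro Q n = U) ⊆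
      S.filter (fun n => ∀ p ∈ P, n % p ∉ Om3 Om Ro Q p) := by
    intro n hn
    rw [mem_filter] at hn
    obtain ⟨hn1, hn2, hn3⟩ := hn
    rw [mem_filter, hS, mem_filter]
    refine ⟨⟨hn1, fun q hq => ?_⟩, fun p hp => ?_⟩
    · rw [← hn3] at hq
      exact (mem_hitG.1 hq).2
    · rw [hP, mem_sdiff] at hp
      unfold Om3
      split_ifs with h3
      · rw [mem_union]
        rintro (h4 | h4)
        · exact hp.2 (by rw [← hn3, mem_hitG]; exact ⟨h3, h4⟩)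
        · exact hn2 p hp.1 h4
      · exact hn2 p hp.1
  have h3 : (((Ioc M (M + X)).filter (fun n => Av Om z0 (2 ^ 2 ^ J) n ∧ hitG Ro Q n = U)).card : ℝ) ≤
      ((S.filter (fun n => ∀ p ∈ P, n % p ∉ Om3 Om Ro Q p)).card : ℝ) := Nat.cast_le.2 (card_le_card hsub)
  have hA0 : 0 ≤ (X : ℝ) * VV Om z0 (2 ^ 2 ^ J) *
      Pm (fun q => ((Ro q).card : ℝ) / ((q : ℝ) - (Om q).card)) Q U := by
    rw [← e1]
    apply mul_nonneg hA
    apply prod_nonneg
    intro p hp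
    have h7 := hcard p hp
    rw [hP] at hp
    have h5 := Pr_prime (mem_sdiff.1 hp).1
    have h6 : z0 < p := (Pr_mem.1 (mem_sdiff.1 hp).1).1.1
    have h8 : (Om3 Om Ro Q p).card ≤ p := by omega
    rw [sub_nonneg, div_le_one (by exact_mod_cast h5.pos)]
    exact_mod_cast h8
  have hb : (1 / 2 : ℝ) ^ C0 ≤ 1 := pow_le_one₀ (by norm_num) (by norm_num)
  have h9 := mul_le_mul_of_nonneg_right hb hA0
  have h10 : (((2 ^ 2 ^ J : ℕ) : ℝ) ^ (C1 * C0)) ^ 2 ≤ (((2 ^ 2 ^ J : ℕ) : ℝ) ^ (C0 * C0)) ^ 2 := by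
    apply pow_le_pow_left₀ (by positivity)
    apply pow_le_pow_right₀ _ (Nat.mul_le_mul_right _ hC10)
    exact_mod_cast Nat.one_le_two_pow
  have h11 := mul_le_mul_of_nonneg_left h10 (show (0 : ℝ) ≤ (J : ℝ) + 2 by positivity)
  have h12 := mul_le_mul_of_nonneg_left h11 hR0
  unfold Er
  linarith

end Pool.Agent.X26.AN
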