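import Pool.Agent.X26.AN.PolyTK
import Pool.Agent.W123.RU.PolyV

/-!
# The prime factors of the values of polynomials at the points where other polynomials take prime values
-/

set_option autoImplicit false

namespace Pool.Agent.X26.AN

open Finset Filter Polynomial
open Pool.Agent.Y843.HS (Pr VV Pr_mem Pr_prime VV_split)
open Pool.Agent.X26.GP (Zf NF mem_Zf_mod Zf_lt small_values)
open Pool.Agent.H373R2.T7 (nuB pz mem_pz)
open Pool.Agent.W123.RP (Vq)
open Pool.Agent.W123.RU.Poly (Sys Q V_bounds)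

/-- `m` is a prime or has no prime factor `≤ w` -/
def PR (w : ℝ) (m : ℕ) : Prop := m.Prime ∨ ∀ q : ℕ, q.Prime → q ∣ m → w < q

theorem VV_eq_Vq {k : ℕ} (F : Fin k → ℤ[X]) (x : ℕ) : VV (Zf (∏ i, F i)) 0 x = Vq (Q F) x := by
  classical
  unfold VV Vq
  have h1 : Pr 0 x = pz x := by
    ext p
    rw [Pr_mem, mem_pz]
    constructor
    · rintro ⟨⟨_, h1⟩, h2⟩
      exact ⟨h1, h2⟩
    · rintro ⟨h1, h2⟩
      exact ⟨⟨h2.pos, h1⟩, h2⟩
  rw [h1]
  apply prod_congr rfl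
  intro p hp
  have hpp := (mem_pz.1 hp).2
  have h2 : (Zf (∏ i, F i) p).card = nuB (Q F) p := by
    unfold Zf nuB
    congr 1
    ext u
    rw [mem_filter, mem_filter]
    unfold Q
    rw [Polynomial.eval_prod, (Nat.prime_iff_prime_int.1 hpp).dvd_finsetProd_iff]
    simp
  rw [h2]

theorem zeros_card {G : ℤ[X]} (hG : G ≠ 0) (S : Finset ℕ) :
    (S.filter (fun n : ℕ => G.eval (n : ℤ) = 0)).card ≤ G.natDegree := by
  classical
  refine (card_le_card_of_injOn (t := G.roots.toFinset) (fun n : ℕ => (n : ℤ)) ?_ ?_).trans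
    ((Multiset.toFinset_card_le _).trans (Polynomial.card_roots' _))
  · intro n hn
    rw [mem_coe, mem_filter] at hn
    rw [mem_coe, Multiset.mem_toFinset, Polynomial.mem_roots hG]
    exact hn.2
  · intro n _ n' _ h
    exact Nat.cast_injective h

open Classical in
/-- **the prime factors of the values of a polynomial, where other polynomials take prime values** -/
theorem sysTK {k : ℕ} (F : Fin k → ℤ[X]) (hF : Sys F) (r B u A : ℕ) (hu : 1 ≤ u) {θ ε : ℝ} (hθ : 0 < θ)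
    (hε : 0 < ε) : ∃ K : ℝ, 0 < K ∧ ∃ x₀ : ℕ,
    ∀ x : ℕ, x₀ ≤ x → ∀ G : ℤ[X], G.natDegree ≤ r → G ≠ 0 →
    ∀ y X : ℕ, (x : ℝ) ^ θ ≤ X → y + X ≤ x ^ A → (∀ n ∈ Ioc y (y + X), (G.eval (n : ℤ)).natAbs ≤ x ^ B) →
    ∀ f : ℕ → ℝ, (∀ q, |f q| ≤ 1) → ∀ S : Finset ℕ, S ⊆ Ioc y (y + X) →
    (∀ n ∈ S, ∀ i, PR ((x : ℝ) ^ (1 / (u : ℝ))) ((F i).eval (n : ℤ)).natAbs) →
    ((S.filter (fun n : ℕ => K * √(Real.log (Real.log x)) <
      |om f (G.eval (n : ℤ)) - mnP f (∏ i, F i) G x|)).card : ℝ) ≤ ε * (X / Real.log x ^ k) := by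
  obtain ⟨D, hD⟩ : ∃ D : ℕ, D = ∑ i, (F i).natDegree := ⟨_, rfl⟩
  obtain ⟨v, Cv, hv, hCv, hV⟩ := V_bounds F hF
  obtain ⟨u', hu'⟩ : ∃ u' : ℕ, u' = max u (⌈2 / θ⌉₊ + 1) := ⟨_, rfl⟩
  have hu'u : u ≤ u' := by omega
  have hu'1 : 1 ≤ u' := by omega
  have hu'θ : 2 / θ ≤ u' := by
    refine (Nat.le_ceil _).trans ?_
    exact_mod_cast (by omega : ⌈2 / θ⌉₊ ≤ u')
  have hu'0 : (0 : ℝ) < u' := by exact_mod_cast hu'1
  obtain ⟨K, hK, x₁, hx₁⟩ := polyTK (max D r) B u' A hu'1 hθ (show (0 : ℝ) < ε / 2 / Cv by positivity)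
  have hne : ∏ i, F i ≠ 0 := prod_ne_zero_iff.2 fun i _ => (hF.irr i).ne_zero
  have hNF : NF (∏ i, F i) := by
    intro q hq
    obtain ⟨m, hm⟩ := hF.adm q hq
    refine ⟨m, fun h => ?_⟩
    rw [Polynomial.eval_prod, (Nat.prime_iff_prime_int.1 hq).dvd_finsetProd_iff] at h
    obtain ⟨i, _, hi⟩ := h
    exact hm i hi
  have hdeg : (∏ i, F i).natDegree ≤ max D r := by
    rw [Polynomial.natDegree_prod univ F (fun i _ => (prod_ne_zero_iff.1 hne) i (mem_univ i)), ← hD]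
    exact le_max_left _ _
  have hev : ∀ᶠ x : ℕ in atTop, (3 * D + r : ℝ) * Real.log x ^ k ≤ ε / 2 * (x : ℝ) ^ (θ / 2) := by
    have h1 := (isLittleO_log_rpow_rpow_atTop (k : ℝ) (show 0 < θ / 2 by positivity)).bound
      (show (0 : ℝ) < ε / 2 / (3 * D + r + 1) by positivity)
    filter_upwards [tendsto_natCast_atTop_atTop.eventually h1, eventually_ge_atTop 1] with x h2 h3
    have hl : 0 ≤ Real.log x := Real.log_natCast_nonneg x
    rw [Real.rpow_natCast, Real.norm_eq_abs, Real.norm_eq_abs, abs_of_nonneg (by positivity),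
      abs_of_nonneg (by positivity)] at h2
    have h4 : (0 : ℝ) < 3 * D + r + 1 := by positivity
    have h5 := mul_le_mul_of_nonneg_left h2 h4.le
    have e : (3 * D + r + 1 : ℝ) * (ε / 2 / (3 * D + r + 1) * (x : ℝ) ^ (θ / 2)) = ε / 2 * (x : ℝ) ^ (θ / 2) := by
      field_simp
    rw [e] at h5
    have h6 : 0 ≤ Real.log (x : ℝ) ^ k := by positivity
    linarith
  obtain ⟨x₂, hx₂⟩ := eventually_atTop.1 hev
  refine ⟨K, hK, max x₁ (max x₂ 3), ?_⟩
  intro x hx G hGr hG0 y X hX hyX hGB f hf S hS hSP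
  have hx1 : x₁ ≤ x := (le_max_left _ _).trans hx
  have hx2 := hx₂ x ((le_max_left _ _).trans ((le_max_right _ _).trans hx))
  have hx3 : 3 ≤ x := (le_max_right _ _).trans ((le_max_right _ _).trans hx)
  have hxr : (1 : ℝ) ≤ x := by exact_mod_cast (show 1 ≤ x by omega)
  have hx0 : (0 : ℝ) < x := by linarith
  have hlx : 0 < Real.log x := Real.log_pos (by exact_mod_cast (show 1 < x by omega))
  obtain ⟨M, hM⟩ : ∃ M : ℕ, M = ⌊(x : ℝ) ^ (1 / (u' : ℝ))⌋₊ := ⟨_, rfl⟩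
  have hMx : (M : ℝ) ≤ (x : ℝ) ^ (θ / 2) := by
    rw [hM]
    refine (Nat.floor_le (by positivity)).trans ?_
    apply Real.rpow_le_rpow_of_exponent_le hxr
    rw [div_le_iff₀ hu'0]
    rw [div_le_iff₀ hθ] at hu'θ
    linarith
  have hx12 : (1 : ℝ) ≤ (x : ℝ) ^ (θ / 2) := Real.one_le_rpow hxr (by positivity)
  obtain ⟨S₁, hS1⟩ : ∃ S₁ : Finset ℕ, S₁ = S.filter (fun n : ℕ => ∀ i, M < ((F i).eval (n : ℤ)).natAbs) := ⟨_, rfl⟩
  have hS1S : S₁ ⊆ S := by rw [hS1]; exact filter_subset _ _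
  have hmain := hx₁ x hx1 (∏ i, F i) G hdeg hNF (hGr.trans (le_max_right _ _)) hG0 y X hX hyX hGB f hf S₁
    (hS1S.trans hS) (by
    intro n hn q hq hqx hcon
    rw [hS1, mem_filter] at hn
    rw [Polynomial.eval_prod, (Nat.prime_iff_prime_int.1 hq).dvd_finsetProd_iff] at hcon
    obtain ⟨i, _, hi⟩ := hcon
    have h2 : q ∣ ((F i).eval (n : ℤ)).natAbs := Int.natCast_dvd.1 hi
    rcases hSP n hn.1 i with h | h
    · have h3 := (Nat.prime_dvd_prime_iff_eq hq h).1 h2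
      have h4 := hn.2 i
      rw [← h3, hM] at h4
      have h5 : q ≤ ⌊(x : ℝ) ^ (1 / (u' : ℝ))⌋₊ := Nat.le_floor hqx
      omega
    · have h3 := h q hq h2
      have h4 : (x : ℝ) ^ (1 / (u' : ℝ)) ≤ (x : ℝ) ^ (1 / (u : ℝ)) := by
        apply Real.rpow_le_rpow_of_exponent_le hxr
        apply one_div_le_one_div_of_le (by exact_mod_cast hu)
        exact_mod_cast hu'u
      linarith)
  have hsub : S.filter (fun n : ℕ => K * √(Real.log (Real.log x)) <
      |om f (G.eval (n : ℤ)) - mnP f (∏ i, F i) G x|) ⊆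
      (S₁.filter (fun n : ℕ => G.eval (n : ℤ) ≠ 0 ∧ K * √(Real.log (Real.log x)) <
        |om f (G.eval (n : ℤ)) - mnP f (∏ i, F i) G x|) ∪ S.filter (fun n : ℕ => G.eval (n : ℤ) = 0)) ∪
      (univ : Finset (Fin k)).biUnion (fun i => S.filter (fun n : ℕ => ((F i).eval (n : ℤ)).natAbs ≤ M)) := by
    intro n hn
    rw [mem_filter] at hn
    rw [mem_union, mem_union, mem_filter, mem_filter, mem_biUnion]
    by_cases h1 : ∀ i, M < ((F i).eval (n : ℤ)).natAbs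
    · left
      by_cases h2 : G.eval (n : ℤ) = 0
      · exact Or.inr ⟨hn.1, h2⟩
      · left
        refine ⟨?_, h2, hn.2⟩
        rw [hS1, mem_filter]
        exact ⟨hn.1, h1⟩
    · push Not at h1
      obtain ⟨i, hi⟩ := h1
      exact Or.inr ⟨i, mem_univ _, mem_filter.2 ⟨hn.1, hi⟩⟩
  have h1 := (card_le_card hsub).trans ((card_union_le _ _).trans
    (Nat.add_le_add (card_union_le _ _) card_biUnion_le))
  have h2 : ∑ i, (S.filter (fun n : ℕ => ((F i).eval (n : ℤ)).natAbs ≤ M)).card ≤ (2 * M + 1) * D := by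
    refine (sum_le_sum fun i _ => small_values (hF.deg i) S M).trans ?_
    rw [← mul_sum, hD]
  have h3 := (zeros_card hG0 S).trans hGr
  have h4 : ((S.filter (fun n : ℕ => K * √(Real.log (Real.log x)) <
      |om f (G.eval (n : ℤ)) - mnP f (∏ i, F i) G x|)).card : ℝ) ≤
      ((S₁.filter (fun n : ℕ => G.eval (n : ℤ) ≠ 0 ∧ K * √(Real.log (Real.log x)) <
        |om f (G.eval (n : ℤ)) - mnP f (∏ i, F i) G x|)).card : ℝ) + r + (2 * M + 1) * D := by
    exact_mod_cast h1.trans (Nat.add_le_add (Nat.add_le_add_left h3 _) h2)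
  refine h4.trans ?_
  have h5 : VV (Zf (∏ i, F i)) 0 x ≤ Cv / Real.log x ^ k := by
    rw [VV_eq_Vq]
    have := (hV x hx3).2
    rwa [Fintype.card_fin] at this
  have hX0 : (0 : ℝ) ≤ X := Nat.cast_nonneg _
  have hlk : 0 < Real.log x ^ k := by positivity
  have h6 : ε / 2 / Cv * (X * VV (Zf (∏ i, F i)) 0 x) ≤ ε / 2 * (X / Real.log x ^ k) := by
    calc ε / 2 / Cv * (X * VV (Zf (∏ i, F i)) 0 x) ≤ ε / 2 / Cv * (X * (Cv / Real.log x ^ k)) := by
          apply mul_le_mul_of_nonneg_left _ (by positivity)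
          exact mul_le_mul_of_nonneg_left h5 hX0
      _ = _ := by field_simp
  have h7 : (r : ℝ) + (2 * M + 1) * D ≤ ε / 2 * (X / Real.log x ^ k) := by
    have h8 : (r : ℝ) + (2 * M + 1) * D ≤ (3 * D + r) * (x : ℝ) ^ (θ / 2) := by
      have h9 : (2 * (M : ℝ) + 1) * D ≤ (3 * (x : ℝ) ^ (θ / 2)) * D :=
        mul_le_mul_of_nonneg_right (by linarith) (Nat.cast_nonneg _)
      have h10 : (r : ℝ) * 1 ≤ r * (x : ℝ) ^ (θ / 2) := mul_le_mul_of_nonneg_left hx12 (Nat.cast_nonneg _)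
      linarith
    refine h8.trans ?_
    rw [mul_div_assoc', le_div_iff₀ hlk]
    have h9 : (x : ℝ) ^ (θ / 2) * (x : ℝ) ^ (θ / 2) = (x : ℝ) ^ θ := by
      rw [← Real.rpow_add hx0]
      congr 1
      ring
    calc (3 * D + r) * (x : ℝ) ^ (θ / 2) * Real.log x ^ k = (3 * D + r) * Real.log x ^ k * (x : ℝ) ^ (θ / 2) := by ring
      _ ≤ ε / 2 * (x : ℝ) ^ (θ / 2) * (x : ℝ) ^ (θ / 2) := mul_le_mul_of_nonneg_right hx2 (by positivity)
      _ = ε / 2 * (x : ℝ) ^ θ := by rw [← h9]; ring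
      _ ≤ ε / 2 * X := mul_le_mul_of_nonneg_left hX (by positivity)
  linarith

end Pool.Agent.X26.AN
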